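import Pool.Agent.SB.CDef

/-!
# An edge can be added inside a face

JOB SB-CFace.  Prove all theorems of this file (remove the `sorry`s, keep the statements).

Plan.
* `pl_ad_face`: if `p = r` then `ad G p r = G` and `Pl.of_spanning`.  Otherwise take the word `l` of
  `f` (`exists_trk`, `GEul.lean`), `marks l = []`.  A vertex `p` with an edge of `f` occurs as an end of
  a side token of `l` (`Trk.mem`: a side of the edge is on `f`), so the closed walk passes through
  `p`; hence the word can be written with a mark `Sum.inl p` inserted (`trk_of_sides`, `path_append`).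
  The same for `r`: get a word `l1 ++ inl p :: (l2 ++ inl r :: l3)` or with `p`, `r` exchanged
  (`ad G p r = ad G r p`).  `IsPl.insert_trk` or `insert_dg` (`GFlip.lean`) gives `IsPl (addE a p r) b'`,
  and `Pl.of_spanning`.
* `exists_planeData'`: copy of `TwoConn.exists_data` and `exists_planeData` (`Helper1/PG/Data.lean`)
  which keeps the information: in the proof of `TwoConn.exists_data` the field `on` is
  `fun f u v => ∃ e, Jn a u v e ∧ Inc b f e`, so the last conjunct holds by `Iff.rfl` for that
  structure.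
-/

set_option autoImplicit false

noncomputable section

namespace Pool.Agent.SB

open Pool.Agent.Helper1.PG
open Pool.Agent.Helper36.BL (cp cnt cols cp_eval mem_cols IsMinor)

/-- the ends of the edges of a walk are visited -/
private theorem cf_visit {V E : Type} {a : E → V × V} : ∀ (l : List (Tok V E)) (x y : V),
    Path a x l y → ∀ s ∈ sides l, ∀ v, Inc a v s.1 →
    ∃ l1 l2, l = l1 ++ l2 ∧ Path a x l1 v ∧ Path a v l2 y
  | [], x, y, _, s, hs, v, _ => by simp [sides] at hs
  | (Sum.inl w :: l), x, y, h, s, hs, v, hv => by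
    obtain ⟨l1, l2, h1, h2, h3⟩ := cf_visit l x y h.2 s hs v hv
    exact ⟨Sum.inl w :: l1, l2, by rw [h1]; rfl, ⟨h.1, h2⟩, h3⟩
  | (Sum.inr (t, z) :: l), x, y, h, s, hs, v, hv => by
    have hs' : s ∈ t :: sides l := hs
    rcases List.mem_cons.1 hs' with rfl | hs'
    · have hvx : x = v ∨ z = v := by
        rcases h.1 with h2 | h2 <;> rcases hv with h3 | h3
        · exact Or.inl (h2.1.symm.trans h3)
        · exact Or.inr (h2.2.symm.trans h3)
        · exact Or.inr (h2.1.symm.trans h3)
        · exact Or.inl (h2.2.symm.trans h3)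
      rcases hvx with rfl | rfl
      · exact ⟨[], Sum.inr (s, z) :: l, rfl, rfl, h⟩
      · exact ⟨[Sum.inr (s, z)], l, rfl, ⟨h.1, rfl⟩, h.2⟩
    · obtain ⟨l1, l2, h1, h2, h3⟩ := cf_visit l z y h.2 s hs' v hv
      exact ⟨Sum.inr (t, z) :: l1, l2, by rw [h1]; rfl, ⟨h.1, h2⟩, h3⟩

/-- insertion of a mark in a closed word of the face -/
private theorem cf_mark {V F E : Type} {a : E → V × V} {b : E → F × F} {f : F} {x p : V}
    {l : List (Tok V E)} (h : Trk a b f x l) (hp : ∃ e, Inc a p e ∧ Inc b f e) :
    ∃ l1 l2, l = l1 ++ l2 ∧ Trk a b f x (l1 ++ Sum.inl p :: l2) := by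
  obtain ⟨e, he, hf⟩ := hp
  obtain ⟨s, hs, hse⟩ : ∃ s ∈ sides l, s.1 = e := by
    rcases hf with hf | hf
    · exact ⟨(e, false), (h.mem _).2 (by unfold sf; simpa using hf), rfl⟩
    · exact ⟨(e, true), (h.mem _).2 (by unfold sf; simpa using hf), rfl⟩
  subst hse
  obtain ⟨l1, l2, h1, h2, h3⟩ := cf_visit l x x h.path s hs p he
  refine ⟨l1, l2, h1, ?_⟩
  refine trk_of_sides h ?_ ?_
  · rw [h1, sides_append, sides_append]
    rfl
  · rw [path_append]
    exact ⟨p, h2, rfl, h3⟩

/-- a word with two marks -/
private theorem cf_two {V E : Type} {l : List (Tok V E)} {p r : V} (h : marks l = [p, r]) :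
    ∃ l1 l2 l3, l = l1 ++ Sum.inl p :: (l2 ++ Sum.inl r :: l3) := by
  obtain ⟨l1, l2, h1, _, h3⟩ := exists_split_mark l 0 p (by rw [h]; rfl)
  rw [h] at h3
  have h4 : marks l2 = [r] := h3
  obtain ⟨l3, l4, h5, _, _⟩ := exists_split_mark l2 0 r (by rw [h4]; rfl)
  exact ⟨l1, l3, l4, by rw [h1, h5]⟩

theorem pl_ad_face {V F E : Type} [Fintype V] [Fintype F] [Fintype E] {a : E → V × V}
    {b : E → F × F} (hp : IsPl a b) {G : SimpleGraph V} (hG : ∀ u v, G.Adj u v → Lk a u v) {f : F}
    {p r : V} (h1 : ∃ e, Inc a p e ∧ Inc b f e) (h2 : ∃ e, Inc a r e ∧ Inc b f e) :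
    Pl (ad G p r) := by
  have : Nonempty V := ⟨p⟩
  obtain ⟨x, l, hm, ht⟩ := exists_trk hp f
  obtain ⟨l1, l2, hl, ht1⟩ := cf_mark ht h1
  obtain ⟨l3, l4, hl', ht2⟩ := cf_mark ht1 h2
  have hmm : marks l3 ++ marks l4 = [p] := by
    rw [← marks_append, ← hl', marks_append]
    rw [hl, marks_append, List.append_eq_nil_iff] at hm
    show marks l1 ++ p :: marks l2 = [p]
    rw [hm.1, hm.2]
    rfl
  have hlk : ∀ u v, Lk a u v → Lk (addE a p r) u v ∧ Lk (addE a r p) u v := by
    rintro u v ⟨e, he⟩
    exact ⟨⟨some e, he⟩, ⟨some e, he⟩⟩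
  have hm2 : marks (l3 ++ Sum.inl r :: l4) = [p, r] ∨ marks (l3 ++ Sum.inl r :: l4) = [r, p] := by
    rw [marks_append]
    show marks l3 ++ r :: marks l4 = [p, r] ∨ marks l3 ++ r :: marks l4 = [r, p]
    rcases h3 : marks l3 with _ | ⟨y, m⟩
    · rw [h3] at hmm
      right
      have h4 : marks l4 = [p] := hmm
      rw [h4]
      rfl
    · rw [h3] at hmm
      left
      have h4 : y :: (m ++ marks l4) = [p] := hmm
      rw [List.cons.injEq, List.append_eq_nil_iff] at h4
      rw [h4.1, h4.2.1, h4.2.2]
      rfl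
  rcases hm2 with hm2 | hm2
  · obtain ⟨k1, k2, k3, hk⟩ := cf_two hm2
    rw [hk] at ht2
    obtain ⟨A1, A2, h5, _⟩ := hp.insert_trk ht2
    refine Pl.of_spanning h5 ?_
    rintro u v (huv | ⟨_, ⟨rfl, rfl⟩ | ⟨rfl, rfl⟩⟩)
    · exact (hlk u v (hG u v huv)).1
    · exact ⟨none, Or.inl ⟨rfl, rfl⟩⟩
    · exact ⟨none, Or.inr ⟨rfl, rfl⟩⟩
  · obtain ⟨k1, k2, k3, hk⟩ := cf_two hm2
    rw [hk] at ht2
    obtain ⟨A1, A2, h5, _⟩ := hp.insert_trk ht2
    refine Pl.of_spanning h5 ?_
    rintro u v (huv | ⟨_, ⟨rfl, rfl⟩ | ⟨rfl, rfl⟩⟩)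
    · exact (hlk u v (hG u v huv)).2
    · exact ⟨none, Or.inr ⟨rfl, rfl⟩⟩
    · exact ⟨none, Or.inl ⟨rfl, rfl⟩⟩

/-- The data for a 2-connected simple plane graph. -/
private theorem exists_data' {V F E : Type} [Fintype V] [Fintype F] [Fintype E] {a : E → V × V}
    {b : E → F × F} (h : TwoConn a b) (hs : Simp a) (hV : 3 ≤ Fintype.card V)
    {G : SimpleGraph V} (hG : ∀ u v, G.Adj u v ↔ u ≠ v ∧ Lk a u v) :
    ∃ D : PlaneData G F, ∀ f u v, D.on f u v ↔ ∃ e, Jn a u v e ∧ Inc b f e := by
  classical
  choose deg hdeg z w hz1 hz2 hw1 hw2 hzw using fun v => (h.rotat v).exists_rot (h.exists_inc hV v)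
  choose len hlen z' w' hz1' hz2' hw1' hw2' hzw' using
    fun f => (h.rotat_dual f).exists_rot (h.exists_inc_dual hV f)
  have hoth : ∀ v (i : ZMod (deg v)), ∃ x, x ≠ v ∧ Jn a v x (z v i) := by
    intro v i
    obtain ⟨x, hx, hx'⟩ := exists_other h.noloop ((hz2 v _).2 ⟨i, rfl⟩)
    exact ⟨x, hx, hx'⟩
  choose nb hnb1 hnb2 using hoth
  have hadj : ∀ u v e, Jn a u v e → G.Adj u v := by
    intro u v e he
    rw [hG]
    refine ⟨?_, ⟨e, he⟩⟩
    rintro rfl
    rcases he with h1 | h1
    · exact h.noloop e (h1.1.trans h1.2.symm)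
    · exact h.noloop e (h1.1.trans h1.2.symm)
  have hnz : ∀ f, NeZero (len f) := fun f => ⟨by have := hlen f; omega⟩
  have hdglen : ∀ f, dg b f = len f := fun f => by
    have := hnz f
    exact h.dg_eq_card (hz1' f) (hz2' f)
  have hnbz : ∀ v i e x, Jn a v x e → (x = nb v i ↔ e = z v i) := by
    intro v i e x hx
    constructor
    · rintro rfl
      exact hx.unique hs (hnb2 v i)
    · rintro rfl
      exact hx.eq_right h.noloop (hnb2 v i)
  have hedge : ∀ f (i : ZMod (len f)), Jn a (w' f i) (w' f (i + 1)) (z' f (i + 1)) := by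
    intro f i
    have h1 := (hzw' f i).2
    have h2 := (hzw' f (i + 1)).1
    apply Jn.of_inc h1 h2
    intro h3
    have h4 := hw1' f h3
    have h5 : (1 : ZMod (len f)) = 0 := by linear_combination -h4
    have h6 : (len f) = 1 := by
      have := (ZMod.natCast_eq_zero_iff 1 (len f)).1 (by simpa using h5)
      exact Nat.dvd_one.1 this
    have := hlen f
    omega
  refine ⟨{ on := fun f u v => ∃ e, Jn a u v e ∧ Inc b f e
            on_symm := fun f u v ⟨e, h1, h2⟩ => ⟨e, h1.symm, h2⟩
            on_adj := fun f u v ⟨e, h1, h2⟩ => hadj u v e h1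
            deg := deg
            two_le_deg := hdeg
            nb := nb
            nb_inj := ?_
            adj_iff := ?_
            fc := w
            fc_inj := hw1
            on_iff := ?_
            len := len
            three_le_len := fun f => by rw [← hdglen]; exact h.plane.three_le_dg hs hV f
            vx := w'
            vx_inj := hw1'
            on_vx := ?_
            euler := ?_
            jordan := ?_ }, fun _ _ _ => Iff.rfl⟩
  · -- nb_inj
    intro v i j hij
    have h1 : Jn a v (nb v i) (z v j) := by rw [hij]; exact hnb2 v j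
    exact hz1 v ((hnb2 v i).unique hs h1)
  · -- adj_iff
    intro v x
    constructor
    · intro hvx
      obtain ⟨_, e, he⟩ := (hG v x).1 hvx
      obtain ⟨i, hi⟩ := (hz2 v e).1 (Jn.inc he)
      exact ⟨i, ((hnbz v i e x he).2 hi.symm).symm⟩
    · rintro ⟨i, rfl⟩
      exact hadj _ _ _ (hnb2 v i)
  · -- on_iff
    intro v i f
    constructor
    · rintro ⟨e, h1, h2⟩
      have h3 : e = z v i := h1.unique hs (hnb2 v i)
      rw [h3] at h2
      have h4 := (hzw v i).1
      have h5 := (hzw v (i - 1)).2
      rw [sub_add_cancel] at h5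
      have hne : w v i ≠ w v (i - 1) := by
        intro h6
        have h7 := hw1 v h6
        have h8 : (1 : ZMod (deg v)) = 0 := by linear_combination h7
        have h9 := (ZMod.natCast_eq_zero_iff 1 (deg v)).1 (by simpa using h8)
        have := Nat.dvd_one.1 h9
        have := hdeg v
        omega
      -- three faces at one edge: two coincide
      rcases h2 with h2 | h2 <;> rcases h4 with h4 | h4 <;> rcases h5 with h5 | h5
      · left; exact h2.symm.trans h4
      · left; exact h2.symm.trans h4
      · right; exact h2.symm.trans h5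
      · exact absurd (h4.symm.trans h5) hne
      · exact absurd (h4.symm.trans h5) hne
      · right; exact h2.symm.trans h5
      · left; exact h2.symm.trans h4
      · left; exact h2.symm.trans h4
    · rintro (rfl | rfl)
      · exact ⟨z v i, hnb2 v i, (hzw v i).1⟩
      · refine ⟨z v i, hnb2 v i, ?_⟩
        have := (hzw v (i - 1)).2
        rwa [sub_add_cancel] at this
  · -- on_vx
    intro f u v
    constructor
    · rintro ⟨e, h1, h2⟩
      obtain ⟨i, hi⟩ := (hz2' f e).1 h2
      have h3 := hedge f (i - 1)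
      rw [sub_add_cancel, hi] at h3
      refine ⟨i - 1, ?_⟩
      rw [sub_add_cancel]
      rcases h1 with h1 | h1 <;> rcases h3 with h3 | h3
      · left; exact ⟨h1.1.symm.trans h3.1, h1.2.symm.trans h3.2⟩
      · right; exact ⟨h1.2.symm.trans h3.2, h1.1.symm.trans h3.1⟩
      · right; exact ⟨h1.1.symm.trans h3.1, h1.2.symm.trans h3.2⟩
      · left; exact ⟨h1.2.symm.trans h3.2, h1.1.symm.trans h3.1⟩
    · rintro ⟨i, ⟨rfl, rfl⟩ | ⟨rfl, rfl⟩⟩
      · exact ⟨_, hedge f i, (hz2' f _).2 ⟨_, rfl⟩⟩
      · exact ⟨_, (hedge f i).symm, (hz2' f _).2 ⟨_, rfl⟩⟩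
  · -- euler
    have h1 := h.plane.charge
    simp only [hdglen] at h1
    rw [h1]
    have h2 : Nat.card G.edgeSet = Fintype.card E := by
      rw [← Nat.card_eq_fintype_card]
      symm
      apply Nat.card_eq_of_bijective (fun e : E => (⟨s((a e).1, (a e).2), by
        rw [SimpleGraph.mem_edgeSet]
        exact hadj _ _ e (Or.inl ⟨rfl, rfl⟩)⟩ : G.edgeSet))
      constructor
      · intro e e' hee
        have h3 := congrArg Subtype.val hee
        simp only [Sym2.eq_iff] at h3
        apply hs.nopar
        exact h3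
      · rintro ⟨x, hx⟩
        induction x using Sym2.ind with
        | _ u v =>
          rw [SimpleGraph.mem_edgeSet] at hx
          obtain ⟨_, e, he⟩ := (hG u v).1 hx
          refine ⟨e, ?_⟩
          apply Subtype.ext
          show s((a e).1, (a e).2) = s(u, v)
          rw [Sym2.eq_iff]
          exact he
    rw [h2]
  · -- jordan
    intro Z hZs hZ0 hZe
    obtain ⟨s, hs'⟩ := h.plane.exists_side (Z := fun e => Z (a e).1 (a e).2) (by
      intro v
      rw [← hZe v]
      -- sum over the edges at `v` = sum over neighbours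
      have h1 : ∑ e, st a v e * Z (a e).1 (a e).2 =
          ∑ e ∈ Finset.univ.filter (Inc a v), Z (a e).1 (a e).2 := by
        rw [Finset.sum_filter]
        apply Finset.sum_congr rfl
        intro e _
        by_cases he : Inc a v e
        · rw [if_pos he, st_of_inc (h.noloop e) he, one_mul]
        · rw [if_neg he, st_of_not_inc he, zero_mul]
      have h2 : ∑ w, Z v w = ∑ w ∈ Finset.univ.filter (G.Adj v), Z v w := by
        rw [Finset.sum_filter]
        apply Finset.sum_congr rfl
        intro w _
        by_cases hw : G.Adj v w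
        · rw [if_pos hw]
        · rw [if_neg hw, hZ0 v w hw]
      rw [h1, h2]
      refine Finset.sum_bij (fun e _ => if (a e).1 = v then (a e).2 else (a e).1) ?_ ?_ ?_ ?_
      · intro e he
        have he' := (Finset.mem_filter.1 he).2
        apply Finset.mem_filter.2 ⟨Finset.mem_univ _, ?_⟩
        by_cases h3 : (a e).1 = v
        · rw [if_pos h3]
          exact hadj _ _ e (Or.inl ⟨h3, rfl⟩)
        · rw [if_neg h3]
          rcases he' with h4 | h4
          · exact absurd h4 h3
          · exact hadj _ _ e (Or.inr ⟨rfl, h4⟩)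
      · intro e he e' he' hee
        have g1 := (Finset.mem_filter.1 he).2
        have g2 := (Finset.mem_filter.1 he').2
        apply hs.nopar
        by_cases h3 : (a e).1 = v
        · rw [if_pos h3] at hee
          by_cases h4 : (a e').1 = v
          · rw [if_pos h4] at hee
            exact Or.inl ⟨h3.trans h4.symm, hee⟩
          · rw [if_neg h4] at hee
            rcases g2 with g2 | g2
            · exact absurd g2 h4
            · exact Or.inr ⟨h3.trans g2.symm, hee⟩
        · rw [if_neg h3] at hee
          rcases g1 with g1 | g1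
          · exact absurd g1 h3
          · by_cases h4 : (a e').1 = v
            · rw [if_pos h4] at hee
              exact Or.inr ⟨hee, g1.trans h4.symm⟩
            · rw [if_neg h4] at hee
              rcases g2 with g2 | g2
              · exact absurd g2 h4
              · exact Or.inl ⟨hee, g1.trans g2.symm⟩
      · intro w hw
        have hw' := (Finset.mem_filter.1 hw).2
        obtain ⟨hne, e, he⟩ := (hG v w).1 hw'
        refine ⟨e, Finset.mem_filter.2 ⟨Finset.mem_univ _, Jn.inc he⟩, ?_⟩
        rcases he with he | he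
        · rw [if_pos he.1]; exact he.2
        · rw [if_neg (by rw [he.1]; exact hne.symm)]; exact he.1
      · intro e he
        have g1 := (Finset.mem_filter.1 he).2
        by_cases h3 : (a e).1 = v
        · rw [if_pos h3, h3]
        · rw [if_neg h3]
          rcases g1 with g1 | g1
          · exact absurd g1 h3
          · rw [hZs, g1])
    refine ⟨s, ?_⟩
    rintro f g u v hfg ⟨e, he, hf⟩ ⟨e', he', hg⟩
    have h1 : e' = e := he'.unique hs he
    rw [h1] at hg
    have h2 := hs' e
    have h3 : Z (a e).1 (a e).2 = Z u v := by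
      rcases he with he | he
      · rw [he.1, he.2]
      · rw [he.1, he.2, hZs]
    rw [← h3]
    show s f + s g = Z (a e).1 (a e).2
    rw [h2]
    unfold cutZ
    rcases hf with hf | hf <;> rcases hg with hg | hg
    · exact absurd (hf.symm.trans hg) hfg
    · rw [hf, hg]
    · rw [hf, hg, add_comm]
    · exact absurd (hf.symm.trans hg) hfg

/-- Faces, rotations, Euler and Jordan for every 2-connected graph in the class. -/
theorem exists_planeData' {V : Type} [Fintype V] {G : SimpleGraph V} (hV : 3 ≤ Fintype.card V)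
    (h2 : TwoC G) (hP : Pl G) : ∃ (F E : Type) (_ : Fintype F) (_ : Fintype E) (a : E → V × V)
      (b : E → F × F) (D : PlaneData G F), IsPl a b ∧ Simp a ∧ (∀ u v, G.Adj u v → Lk a u v) ∧
      ∀ f u v, D.on f u v ↔ ∃ e, Jn a u v e ∧ Inc b f e := by
  classical
  have : Nonempty V := Fintype.card_pos_iff.1 (by omega)
  obtain ⟨F, E, i1, i2, a, b, hp, hG⟩ := hP.exists_spanning
  have hconn : ∀ u v, Relation.ReflTransGen (fun x y => G.Adj x y ∨ G.Adj y x) u v := by
    intro u v
    obtain ⟨w, hw⟩ : ∃ w, w ≠ u ∧ w ≠ v := by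
      by_contra hno
      push Not at hno
      have h3 : Finset.univ ⊆ ({u, v} : Finset V) := by
        intro w _
        by_cases h4 : w = u
        · simp [h4]
        · simp [hno w h4]
      have h5 := Finset.card_le_card h3
      rw [Finset.card_univ] at h5
      have h6 := Finset.card_le_two (a := u) (b := v)
      omega
    have h3 := h2 w u v (Ne.symm hw.1) (Ne.symm hw.2)
    clear hw
    induction h3 with
    | refl => exact Relation.ReflTransGen.refl
    | tail _ h4 ih => exact ih.tail (Or.inl h4.1)
  obtain ⟨F', E', i3, i4, a', b', hp', hs, hl, hl2⟩ :=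
    IsPl.exists_simple G.Adj hconn (Fintype.card E) F E a b rfl hp (fun u v huv _ => hG u v huv)
  have hG' : ∀ u v, G.Adj u v ↔ u ≠ v ∧ Lk a' u v := by
    intro u v
    constructor
    · intro huv
      exact ⟨huv.ne, hl u v huv huv.ne⟩
    · rintro ⟨_, e, he⟩
      have := hl2 e
      rcases he with ⟨h3, h4⟩ | ⟨h3, h4⟩
      · rw [h3, h4] at this
        rcases this with h5 | h5
        · exact h5
        · exact h5.symm
      · rw [h3, h4] at this
        rcases this with h5 | h5
        · exact h5.symm
        · exact h5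
  have hF : 0 < Fintype.card F' := by
    have h3 := hp'.euler
    by_contra h4
    have h5 : Fintype.card F' = 0 := by omega
    have h6 : IsEmpty F' := Fintype.card_eq_zero_iff.1 h5
    have h7 : Fintype.card E' = 0 := Fintype.card_eq_zero_iff.2 ⟨fun e => h6.elim (b' e).1⟩
    have h8 : IsEmpty E' := Fintype.card_eq_zero_iff.1 h7
    -- two vertices are connected, so there is an edge
    have : Nontrivial V := Fintype.one_lt_card_iff_nontrivial.1 (by omega)
    obtain ⟨u, v, huv⟩ := exists_pair_ne V
    obtain ⟨p, q, ⟨e, _⟩, _, _⟩ := exists_step_ne (p := fun z => z = u) (hp'.conn u v) rfl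
      (fun h => huv h.symm)
    exact h8.elim e
  have htc : TwoConn a' b' := by
    refine ⟨hp'.toIsPlane, hs.noloop, ?_, ?_⟩
    · intro v x y hx hy
      have h3 := h2 v x y hx hy
      clear hx hy
      induction h3 with
      | refl => exact Relation.ReflTransGen.refl
      | @tail p q _ h4 ih =>
      refine ih.tail ?_
      obtain ⟨hpq, hpv, hqv⟩ := h4
      obtain ⟨_, e, he⟩ := (hG' p q).1 hpq
      refine ⟨e, ?_, he⟩
      rintro (h3 | h3)
      · rcases he with he | he
        · exact hpv (he.1.symm.trans h3)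
        · exact hqv (he.1.symm.trans h3)
      · rcases he with he | he
        · exact hqv (he.2.symm.trans h3)
        · exact hpv (he.2.symm.trans h3)
    · intro e
      have h3 := hp'.euler
      have : Nontrivial E' := Fintype.one_lt_card_iff_nontrivial.1 (by omega)
      exact exists_ne e
  obtain ⟨D, hD⟩ := exists_data' htc hs hV hG'
  exact ⟨F', E', i3, i4, a', b', D, hp', hs, fun u v huv => hl u v huv huv.ne, hD⟩


end Pool.Agent.SB
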