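import Pool.Agent.SB.Def

/-!
# Module SB-GEul: every face of a plane multigraph is tracked by a closed word

PLAN.  `Trk a b f x l` (`Helper1/PG/Track.lean`) means: `l` is a closed walk from `x` to `x` which
uses every side `s = (e, c)` with `sf b s = f` exactly once.  So this is Euler's theorem for the
multigraph on `V` whose edges are the sides of `f` (`S := {s : E × Bool // sf b s = f}`, ends
`a s.1.1`).

1. `exists_circuit` (abstract, no plane structure): a finite multigraph `a : S → V × V` which is
   connected (any two edges are connected) and even (`∑ s, st a v s = 0` in `ZMod 2` for every `v`;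
   a loop contributes `0`) has a closed word through all its edges.  Proof: take a word
   (`Path`-like list of pairs edge, next vertex) without repeated edges of maximal length among the
   CLOSED ones (length is at most `card S`).  If some edge is missing: by connectivity there is a
   missing edge with an end `y` on the walk (or the walk is empty: start at an end of any edge).
   In the rest `S'` (missing edges) all degrees are still even (`sum_path` of Track.lean computes the
   sum of `st` along a walk; a closed walk has sum `0`), so a trail in `S'` starting at `y` with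
   this missing edge which cannot be prolonged ends at `y` (else the parity at its end `z ≠ y` of the
   missing edges not on the trail would be odd, so nonzero, so it can be prolonged): insert it in the
   closed walk at `y` (rotate the closed walk so that it starts at `y`).  It is convenient to prove
   first: for every finset `T` of edges with even degrees and every edge `s ∈ T` there is a nonempty
   closed trail in `T` that starts with `s` from either of its ends, by strong induction or by
   prolonging.
2. `exists_trk`: `even` is `h.orth v f` (as in the proof of `insert_trk`, `h3`, `sum_prod_type`,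
   `Fintype.sum_bool`: `st b f e = ∑_c ind (sf b (e, c) = f)`), `conn` is `h.fc f` (a link by an edge
   incident with `f` is a link by a side of `f`; also the second end of a side is linked with the
   first one).  If `f` has no side take the empty word.
3. `exists_trk_side`: rotate the word (`l1 ++ l2` is closed at `x` iff `l2 ++ l1` is closed at the
   middle vertex, same sides up to order) so that it starts with the side `(e, c)`; if it walks
   `z → x` reverse the word (reverse the list of steps and move the vertices by one).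
-/

set_option autoImplicit false

namespace Pool.Agent.SB

open Pool.Agent.Helper1.PG

variable {V F E : Type}

/-- change of the marks of a word -/
theorem trk_of_sides {a : E → V × V} {b : E → F × F} {f : F} {x x' : V} {l l' : List (Tok V E)}
    (h : Trk a b f x l) (hs : sides l' = sides l) (hp : Path a x' l' x') : Trk a b f x' l' where
  path := hp
  nodup := by rw [hs]; exact h.nodup
  mem := by intro s; rw [hs]; exact h.mem s

private theorem geul_card {T : Finset (E × Bool)} {l : List (E × Bool)} (hn : l.Nodup)
    (hT : ∀ s ∈ l, s ∈ T) : l.length ≤ T.card := by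
  classical
  rw [← List.toFinset_card_of_nodup hn]
  exact Finset.card_le_card (fun s hs => hT s (List.mem_toFinset.1 hs))

/-- a trail which is not closed can be prolonged inside an even set of sides -/
private theorem geul_odd {a : E → V × V} {T : Finset (E × Bool)}
    (hE : ∀ v, ∑ s ∈ T, st a v s.1 = 0) {x y : V} {l : List (Tok V E)} (hp : Path a x l y)
    (hn : (sides l).Nodup) (hT : ∀ s ∈ sides l, s ∈ T) (hxy : x ≠ y) :
    ∃ s ∈ T, s ∉ sides l ∧ ∃ w, Jn a y w s.1 := by
  classical
  by_contra hcon
  have h1 := sum_path a l x y hp y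
  rw [← List.sum_toFinset _ hn, ind_true rfl, ind_false hxy] at h1
  have h2 : ∑ s ∈ (sides l).toFinset, st a y s.1 = ∑ s ∈ T, st a y s.1 := by
    apply Finset.sum_subset
    · intro s hs
      exact hT s (List.mem_toFinset.1 hs)
    · intro s hs hs'
      apply st_of_not_inc
      rintro (h | h)
      · exact hcon ⟨s, hs, fun h3 => hs' (List.mem_toFinset.2 h3), _, Or.inl ⟨h, rfl⟩⟩
      · exact hcon ⟨s, hs, fun h3 => hs' (List.mem_toFinset.2 h3), _, Or.inr ⟨rfl, h⟩⟩
  rw [hE, h1] at h2
  exact absurd h2 (by decide)

/-- every trail in an even set of sides can be prolonged to a closed trail -/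
private theorem geul_close {a : E → V × V} {T : Finset (E × Bool)}
    (hE : ∀ v, ∑ s ∈ T, st a v s.1 = 0) {x : V} : ∀ (n : ℕ) (y : V) (l : List (Tok V E)),
    Path a x l y → (sides l).Nodup → (∀ s ∈ sides l, s ∈ T) → marks l = [] →
    T.card ≤ (sides l).length + n →
    ∃ l', Path a x (l ++ l') x ∧ (sides (l ++ l')).Nodup ∧ (∀ s ∈ sides (l ++ l'), s ∈ T) ∧
      marks (l ++ l') = []
  | 0, y, l, hp, hn, hT, hm, hc => by
    classical
    by_cases hxy : x = y
    · subst hxy
      exact ⟨[], by rw [List.append_nil]; exact ⟨hp, hn, hT, hm⟩⟩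
    · exfalso
      obtain ⟨s, hs, hs', w, hw⟩ := geul_odd hE hp hn hT hxy
      have h1 : (s :: sides l).length ≤ T.card := by
        apply geul_card (List.nodup_cons.2 ⟨hs', hn⟩)
        intro t ht
        rcases List.mem_cons.1 ht with rfl | ht
        · exact hs
        · exact hT t ht
      rw [List.length_cons] at h1
      omega
  | (n + 1), y, l, hp, hn, hT, hm, hc => by
    classical
    by_cases hxy : x = y
    · subst hxy
      exact ⟨[], by rw [List.append_nil]; exact ⟨hp, hn, hT, hm⟩⟩
    · obtain ⟨s, hs, hs', w, hw⟩ := geul_odd hE hp hn hT hxy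
      have hsd : sides (l ++ [Sum.inr (s, w)]) = sides l ++ [s] := by
        rw [sides_append]; rfl
      obtain ⟨l', h1, h2, h3, h4⟩ := geul_close hE n w (l ++ [Sum.inr (s, w)])
        (by rw [path_append]; exact ⟨y, hp, hw, rfl⟩)
        (by
          rw [hsd]
          refine List.Nodup.append hn (List.nodup_singleton _) ?_
          intro t ht ht'
          rw [List.mem_singleton] at ht'
          rw [ht'] at ht
          exact hs' ht)
        (by
          intro t ht
          rw [hsd, List.mem_append, List.mem_singleton] at ht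
          rcases ht with ht | rfl
          · exact hT t ht
          · exact hs)
        (by rw [marks_append, hm]; rfl)
        (by rw [hsd, List.length_append, List.length_singleton]; omega)
      refine ⟨Sum.inr (s, w) :: l', ?_⟩
      rw [List.append_assoc, List.singleton_append] at h1 h2 h3 h4
      exact ⟨h1, h2, h3, h4⟩

/-- the ends of the edges of a walk are visited -/
private theorem geul_visit {a : E → V × V} : ∀ (l : List (Tok V E)) (x y : V), Path a x l y →
    ∀ s ∈ sides l, ∀ v, Inc a v s.1 → ∃ l1 l2, l = l1 ++ l2 ∧ Path a x l1 v ∧ Path a v l2 y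
  | [], x, y, _, s, hs, v, _ => by simp [sides] at hs
  | (Sum.inl w :: l), x, y, h, s, hs, v, hv => by
    obtain ⟨l1, l2, h1, h2, h3⟩ := geul_visit l x y h.2 s hs v hv
    exact ⟨Sum.inl w :: l1, l2, by rw [h1]; rfl, ⟨h.1, h2⟩, h3⟩
  | (Sum.inr (t, z) :: l), x, y, h, s, hs, v, hv => by
    have hs' : s ∈ t :: sides l := hs
    rcases List.mem_cons.1 hs' with rfl | hs'
    · have hvx : x = v ∨ z = v := by
        rcases h.1 with h2 | h2 <;> rcases hv with h3 | h3
        · exact Or.inl (h2.1.symm.trans h3)
        · exact Or.inr (h2.2.symm.trans h3)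
        · exact Or.inr (h2.1.symm.trans h3)
        · exact Or.inl (h2.2.symm.trans h3)
      rcases hvx with rfl | rfl
      · exact ⟨[], Sum.inr (s, z) :: l, rfl, rfl, h⟩
      · exact ⟨[Sum.inr (s, z)], l, rfl, ⟨h.1, rfl⟩, h.2⟩
    · obtain ⟨l1, l2, h1, h2, h3⟩ := geul_visit l z y h.2 s hs' v hv
      exact ⟨Sum.inr (t, z) :: l1, l2, by rw [h1]; rfl, ⟨h.1, h2⟩, h3⟩

/-- split a word at a side -/
private theorem geul_split {a : E → V × V} : ∀ (l : List (Tok V E)) (x y : V), Path a x l y →
    ∀ s ∈ sides l, ∃ l1 l2 u w, l = l1 ++ Sum.inr (s, w) :: l2 ∧ Path a x l1 u ∧ Jn a u w s.1 ∧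
      Path a w l2 y
  | [], x, y, _, s, hs => by simp [sides] at hs
  | (Sum.inl w :: l), x, y, h, s, hs => by
    obtain ⟨l1, l2, u, w', h1, h2, h3, h4⟩ := geul_split l x y h.2 s hs
    exact ⟨Sum.inl w :: l1, l2, u, w', by rw [h1]; rfl, ⟨h.1, h2⟩, h3, h4⟩
  | (Sum.inr (t, z) :: l), x, y, h, s, hs => by
    have hs' : s ∈ t :: sides l := hs
    rcases List.mem_cons.1 hs' with rfl | hs'
    · exact ⟨[], l, x, z, rfl, rfl, h.1, h.2⟩
    · obtain ⟨l1, l2, u, w', h1, h2, h3, h4⟩ := geul_split l z y h.2 s hs'
      exact ⟨Sum.inr (t, z) :: l1, l2, u, w', by rw [h1]; rfl, ⟨h.1, h2⟩, h3, h4⟩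

/-- the reversed word -/
private theorem geul_rev {a : E → V × V} : ∀ (l : List (Tok V E)) (x y : V), Path a x l y →
    marks l = [] → ∃ l', Path a y l' x ∧ marks l' = [] ∧ sides l' = (sides l).reverse
  | [], x, y, h, _ => ⟨[], Eq.symm h, rfl, rfl⟩
  | (Sum.inl w :: l), x, y, _, hm => by
    have h1 : w :: marks l = [] := hm
    exact absurd h1 (List.cons_ne_nil _ _)
  | (Sum.inr (t, z) :: l), x, y, h, hm => by
    obtain ⟨l', h1, h2, h3⟩ := geul_rev l z y h.2 hm
    refine ⟨l' ++ [Sum.inr (t, x)], ?_, ?_, ?_⟩
    · rw [path_append]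
      exact ⟨z, h1, Jn.symm h.1, rfl⟩
    · rw [marks_append, h2]; rfl
    · rw [sides_append, h3]
      show (sides l).reverse ++ [t] = (t :: sides l).reverse
      rw [List.reverse_cons]

/-- the sides of a face form an even set -/
private theorem geul_even [Fintype V] [Fintype F] [Fintype E] {a : E → V × V}
    {b : E → F × F} (h : IsPl a b) (f : F) (T : Finset (E × Bool))
    (hT : ∀ s, s ∈ T ↔ sf b s = f) (v : V) : ∑ s ∈ T, st a v s.1 = 0 := by
  classical
  rw [← h.orth v f]
  have h4 : ∑ s ∈ T, st a v s.1 = ∑ s : E × Bool, st a v s.1 * ind (s ∈ T) := by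
    rw [← Finset.sum_subset (Finset.subset_univ T)
      (f := fun s : E × Bool => st a v s.1 * ind (s ∈ T))]
    · exact Finset.sum_congr rfl fun s hs => by rw [ind_true hs, mul_one]
    · intro s _ hs
      rw [ind_false hs, mul_zero]
  rw [h4, Fintype.sum_prod_type]
  apply Finset.sum_congr rfl
  intro e _
  rw [Fintype.sum_bool]
  have h1 : ind ((e, true) ∈ T) = ind ((b e).2 = f) := ind_congr (hT (e, true))
  have h2 : ind ((e, false) ∈ T) = ind ((b e).1 = f) := ind_congr (hT (e, false))
  show st a v e * ind ((e, true) ∈ T) + st a v e * ind ((e, false) ∈ T) =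
    st a v e * (ind ((b e).1 = f) + ind ((b e).2 = f))
  rw [h1, h2]
  ring

/-- closed trails of all lengths until everything is used -/
private theorem geul_main [Fintype V] [Fintype F] [Fintype E] {a : E → V × V}
    {b : E → F × F} (h : IsPl a b) (f : F) (T : Finset (E × Bool))
    (hT : ∀ s, s ∈ T ↔ sf b s = f) {s0 : E × Bool} (h0 : s0 ∈ T) : ∀ (n : ℕ)
    (l : List (Tok V E)), Path a (a s0.1).1 l (a s0.1).1 → (sides l).Nodup →
    (∀ s ∈ sides l, s ∈ T) → marks l = [] → T.card ≤ (sides l).length + n →
    ∃ l', Path a (a s0.1).1 l' (a s0.1).1 ∧ (sides l').Nodup ∧ (∀ s, s ∈ sides l' ↔ s ∈ T) ∧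
      marks l' = [] := by
  classical
  have hinc : ∀ s, s ∈ T → Inc b f s.1 := by
    rintro ⟨e, c⟩ hs
    have h1 := (hT _).1 hs
    cases c
    · exact Or.inl h1
    · exact Or.inr h1
  have hinc' : ∀ e, Inc b f e → ∃ c, (e, c) ∈ T := by
    rintro e (h1 | h1)
    · exact ⟨false, (hT _).2 h1⟩
    · exact ⟨true, (hT _).2 h1⟩
  intro n
  induction n with
  | zero =>
    intro l hp hn hTl hm hc
    refine ⟨l, hp, hn, ?_, hm⟩
    intro s
    refine ⟨hTl s, fun hs => ?_⟩
    by_contra hs'
    have h1 : (s :: sides l).length ≤ T.card := by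
      apply geul_card (List.nodup_cons.2 ⟨hs', hn⟩)
      intro t ht
      rcases List.mem_cons.1 ht with rfl | ht
      · exact hs
      · exact hTl t ht
    rw [List.length_cons] at h1
    omega
  | succ n ih =>
    intro l hp hn hTl hm hc
    by_cases hall : ∀ s ∈ T, s ∈ sides l
    · exact ⟨l, hp, hn, fun s => ⟨hTl s, hall s⟩, hm⟩
    · push Not at hall
      obtain ⟨s1, hs1, hs1'⟩ := hall
      -- a missing side with a visited end
      obtain ⟨s, hs, hs', y, z, hj, l1, l2, hl, hp1, hp2⟩ : ∃ s ∈ T, s ∉ sides l ∧
          ∃ y z, Jn a y z s.1 ∧ ∃ l1 l2, l = l1 ++ l2 ∧ Path a (a s0.1).1 l1 y ∧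
            Path a y l2 (a s0.1).1 := by
        by_cases hv : ∃ l1 l2, l = l1 ++ l2 ∧ Path a (a s0.1).1 l1 (a s1.1).1 ∧
            Path a (a s1.1).1 l2 (a s0.1).1
        · exact ⟨s1, hs1, hs1', _, _, Or.inl ⟨rfl, rfl⟩, hv⟩
        · obtain ⟨u, v, ⟨e, he, hj⟩, hu, hv'⟩ := exists_step_ne
            (p := fun y => ∃ l1 l2, l = l1 ++ l2 ∧ Path a (a s0.1).1 l1 y ∧
              Path a y l2 (a s0.1).1)
            (h.fc f s0.1 s1.1 (hinc _ h0) (hinc _ hs1)) ⟨[], l, rfl, rfl, hp⟩ hv
          obtain ⟨c, hcT⟩ := hinc' e he
          have hj' : Jn a u v (e, c).1 := hj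
          refine ⟨(e, c), hcT, ?_, u, v, hj', hu⟩
          intro hes
          exact hv' (geul_visit l _ _ hp (e, c) hes v hj'.inc')
      -- a closed trail in the rest
      set T' : Finset (E × Bool) := T \ (sides l).toFinset with hT'
      have hsub : (sides l).toFinset ⊆ T := fun t ht => hTl t (List.mem_toFinset.1 ht)
      have hE' : ∀ v, ∑ s ∈ T', st a v s.1 = 0 := by
        intro v
        have h1 := Finset.sum_sdiff (f := fun s : E × Bool => st a v s.1) hsub
        rw [geul_even h f T hT v, List.sum_toFinset _ hn, sum_path a l _ _ hp v,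
          z2_add_self, add_zero] at h1
        exact h1
      have hsT' : s ∈ T' := by
        rw [hT', Finset.mem_sdiff]
        exact ⟨hs, fun h1 => hs' (List.mem_toFinset.1 h1)⟩
      obtain ⟨l', g1, g2, g3, g4⟩ := geul_close hE' T'.card z [Sum.inr (s, z)]
        (x := y) ⟨hj, rfl⟩ (List.nodup_singleton _)
        (by
          intro t ht
          have ht' : t ∈ [s] := ht
          rw [List.mem_singleton] at ht'
          rw [ht']; exact hsT')
        rfl (by omega)
      rw [List.singleton_append] at g1 g2 g3 g4
      have hm' := hm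
      rw [hl, marks_append, List.append_eq_nil_iff] at hm'
      have hperm : (sides (l1 ++ (Sum.inr (s, z) :: l' ++ l2))).Perm
          (sides l ++ sides (Sum.inr (s, z) :: l')) := by
        rw [hl, sides_append, sides_append, sides_append, List.append_assoc]
        exact List.Perm.append_left _ List.perm_append_comm
      refine ih (l1 ++ (Sum.inr (s, z) :: l' ++ l2)) ?_ ?_ ?_ ?_ ?_
      · rw [path_append]
        refine ⟨y, hp1, ?_⟩
        rw [path_append]
        exact ⟨y, g1, hp2⟩
      · rw [hperm.nodup_iff]
        refine List.Nodup.append hn g2 ?_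
        intro t ht ht'
        have h1 := g3 t ht'
        rw [hT', Finset.mem_sdiff] at h1
        exact h1.2 (List.mem_toFinset.2 ht)
      · intro t ht
        rw [hperm.mem_iff, List.mem_append] at ht
        rcases ht with ht | ht
        · exact hTl t ht
        · have h1 := g3 t ht
          rw [hT', Finset.mem_sdiff] at h1
          exact h1.1
      · rw [marks_append, marks_append, hm'.1, hm'.2, g4]
        rfl
      · rw [hperm.length_eq, List.length_append]
        show T.card ≤ (sides l).length + (s :: sides l').length + n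
        rw [List.length_cons]
        omega

theorem exists_trk [Fintype V] [Fintype F] [Fintype E] [Nonempty V] {a : E → V × V}
    {b : E → F × F} (h : IsPl a b) (f : F) :
    ∃ (x : V) (l : List (Tok V E)), marks l = [] ∧ Trk a b f x l := by
  classical
  set T : Finset (E × Bool) := Finset.univ.filter (fun s => sf b s = f) with hTdef
  have hT : ∀ s, s ∈ T ↔ sf b s = f := by
    intro s
    rw [hTdef, Finset.mem_filter]
    exact ⟨fun h1 => h1.2, fun h1 => ⟨Finset.mem_univ _, h1⟩⟩
  rcases T.eq_empty_or_nonempty with he | ⟨s0, hs0⟩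
  · refine ⟨Classical.arbitrary V, [], rfl, rfl, List.nodup_nil, ?_⟩
    intro s
    constructor
    · intro h1
      exact absurd h1 List.not_mem_nil
    · intro h1
      have h2 := (hT s).2 h1
      rw [he] at h2
      exact absurd h2 (Finset.notMem_empty _)
  · obtain ⟨l', h1, h2, h3, h4⟩ := geul_main h f T hT hs0 T.card [] rfl List.nodup_nil
      (fun s hs => absurd hs List.not_mem_nil) rfl (by omega)
    exact ⟨_, l', h4, h1, h2, fun s => (h3 s).trans (hT s)⟩

theorem exists_trk_side [Fintype V] [Fintype F] [Fintype E] {a : E → V × V}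
    {b : E → F × F} (h : IsPl a b) (e : E) (c : Bool) {x z : V} (hj : Jn a x z e) :
    ∃ l : List (Tok V E), marks l = [] ∧ Trk a b (sf b (e, c)) x (Sum.inr ((e, c), z) :: l) := by
  classical
  have : Nonempty V := ⟨x⟩
  obtain ⟨x0, l, hm, ht⟩ := exists_trk h (sf b (e, c))
  obtain ⟨l1, l2, u, w, hl, hp1, hj', hp2⟩ := geul_split l x0 x0 ht.path (e, c)
    ((ht.mem _).2 rfl)
  have hm' := hm
  rw [hl, marks_append, List.append_eq_nil_iff] at hm'
  have hm2 : marks l2 = [] := hm'.2
  have hp3 : Path a w (l2 ++ l1) u := by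
    rw [path_append]
    exact ⟨x0, hp2, hp1⟩
  have hm3 : marks (l2 ++ l1) = [] := by
    rw [marks_append, hm'.1, hm2]; rfl
  have hperm : (sides l).Perm ((e, c) :: sides (l2 ++ l1)) := by
    rw [hl, sides_append, sides_append]
    show (sides l1 ++ (e, c) :: sides l2).Perm ((e, c) :: (sides l2 ++ sides l1))
    exact List.perm_middle.trans (List.Perm.cons _ List.perm_append_comm)
  have hends : (x = u ∧ z = w) ∨ (x = w ∧ z = u) := by
    rcases hj with h1 | h1 <;> rcases hj' with h2 | h2
    · exact Or.inl ⟨h1.1.symm.trans h2.1, h1.2.symm.trans h2.2⟩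
    · exact Or.inr ⟨h1.1.symm.trans h2.1, h1.2.symm.trans h2.2⟩
    · exact Or.inr ⟨h1.2.symm.trans h2.2, h1.1.symm.trans h2.1⟩
    · exact Or.inl ⟨h1.2.symm.trans h2.2, h1.1.symm.trans h2.1⟩
  rcases hends with ⟨rfl, rfl⟩ | ⟨rfl, rfl⟩
  · refine ⟨l2 ++ l1, hm3, ⟨hj, hp3⟩, ?_, ?_⟩
    · exact hperm.nodup_iff.1 ht.nodup
    · intro s
      rw [← ht.mem s]
      exact hperm.mem_iff.symm
  · obtain ⟨l', g1, g2, g3⟩ := geul_rev (l2 ++ l1) x z hp3 hm3
    have hperm' : (sides l).Perm ((e, c) :: sides l') := by
      rw [g3]
      exact hperm.trans (List.Perm.cons _ (List.reverse_perm _).symm)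
    refine ⟨l', g2, ⟨hj, g1⟩, ?_, ?_⟩
    · exact hperm'.nodup_iff.1 ht.nodup
    · intro s
      rw [← ht.mem s]
      exact hperm'.mem_iff.symm

end Pool.Agent.SB
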