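import Pool.Agent.SB.CHoleB

/-!
# The graph without the inner vertices of a window is a graph in a disc

JOB SB-CHole.  Prove the theorem of this file (remove the `sorry`, keep the statement).

Plan.  As `Hex.nonneg_conn` of `Helper1/PG/HexMain.lean` up to `htrk`.  Take `exists_wrep`.  For `i < k` let
`t_i` be the triangle of `hT.one i`, and `sd i : Bool` the side of `gR i` on the face `fK t_i`
(`exists_sd` of `Hex.lean`: from `st_gR`, the two sides of `gR i` are on different faces or ... exactly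
one side has `sf b (gR i, s) = fK t_i`).  The word is
`w = (List.range k).flatMap (fun i => [inl (rr i), inr ((⟨gR i, _⟩, sd i), rr ((i + 1) % k))])`
(use `List.ofFn`/`Fin k` or `List.attach` to carry `i < k` for the proofs that `gR i` is an edge of the
rest; or extend the map by an arbitrary ring edge for `i ≥ k`).  Its marks are `(List.range k).map rr`,
its sides the `(⟨gR i, _⟩, sd i)`; the path is closed because `(k - 1 + 1) % k = 0` (prove by induction
on `j ≤ k` that the first `j` blocks are a path from `rr 0` to `rr (j % k)`).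
`IsPl.remove` with `card_F`, `card_E`, `card_WK`, `hT.count`, `conn_rest`, `FK_iff`; the sides have no
repetitions: `gR i = gR j` and `sd i = sd j` give `fK t_i = fK t_j`, `t_i = t_j`, and `{f i, f (i + 1)}`
equal to `{f j, f (j + 1)}`, so `i = j` because `3 ≤ k` (`hw.inj`); every side of the rest on a face of
the window is one of them: `FK_iff`, `incR`, `hT.one`.
Then `Disc` with `remA`, `remB`, `none`, `rr 0`, `w`; an edge of `G` between vertices outside of the
window is a link of `remA` (`R.lk`, not in `EK`).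
-/

set_option autoImplicit false

noncomputable section

namespace Pool.Agent.SB

open Pool.Agent.Helper1.PG
open Pool.Agent.Helper36.BL (cp cnt cols cp_eval mem_cols IsMinor)

private theorem hole_not_ek {V E' : Type} {a : E' → V × V} {K : V → Prop} {x y : V} {e : E'}
    (hj : Jn a x y e) (hx : ¬ K x) (hy : ¬ K y) : ¬ EK a K e := by
  rcases hj with ⟨h1, h2⟩ | ⟨h1, h2⟩
  · rintro (h3 | h3)
    · rw [h1] at h3; exact hx h3
    · rw [h2] at h3; exact hy h3
  · rintro (h3 | h3)
    · rw [h1] at h3; exact hy h3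
    · rw [h2] at h3; exact hx h3

private theorem hole_sd {V F E' : Type} [Fintype V] [Fintype F] [Fintype E'] {k n : ℕ}
    {E : List (ℕ × ℕ)} {T : List (ℕ × ℕ × ℕ)} {G : SimpleGraph V} {f : ℕ → V} {a : E' → V × V}
    {b : E' → F × F} {eK : ℕ × ℕ → E'} {gR : ℕ → E'} {fK : ℕ × ℕ × ℕ → F}
    (R : WRep k E T G f a b eK gR fK) (hT : TblOK k n E T) (hw : Wdw k n E G f) {i : ℕ}
    (hi : i < k) {t : ℕ × ℕ × ℕ} (ht : t ∈ T) (h1 : tIn t i) (h2 : tIn t ((i + 1) % k)) :
    ∃ s, sf b (gR i, s) = fK t ∧ ∀ s', sf b (gR i, s') = fK t → s' = s := by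
  have h1 := R.st_gR hT hw hi ht h1 h2
  have h2 := inc_of_st h1
  have h3 : (b (gR i)).1 ≠ (b (gR i)).2 := by
    intro h4
    apply h1
    unfold st
    rw [h4, z2_add_self]
  rcases h2 with h2 | h2
  · refine ⟨false, h2, ?_⟩
    rintro (_ | _) h4
    · rfl
    · exact absurd (h2.trans h4.symm) h3
  · refine ⟨true, h2, ?_⟩
    rintro (_ | _) h4
    · exact absurd (h4.trans h2.symm) h3
    · rfl

private def hblk {V' E' : Type} (rr : ℕ → V') (g : ℕ → E' × Bool) (k i : ℕ) :
    List (Tok V' E') := [Sum.inl (rr i), Sum.inr (g i, rr ((i + 1) % k))]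

private theorem hblk_marks {V' E' : Type} (rr : ℕ → V') (g : ℕ → E' × Bool) (k : ℕ)
    (l : List ℕ) : marks (l.flatMap (hblk rr g k)) = l.map rr := by
  induction l with
  | nil => rfl
  | cons i l ih =>
    rw [List.flatMap_cons, marks_append, ih, List.map_cons]
    rfl

private theorem hblk_sides {V' E' : Type} (rr : ℕ → V') (g : ℕ → E' × Bool) (k : ℕ)
    (l : List ℕ) : sides (l.flatMap (hblk rr g k)) = l.map g := by
  induction l with
  | nil => rfl
  | cons i l ih =>
    rw [List.flatMap_cons, sides_append, ih, List.map_cons]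
    rfl

private theorem hblk_path {V' E' : Type} (rr : ℕ → V') (g : ℕ → E' × Bool) (k : ℕ)
    (a : E' → V' × V') (h : ∀ i, i < k → Jn a (rr i) (rr ((i + 1) % k)) (g i).1) (j : ℕ)
    (hj : j ≤ k) :
    Path a (rr 0) ((List.range j).flatMap (hblk rr g k)) (rr (j % k)) := by
  induction j with
  | zero =>
    rw [Nat.zero_mod]
    exact rfl
  | succ j ih =>
    rw [List.range_succ, List.flatMap_append]
    refine (path_append _ _ _ _ _).2 ⟨_, ih (by omega), ?_⟩
    rw [Nat.mod_eq_of_lt (by omega : j < k), List.flatMap_cons, List.flatMap_nil, List.append_nil]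
    exact ⟨rfl, h j (by omega), rfl⟩

private theorem hole_mod {k i j : ℕ} (hk : 3 ≤ k) (hi : i < k) (hj : j < k)
    (h1 : i = (j + 1) % k) (h2 : j = (i + 1) % k) : False := by
  rcases Nat.lt_or_ge (j + 1) k with h3 | h3
  · rw [Nat.mod_eq_of_lt h3] at h1
    rcases Nat.lt_or_ge (i + 1) k with h4 | h4
    · rw [Nat.mod_eq_of_lt h4] at h2
      omega
    · have h5 : i + 1 = k := by omega
      rw [h5, Nat.mod_self] at h2
      omega
  · have h5 : j + 1 = k := by omega
    rw [h5, Nat.mod_self] at h1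
    rw [h1, Nat.mod_eq_of_lt (by omega : 0 + 1 < k)] at h2
    omega

theorem hole {V : Type} [Fintype V] {k n : ℕ} {E : List (ℕ × ℕ)} {T : List (ℕ × ℕ × ℕ)}
    (hT : TblOK k n E T) {G : SimpleGraph V} {f : ℕ → V} (hw : Wdw k n E G f) (hPl : Pl G)
    (hcf : CF G) (h4 : 4 ≤ Fintype.card V) [Fintype {v : V // ¬ WK k n f v}]
    (rr : ℕ → {v : V // ¬ WK k n f v}) (hrr : ∀ i, i < k → (rr i).1 = f i) :
    Disc (G.comap (Subtype.val : {v : V // ¬ WK k n f v} → V)) ((List.range k).map rr) := by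
  classical
  obtain ⟨F, E', i1, i2, a, b, eK, gR, fK, R⟩ := exists_wrep hT hw hPl hcf h4
  have hk3 := hT.k3
  have hk0 : 0 < k := by omega
  have hone : ∀ i : ℕ, ∃ t, i < k → (t ∈ T ∧ tIn t i ∧ tIn t ((i + 1) % k) ∧
      ∀ s ∈ T, tIn s i → tIn s ((i + 1) % k) → s = t) := by
    intro i
    by_cases hi : i < k
    · obtain ⟨t, ht⟩ := hT.one i hi
      exact ⟨t, fun _ => ht⟩
    · exact ⟨(0, 0, 0), fun h => absurd h hi⟩
  choose tt htt using hone
  have hsd : ∀ i : ℕ, ∃ s, i < k → (sf b (gR i, s) = fK (tt i) ∧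
      ∀ s', sf b (gR i, s') = fK (tt i) → s' = s) := by
    intro i
    by_cases hi : i < k
    · obtain ⟨s, hs⟩ := hole_sd R hT hw hi (htt i hi).1 (htt i hi).2.1 (htt i hi).2.2.1
      exact ⟨s, fun _ => hs⟩
    · exact ⟨false, fun h => absurd h hi⟩
  choose sd hsd using hsd
  have hG : ∀ i : ℕ, ∃ e : {e : E' // ¬ EK a (WK k n f) e}, i < k → e.1 = gR i := by
    intro i
    by_cases hi : i < k
    · exact ⟨⟨gR i, R.gR_not hT hw hi⟩, fun _ => rfl⟩
    · exact ⟨⟨gR 0, R.gR_not hT hw hk0⟩, fun h => absurd h hi⟩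
  choose G1 hG1 using hG
  have hjn : ∀ {x y : {v : V // ¬ WK k n f v}} {e : {e : E' // ¬ EK a (WK k n f) e}},
      Jn a x.1 y.1 e.1 → Jn (remA a (WK k n f)) x y e := by
    intro x y e hj
    rcases hj with ⟨h1, h2⟩ | ⟨h1, h2⟩
    · exact Or.inl ⟨Subtype.ext h1, Subtype.ext h2⟩
    · exact Or.inr ⟨Subtype.ext h1, Subtype.ext h2⟩
  have hpath : Path (remA a (WK k n f)) (rr 0)
      ((List.range k).flatMap (hblk rr (fun i => (G1 i, sd i)) k)) (rr 0) := by
    have h1 := hblk_path rr (fun i => (G1 i, sd i)) k (remA a (WK k n f)) (fun i hi => by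
      apply hjn
      change Jn a (rr i).1 (rr ((i + 1) % k)).1 (G1 i).1
      rw [hrr i hi, hrr _ (Nat.mod_lt _ hk0), hG1 i hi]
      exact R.gr i hi) k le_rfl
    rwa [Nat.mod_self] at h1
  obtain ⟨hpl, htrk⟩ := R.pl.remove (WK k n f)
    (by rw [R.card_F hT hw, R.card_E hT hw, card_WK hw, hT.count]) (R.conn_rest hT hw)
    ⟨fK (tt 0), (R.FK_iff hT hw _).2 ⟨_, (htt 0 hk0).1, rfl⟩⟩ hpath (by
      rw [hblk_sides]
      refine List.Nodup.map_on ?_ List.nodup_range
      intro i hi j hj hij
      rw [List.mem_range] at hi hj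
      have h1 : (G1 i).1 = (G1 j).1 := congrArg (fun z => z.1.1) hij
      rw [hG1 i hi, hG1 j hj] at h1
      have h2 := R.gr i hi
      have h3 := R.gr j hj
      rw [← h1] at h3
      have hmi : (i + 1) % k < k := Nat.mod_lt _ hk0
      have hmj : (j + 1) % k < k := Nat.mod_lt _ hk0
      have hkn := hT.kn
      by_contra hne
      have key : f i = f j ∨ (f i = f ((j + 1) % k) ∧ f j = f ((i + 1) % k)) := by
        rcases h2 with ⟨h4, h5⟩ | ⟨h4, h5⟩ <;> rcases h3 with ⟨h6, h7⟩ | ⟨h6, h7⟩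
        · exact Or.inl (h4.symm.trans h6)
        · exact Or.inr ⟨h4.symm.trans h6, h7.symm.trans h5⟩
        · exact Or.inr ⟨h5.symm.trans h7, h6.symm.trans h4⟩
        · exact Or.inl (h5.symm.trans h7)
      rcases key with h8 | ⟨h8, h9⟩
      · exact hne (hw.inj _ _ (by omega) (by omega) h8)
      · exact hole_mod hk3 hi hj (hw.inj _ _ (by omega) (by omega) h8)
          (hw.inj _ _ (by omega) (by omega) h9)) (by
      intro s
      rw [hblk_sides, List.mem_map]
      constructor
      · rintro ⟨i, hi, rfl⟩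
        rw [List.mem_range] at hi
        refine (R.FK_iff hT hw _).2 ⟨tt i, (htt i hi).1, ?_⟩
        change sf b ((G1 i).1, sd i) = fK (tt i)
        rw [hG1 i hi]
        exact (hsd i hi).1
      · intro h1
        obtain ⟨t, htT, ht⟩ := (R.FK_iff hT hw _).1 h1
        have h2 : Inc b (fK t) s.1.1 := by
          rw [← ht]
          unfold sf
          split_ifs
          · exact Or.inr rfl
          · exact Or.inl rfl
        obtain ⟨i, hi, hi2, hi3, hi4⟩ := R.incR hT hw htT h2 s.1.2
        refine ⟨i, List.mem_range.2 hi, ?_⟩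
        have h5 : t = tt i := (htt i hi).2.2.2 t htT hi3 hi4
        have h3 : s.2 = sd i := by
          apply (hsd i hi).2
          rw [← hi2, ht, h5]
        exact Prod.ext (Subtype.ext ((hG1 i hi).trans hi2.symm)) h3.symm)
  refine ⟨_, _, inferInstance, inferInstance, remA a (WK k n f), remB a b (WK k n f), none, rr 0,
    (List.range k).flatMap (hblk rr (fun i => (G1 i, sd i)) k), hpl, htrk, hblk_marks _ _ _ _, ?_⟩
  intro u v huv
  have huv' : G.Adj u.1 v.1 := huv
  obtain ⟨e, he⟩ := R.lk _ _ huv'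
  have hek := hole_not_ek he u.2 v.2
  exact ⟨⟨e, hek⟩, hjn (e := ⟨e, hek⟩) he⟩

end Pool.Agent.SB
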