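import Pool.Agent.SB.CDef

/-!
# Links

JOB SB-CLnk.  Prove all theorems of this file (remove the `sorry`s, keep the statements).

Plan.
* `Link.shift`, `Link.refl`: composition with `i ↦ i + c`, `i ↦ - i`.
* `Link.exists_from`: `u = g i`, `x = g j` with `j = i + 1` or `i = j + 1`; shift by `i`, and reflect in
  the second case.
* `Link.common`: a common neighbour of `v` and `g i` is `g j` with `G.Adj (g i) (g j)`.
* `Link.far`: `x = g i`; then `y`, `z`, `w` are `g` of `i ± 1`, `i ± 2`, `i ± 3` (with the same sign,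
  because `x ≠ z`, `y ≠ w`); `3 ≠ 0, 1, -1` and so on in `ZMod d` for `5 ≤ d` (`ZMod.natCast_eq_zero_iff`
  or `zmod_cast_ne_zero` of `Helper1/PG/Api.lean`).
-/

set_option autoImplicit false

noncomputable section

namespace Pool.Agent.SB

open Pool.Agent.Helper1.PG

variable {V : Type} {G : SimpleGraph V} {v : V} {d : ℕ} {g : ZMod d → V}

theorem Link.shift (h : Link G v g) (c : ZMod d) : Link G v (fun i => g (i + c)) := by
  refine ⟨fun i j hij => add_right_cancel (h.inj hij), fun x => ?_, fun i j => ?_⟩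
  · rw [h.adj x]
    constructor
    · rintro ⟨i, rfl⟩
      exact ⟨i - c, by rw [sub_add_cancel]⟩
    · rintro ⟨i, hi⟩
      exact ⟨i + c, hi⟩
  · rw [h.cyc]
    constructor
    · rintro (h1 | h1)
      · left
        apply add_right_cancel (b := c)
        rw [h1]; ring
      · right
        apply add_right_cancel (b := c)
        rw [h1]; ring
    · rintro (rfl | rfl)
      · left; ring
      · right; ring

theorem Link.refl (h : Link G v g) : Link G v (fun i => g (-i)) := by
  refine ⟨fun i j hij => neg_injective (h.inj hij), fun x => ?_, fun i j => ?_⟩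
  · rw [h.adj x]
    constructor
    · rintro ⟨i, rfl⟩
      exact ⟨-i, by rw [neg_neg]⟩
    · rintro ⟨i, hi⟩
      exact ⟨-i, hi⟩
  · rw [h.cyc]
    constructor
    · rintro (h1 | h1)
      · right
        have h2 : j = -(-i + 1) := by rw [← h1, neg_neg]
        rw [h2]; ring
      · left
        have h2 : i = -(-j + 1) := by rw [← h1, neg_neg]
        rw [h2]; ring
    · rintro (rfl | rfl)
      · right; ring
      · left; ring

/-- the link can be listed from any edge of it -/
theorem Link.exists_from (h : Link G v g) {u x : V} (hu : G.Adj v u) (hx : G.Adj v x)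
    (hux : G.Adj u x) : ∃ g' : ZMod d → V, Link G v g' ∧ g' 0 = u ∧ g' 1 = x := by
  obtain ⟨i, rfl⟩ := (h.adj u).1 hu
  obtain ⟨j, rfl⟩ := (h.adj x).1 hx
  rcases (h.cyc i j).1 hux with h1 | h1
  · refine ⟨_, h.shift i, ?_, ?_⟩
    · show g (0 + i) = g i
      rw [zero_add]
    · show g (1 + i) = g j
      rw [h1, add_comm]
  · refine ⟨_, (h.shift i).refl, ?_, ?_⟩
    · show g (-0 + i) = g i
      rw [neg_zero, zero_add]
    · show g (-1 + i) = g j
      rw [h1]
      congr 1
      ring

theorem Link.common (h : Link G v g) {i : ZMod d} {x : V} (hx : G.Adj v x)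
    (hx' : G.Adj (g i) x) : x = g (i + 1) ∨ x = g (i - 1) := by
  obtain ⟨j, rfl⟩ := (h.adj x).1 hx
  rcases (h.cyc i j).1 hx' with h1 | h1
  · left
    rw [h1]
  · right
    rw [h1, add_sub_cancel_right]

private theorem clnk_far (h : Link G v g) (hd : 5 ≤ d) {i : ZMod d} :
    g i ≠ g (i + 3) ∧ ¬ G.Adj (g i) (g (i + 3)) := by
  have h2 : ((2 : ℕ) : ZMod d) ≠ 0 := zmod_cast_ne_zero (by omega) (by omega)
  have h3 : ((3 : ℕ) : ZMod d) ≠ 0 := zmod_cast_ne_zero (by omega) (by omega)
  have h4 : ((4 : ℕ) : ZMod d) ≠ 0 := zmod_cast_ne_zero (by omega) (by omega)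
  refine ⟨fun he => ?_, fun ha => ?_⟩
  · have e := h.inj he
    apply h3
    have e2 : (3 : ZMod d) = (i + 3) - i := by ring
    push_cast
    rw [e2, ← e, sub_self]
  · rcases (h.cyc _ _).1 ha with e | e
    · apply h2
      have e2 : (2 : ZMod d) = (i + 3) - (i + 1) := by ring
      push_cast
      rw [e2, e, sub_self]
    · apply h4
      have e2 : (4 : ZMod d) = (i + 3 + 1) - i := by ring
      push_cast
      rw [e2, ← e, sub_self]

/-- the ends of a path with three edges in a link of length at least five are not adjacent -/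
theorem Link.far (h : Link G v g) (hd : 5 ≤ d) {x y z w : V} (hx : G.Adj v x) (hy : G.Adj v y)
    (hz : G.Adj v z) (hw : G.Adj v w) (hxy : G.Adj x y) (hyz : G.Adj y z) (hzw : G.Adj z w)
    (hxz : x ≠ z) (hyw : y ≠ w) : x ≠ w ∧ ¬ G.Adj x w := by
  obtain ⟨i, rfl⟩ := (h.adj x).1 hx
  obtain ⟨j, rfl⟩ := (h.adj y).1 hy
  obtain ⟨k, rfl⟩ := (h.adj z).1 hz
  obtain ⟨l, rfl⟩ := (h.adj w).1 hw
  rcases (h.cyc i j).1 hxy with h1 | h1
  · have h2 : k = j + 1 := by
      rcases (h.cyc j k).1 hyz with h2 | h2
      · exact h2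
      · exact absurd (congrArg g (add_right_cancel (h1.symm.trans h2))) hxz
    have h3 : l = k + 1 := by
      rcases (h.cyc k l).1 hzw with h3 | h3
      · exact h3
      · exact absurd (congrArg g (add_right_cancel (h2.symm.trans h3))) hyw
    have h4 : l = i + 3 := by
      rw [h3, h2, h1]; ring
    rw [h4]
    exact clnk_far h hd
  · have h2 : j = k + 1 := by
      rcases (h.cyc j k).1 hyz with h2 | h2
      · exact absurd (congrArg g (h1.trans h2.symm)) hxz
      · exact h2
    have h3 : k = l + 1 := by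
      rcases (h.cyc k l).1 hzw with h3 | h3
      · exact absurd (congrArg g (h2.trans h3.symm)) hyw
      · exact h3
    have h4 : i = l + 3 := by
      rw [h1, h2, h3]; ring
    rw [h4]
    have h5 := clnk_far h hd (i := l)
    exact ⟨fun e => h5.1 e.symm, fun ha => h5.2 ha.symm⟩

end Pool.Agent.SB
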