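import Pool.Agent.SB.CFace

/-!
# A minimal counterexample is a triangulation

JOB SB-CTri.  Prove the theorem of this file (remove the `sorry`, keep the statement).

Plan.  `CF` with `T = {v}` is `TwoC G`, `CF` with `T = {x, y, z}` gives `TriOK G o` for all `o`.  Take the
data `D` of `exists_planeData'`.
* Two vertices `p ≠ r` with edges on the same face are adjacent: `pl_ad_face` and `h.emax.2`.
* `3 ≤ D.deg u`: otherwise `D.deg u = 2` (`D.two_le_deg`), the two neighbours `x = nb u 0`, `y = nb u 1`
  are on the face `fc u 0` (`D.on_fc`, `D.on_fc'`), hence adjacent; there is a vertex `w` different from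
  `u, x, y` (card `≥ 4`); `CF` with `T = {x, y}` joins `u` and `w` outside `T`, but all neighbours of `u`
  are in `T`.
* `D.len f = 3` for all `f`: otherwise `4 ≤ D.len f`; take `u = D.vx f 0`, `f = D.fc u m` for some `m`
  (`D.Von_iff`); `nb u m` and `nb u (m + 1)` are on `f`, different (`D.nb_ne`), so adjacent,
  contradiction to `D.not_adj_of_long` (choose `o` different from the three vertices).
* links: `g v = D.nb v`, `dg v = D.deg v`; neighbours `i`, `i + 1` are adjacent by `D.adj_of_len3`;
  others are not adjacent by `D.not_adj_of_far` (choose `o`), equal ones by irreflexivity (`D.one_ne`).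
* Euler: `D.euler` says `0 = 3 card V - 6 - card edgeSet`; `∑ deg = 2 card edgeSet`
  (`D.deg_eq_card` and `SimpleGraph.sum_degrees_eq_twice_card_edges`, convert
  `Nat.card G.edgeSet = G.edgeFinset.card`).
-/

set_option autoImplicit false

noncomputable section

namespace Pool.Agent.SB

open Pool.Agent.Helper1.PG
open Pool.Agent.Helper36.BL (cp cnt cols cp_eval mem_cols IsMinor)

private lemma ctri_zmod_two {d : ℕ} (hd : d = 2) (i : ZMod d) : i = 0 ∨ i = 1 := by
  subst hd
  revert i
  decide

private lemma ctri_other {V : Type} [Fintype V] (h4 : 4 ≤ Fintype.card V) (x y z : V) :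
    ∃ o, x ≠ o ∧ y ≠ o ∧ z ≠ o := by
  classical
  by_contra hcon
  push Not at hcon
  have h1 : (Finset.univ : Finset V) ⊆ {x, y, z} := by
    intro o _
    simp only [Finset.mem_insert, Finset.mem_singleton]
    by_cases hx : x = o
    · exact Or.inl hx.symm
    · by_cases hy : y = o
      · exact Or.inr (Or.inl hy.symm)
      · exact Or.inr (Or.inr (hcon o hx hy).symm)
  have h2 := Finset.card_le_card h1
  have h3 : ({x, y, z} : Finset V).card ≤ 3 := Finset.card_le_three
  rw [Finset.card_univ] at h2
  omega

private lemma ctri_twoC {V : Type} {G : SimpleGraph V} (hcf : CF G) : TwoC G := by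
  classical
  intro v x y hx hy
  have h1 := hcf {v} (by simp) (by
    intro x hx y hy hxy
    rw [Finset.mem_singleton] at hx hy
    exact absurd (hx.trans hy.symm) hxy) x y (by simpa using hx) (by simpa using hy)
  exact Relation.ReflTransGen.mono (fun s t h => ⟨h.1, by simpa using h.2.1, by simpa using h.2.2⟩) _ _ h1

private lemma ctri_triOK {V : Type} {G : SimpleGraph V} (hcf : CF G) (o : V) : TriOK G o := by
  classical
  intro x y z hxy hyz hxz _ _ _ p q hp hq
  have hmem : ∀ w : V, w ∉ ({x, y, z} : Finset V) ↔ (w ≠ x ∧ w ≠ y ∧ w ≠ z) := by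
    intro w
    simp only [Finset.mem_insert, Finset.mem_singleton, not_or, ne_eq]
  have h1 := hcf {x, y, z} Finset.card_le_three (by
    intro s hs t ht hst
    simp only [Finset.mem_insert, Finset.mem_singleton] at hs ht
    rcases hs with rfl | rfl | rfl <;> rcases ht with rfl | rfl | rfl
    · exact absurd rfl hst
    · exact hxy
    · exact hxz
    · exact hxy.symm
    · exact absurd rfl hst
    · exact hyz
    · exact hxz.symm
    · exact hyz.symm
    · exact absurd rfl hst) p q ((hmem p).2 hp) ((hmem q).2 hq)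
  exact Relation.ReflTransGen.mono (fun s t h => ⟨h.1, (hmem s).1 h.2.1, (hmem t).1 h.2.2⟩) _ _ h1

theorem exists_tri {V : Type} [Fintype V] {G : SimpleGraph V} (h4 : 4 ≤ Fintype.card V)
    (hmax : EMax G) (hcf : CF G) :
    ∃ (dg : V → ℕ) (g : (v : V) → ZMod (dg v) → V), Tri G dg g := by
  classical
  have hT := ctri_triOK hcf
  obtain ⟨F, E, _, _, a, b, D, hp, _, hlk, hon⟩ := exists_planeData' (by omega) (ctri_twoC hcf) hmax.1
  have hVon : ∀ f p, D.Von f p → ∃ e, Inc a p e ∧ Inc b f e := by
    intro f p h
    obtain ⟨i, rfl⟩ := (D.Von_iff f p).1 h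
    obtain ⟨e, he1, he2⟩ := (hon _ _ _).1 (D.on_fc p i)
    exact ⟨e, he1.inc, he2⟩
  have hface : ∀ f p r, D.Von f p → D.Von f r → p ≠ r → G.Adj p r := by
    intro f p r h1 h2 hne
    exact hmax.2 p r hne (pl_ad_face hp hlk (hVon f p h1) (hVon f r h2))
  have hdeg : ∀ u, 3 ≤ D.deg u := by
    intro u
    by_contra hcon
    have hd : D.deg u = 2 := by
      have := D.two_le_deg u
      omega
    set x := D.nb u 0 with hx
    set y := D.nb u (0 + 1) with hy
    have hxy : G.Adj x y := hface (D.fc u 0) x y (D.Von_nb u 0) (D.Von_nb' u 0) (D.nb_ne u 0)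
    obtain ⟨w, hw1, hw2, hw3⟩ := ctri_other h4 u x y
    have hux : u ≠ x := (D.adj_nb u 0).ne
    have huy : u ≠ y := (D.adj_nb u (0 + 1)).ne
    have h1 := hcf {x, y} (Finset.card_le_two.trans (by norm_num)) (by
      intro s hs t ht hst
      simp only [Finset.mem_insert, Finset.mem_singleton] at hs ht
      rcases hs with rfl | rfl <;> rcases ht with rfl | rfl
      · exact absurd rfl hst
      · exact hxy
      · exact hxy.symm
      · exact absurd rfl hst) u w (by
        simp only [Finset.mem_insert, Finset.mem_singleton, not_or]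
        exact ⟨hux, huy⟩) (by
        simp only [Finset.mem_insert, Finset.mem_singleton, not_or]
        exact ⟨fun h => hw2 h.symm, fun h => hw3 h.symm⟩)
    rcases Relation.ReflTransGen.cases_head h1 with h2 | ⟨c, ⟨h2, _, h3⟩, _⟩
    · exact hw1 h2
    · obtain ⟨i, rfl⟩ := (D.adj_iff u c).1 h2
      apply h3
      simp only [Finset.mem_insert, Finset.mem_singleton]
      rcases ctri_zmod_two hd i with hi | hi
      · exact Or.inl (by rw [hi])
      · exact Or.inr (by rw [hi, hy, zero_add])
  have hlen : ∀ f, D.len f = 3 := by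
    intro f
    by_contra hcon
    have h5 : 4 ≤ D.len f := by
      have := D.three_le_len f
      omega
    have h6 : D.Von f (D.vx f 0) := ⟨0, rfl⟩
    generalize D.vx f 0 = u at h6
    obtain ⟨m, rfl⟩ := (D.Von_iff f u).1 h6
    obtain ⟨o, ho1, ho2, ho3⟩ := ctri_other h4 u (D.nb u m) (D.nb u (m + 1))
    exact D.not_adj_of_long (hT o) ho1 ho2 ho3 h5 (hdeg u)
      (hface _ _ _ (D.Von_nb u m) (D.Von_nb' u m) (D.nb_ne u m))
  refine ⟨D.deg, D.nb, ⟨hdeg, ?_, ?_⟩⟩
  · intro v
    refine ⟨D.nb_inj v, ?_, ?_⟩
    · intro x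
      rw [D.adj_iff]
      exact ⟨fun ⟨i, hi⟩ => ⟨i, hi.symm⟩, fun ⟨i, hi⟩ => ⟨i, hi.symm⟩⟩
    · intro i j
      constructor
      · intro hadj
        by_contra hcon
        push Not at hcon
        obtain ⟨o, ho1, ho2, ho3⟩ := ctri_other h4 v (D.nb v i) (D.nb v j)
        refine D.not_adj_of_far (hT o) ho1 ?_ ?_ ?_ ho2 ho3 hadj
        · intro h
          rw [h] at hadj
          exact hadj.ne rfl
        · exact fun h => hcon.1 h.symm
        · exact fun h => hcon.2 h.symm
      · rintro (h | h)
        · rw [h]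
          exact D.adj_of_len3 (hlen _)
        · rw [h]
          exact (D.adj_of_len3 (hlen _)).symm
  · have h1 := D.euler
    have h2 : ∑ f, ((D.len f : ℤ) - 3) = 0 := Finset.sum_eq_zero (fun f _ => by rw [hlen f]; norm_num)
    rw [h2] at h1
    have h3 : ∀ v, D.deg v = G.degree v := by
      intro v
      rw [D.deg_eq_card, ← SimpleGraph.card_neighborFinset_eq_degree,
        SimpleGraph.neighborFinset_eq_filter]
    have h5 : ∑ v, (D.deg v : ℤ) = 2 * (Nat.card G.edgeSet : ℤ) := by
      have h6 := G.sum_degrees_eq_twice_card_edges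
      have h7 : Nat.card G.edgeSet = G.edgeFinset.card := by
        rw [Nat.card_eq_fintype_card, SimpleGraph.edgeFinset_card]
      rw [h7]
      simp only [h3]
      exact_mod_cast h6
    rw [Finset.sum_sub_distrib, h5, Finset.sum_const, Finset.card_univ, nsmul_eq_mul]
    linarith

end Pool.Agent.SB
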