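import Pool.Agent.SB.Def

/-!
# Module SB-GCon: deletion and contraction for `P` and `eqv`

`P q G = (cp G).eval q`, and `(cp G).eval n = cnt G n` for natural `n` (`cp_eval`), `cnt G n` is the
number of `c : V → Fin n` with `∀ u v, G.Adj u v → c u ≠ c v` (`mem_cols`).  Identities between
chromatic polynomials are proved for the numbers of colourings and then `poly_ext`.

PLAN.
* `eqv_adj`, `eqv_symm`, `P_eq_add`: by definition (`ad G p r = G` if `G.Adj p r`,
  `ad G p r = ad G r p`).
* `eqv_sum`: `cnt G n - cnt (ad G p r) n` is the number of colourings of `G` with `c p = c r`.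
* `eqv_mg`: bijection of the colourings with `c p = c r` with the colourings of `mgG G p r h`
  (`sum_mgG` in `FillMain.lean` with weight `1`).  The instance `Fintype {v // v ≠ r}` is arbitrary;
  `cnt_inst` (`Helper36/BL/Count.lean`) or `Subsingleton.elim`.
* `mg_minor`: branch sets `{p, r}` for the vertex `p` and singletons; `p, r` are adjacent in
  `ad G p r` (compare `isMinor_mg_edge` in `Helper36/BL/Minor.lean`).
* `gr_contr`: `gr (contr a e0 h0) = mgG (gr a) ..`: both say that the vertices are different and some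
  edge of `a` joins preimages under `merge` (an edge `e0` or parallel to it would give equal ends);
  compare `lk_mgG` in `FillMain.lean`.
* `eqv_contr`: `eqv_mg` for `gr (del a e0)`, where the ends of `e0` are not adjacent by `hnp`, and
  `mgG (gr (del a e0)) .. = gr (contr a e0 h0)` (the edge `e0` itself is contracted, so it does not
  matter).
* `T3.contract`: `IsPl.contract`; a loop of `contr a e0 h0` comes from an edge parallel to `e0`
  (`merge_eq_iff` in `FillMain.lean`) or from a loop; `dg (del b e0) f ≤ dg b f` (direct: a sum over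
  a subtype; this is also `dg_del_le` of module GDel, but do not import it, prove it here).
-/

set_option autoImplicit false

namespace Pool.Agent.SB

open Polynomial
open Pool.Agent.Helper36.BL (cp cnt cols cp_eval mem_cols IsMinor poly_ext)
open Pool.Agent.Helper1.PG
open Pool.Agent.U5 (P)

variable {V F E : Type}

theorem ad_comm (G : SimpleGraph V) (p r : V) : ad G p r = ad G r p := by
  ext u v
  rw [ad_adj, ad_adj]
  tauto

theorem ad_eq_self {G : SimpleGraph V} {p r : V} (h : G.Adj p r ∨ p = r) : ad G p r = G := by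
  ext u v
  rw [ad_adj]
  constructor
  · rintro (h1 | ⟨h1, h2⟩)
    · exact h1
    · rcases h with h | h
      · rcases h2 with ⟨rfl, rfl⟩ | ⟨rfl, rfl⟩
        · exact h
        · exact h.symm
      · exfalso
        rcases h2 with ⟨h3, h4⟩ | ⟨h3, h4⟩
        · exact h1 (by rw [h3, h4, h])
        · exact h1 (by rw [h3, h4, h])
  · exact Or.inl

theorem eqv_adj [Fintype V] {q : ℝ} {G : SimpleGraph V} {p r : V} (h : G.Adj p r) :
    eqv q G p r = 0 := by
  unfold eqv
  rw [if_neg h.ne, ad_eq_self (Or.inl h), sub_self]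

theorem eqv_symm [Fintype V] (q : ℝ) (G : SimpleGraph V) (p r : V) :
    eqv q G p r = eqv q G r p := by
  unfold eqv
  by_cases h : p = r
  · rw [if_pos h, if_pos h.symm]
  · rw [if_neg h, if_neg (Ne.symm h), ad_comm]

theorem P_eq_add [Fintype V] (q : ℝ) (G : SimpleGraph V) {p r : V} (h : p ≠ r) :
    P q G = P q (ad G p r) + eqv q G p r := by
  unfold eqv
  rw [if_neg h]
  ring

open scoped Classical in
private theorem gcon_card [Fintype V] (G : SimpleGraph V) {p r : V} (h : p ≠ r) (n : ℕ) :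
    cnt G n = cnt (ad G p r) n + (Finset.univ.filter (fun c : V → Fin n =>
      (∀ u v, G.Adj u v → c u ≠ c v) ∧ c p = c r)).card := by
  unfold cnt
  rw [← Finset.card_filter_add_card_filter_not (s := cols G n) (fun c => c p = c r), add_comm]
  congr 1
  · congr 1
    ext c
    rw [Finset.mem_filter, mem_cols, mem_cols]
    constructor
    · rintro ⟨h1, h2⟩ x y hxy
      rcases hxy with hxy | ⟨hne, ⟨rfl, rfl⟩ | ⟨rfl, rfl⟩⟩
      · exact h1 x y hxy
      · exact h2
      · exact Ne.symm h2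
    · intro h1
      exact ⟨fun x y hxy => h1 x y (Or.inl hxy), h1 p r (Or.inr ⟨h, Or.inl ⟨rfl, rfl⟩⟩)⟩
  · congr 1
    ext c
    rw [Finset.mem_filter, mem_cols, Finset.mem_filter]
    exact ⟨fun h => ⟨Finset.mem_univ _, h⟩, fun h => h.2⟩

open scoped Classical in
/-- `eqv` is the value of the polynomial that counts the colourings with `c p = c r` -/
theorem eqv_sum [Fintype V] (G : SimpleGraph V) (p r : V) :
    ∃ Q : ℝ[X], PF (fun n => ((Finset.univ.filter (fun c : V → Fin n =>
      (∀ u v, G.Adj u v → c u ≠ c v) ∧ c p = c r)).card : ℝ)) Q ∧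
      ∀ q : ℝ, Q.eval q = eqv q G p r := by
  by_cases h : p = r
  · refine ⟨cp G, fun n => ?_, fun q => ?_⟩
    · rw [cp_eval]
      subst h
      unfold cnt
      congr 2
      ext c
      rw [mem_cols, Finset.mem_filter]
      exact ⟨fun h => ⟨Finset.mem_univ _, h, rfl⟩, fun h => h.2.1⟩
    · unfold eqv
      rw [if_pos h]
      rfl
  · refine ⟨cp G - cp (ad G p r), fun n => ?_, fun q => ?_⟩
    · rw [eval_sub, cp_eval, cp_eval, gcon_card G h n]
      push_cast
      ring
    · unfold eqv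
      rw [if_neg h, eval_sub]
      rfl

theorem eqv_mg [Fintype V] (q : ℝ) (G : SimpleGraph V) {p r : V} (h : p ≠ r)
    (hna : ¬ G.Adj p r) [Fintype {v : V // v ≠ r}] : eqv q G p r = P q (mgG G p r h) := by
  classical
  obtain ⟨Q, hQ, hQe⟩ := eqv_sum G p r
  have h1 : Q = cp (mgG G p r h) := by
    apply poly_ext
    intro n
    rw [hQ n, cp_eval]
    refine congrArg (fun k : ℕ => (k : ℝ)) ?_
    have h2 := sum_mgG G h hna n (fun _ => 1)
    rw [← Finset.card_filter, ← Finset.card_filter] at h2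
    unfold cnt
    refine Eq.trans ?_ (h2.trans ?_)
    · congr 1
      ext c
      rw [Finset.mem_filter, Finset.mem_filter]
      rfl
    · congr 1
      ext c
      rw [Finset.mem_filter, mem_cols]
      exact ⟨fun h => h.2, fun h => ⟨Finset.mem_univ _, h⟩⟩
  rw [← hQe q, h1]
  rfl

theorem mg_minor (G : SimpleGraph V) {p r : V} (h : p ≠ r) :
    IsMinor (mgG G p r h) (ad G p r) := by
  refine ⟨fun w => {x | merge p r h x = w}, ?_, ?_, ?_⟩
  · intro w
    refine Pool.Agent.Helper36.BL.star_connected _ _ w.1 (merge_coe h w) ?_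
    intro x hx hxw
    have h1 : merge p r h x = merge p r h w.1 := by rw [merge_coe]; exact hx
    rcases merge_eq_iff h x w.1 h1 with h2 | ⟨h2, h3⟩ | ⟨h2, h3⟩
    · exact absurd h2 hxw
    · exact absurd h3 w.2
    · rw [h2, h3]
      exact Or.inr ⟨h, Or.inl ⟨rfl, rfl⟩⟩
  · intro w w' hne
    rw [Set.disjoint_left]
    intro x hx hx'
    exact hne (Eq.trans (Eq.symm hx) hx')
  · rintro w w' ⟨hne, u0, v0, h1, h2, h3⟩
    exact ⟨u0, h1, v0, h2, Or.inl h3⟩

private theorem gcon_gr {a : E → V × V} {e0 : E} (h0 : (a e0).1 ≠ (a e0).2) :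
    gr (contr a e0 h0) = mgG (gr (del a e0)) (a e0).1 (a e0).2 h0 := by
  ext u v
  constructor
  · rintro ⟨hne, e, he⟩
    refine ⟨hne, ?_⟩
    have key : ∀ {u v : {v : V // v ≠ (a e0).2}}, u ≠ v → (contr a e0 h0 e).1 = u →
        (contr a e0 h0 e).2 = v → (gr (del a e0)).Adj (a e).1 (a e).2 := by
      intro u v hne h1 h2
      refine ⟨fun h3 => hne ?_, e, Or.inl ⟨rfl, rfl⟩⟩
      rw [← h1, ← h2]
      exact congrArg (merge _ _ h0) h3
    rcases he with ⟨h1, h2⟩ | ⟨h1, h2⟩
    · exact ⟨(a e).1, (a e).2, h1, h2, key hne h1 h2⟩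
    · exact ⟨(a e).2, (a e).1, h2, h1, (key hne.symm h1 h2).symm⟩
  · rintro ⟨hne, u0, v0, h1, h2, h3, e, he⟩
    refine ⟨hne, e, ?_⟩
    rcases he with ⟨h4, h5⟩ | ⟨h4, h5⟩
    · left
      exact ⟨(congrArg (merge _ _ h0) h4).trans h1, (congrArg (merge _ _ h0) h5).trans h2⟩
    · right
      exact ⟨(congrArg (merge _ _ h0) h4).trans h2, (congrArg (merge _ _ h0) h5).trans h1⟩

theorem eqv_contr [Fintype V] (q : ℝ) {a : E → V × V} {e0 : E} (h0 : (a e0).1 ≠ (a e0).2)
    (hnp : ∀ e, e ≠ e0 → ¬ Par a e0 e) [Fintype {v : V // v ≠ (a e0).2}] :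
    P q (gr (contr a e0 h0)) = eqv q (gr (del a e0)) (a e0).1 (a e0).2 := by
  have hna : ¬ (gr (del a e0)).Adj (a e0).1 (a e0).2 := by
    rintro ⟨_, e, he⟩
    apply hnp e.1 e.2
    rcases he with ⟨h1, h2⟩ | ⟨h1, h2⟩
    · exact Or.inl ⟨h1.symm, h2.symm⟩
    · exact Or.inr ⟨h2.symm, h1.symm⟩
  rw [eqv_mg q _ h0 hna, gcon_gr h0]

private theorem gcon_dg [Fintype E] (b : E → F × F) (e0 : E) [Fintype {e : E // e ≠ e0}] (f : F) :
    dg (del b e0) f ≤ dg b f := by
  classical
  unfold dg
  have h1 := Finset.sum_map (Finset.univ : Finset {e : E // e ≠ e0})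
    (Function.Embedding.subtype (fun e => e ≠ e0))
    (fun e => ((if (b e).1 = f then 1 else 0) + (if (b e).2 = f then 1 else 0) : ℕ))
  refine le_trans (le_of_eq h1.symm) ?_
  exact Finset.sum_le_sum_of_subset (Finset.subset_univ _)

theorem T3.contract [Fintype V] [Fintype F] [Fintype E] {a : E → V × V} {b : E → F × F}
    (h : T3 a b) {e0 : E} (h0 : (a e0).1 ≠ (a e0).2) (hnp : ∀ e, e ≠ e0 → ¬ Par a e0 e)
    [Fintype {v : V // v ≠ (a e0).2}] [Fintype {e : E // e ≠ e0}] :
    T3 (contr a e0 h0) (del b e0) := by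
  refine ⟨h.pl.contract h0, ?_, fun f => (gcon_dg b e0 f).trans (h.d3 f)⟩
  intro e he
  rcases merge_eq_iff h0 _ _ he with h1 | ⟨h1, h2⟩ | ⟨h1, h2⟩
  · exact h.nl e.1 h1
  · exact hnp e.1 e.2 (Or.inl ⟨h1.symm, h2.symm⟩)
  · exact hnp e.1 e.2 (Or.inr ⟨h2.symm, h1.symm⟩)

end Pool.Agent.SB
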