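import Pool.Agent.SB.CLb

/-!
# A smallest counterexample has no separating clique

JOB SB-CCut.  Prove the theorem of this file (remove the `sorry`, keep the statement).

Plan.  Let `T` be a clique, `card ≤ 3`, `p, r ∉ T` not joined outside `T`.  Let `K` be the set of the
vertices joined with `p` outside `T` (`Finset.filter` with classical decidability; `p ∈ K`, `r ∉ K`,
`K` is disjoint from `T`, a neighbour of a vertex of `K` is in `K` or in `T`).  `P_clique_cut` with
`a = card (K ∪ T) > t`, `b = card of the complement of K > t` (it contains `T` and `r`),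
`a + b = card V + t`; both pieces are minors (`IsMinor.of_inj`, `Pl.minor`) with fewer than `card V`
vertices, so `lb_le` and `lb_mul` give `fall q t * cc (card V) ≤ lb a * lb b ≤ P q H * fall q t`
(products of nonnegative numbers, `lb_pos`), and `fall q t > 0`.
-/

set_option autoImplicit false

noncomputable section

namespace Pool.Agent.SB

open Pool.Agent.Helper1.PG
open Pool.Agent.Helper36.BL (cp cnt cols cp_eval mem_cols IsMinor)
open Pool.Agent.U5 (P)

private theorem fall_pos {t : ℕ} : 0 < fall (tau + 3) t := by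
  have h := tau_pos
  unfold fall
  split_ifs
  · norm_num
  · linarith
  · apply mul_pos <;> linarith
  · apply mul_pos
    · apply mul_pos <;> linarith
    · linarith

theorem cf_of_min {V : Type} [Fintype V] {G : SimpleGraph V} (h4 : 4 ≤ Fintype.card V)
    (hP : Pl G) (hm : Hmin (Fintype.card V)) (hlt : P (tau + 3) G < cc (Fintype.card V)) :
    CF G := by
  classical
  intro T hT hTc p r hp hr
  by_contra hc
  obtain ⟨K, mK⟩ : ∃ K : Finset V, ∀ x, x ∈ K ↔
      Relation.ReflTransGen (fun s t => G.Adj s t ∧ s ∉ T ∧ t ∉ T) p x :=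
    ⟨Finset.univ.filter (fun x =>
      Relation.ReflTransGen (fun s t => G.Adj s t ∧ s ∉ T ∧ t ∉ T) p x), by simp⟩
  have hpK : p ∈ K := (mK p).2 Relation.ReflTransGen.refl
  have hrK : r ∉ K := fun h => hc ((mK r).1 h)
  have hK0 : ∀ x ∈ K, x ∉ T := by
    intro x hx
    rcases Relation.ReflTransGen.cases_tail ((mK x).1 hx) with h | ⟨y, _, h⟩
    · rw [h]; exact hp
    · exact h.2.2
  have hTK : Disjoint K T := Finset.disjoint_left.2 hK0
  have hKT : ∀ s ∈ K, ∀ x, G.Adj s x → x ∈ K ∨ x ∈ T := by
    intro s hs x hx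
    by_cases h : x ∈ T
    · exact Or.inr h
    · exact Or.inl ((mK x).2 (((mK s).1 hs).tail ⟨hx, hK0 s hs, h⟩))
  have hq : (tau + 3 : ℝ) ≠ 0 := by have := tau_pos; linarith
  have key := P_clique_cut (tau + 3) hq G K T hT hTc hTK hKT
  have ca : Fintype.card {x // x ∈ K ∪ T} = K.card + T.card := by
    rw [Fintype.card_coe, Finset.card_union_of_disjoint hTK]
  have cb : Fintype.card {x // x ∉ K} + K.card = Fintype.card V := by
    have h := Fintype.card_subtype_compl (fun x => x ∈ K)
    have h1 : Fintype.card {x // x ∈ K} = K.card := Fintype.card_coe K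
    have h2 : K.card ≤ Fintype.card V := Finset.card_le_univ K
    rw [h, h1]
    omega
  have hKpos : 0 < K.card := Finset.card_pos.2 ⟨p, hpK⟩
  have hsum : K.card + T.card + 1 ≤ Fintype.card V := by
    have h1 : (insert r (K ∪ T)).card ≤ Fintype.card V := Finset.card_le_univ _
    rw [Finset.card_insert_of_notMem (by
      rw [Finset.mem_union, not_or]; exact ⟨hrK, hr⟩),
      Finset.card_union_of_disjoint hTK] at h1
    exact h1
  have l1 := lb_le hm (G.comap (Subtype.val : {x // x ∈ K ∪ T} → V))
    (hP.minor (IsMinor.of_inj Subtype.val Subtype.val_injective fun _ _ h => h)) (by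
      rw [ca]; omega)
  have l2 := lb_le hm (G.comap (Subtype.val : {x // x ∉ K} → V))
    (hP.minor (IsMinor.of_inj Subtype.val Subtype.val_injective fun _ _ h => h)) (by omega)
  have l3 := lb_mul (a := Fintype.card {x // x ∈ K ∪ T}) (b := Fintype.card {x // x ∉ K})
    (t := T.card) hT (by omega) (by omega) (by omega)
  have e : Fintype.card {x // x ∈ K ∪ T} + Fintype.card {x // x ∉ K} - T.card =
      Fintype.card V := by omega
  rw [e] at l3
  have l4 : lb (Fintype.card {x // x ∈ K ∪ T}) * lb (Fintype.card {x // x ∉ K}) ≤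
      P (tau + 3) (G.comap (Subtype.val : {x // x ∈ K ∪ T} → V)) *
      P (tau + 3) (G.comap (Subtype.val : {x // x ∉ K} → V)) :=
    mul_le_mul l1 l2 (lb_pos _).le ((lb_pos _).le.trans l1)
  have l5 : fall (tau + 3) T.card * cc (Fintype.card V) ≤ P (tau + 3) G * fall (tau + 3) T.card := by
    refine (l3.trans l4).trans (le_of_eq ?_)
    rw [key]
  have hf : 0 < fall (tau + 3) T.card := fall_pos
  nlinarith [mul_lt_mul_of_pos_right hlt hf]

end Pool.Agent.SB
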