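import Pool.Agent.SB.Def

/-!
# Module SB-GDel: words and face degrees under deletion, contraction and insertion

Everything here is elementary bookkeeping with the definitions `Path, sides, marks, Trk`
(`Helper1/PG/Track.lean`), `contrTok` (`Fill.lean`), `del, contr, merge` (`Core.lean`), `dg`
(`Euler.lean`), `addE, splitF` (`Insert.lean`).

PLAN.
* `trk_len`: `dg b f` is the number of sides `s` with `sf b s = f` (rewrite
  `∑ e, ((if (b e).1 = f ..) + (if (b e).2 = f ..))` as a sum over `E × Bool`), and `sides l` is a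
  duplicate free list of exactly these sides.
* `trk_del`: deletion of the edge `e0`, whose sides `(e0, c)` and `(e0, !c)` are on the different
  faces `(b e0).1`, `(b e0).2` (which become the face `(b e0).1`).  The words are spliced.  The walk
  `w1` goes from `z` to `x`, `w2` from `x` to `z`, and they do not use `e0` (both sides of `e0` are
  already used, `nodup`, and `(e0, !c)` is not a side of the first face).  `contrTok e0 id` only
  changes types here; use `path_contrTok`-like arguments for `del` (write a small lemma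
  `path_dropTok : (∀ c, (e0, c) ∉ sides l) → Path a x l y → Path (del a e0) x (contrTok e0 id l) y`)
  and `mem_sides_contrTok`, `nodup_sides_contrTok` for sides.  For `mem`: `contr b e0 h0` sends a side
  `(e, c)` to `merge _ _ h0 (sf b (e, c))`, see `merge_eq_x`, `merge_val_eq`.
* `trk_del_other`: the same for the other faces.
* `dg_contr_self, dg_contr_ne, dg_del_le`: sums over `{e // e ≠ e0}`
  (`Fintype.sum_eq_add_sum_subtype_ne`), `merge_eq_x`, `merge_val_eq`; or through `trk_len`-like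
  counting of sides.
* `dg_addE`: sum over `Option E`.
* `gr_addE`, `gr_del`, `gr_del_par`: adjacency in `gr`, by cases on the edge.
-/

set_option autoImplicit false

namespace Pool.Agent.SB

open Pool.Agent.Helper1.PG

variable {V F E : Type}

private theorem mu_congr' {F' E' : Type} {b : E → F × F} {b' : E' → F' × F'} {f : F} {f' : F'}
    {e : E} {e' : E'} (h1 : (b e).1 = f ↔ (b' e').1 = f') (h2 : (b e).2 = f ↔ (b' e').2 = f') :
    mu b f e = mu b' f' e' := by
  classical
  unfold mu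
  simp only [h1, h2]

open scoped Classical in
private noncomputable def ii (p : Prop) : ℕ := if p then 1 else 0

private theorem ii_true {p : Prop} (h : p) : ii p = 1 := if_pos h

private theorem ii_false {p : Prop} (h : ¬ p) : ii p = 0 := if_neg h

private theorem mu_ii (b : E → F × F) (f : F) (e : E) :
    mu b f e = ii ((b e).1 = f) + ii ((b e).2 = f) := by
  classical
  unfold mu ii
  rfl

private theorem sum_ne' [Fintype E] (g : E → ℕ) (e0 : E) [Fintype {e : E // e ≠ e0}] :
    ∑ e, g e = g e0 + ∑ e : {e : E // e ≠ e0}, g e.1 := by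
  classical
  have h1 := Fintype.sum_eq_add_sum_subtype_ne g e0
  rw [h1]
  congr 2
  exact congrArg _ (Subsingleton.elim _ _)

private theorem path_dropTok {a : E → V × V} {e0 : E} : ∀ (l : List (Tok V E)) (x y : V),
    (∀ c, (e0, c) ∉ sides l) → Path a x l y → Path (del a e0) x (contrTok e0 id l) y
  | [], _, _, _, h => h
  | (Sum.inl _ :: l), x, y, hn, h => ⟨h.1, path_dropTok l x y hn h.2⟩
  | (Sum.inr ((e, c), z) :: l), x, y, hn, h => by
    have hn' : ∀ c', (e0, c') ∉ (e, c) :: sides l := hn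
    have he : e ≠ e0 := by
      rintro rfl
      exact hn' c (List.mem_cons_self ..)
    have ih := path_dropTok l z y (fun c' h' => hn' c' (List.mem_cons_of_mem _ h')) h.2
    rw [contrTok_inr_ne he]
    exact ⟨h.1, ih⟩

private theorem sf_contr {b : E → F × F} {e0 : E} (h0 : (b e0).1 ≠ (b e0).2)
    (s : {e : E // e ≠ e0} × Bool) :
    sf (contr b e0 h0) s = merge _ _ h0 (sf b (s.1.1, s.2)) := by
  rcases s with ⟨e, c⟩
  cases c <;> rfl

theorem trk_len [Fintype E] {a : E → V × V} {b : E → F × F} {f : F} {x : V}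
    {l : List (Tok V E)} (h : Trk a b f x l) : (sides l).length = dg b f := by
  classical
  rw [← List.toFinset_card_of_nodup h.nodup]
  have h1 : (sides l).toFinset = Finset.univ.filter (fun s : E × Bool => sf b s = f) := by
    ext s
    rw [List.mem_toFinset, h.mem]
    simp
  rw [h1, Finset.card_filter, Fintype.sum_prod_type, dg_eq]
  refine Finset.sum_congr rfl (fun e _ => ?_)
  rw [Fintype.sum_bool]
  unfold mu
  rw [add_comm]
  rfl

theorem trk_del {a : E → V × V} {b : E → F × F} {e0 : E} {c : Bool}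
    (h0 : (b e0).1 ≠ (b e0).2) {x z : V} {w1 w2 : List (Tok V E)}
    (h1 : Trk a b (sf b (e0, c)) x (Sum.inr ((e0, c), z) :: w1))
    (h2 : Trk a b (sf b (e0, !c)) z (Sum.inr ((e0, !c), x) :: w2)) :
    Trk (del a e0) (contr b e0 h0) ⟨(b e0).1, h0⟩ z (contrTok e0 id (w1 ++ w2)) := by
  have hsf : sf b (e0, c) ≠ sf b (e0, !c) := by
    cases c
    · exact h0
    · exact h0.symm
  have n1 : ((e0, c) :: sides w1).Nodup := h1.nodup
  have n2 : ((e0, !c) :: sides w2).Nodup := h2.nodup
  have m1 : ∀ s, s ∈ (e0, c) :: sides w1 ↔ sf b s = sf b (e0, c) := h1.mem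
  have m2 : ∀ s, s ∈ (e0, !c) :: sides w2 ↔ sf b s = sf b (e0, !c) := h2.mem
  rw [List.nodup_cons] at n1 n2
  have e1 : ∀ d, (e0, d) ∉ sides w1 := by
    intro d hd
    by_cases hdc : d = c
    · subst hdc; exact n1.1 hd
    · have hdc' : d = !c := by cases c <;> cases d <;> simp_all
      subst hdc'
      exact hsf ((m1 _).1 (List.mem_cons_of_mem _ hd)).symm
  have e2 : ∀ d, (e0, d) ∉ sides w2 := by
    intro d hd
    by_cases hdc : d = !c
    · subst hdc; exact n2.1 hd
    · have hdc' : d = c := by cases c <;> cases d <;> simp_all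
      subst hdc'
      exact hsf ((m2 _).1 (List.mem_cons_of_mem _ hd))
  have hs1 : ∀ s : E × Bool, s.1 ≠ e0 → (s ∈ sides w1 ↔ sf b s = sf b (e0, c)) := by
    intro s hs
    rw [← m1 s, List.mem_cons]
    constructor
    · exact Or.inr
    · rintro (h | h)
      · exact absurd (congrArg Prod.fst h) hs
      · exact h
  have hs2 : ∀ s : E × Bool, s.1 ≠ e0 → (s ∈ sides w2 ↔ sf b s = sf b (e0, !c)) := by
    intro s hs
    rw [← m2 s, List.mem_cons]
    constructor
    · exact Or.inr
    · rintro (h | h)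
      · exact absurd (congrArg Prod.fst h) hs
      · exact h
  refine ⟨?_, ?_, ?_⟩
  · refine path_dropTok _ _ _ ?_ ?_
    · intro d hd
      rw [sides_append, List.mem_append] at hd
      rcases hd with hd | hd
      · exact e1 d hd
      · exact e2 d hd
    · rw [path_append]
      exact ⟨x, h1.path.2, h2.path.2⟩
  · refine nodup_sides_contrTok e0 _ _ ?_
    rw [sides_append]
    refine List.Nodup.append n1.2 n2.2 ?_
    intro s hsa hsb
    exact hsf (((m1 s).1 (List.mem_cons_of_mem _ hsa)).symm.trans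
      ((m2 s).1 (List.mem_cons_of_mem _ hsb)))
  · intro s
    rw [mem_sides_contrTok, sides_append, List.mem_append, hs1 _ s.1.2, hs2 _ s.1.2, sf_contr h0,
      merge_eq_x]
    cases c
    · exact Iff.rfl
    · exact or_comm

theorem trk_del_other {a : E → V × V} {b : E → F × F} {e0 : E}
    (h0 : (b e0).1 ≠ (b e0).2) {g : F} (hg1 : g ≠ (b e0).1) (hg2 : g ≠ (b e0).2) {x : V}
    {l : List (Tok V E)} (h : Trk a b g x l) :
    Trk (del a e0) (contr b e0 h0) ⟨g, hg2⟩ x (contrTok e0 id l) := by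
  refine ⟨?_, ?_, ?_⟩
  · refine path_dropTok _ _ _ ?_ h.path
    intro d hd
    have h1 := (h.mem _).1 hd
    cases d
    · exact hg1 h1.symm
    · exact hg2 h1.symm
  · exact nodup_sides_contrTok e0 _ _ h.nodup
  · intro s
    rw [mem_sides_contrTok, h.mem, sf_contr h0, merge_val_eq _ _ _ hg2 hg1]

theorem dg_contr_self [Fintype E] {b : E → F × F} {e0 : E} (h0 : (b e0).1 ≠ (b e0).2)
    [Fintype {e : E // e ≠ e0}] :
    dg (contr b e0 h0) ⟨(b e0).1, h0⟩ + 2 = dg b (b e0).1 + dg b (b e0).2 := by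
  classical
  rw [dg_eq, dg_eq, dg_eq, sum_ne' _ e0, sum_ne' (fun e => mu b (b e0).2 e) e0]
  have h1 : ∀ e : {e : E // e ≠ e0}, mu (contr b e0 h0) ⟨(b e0).1, h0⟩ e =
      mu b (b e0).1 e.1 + mu b (b e0).2 e.1 := by
    intro e
    have aux : ∀ g : F, ii (merge _ _ h0 g = (⟨(b e0).1, h0⟩ : {v : F // v ≠ (b e0).2})) =
        ii (g = (b e0).1) + ii (g = (b e0).2) := by
      intro g
      by_cases h3 : g = (b e0).1
      · rw [ii_true ((merge_eq_x h0 g).2 (Or.inl h3)), ii_true h3,
          ii_false (fun h4 => h0 (h3.symm.trans h4))]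
      · by_cases h4 : g = (b e0).2
        · rw [ii_true ((merge_eq_x h0 g).2 (Or.inr h4)), ii_false h3, ii_true h4]
        · rw [ii_false h3, ii_false h4, ii_false]
          intro h5
          rcases (merge_eq_x h0 g).1 h5 with h6 | h6
          · exact h3 h6
          · exact h4 h6
    rw [mu_ii, mu_ii, mu_ii]
    unfold contr
    dsimp only
    rw [aux (b e.1).1, aux (b e.1).2]
    ring
  have h2 : mu b (b e0).1 e0 = 1 := by
    unfold mu
    rw [if_pos rfl, if_neg (fun h => h0 h.symm)]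
  have h3 : mu b (b e0).2 e0 = 1 := by
    unfold mu
    rw [if_neg h0, if_pos rfl]
  rw [Finset.sum_congr rfl (fun e _ => h1 e), Finset.sum_add_distrib, h2, h3]
  ring

theorem dg_contr_ne [Fintype E] {b : E → F × F} {e0 : E} (h0 : (b e0).1 ≠ (b e0).2)
    [Fintype {e : E // e ≠ e0}] {g : F} (hg1 : g ≠ (b e0).1) (hg2 : g ≠ (b e0).2) :
    dg (contr b e0 h0) ⟨g, hg2⟩ = dg b g := by
  classical
  rw [dg_eq, dg_eq, sum_ne' _ e0]
  have h1 : mu b g e0 = 0 := by
    unfold mu
    rw [if_neg (fun h => hg1 h.symm), if_neg (fun h => hg2 h.symm)]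
  rw [h1, zero_add]
  refine Finset.sum_congr rfl (fun e _ => ?_)
  exact mu_congr' (merge_val_eq h0 _ g hg2 hg1) (merge_val_eq h0 _ g hg2 hg1)

theorem dg_del_le [Fintype E] (b : E → F × F) (e0 : E) [Fintype {e : E // e ≠ e0}] (f : F) :
    dg (del b e0) f ≤ dg b f := by
  classical
  rw [dg_eq, dg_eq, sum_ne' _ e0]
  exact Nat.le_add_left _ _

/-- an edge at `v` is deleted -/
theorem dg_del_inc [Fintype E] {a : E → V × V} {e0 : E} [Fintype {e : E // e ≠ e0}]
    (nl : (a e0).1 ≠ (a e0).2) {v : V} (hv : Inc a v e0) : dg (del a e0) v + 1 = dg a v := by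
  classical
  rw [dg_eq, dg_eq, sum_ne' _ e0]
  have h1 : mu a v e0 = 1 := by
    unfold mu
    rcases hv with hv | hv
    · rw [if_pos hv, if_neg (fun h => nl (hv.trans h.symm))]
    · rw [if_neg (fun h => nl (h.trans hv.symm)), if_pos hv]
  rw [h1, add_comm]
  rfl

theorem dg_addE [Fintype E] (a : E → V × V) (p r : V) {v : V} (hp : v ≠ p) (hr : v ≠ r) :
    dg (addE a p r) v = dg a v := by
  classical
  rw [dg_eq, dg_eq, Fintype.sum_option]
  have h1 : mu (addE a p r) v none = 0 := by
    unfold mu addE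
    rw [if_neg (fun h => hp h.symm), if_neg (fun h => hr h.symm)]
  rw [h1, zero_add]
  rfl

theorem gr_addE (a : E → V × V) (p r : V) : gr (addE a p r) = ad (gr a) p r := by
  ext u v
  show (u ≠ v ∧ Lk (addE a p r) u v) ↔ (u ≠ v ∧ Lk a u v) ∨
    (u ≠ v ∧ ((u = p ∧ v = r) ∨ (u = r ∧ v = p)))
  rw [← and_or_left]
  refine and_congr_right (fun _ => ?_)
  constructor
  · rintro ⟨e | e, h⟩
    · right
      rcases h with h | h
      · exact Or.inl ⟨h.1.symm, h.2.symm⟩
      · exact Or.inr ⟨h.2.symm, h.1.symm⟩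
    · exact Or.inl ⟨e, h⟩
  · rintro (⟨e, h⟩ | h | h)
    · exact ⟨some e, h⟩
    · exact ⟨none, Or.inl ⟨h.1.symm, h.2.symm⟩⟩
    · exact ⟨none, Or.inr ⟨h.2.symm, h.1.symm⟩⟩

theorem gr_del (a : E → V × V) (e0 : E) :
    gr a = ad (gr (del a e0)) (a e0).1 (a e0).2 := by
  ext u v
  show (u ≠ v ∧ Lk a u v) ↔ (u ≠ v ∧ Lk (del a e0) u v) ∨
    (u ≠ v ∧ ((u = (a e0).1 ∧ v = (a e0).2) ∨ (u = (a e0).2 ∧ v = (a e0).1)))
  rw [← and_or_left]
  refine and_congr_right (fun _ => ?_)
  constructor
  · rintro ⟨e, h⟩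
    by_cases he : e = e0
    · subst he
      right
      rcases h with h | h
      · exact Or.inl ⟨h.1.symm, h.2.symm⟩
      · exact Or.inr ⟨h.2.symm, h.1.symm⟩
    · exact Or.inl ⟨⟨e, he⟩, h⟩
  · rintro (⟨e, h⟩ | h | h)
    · exact ⟨e.1, h⟩
    · exact ⟨e0, Or.inl ⟨h.1.symm, h.2.symm⟩⟩
    · exact ⟨e0, Or.inr ⟨h.2.symm, h.1.symm⟩⟩

theorem gr_del_par {a : E → V × V} {e0 e1 : E} (hne : e1 ≠ e0) (hp : Par a e0 e1) :
    gr (del a e0) = gr a := by
  ext u v
  show (u ≠ v ∧ Lk (del a e0) u v) ↔ (u ≠ v ∧ Lk a u v)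
  refine and_congr_right (fun _ => ?_)
  constructor
  · rintro ⟨e, h⟩
    exact ⟨e.1, h⟩
  · rintro ⟨e, h⟩
    by_cases he : e = e0
    · subst he
      refine ⟨⟨e1, hne⟩, ?_⟩
      show (a e1).1 = u ∧ (a e1).2 = v ∨ (a e1).1 = v ∧ (a e1).2 = u
      rcases hp with hp | hp
      · rw [← hp.1, ← hp.2]; exact h
      · rw [← hp.1, ← hp.2]
        rcases h with h | h
        · exact Or.inr ⟨h.2, h.1⟩
        · exact Or.inl ⟨h.2, h.1⟩
    · exact ⟨⟨e, he⟩, h⟩

end Pool.Agent.SB
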