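import Pool.Agent.SB.GEul
import Pool.Agent.SB.GDel

/-!
# Module SB-GFlip: a diagonal of a face of degree four

PLAN.  Put the marks `z` and `w` in the word (`trk_of_sides`):
`[inr (s1, z), inl z, inr (s2, v), inr (s3, w), inl w, inr (s4, x)]
 = l1 ++ inl z :: (l2 ++ inl w :: l3)`, and insert the edge `zw` (`IsPl.insert_trk`).  The new faces
`none` and `some f` have words with `2 + 1` sides, so degree `3` (`trk_len`, `sides_append`,
`sides_liftTok`).  For an old face `g ≠ f` take a word (`exists_trk`), it is also a word of the new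
face `some g` (last statement of `insert_trk`) with the same number of sides
(`sides_liftTok`), so `dg b' (some g) = dg b g ≤ 3`.  No loops: `hzw` and `nl`.
`insert_dg` is the general statement about the old faces, used in other modules too.
-/

set_option autoImplicit false

namespace Pool.Agent.SB

open Pool.Agent.Helper1.PG

variable {V F E : Type}

private theorem len_lift (l : List (Tok V E)) :
    (sides (liftTok l)).length = (sides l).length := by
  rw [sides_liftTok, List.length_map]

/-- insertion of an edge in a tracked face: degrees of the faces -/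
theorem insert_dg [Fintype V] [Fintype F] [Fintype E] {a : E → V × V} {b : E → F × F}
    (h : IsPl a b) {f : F} {x p r : V} {l1 l2 l3 : List (Tok V E)}
    (ht : Trk a b f x (l1 ++ Sum.inl p :: (l2 ++ Sum.inl r :: l3))) :
    ∃ b' : Option E → Option F × Option F, IsPl (addE a p r) b' ∧
      dg b' none = (sides l2).length + 1 ∧
      dg b' (some f) = (sides l1).length + (sides l3).length + 1 ∧
      ∀ g, g ≠ f → dg b' (some g) = dg b g := by
  obtain ⟨A1, A2, h1, h2, h3, h4⟩ := h.insert_trk ht
  refine ⟨splitF b f A1 A2, h1, ?_, ?_, ?_⟩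
  · rw [← trk_len h2]
    show (sides (liftTok l2 ++ [Sum.inl r, Sum.inr ((none, true), p)])).length = _
    rw [sides_append, List.length_append, len_lift]
    rfl
  · rw [← trk_len h3, sides_append, List.length_append, len_lift]
    show (sides l1).length + ((none, false) :: sides (liftTok l3)).length = _
    rw [List.length_cons, len_lift]
    rfl
  · intro g hg
    have : Nonempty V := ⟨x⟩
    obtain ⟨y, l, _, hl⟩ := exists_trk h g
    rw [← trk_len hl, ← trk_len (h4 g y l hg hl), len_lift]

theorem flip [Fintype V] [Fintype F] [Fintype E] {a : E → V × V} {b : E → F × F}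
    (h : IsPl a b) (nl : ∀ e, (a e).1 ≠ (a e).2) {f : F} (hd : ∀ g, g ≠ f → dg b g ≤ 3)
    {x z v w : V} {s1 s2 s3 s4 : E × Bool}
    (ht : Trk a b f x [Sum.inr (s1, z), Sum.inr (s2, v), Sum.inr (s3, w), Sum.inr (s4, x)])
    (hzw : z ≠ w) : ∃ b' : Option E → Option F × Option F, T3 (addE a z w) b' := by
  have hp := ht.path
  have ht' : Trk a b f x ([Sum.inr (s1, z)] ++ Sum.inl z ::
      ([Sum.inr (s2, v), Sum.inr (s3, w)] ++ Sum.inl w :: [Sum.inr (s4, x)])) := by
    refine trk_of_sides ht rfl ?_
    obtain ⟨p1, p2, p3, p4, p5⟩ := hp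
    exact ⟨p1, rfl, p2, p3, rfl, p4, p5⟩
  obtain ⟨b', h1, h2, h3, h4⟩ := insert_dg h ht'
  refine ⟨b', h1, ?_, ?_⟩
  · intro e
    rcases e with _ | e
    · exact hzw
    · exact nl e
  · intro g
    rcases g with _ | g
    · rw [h2]
      exact le_rfl
    · by_cases hg : g = f
      · subst hg
        rw [h3]
        exact le_rfl
      · rw [h4 g hg]
        exact hd g hg

end Pool.Agent.SB
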