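import Pool.Agent.SB.GNC
import Pool.Agent.SB.GCon

/-!
# Module SB-GRel: the relations of four marks on a face (Tutte's relation at `τ + 1`)

Let `G` be drawn with the marks `p0, p1, p2, p3` on a face (`hG`: `G` is a subgraph of the plane
multigraph `a`, the face is tracked by `l` with these four marks), and let consecutive marks be
adjacent in `G`.

* `rel4`: `P(G) = τ⁻¹ (#(c p0 = c p2) + #(c p1 = c p3))` at `q = τ + 1`.
* `relcut`: if `p1 = p3 = z` then `P(G) = (q - 1) #(c p0 = c p2)` for every `q`.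

PLAN.  Weighted numbers of colourings: for a family `W n : Fin n → Fin n → Fin n → Fin n → ℝ` put
`S(G, n) = ∑_{c : V → Fin n proper for G} W n (c p0) (c p1) (c p2) (c p3)`.  Take
`W = [x0≠x1][x1≠x2][x2≠x3][x3≠x0] (1 - τ⁻¹ [x0=x2] - τ⁻¹ [x1=x3])` for `rel4` and
`W = [x0≠x1][x1≠x2][x2≠x3][x3≠x0] (1 - (n - 1) [x0=x2])` for `relcut`.
Claim (`vanish`): for every plane structure `IsPl a b`, tracked face with marks `p0..p3` and `G` with
`hG` (NOT requiring that the marks are adjacent in `G`, and for `relcut` requiring `p1 = p3`) there is a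
polynomial `Q` with `PF (fun n => S(G, n)) Q` and `Q.eval q = 0`.
Induction on the number of edges of `G` (`G.edgeSet.ncard`, or strong induction on the number of
pairs `(u, v)` with `G.Adj u v`), for all `V, F, E, a, b`:
- an edge `uv` of `G`, with the edge `e0` of `a` joining its ends (`hG`; it is not a loop as `u ≠ v`):
  `S(G) = S(G - uv) - S'`, where `S'` is the sum over the colourings of `G - uv` with `c u = c v`,
  which is `S(mgG (G - uv) ..)` for the contracted plane structure (`IsPl.contract`,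
  `Trk.contract`, `marks_contrTok`, `lk_mgG`, and `sum_mgG` in `FillMain.lean`, which is for
  `ℕ`-valued weights: redo it for real weights, same proof, or split `W` in its positive and
  negative parts).  The graphs have fewer edges.
- no edges: all `c : V → Fin n` are allowed, and the sum depends on the coincidences of the marks
  only.  If two consecutive marks (cyclically) are equal then `S = 0`.  Otherwise `p0 = p2` and
  `p1 = p3` do not both hold (`noncross4`).  So the marks are four different vertices, or exactly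
  three different ones, and `S` is a power of `n` times
  `(n-1)^4 + (n-1) - 2 τ⁻¹ n (n-1)^2` resp. `n (n-1)^2 (1 - τ⁻¹) - τ⁻¹ n (n-1)` for `rel4` (in both
  cases `p0 = p2` or `p1 = p3`), which vanish at `n = τ + 1` (`tau_sq`), and for `relcut` (`p1 = p3`,
  `p0 ≠ p2`) `n (n-1)^2 - (n-1) n (n-1) = 0` for all `n`.
  (`sum_comp_inj` in `Helper1/PG/HexMain.lean` reduces a sum over `V → Fin n` to a sum over
  `O → Fin n`; the number of `(x0, x1, x2, x3)` with consecutive ones different is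
  `(n-1)^4 + (n-1)`: fix `x0, x2` and count `x1, x3` independently.)
Then for `G` with adjacent consecutive marks the first four indicators are `1` on proper colourings,
so `S(G, n) = cnt G n - τ⁻¹ #(c p0 = c p2) - τ⁻¹ #(c p1 = c p3)`: `eqv_sum`, `cp_eval`,
`PF.unique`.
-/

set_option autoImplicit false

namespace Pool.Agent.SB

open Polynomial
open Pool.Agent.Helper36.BL (cp cnt cols cp_eval mem_cols IsMinor poly_ext)
open Pool.Agent.Helper1.PG
open Pool.Agent.U5 (P)

variable {V F E : Type}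

/-- indicator of equality -/
private noncomputable def ii {n : ℕ} (x y : Fin n) : ℝ := if x = y then 1 else 0

private theorem ii_self {n : ℕ} (x : Fin n) : ii x x = 1 := if_pos rfl

private theorem ii_ne {n : ℕ} {x y : Fin n} (h : x ≠ y) : ii x y = 0 := if_neg h

private theorem ii_symm {n : ℕ} (x y : Fin n) : ii x y = ii y x := by
  by_cases h : x = y
  · rw [h]
  · rw [ii_ne h, ii_ne (Ne.symm h)]

private theorem ii_sq {n : ℕ} (x y : Fin n) : ii x y * ii x y = ii x y := by
  by_cases h : x = y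
  · rw [h, ii_self, one_mul]
  · rw [ii_ne h, zero_mul]

private theorem sum_pick {n : ℕ} (a : Fin n) (h : Fin n → ℝ) : ∑ x, ii a x * h x = h a := by
  unfold ii
  simp

private theorem sum_ii {n : ℕ} (a : Fin n) : ∑ x, ii a x = 1 := by
  unfold ii
  simp

private theorem sum_two {n : ℕ} (a b : Fin n) :
    ∑ x, (1 - ii a x) * (1 - ii x b) = (n : ℝ) - 2 + ii a b := by
  have h1 : ∀ x, (1 - ii a x) * (1 - ii x b) = 1 - ii a x - ii b x + ii a x * ii x b := by
    intro x
    rw [ii_symm x b]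
    ring
  simp only [h1]
  rw [Finset.sum_add_distrib, Finset.sum_sub_distrib, Finset.sum_sub_distrib, sum_ii, sum_ii,
    sum_pick a (fun x => ii x b)]
  simp
  ring

private noncomputable def w4 (t : ℝ) {n : ℕ} (x0 x1 x2 x3 : Fin n) : ℝ :=
  (1 - ii x0 x1) * (1 - ii x1 x2) * (1 - ii x2 x3) * (1 - ii x3 x0) *
    (1 - t * ii x0 x2 - t * ii x1 x3)

private noncomputable def w3 {n : ℕ} (x0 x1 x2 x3 : Fin n) : ℝ :=
  (1 - ii x0 x1) * (1 - ii x1 x2) * (1 - ii x2 x3) * (1 - ii x3 x0) *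
    (1 - ((n : ℝ) - 1) * ii x0 x2)

private theorem w4_rot (t : ℝ) {n : ℕ} (x0 x1 x2 x3 : Fin n) :
    w4 t x0 x1 x2 x3 = w4 t x1 x2 x3 x0 := by
  unfold w4
  rw [ii_symm x2 x0]
  ring

private theorem sum_w4 (t : ℝ) {n : ℕ} (x0 x2 : Fin n) :
    ∑ x1, ∑ x3, w4 t x0 x1 x2 x3 =
      (1 - t * ii x0 x2) * ((n : ℝ) - 2 + ii x0 x2) ^ 2 - t * ((n : ℝ) - 2 + ii x0 x2) := by
  have h1 : ∀ x1 : Fin n, ∑ x3, w4 t x0 x1 x2 x3 = (1 - ii x0 x1) * (1 - ii x1 x2) *
      ((1 - t * ii x0 x2) * ((n : ℝ) - 2 + ii x0 x2) - t) := by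
    intro x1
    have e1 : ∀ x3 : Fin n, w4 t x0 x1 x2 x3 =
        ((1 - ii x0 x1) * (1 - ii x1 x2) * (1 - t * ii x0 x2)) * ((1 - ii x2 x3) * (1 - ii x3 x0))
        - ((1 - ii x0 x1) * (1 - ii x1 x2) * t) * (ii x1 x3 * ((1 - ii x2 x3) * (1 - ii x3 x0))) := by
      intro x3
      unfold w4
      ring
    simp only [e1]
    rw [Finset.sum_sub_distrib, ← Finset.mul_sum, ← Finset.mul_sum, sum_two,
      sum_pick x1 (fun x => (1 - ii x2 x) * (1 - ii x x0)), ii_symm x2 x0, ii_symm x2 x1,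
      ii_symm x1 x0]
    have e2 := ii_sq x0 x1
    have e3 := ii_sq x1 x2
    have e4 : (1 - ii x0 x1) * (1 - ii x0 x1) = 1 - ii x0 x1 := by linear_combination e2
    have e5 : (1 - ii x1 x2) * (1 - ii x1 x2) = 1 - ii x1 x2 := by linear_combination e3
    linear_combination (-(t * ((1 - ii x1 x2) * (1 - ii x1 x2)))) * e4 -
      (t * (1 - ii x0 x1)) * e5
  simp only [h1]
  rw [← Finset.sum_mul, sum_two]
  ring

open scoped Classical in
private theorem rel_sum_inj {O : Type} [Fintype O] [Fintype V] (g : O → V)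
    (hg : Function.Injective g) (n : ℕ) (f : (O → Fin n) → ℝ) :
    ∑ c : V → Fin n, f (c ∘ g) =
      (n : ℝ) ^ (Fintype.card V - Fintype.card O) * ∑ c : O → Fin n, f c := by
  rw [← Finset.sum_fiberwise_of_maps_to (s := Finset.univ) (t := Finset.univ)
    (g := fun c : V → Fin n => c ∘ g) (fun _ _ => Finset.mem_univ _), Finset.mul_sum]
  apply Finset.sum_congr rfl
  intro c' _
  have h1 : ∑ c ∈ Finset.univ.filter (fun c : V → Fin n => c ∘ g = c'), f (c ∘ g) =
      ∑ c ∈ Finset.univ.filter (fun c : V → Fin n => c ∘ g = c'), f c' := by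
    apply Finset.sum_congr rfl
    intro c hc
    rw [(Finset.mem_filter.1 hc).2]
  rw [h1, Finset.sum_const, nsmul_eq_mul]
  congr 1
  have e : {c : V → Fin n // c ∘ g = c'} ≃ ({v : V // v ∉ Set.range g} → Fin n) :=
    { toFun := fun c v => c.1 v.1
      invFun := fun d => ⟨fun v => if hv : v ∈ Set.range g then c' hv.choose else d ⟨v, hv⟩, by
        funext o
        have hv : g o ∈ Set.range g := ⟨o, rfl⟩
        show (if hv : g o ∈ Set.range g then c' hv.choose else d ⟨g o, hv⟩) = c' o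
        rw [dif_pos hv, hg hv.choose_spec]⟩
      left_inv := by
        rintro ⟨c, hc⟩
        apply Subtype.ext
        funext v
        by_cases hv : v ∈ Set.range g
        · show (if hv : v ∈ Set.range g then c' hv.choose else c v) = c v
          rw [dif_pos hv, ← hc]
          show c (g hv.choose) = c v
          rw [hv.choose_spec]
        · show (if hv : v ∈ Set.range g then c' hv.choose else c v) = c v
          rw [dif_neg hv]
      right_inv := by
        intro d
        funext v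
        show (if hv : v.1 ∈ Set.range g then c' hv.choose else d ⟨v.1, hv⟩) = d v
        rw [dif_neg v.2] }
  have h2 : (Finset.univ.filter (fun c : V → Fin n => c ∘ g = c')).card =
      Fintype.card {c : V → Fin n // c ∘ g = c'} := by
    rw [Fintype.card_subtype]
  rw [h2, Fintype.card_congr e, Fintype.card_fun, Fintype.card_fin]
  push_cast
  congr 1
  have h3 : Fintype.card {v : V // v ∉ Set.range g} =
      Fintype.card V - Fintype.card {v : V // v ∈ Set.range g} :=
    Fintype.card_subtype_compl (fun v => v ∈ Set.range g)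
  rw [h3]
  congr 1
  exact (Fintype.card_congr (Equiv.ofInjective g hg)).symm

private theorem sum_cons3 {n : ℕ} (f : (Fin 3 → Fin n) → ℝ) [i : Fintype (Fin 3 → Fin n)] :
    ∑ c, f c = ∑ x0, ∑ x1, ∑ x2, f ![x0, x1, x2] := by
  obtain rfl : i = Pi.instFintype := Subsingleton.elim _ _
  have h : ∀ (k : ℕ) (f : (Fin (k + 1) → Fin n) → ℝ),
      ∑ c, f c = ∑ x, ∑ c, f (Matrix.vecCons x c) := by
    intro k f
    rw [← Fintype.sum_prod_type']
    exact (Fintype.sum_equiv (Fin.consEquiv (fun _ : Fin (k + 1) => Fin n)) _ _ (fun _ => rfl)).symm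
  rw [h 2]
  refine Finset.sum_congr rfl fun x0 _ => ?_
  rw [h 1]
  refine Finset.sum_congr rfl fun x1 _ => ?_
  rw [h 0]
  refine Finset.sum_congr rfl fun x2 _ => ?_
  rw [Fintype.sum_unique]
  congr 4

private theorem sum_cons4 {n : ℕ} (f : (Fin 4 → Fin n) → ℝ) [i : Fintype (Fin 4 → Fin n)] :
    ∑ c, f c = ∑ x0, ∑ x1, ∑ x2, ∑ x3, f ![x0, x1, x2, x3] := by
  obtain rfl : i = Pi.instFintype := Subsingleton.elim _ _
  have h : ∑ c, f c = ∑ x, ∑ c, f (Matrix.vecCons x c) := by
    rw [← Fintype.sum_prod_type']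
    exact (Fintype.sum_equiv (Fin.consEquiv (fun _ : Fin 4 => Fin n)) _ _ (fun _ => rfl)).symm
  rw [h]
  refine Finset.sum_congr rfl fun x0 _ => ?_
  rw [sum_cons3]

/-- the graph without the edge `pr` -/
private def rmE (G : SimpleGraph V) (p r : V) : SimpleGraph V where
  Adj u v := G.Adj u v ∧ ¬ (u = p ∧ v = r) ∧ ¬ (u = r ∧ v = p)
  symm := ⟨fun _ _ h => ⟨h.1.symm, fun h1 => h.2.2 ⟨h1.2, h1.1⟩, fun h1 => h.2.1 ⟨h1.2, h1.1⟩⟩⟩
  loopless := ⟨fun _ h => h.1.ne rfl⟩

private theorem prp_rmE {C : Type} {G : SimpleGraph V} {p r : V} (h : G.Adj p r) (c : V → C) :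
    Prp G c ↔ Prp (rmE G p r) c ∧ c p ≠ c r := by
  constructor
  · intro h1
    exact ⟨fun u v huv => h1 u v huv.1, h1 p r h⟩
  · rintro ⟨h1, h2⟩ u v huv
    by_cases h3 : u = p ∧ v = r
    · rw [h3.1, h3.2]
      exact h2
    · by_cases h4 : u = r ∧ v = p
      · rw [h4.1, h4.2]
        exact h2.symm
      · exact h1 u v ⟨huv, h3, h4⟩

open scoped Classical in
/-- the weighted number of colourings -/
private noncomputable def ws [Fintype V] (G : SimpleGraph V) {n : ℕ} (w : (V → Fin n) → ℝ) : ℝ :=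
  ∑ c : V → Fin n, if Prp G c then w c else 0

open scoped Classical in
private theorem rel_sum_mgG [Fintype V] (G : SimpleGraph V) {p r : V} (h : p ≠ r)
    (hna : ¬ G.Adj p r) (n : ℕ) (w : (V → Fin n) → ℝ) [Fintype ({v : V // v ≠ r} → Fin n)] :
    (∑ c : V → Fin n, if Prp G c ∧ c p = c r then w c else 0) =
      ∑ c : {v : V // v ≠ r} → Fin n,
        if Prp (mgG G p r h) c then w (c ∘ merge p r h) else 0 := by
  rw [← Finset.sum_filter, ← Finset.sum_filter]
  refine Finset.sum_nbij' (fun c v => c v.1) (fun c => c ∘ merge p r h) ?_ ?_ ?_ ?_ ?_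
  · intro c hc
    obtain ⟨h1, h2⟩ := (Finset.mem_filter.1 hc).2
    apply Finset.mem_filter.2 ⟨Finset.mem_univ _, ?_⟩
    rintro u v ⟨_, u0, v0, h3, h4, h5⟩
    have hval : ∀ z, c (merge p r h z).1 = c z := by
      intro z
      by_cases hz : z = r
      · rw [hz, merge_self]; exact h2
      · rw [merge_of_ne h hz]
    show c u.1 ≠ c v.1
    rw [← h3, ← h4, hval, hval]
    exact h1 u0 v0 h5
  · intro c hc
    have h1 := (Finset.mem_filter.1 hc).2
    refine Finset.mem_filter.2 ⟨Finset.mem_univ _, ?_, ?_⟩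
    · intro u v huv
      show c (merge p r h u) ≠ c (merge p r h v)
      apply h1
      refine ⟨?_, u, v, rfl, rfl, huv⟩
      intro h2
      rcases merge_eq_iff h u v h2 with h3 | h3 | h3
      · exact huv.ne h3
      · rw [h3.1, h3.2] at huv; exact hna huv
      · rw [h3.1, h3.2] at huv; exact hna huv.symm
    · show c (merge p r h p) = c (merge p r h r)
      rw [merge_self, merge_of_ne h h]
  · intro c hc
    obtain ⟨h1, h2⟩ := (Finset.mem_filter.1 hc).2
    funext z
    show c (merge p r h z).1 = c z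
    by_cases hz : z = r
    · rw [hz, merge_self]; exact h2
    · rw [merge_of_ne h hz]
  · intro c _
    funext v
    show c (merge p r h v.1) = c v
    rw [merge_coe]
  · intro c hc
    obtain ⟨h1, h2⟩ := (Finset.mem_filter.1 hc).2
    congr 1
    funext z
    show c z = c (merge p r h z).1
    by_cases hz : z = r
    · rw [hz, merge_self]; exact h2.symm
    · rw [merge_of_ne h hz]

private theorem ws_rec [Fintype V] (G : SimpleGraph V) {p r : V} (h : G.Adj p r) (n : ℕ)
    (w : (V → Fin n) → ℝ) [Fintype {v : V // v ≠ r}] :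
    ws G w = ws (rmE G p r) w - ws (mgG (rmE G p r) p r h.ne) (fun c => w (c ∘ merge p r h.ne)) := by
  classical
  have h0 : (∑ c : V → Fin n, if Prp (rmE G p r) c ∧ c p = c r then w c else 0) =
      ws (mgG (rmE G p r) p r h.ne) (fun c => w (c ∘ merge p r h.ne)) := by
    refine (rel_sum_mgG (rmE G p r) h.ne (fun h1 => h1.2.1 ⟨rfl, rfl⟩) n w).trans ?_
    unfold ws
    exact Finset.sum_congr (by ext c; simp) (fun c _ => rfl)
  rw [← h0]
  unfold ws
  rw [← Finset.sum_sub_distrib]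
  refine Finset.sum_congr rfl fun c _ => ?_
  have h1 := prp_rmE h c
  by_cases h2 : Prp (rmE G p r) c
  · by_cases h3 : c p = c r
    · rw [if_neg (fun h4 => (h1.1 h4).2 h3), if_pos h2, if_pos ⟨h2, h3⟩, sub_self]
    · rw [if_pos (h1.2 ⟨h2, h3⟩), if_pos h2, if_neg (fun h4 => h3 h4.2), sub_zero]
  · rw [if_neg (fun h4 => h2 (h1.1 h4).1), if_neg h2, if_neg (fun h4 => h2 h4.1), sub_zero]

open scoped Classical in
/-- number of adjacent pairs -/
private noncomputable def np [Fintype V] (G : SimpleGraph V) : ℕ :=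
  (Finset.univ.filter (fun z : V × V => G.Adj z.1 z.2)).card

private theorem np_rmE [Fintype V] {G : SimpleGraph V} {p r : V} (h : G.Adj p r) :
    np (rmE G p r) < np G := by
  classical
  unfold np
  refine Finset.card_lt_card (Finset.ssubset_iff_subset_ne.2 ⟨?_, ?_⟩)
  · intro z hz
    rw [Finset.mem_filter] at hz ⊢
    exact ⟨hz.1, hz.2.1⟩
  · intro h1
    have h2 : (p, r) ∈ Finset.univ.filter (fun z : V × V => G.Adj z.1 z.2) :=
      Finset.mem_filter.2 ⟨Finset.mem_univ _, h⟩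
    rw [← h1] at h2
    exact (Finset.mem_filter.1 h2).2.2.1 ⟨rfl, rfl⟩

private theorem np_mgG [Fintype V] (G : SimpleGraph V) {p r : V} (h : p ≠ r)
    [Fintype {v : V // v ≠ r}] : np (mgG G p r h) ≤ np G := by
  classical
  unfold np
  have h1 : (Finset.univ.filter (fun z : {v : V // v ≠ r} × {v : V // v ≠ r} =>
      (mgG G p r h).Adj z.1 z.2)) ⊆
      (Finset.univ.filter (fun z : V × V => G.Adj z.1 z.2)).image
        (fun z => (merge p r h z.1, merge p r h z.2)) := by
    rintro ⟨x, y⟩ hz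
    obtain ⟨_, _, u0, v0, h2, h3, h4⟩ := Finset.mem_filter.1 hz
    exact Finset.mem_image.2 ⟨(u0, v0), Finset.mem_filter.2 ⟨Finset.mem_univ _, h4⟩,
      Prod.ext h2 h3⟩
  exact (Finset.card_le_card h1).trans Finset.card_image_le

private theorem ws_of_empty [Fintype V] {G : SimpleGraph V} (h : ∀ u v, ¬ G.Adj u v) {n : ℕ}
    (w : (V → Fin n) → ℝ) : ws G w = ws ⊥ w := by
  have : G = ⊥ := by
    ext u v
    exact ⟨fun h1 => absurd h1 (h u v), fun h1 => absurd h1 (by simp)⟩
  rw [this]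

/-- induction over the edges -/
private theorem rel_vanish (W : (n : ℕ) → Fin n → Fin n → Fin n → Fin n → ℝ) (q : ℝ) (k : Prop)
    (hb : ∀ (V F E : Type) [Fintype V] [Fintype F] [Fintype E] (a : E → V × V) (b : E → F × F),
      IsPl a b → ∀ (f : F) (x p0 p1 p2 p3 : V) (l : List (Tok V E)), Trk a b f x l →
      marks l = [p0, p1, p2, p3] → (k → p1 = p3) →
      ∃ Q : ℝ[X], PF (fun n => ws (⊥ : SimpleGraph V)
        (fun c : V → Fin n => W n (c p0) (c p1) (c p2) (c p3))) Q ∧ Q.eval q = 0) :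
    ∀ (N : ℕ) (V F E : Type) [Fintype V] [Fintype F] [Fintype E] (a : E → V × V) (b : E → F × F),
      IsPl a b → ∀ (f : F) (x p0 p1 p2 p3 : V) (l : List (Tok V E)), Trk a b f x l →
      marks l = [p0, p1, p2, p3] → (k → p1 = p3) → ∀ (G : SimpleGraph V),
      (∀ u v, G.Adj u v → Lk a u v) → np G ≤ N →
      ∃ Q : ℝ[X], PF (fun n => ws G
        (fun c : V → Fin n => W n (c p0) (c p1) (c p2) (c p3))) Q ∧ Q.eval q = 0 := by
  classical
  intro N
  induction N with
  | zero =>
    intro V F E _ _ _ a b h f x p0 p1 p2 p3 l ht hm hk G _ hN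
    obtain ⟨Q, hQ, hq⟩ := hb V F E a b h f x p0 p1 p2 p3 l ht hm hk
    refine ⟨Q, hQ.congr fun n => ?_, hq⟩
    refine (ws_of_empty ?_ _).symm
    intro u v huv
    unfold np at hN
    have h1 := Finset.card_eq_zero.1 (Nat.le_zero.1 hN)
    have h2 : (u, v) ∈ Finset.univ.filter (fun z : V × V => G.Adj z.1 z.2) :=
      Finset.mem_filter.2 ⟨Finset.mem_univ _, huv⟩
    rw [h1] at h2
    exact absurd h2 (Finset.notMem_empty _)
  | succ N ih =>
    intro V F E _ _ _ a b h f x p0 p1 p2 p3 l ht hm hk G hG hN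
    by_cases hE : ∃ u v, G.Adj u v
    · obtain ⟨u, v, huv⟩ := hE
      obtain ⟨e0, he0⟩ := hG u v huv
      have hadj : G.Adj (a e0).1 (a e0).2 := by
        rcases he0 with ⟨h1, h2⟩ | ⟨h1, h2⟩
        · rw [h1, h2]
          exact huv
        · rw [h1, h2]
          exact huv.symm
      have hlt := np_rmE hadj
      obtain ⟨Q1, hQ1, hq1⟩ := ih V F E a b h f x p0 p1 p2 p3 l ht hm hk
        (rmE G (a e0).1 (a e0).2) (fun u v huv => hG u v huv.1) (by omega)
      obtain ⟨Q2, hQ2, hq2⟩ := ih {v : V // v ≠ (a e0).2} F {e : E // e ≠ e0}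
        (contr a e0 hadj.ne) (Pool.Agent.Helper1.PG.del b e0) (h.contract hadj.ne) f
        (merge _ _ hadj.ne x) (merge _ _ hadj.ne p0) (merge _ _ hadj.ne p1) (merge _ _ hadj.ne p2)
        (merge _ _ hadj.ne p3) (contrTok e0 (merge _ _ hadj.ne) l) (ht.contract hadj.ne)
        (by rw [marks_contrTok, hm]; rfl) (fun hk' => by rw [hk hk'])
        (mgG (rmE G (a e0).1 (a e0).2) (a e0).1 (a e0).2 hadj.ne)
        (lk_mgG (G := rmE G (a e0).1 (a e0).2) (fun u v huv => hG u v huv.1) hadj.ne)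
        (by
          have := np_mgG (rmE G (a e0).1 (a e0).2) hadj.ne
          omega)
      refine ⟨Q1 - Q2, fun n => ?_, by rw [eval_sub, hq1, hq2, sub_zero]⟩
      rw [eval_sub, hQ1 n, hQ2 n]
      exact (ws_rec G hadj n _).symm
    · push Not at hE
      obtain ⟨Q, hQ, hq⟩ := hb V F E a b h f x p0 p1 p2 p3 l ht hm hk
      exact ⟨Q, hQ.congr fun n => (ws_of_empty hE _).symm, hq⟩

private theorem ws_bot [Fintype V] {O : Type} [Fintype O] (g : O → V)
    (hg : Function.Injective g) {n : ℕ} (f : (O → Fin n) → ℝ) :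
    ws (⊥ : SimpleGraph V) (fun c : V → Fin n => f (c ∘ g)) =
      (n : ℝ) ^ (Fintype.card V - Fintype.card O) * ws (⊥ : SimpleGraph O) f := by
  classical
  unfold ws
  have h1 : ∀ {U : Type} (c : U → Fin n), Prp (⊥ : SimpleGraph U) c := by
    intro U c u v huv
    exact absurd huv (by simp)
  simp only [h1, if_true]
  exact rel_sum_inj g hg n f

private theorem inj3 {p0 p1 p2 : V} (h01 : p0 ≠ p1) (h02 : p0 ≠ p2) (h12 : p1 ≠ p2) :
    Function.Injective ![p0, p1, p2] := by
  intro i j hij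
  fin_cases i <;> fin_cases j <;> simp_all [eq_comm]

private theorem inj4 {p0 p1 p2 p3 : V} (h01 : p0 ≠ p1) (h02 : p0 ≠ p2) (h03 : p0 ≠ p3)
    (h12 : p1 ≠ p2) (h13 : p1 ≠ p3) (h23 : p2 ≠ p3) :
    Function.Injective ![p0, p1, p2, p3] := by
  intro i j hij
  fin_cases i <;> fin_cases j <;> simp_all [eq_comm]

private theorem bot3 [Fintype V] {p0 p1 p2 : V} (h01 : p0 ≠ p1) (h02 : p0 ≠ p2) (h12 : p1 ≠ p2)
    {n : ℕ} (f : Fin n → Fin n → Fin n → ℝ) :
    ws (⊥ : SimpleGraph V) (fun c : V → Fin n => f (c p0) (c p1) (c p2)) =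
      (n : ℝ) ^ (Fintype.card V - 3) * ∑ x0, ∑ x1, ∑ x2, f x0 x1 x2 := by
  classical
  have h := ws_bot ![p0, p1, p2] (inj3 h01 h02 h12) (n := n) (fun c => f (c 0) (c 1) (c 2))
  rw [Fintype.card_fin] at h
  refine h.trans ?_
  congr 1
  have h1 : ∀ (c : Fin 3 → Fin n), Prp (⊥ : SimpleGraph (Fin 3)) c := by
    intro c u v huv
    exact absurd huv (by simp)
  unfold ws
  simp only [h1, if_true]
  rw [sum_cons3]
  rfl

private theorem bot4 [Fintype V] {p0 p1 p2 p3 : V} (h01 : p0 ≠ p1) (h02 : p0 ≠ p2) (h03 : p0 ≠ p3)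
    (h12 : p1 ≠ p2) (h13 : p1 ≠ p3) (h23 : p2 ≠ p3)
    {n : ℕ} (f : Fin n → Fin n → Fin n → Fin n → ℝ) :
    ws (⊥ : SimpleGraph V) (fun c : V → Fin n => f (c p0) (c p1) (c p2) (c p3)) =
      (n : ℝ) ^ (Fintype.card V - 4) * ∑ x0, ∑ x1, ∑ x2, ∑ x3, f x0 x1 x2 x3 := by
  classical
  have h := ws_bot ![p0, p1, p2, p3] (inj4 h01 h02 h03 h12 h13 h23) (n := n)
    (fun c => f (c 0) (c 1) (c 2) (c 3))
  rw [Fintype.card_fin] at h
  refine h.trans ?_
  congr 1
  have h1 : ∀ (c : Fin 4 → Fin n), Prp (⊥ : SimpleGraph (Fin 4)) c := by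
    intro c u v huv
    exact absurd huv (by simp)
  unfold ws
  simp only [h1, if_true]
  rw [sum_cons4]
  rfl

private theorem ws_zero [Fintype V] (G : SimpleGraph V) {n : ℕ} {w : (V → Fin n) → ℝ}
    (h : ∀ c, w c = 0) : ws G w = 0 := by
  unfold ws
  refine Finset.sum_eq_zero fun c _ => ?_
  rw [h c]
  split_ifs <;> rfl

/-- the base case of `rel4` -/
private theorem base4 (V F E : Type) [Fintype V] [Fintype F] [Fintype E] (a : E → V × V)
    (b : E → F × F) (h : IsPl a b) (f : F) (x p0 p1 p2 p3 : V) (l : List (Tok V E))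
    (ht : Trk a b f x l) (hm : marks l = [p0, p1, p2, p3]) :
    ∃ Q : ℝ[X], PF (fun n => ws (⊥ : SimpleGraph V)
      (fun c : V → Fin n => w4 tau⁻¹ (c p0) (c p1) (c p2) (c p3))) Q ∧ Q.eval (tau + 1) = 0 := by
  by_cases h01 : p0 = p1
  · refine ⟨0, fun n => ?_, by simp⟩
    rw [eval_zero]
    refine (ws_zero _ fun c => ?_).symm
    unfold w4
    rw [h01, ii_self]
    ring
  by_cases h12 : p1 = p2
  · refine ⟨0, fun n => ?_, by simp⟩
    rw [eval_zero]
    refine (ws_zero _ fun c => ?_).symm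
    unfold w4
    rw [h12, ii_self]
    ring
  by_cases h23 : p2 = p3
  · refine ⟨0, fun n => ?_, by simp⟩
    rw [eval_zero]
    refine (ws_zero _ fun c => ?_).symm
    unfold w4
    rw [h23, ii_self]
    ring
  by_cases h30 : p3 = p0
  · refine ⟨0, fun n => ?_, by simp⟩
    rw [eval_zero]
    refine (ws_zero _ fun c => ?_).symm
    unfold w4
    rw [h30, ii_self]
    ring
  have hτ := tau_sq
  have hτi := tau_inv
  -- three different marks
  have three : ∀ (r0 r1 r3 : V), r0 ≠ r1 → r0 ≠ r3 → r1 ≠ r3 → ∃ Q : ℝ[X],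
      PF (fun n => ws (⊥ : SimpleGraph V)
        (fun c : V → Fin n => w4 tau⁻¹ (c r0) (c r1) (c r0) (c r3))) Q ∧ Q.eval (tau + 1) = 0 := by
    intro r0 r1 r3 k01 k03 k13
    refine ⟨X ^ (Fintype.card V - 3) * (X * (C (1 - tau⁻¹) * (X - 1) ^ 2 - C tau⁻¹ * (X - 1))),
      fun n => ?_, ?_⟩
    · beta_reduce
      rw [bot3 k01 k03 k13 (fun x0 x1 x3 => w4 tau⁻¹ x0 x1 x0 x3)]
      simp only [sum_w4, ii_self, Finset.sum_const, Finset.card_univ, Fintype.card_fin,
        nsmul_eq_mul]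
      simp only [eval_mul, eval_pow, eval_X, eval_sub, eval_C, eval_one]
      ring
    · simp only [eval_mul, eval_pow, eval_X, eval_sub, eval_C, eval_one]
      rw [hτi]
      have : (1 - (tau - 1)) * (tau + 1 - 1) ^ 2 - (tau - 1) * (tau + 1 - 1) = 0 := by
        linear_combination (-tau) * hτ
      rw [this]
      ring
  by_cases h02 : p0 = p2
  · have h13 : p1 ≠ p3 := fun h13 => h01 (noncross4 h ht hm h02 h13)
    obtain ⟨Q, hQ, hq⟩ := three p0 p1 p3 h01 (Ne.symm h30) h13
    refine ⟨Q, ?_, hq⟩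
    rw [← h02]
    exact hQ
  by_cases h13 : p1 = p3
  · obtain ⟨Q, hQ, hq⟩ := three p1 p2 p0 h12 (Ne.symm h01) (Ne.symm h02)
    refine ⟨Q, hQ.congr fun n => ?_, hq⟩
    congr 1
    funext c
    rw [← h13]
    exact (w4_rot _ _ _ _ _).symm
  · refine ⟨X ^ (Fintype.card V - 4) * (X * (X * ((X - 2) ^ 2 - C tau⁻¹ * (X - 2)) +
      (2 * (X - 2) + 1 - C tau⁻¹ * ((X - 2) ^ 2 + 2 * (X - 2) + 2)))), fun n => ?_, ?_⟩
    · beta_reduce
      rw [bot4 h02 h01 (Ne.symm h30) (Ne.symm h12) h23 h13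
        (fun x0 x2 x1 x3 => w4 tau⁻¹ x0 x1 x2 x3)]
      have e1 : ∀ x0 x2 : Fin n, ∑ x1, ∑ x3, w4 tau⁻¹ x0 x1 x2 x3 =
          (((n : ℝ) - 2) ^ 2 - tau⁻¹ * ((n : ℝ) - 2)) +
          (2 * ((n : ℝ) - 2) + 1 - tau⁻¹ * (((n : ℝ) - 2) ^ 2 + 2 * ((n : ℝ) - 2) + 2)) *
            ii x0 x2 := by
        intro x0 x2
        rw [sum_w4]
        have e2 := ii_sq x0 x2
        linear_combination (1 - tau⁻¹ * (2 * ((n : ℝ) - 2) + ii x0 x2 + 1)) * e2
      simp only [e1]
      simp only [Finset.sum_add_distrib, ← Finset.mul_sum, sum_ii, Finset.sum_const,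
        Finset.card_univ, Fintype.card_fin, nsmul_eq_mul]
      simp only [eval_mul, eval_pow, eval_X, eval_sub, eval_C, eval_one, eval_add, eval_ofNat]
      ring
    · simp only [eval_mul, eval_pow, eval_X, eval_sub, eval_C, eval_one, eval_add, eval_ofNat]
      rw [hτi]
      have : (tau + 1) * ((tau + 1 - 2) ^ 2 - (tau - 1) * (tau + 1 - 2)) +
          (2 * (tau + 1 - 2) + 1 - (tau - 1) * ((tau + 1 - 2) ^ 2 + 2 * (tau + 1 - 2) + 2)) = 0 := by
        linear_combination (-tau) * hτ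
      rw [this]
      ring

/-- the base case of `relcut` -/
private theorem base3 (q : ℝ) (V F E : Type) [Fintype V] [Fintype F] [Fintype E] (a : E → V × V)
    (b : E → F × F) (h : IsPl a b) (f : F) (x p0 p1 p2 p3 : V) (l : List (Tok V E))
    (ht : Trk a b f x l) (hm : marks l = [p0, p1, p2, p3]) (h13 : p1 = p3) :
    ∃ Q : ℝ[X], PF (fun n => ws (⊥ : SimpleGraph V)
      (fun c : V → Fin n => w3 (c p0) (c p1) (c p2) (c p3))) Q ∧ Q.eval q = 0 := by
  refine ⟨0, fun n => ?_, by simp⟩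
  rw [eval_zero]
  symm
  by_cases h01 : p0 = p1
  · refine ws_zero _ fun c => ?_
    unfold w3
    rw [h01, ii_self]
    ring
  by_cases h12 : p1 = p2
  · refine ws_zero _ fun c => ?_
    unfold w3
    rw [h12, ii_self]
    ring
  have h02 : p0 ≠ p2 := fun h02 => h01 (noncross4 h ht hm h02 h13)
  beta_reduce
  rw [← h13, bot3 (Ne.symm h01) h12 h02 (fun z x0 x2 => w3 x0 z x2 z)]
  have e1 : ∀ z x0 : Fin n, ∑ x2, w3 x0 z x2 z = 0 := by
    intro z x0
    have e2 : ∀ x2 : Fin n, w3 x0 z x2 z = (1 - ii x0 z) * ((1 - ii z x2) * (1 - ii x2 z)) -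
        ((n : ℝ) - 1) * (1 - ii x0 z) * (ii x0 x2 * ((1 - ii z x2) * (1 - ii x2 z))) := by
      intro x2
      unfold w3
      rw [ii_symm z x0]
      have e3 := ii_sq x0 z
      linear_combination ((1 - ii z x2) * (1 - ii x2 z) * (1 - ((n : ℝ) - 1) * ii x0 x2)) * e3
    simp only [e2]
    rw [Finset.sum_sub_distrib, ← Finset.mul_sum, ← Finset.mul_sum, sum_two,
      sum_pick x0 (fun x => (1 - ii z x) * (1 - ii x z)), ii_self, ii_symm z x0]
    have e3 := ii_sq x0 z
    linear_combination (-((n : ℝ) - 1) * (2 - ii x0 z)) * e3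
  simp only [e1, Finset.sum_const_zero, mul_zero]

open scoped Classical in
private theorem cnt_sum [Fintype V] (G : SimpleGraph V) (n : ℕ) :
    (cnt G n : ℝ) = ∑ c : V → Fin n, if Prp G c then (1 : ℝ) else 0 := by
  rw [← Finset.sum_filter, Finset.sum_const, nsmul_eq_mul, mul_one]
  unfold cnt
  congr 2
  ext c
  rw [mem_cols, Finset.mem_filter]
  exact ⟨fun h => ⟨Finset.mem_univ _, h⟩, fun h => h.2⟩

open scoped Classical in
private theorem eq_sum [Fintype V] (G : SimpleGraph V) (n : ℕ) (p r : V) :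
    ((Finset.univ.filter (fun c : V → Fin n =>
      (∀ u v, G.Adj u v → c u ≠ c v) ∧ c p = c r)).card : ℝ) =
      ∑ c : V → Fin n, if Prp G c then ii (c p) (c r) else 0 := by
  have h1 : ∀ c : V → Fin n, (if Prp G c then ii (c p) (c r) else 0) =
      if (∀ u v, G.Adj u v → c u ≠ c v) ∧ c p = c r then (1 : ℝ) else 0 := by
    intro c
    by_cases h2 : Prp G c
    · rw [if_pos h2]
      by_cases h3 : c p = c r
      · rw [if_pos ⟨h2, h3⟩, h3, ii_self]
      · rw [if_neg (fun h4 => h3 h4.2), ii_ne h3]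
    · rw [if_neg h2, if_neg (fun h4 => h2 h4.1)]
  simp only [h1]
  rw [← Finset.sum_filter, Finset.sum_const, nsmul_eq_mul, mul_one]

theorem rel4 [Fintype V] [Fintype F] [Fintype E] {a : E → V × V} {b : E → F × F}
    (h : IsPl a b) {f : F} {x p0 p1 p2 p3 : V} {l : List (Tok V E)} (ht : Trk a b f x l)
    (hm : marks l = [p0, p1, p2, p3]) {G : SimpleGraph V} (hG : ∀ u v, G.Adj u v → Lk a u v)
    (h01 : G.Adj p0 p1) (h12 : G.Adj p1 p2) (h23 : G.Adj p2 p3) (h30 : G.Adj p3 p0) :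
    P (tau + 1) G = tau⁻¹ * (eqv (tau + 1) G p0 p2 + eqv (tau + 1) G p1 p3) := by
  classical
  obtain ⟨Q, hQ, hq⟩ := rel_vanish (fun n => w4 tau⁻¹) (tau + 1) False
    (fun V F E _ _ _ a b h f x p0 p1 p2 p3 l ht hm _ =>
      base4 V F E a b h f x p0 p1 p2 p3 l ht hm) (np G) V F E a b h f x p0 p1 p2 p3 l ht hm
    (fun hF => hF.elim) G hG le_rfl
  obtain ⟨Q1, hQ1, hq1⟩ := eqv_sum G p0 p2
  obtain ⟨Q2, hQ2, hq2⟩ := eqv_sum G p1 p3
  have h1 : PF (fun n => ws G (fun c : V → Fin n => w4 tau⁻¹ (c p0) (c p1) (c p2) (c p3)))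
      (cp G - C tau⁻¹ * Q1 - C tau⁻¹ * Q2) := by
    intro n
    rw [eval_sub, eval_sub, eval_mul, eval_mul, eval_C, hQ1 n, hQ2 n, cp_eval, cnt_sum]
    beta_reduce
    rw [eq_sum, eq_sum, Finset.mul_sum, Finset.mul_sum, ← Finset.sum_sub_distrib,
      ← Finset.sum_sub_distrib]
    unfold ws
    refine Finset.sum_congr rfl fun c _ => ?_
    by_cases hc : Prp G c
    · rw [if_pos hc, if_pos hc, if_pos hc, if_pos hc]
      unfold w4
      beta_reduce
      rw [ii_ne (hc _ _ h01), ii_ne (hc _ _ h12), ii_ne (hc _ _ h23), ii_ne (hc _ _ h30)]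
      ring
    · rw [if_neg hc, if_neg hc, if_neg hc, if_neg hc]
      ring
  have h2 := hQ.unique h1
  rw [h2, eval_sub, eval_sub, eval_mul, eval_mul, eval_C, hq1, hq2] at hq
  unfold P
  linear_combination hq

theorem relcut [Fintype V] [Fintype F] [Fintype E] {a : E → V × V} {b : E → F × F}
    (h : IsPl a b) {f : F} {x p0 z p2 : V} {l : List (Tok V E)} (ht : Trk a b f x l)
    (hm : marks l = [p0, z, p2, z]) {G : SimpleGraph V} (hG : ∀ u v, G.Adj u v → Lk a u v)
    (h0 : G.Adj p0 z) (h2 : G.Adj p2 z) (q : ℝ) :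
    P q G = (q - 1) * eqv q G p0 p2 := by
  classical
  obtain ⟨Q, hQ, hq⟩ := rel_vanish (fun n => w3) q True
    (fun V F E _ _ _ a b h f x p0 p1 p2 p3 l ht hm hk =>
      base3 q V F E a b h f x p0 p1 p2 p3 l ht hm (hk trivial)) (np G) V F E a b h f x p0 z p2 z l
    ht hm (fun _ => rfl) G hG le_rfl
  obtain ⟨Q1, hQ1, hq1⟩ := eqv_sum G p0 p2
  have h1 : PF (fun n => ws G (fun c : V → Fin n => w3 (c p0) (c z) (c p2) (c z)))
      (cp G - (X - 1) * Q1) := by
    intro n
    rw [eval_sub, eval_mul, eval_sub, eval_X, eval_one, hQ1 n, cp_eval, cnt_sum]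
    beta_reduce
    rw [eq_sum, Finset.mul_sum, ← Finset.sum_sub_distrib]
    unfold ws
    refine Finset.sum_congr rfl fun c _ => ?_
    by_cases hc : Prp G c
    · rw [if_pos hc, if_pos hc, if_pos hc]
      unfold w3
      beta_reduce
      rw [ii_ne (hc _ _ h0), ii_ne (hc _ _ h2), ii_ne (hc _ _ h0.symm), ii_ne (hc _ _ h2.symm)]
      ring
    · rw [if_neg hc, if_neg hc, if_neg hc]
      ring
  have h3 := hQ.unique h1
  rw [h3, eval_sub, eval_mul, eval_sub, eval_X, eval_one, hq1] at hq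
  unfold P
  linear_combination hq

end Pool.Agent.SB
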