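import Pool.Agent.SB.GLoc
import Pool.Agent.SB.GFlip
import Pool.Agent.SB.GRel

/-!
# Module SB-GGold: Tutte's golden identity for plane multigraphs with faces of degree at most three

`P(G, τ + 2) = (τ + 2) τ^(3n - 10) P(G, τ + 1)^2`.

PLAN.  Write `y = τ + 2`, `κ n = y τ^(3n-10)` (integer exponent), `q1 = τ + 1`.
Strong induction: on `n = card V`, then on `card E`, then on `d = dg a v` for some vertex `v` (the
number of edges at `v`).  I.e. prove: for all `n m d` and all structures `T3 a b` with `card V = n`,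
`card E = m` and a vertex `v` with `dg a v = d` the identity holds, assuming it for smaller `n ≥ 2`,
for the same `n` and smaller `m`, and for the same `n`, `m` and smaller `d`.
* `n = 2`: `a` is connected, so `gr a = ⊤` and `P q (gr a) = q (q - 1)` (`cnt ⊤ N = N (N-1)`), and
  `y (y - 1) = κ 2 (q1 τ)^2`: `tau_sq`.
* `n ≥ 3`.  `a` is connected, so there is an edge `e` at `v`; let `x` be its other end
  (`Jn a v x e`, `v ≠ x`).  Apply `T3.loc`.
  - First alternative: `gr (del a e) = gr a` (`gr_del_par`), fewer edges.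
  - Second alternative.  `a1 = del a e`, `b1 = contr b e h0`, `G4 = gr a1`, `gr a = ad G4 v x`
    (`gr_del`; `(a e).1, (a e).2` are `v, x` or `x, v`: `ad_comm`, `eqv_symm`).  By `trk_del` (with
    `c = false`) the face `⟨(b e).1, h0⟩` of `a1` is tracked by the word `x → z → v → w → x`
    (`contrTok e id` of the four steps; the edges of these steps are not `e`), put marks:
    `[x, z, v, w]` (`trk_of_sides`).  The other faces have degree `≤ 3` (`dg_contr_ne`).
    `M q = eqv q G4 v x`, `M' q = eqv q G4 z w`.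
    `P q (gr a) = P q G4 - M q` (`P_eq_add`), consecutive marks are adjacent in `G4`.
    (M): `M y = κ (n-1) (M q1)^2`: if `v, x` are adjacent in `G4` both sides are `0` (`eqv_adj`), else no
    edge is parallel to `e`, and `M q = P q (gr (contr a e ..))` (`eqv_contr`), `T3.contract`, and
    the induction hypothesis for `n - 1 ≥ 2` vertices.
    Case `z = w`: `relcut` gives `P q G4 = (q - 1) M q` for all `q`, so `P q (gr a) = (q - 2) M q`, and
    `(y - 2) κ(n-1) = κ n (q1 - 2)^2` by `tau_sq` (`τ = τ^3 τ^(-2)`).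
    Case `z ≠ w`: `flip` for `a1` gives `T3 a' b'` with `a' = addE a1 z w`, `gr a' = ad G4 z w`
    (`gr_addE`), `card (Option {e' // e' ≠ e}) = m`, `dg a' v = dg a1 v = d - 1` (`dg_addE`,
    `dg_del_inc`).  So the identity holds for `a'` (smaller `d`):
    `P y (ad G4 z w) = κ n (P q1 (ad G4 z w))^2`.
    (M'): `M' y = κ (n-1) (M' q1)^2`: if `z, w` are adjacent in `G4` both are `0`; else contract the new
    edge `none` of `a'` (no parallel edge, as `z, w` are not adjacent in `G4`): `eqv_contr` for `a'`, `none`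
    (`gr (del a' none) = G4`: edges `some e'`), `T3.contract`, induction for `n - 1`.
    `rel4`: `P q1 G4 = τ⁻¹ (M' q1 + M q1)` (marks `x, z, v, w`: `eqv x v`, `eqv z w`).
    Now with `A = P q1 G4 - M q1`, `A' = P q1 G4 - M' q1`:
    `P y (gr a) = P y G4 - M y = P y (ad G4 z w) + M' y - M y
       = κ n (A'^2 + τ⁻³ (M' q1)^2 - τ⁻³ (M q1)^2)` and this is `κ n A^2`, because
    `A'^2 - A^2 = (M - M') (2 P q1 G4 - M - M') = (M^2 - M'^2) (2 τ⁻¹ - 1)`, `2 τ⁻¹ - 1 = τ⁻³`.
It may be convenient to state the structure with classical `Fintype` instances for the subtypes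
(`open scoped Classical`); `P`, `dg` and `eqv` do not depend on the instances
(`Subsingleton.elim`).
-/

set_option autoImplicit false

namespace Pool.Agent.SB

open Polynomial
open Pool.Agent.Helper36.BL (cp cnt cols cp_eval mem_cols IsMinor poly_ext)
open Pool.Agent.Helper1.PG
open Pool.Agent.U5 (P)

section aux

variable {V F E : Type}

/-- the identity for all structures with `n` vertices -/
private def GI (n : ℕ) : Prop :=
  ∀ (V F E : Type) [Fintype V] [Fintype F] [Fintype E] (a : E → V × V) (b : E → F × F),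
    T3 a b → Fintype.card V = n →
    P (tau + 2) (gr a) = (tau + 2) * tau ^ (3 * (n : ℤ) - 10) * P (tau + 1) (gr a) ^ 2

private theorem cnt_top [Fintype V] (hV : Fintype.card V = 2) (N : ℕ) :
    cnt (⊤ : SimpleGraph V) N = N * (N - 1) := by
  classical
  have h1 : cnt (⊤ : SimpleGraph V) N = Fintype.card (V ↪ Fin N) := by
    rw [← Fintype.card_congr (Equiv.subtypeInjectiveEquivEmbedding V (Fin N)),
      Fintype.card_subtype]
    unfold cnt
    congr 1
    ext c
    rw [mem_cols, Finset.mem_filter]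
    constructor
    · intro h
      refine ⟨Finset.mem_univ _, fun u v huv => ?_⟩
      by_contra hne
      exact h u v hne huv
    · rintro ⟨-, h⟩ u v huv huv2
      exact huv (h huv2)
  rw [h1, Fintype.card_embedding_eq, Fintype.card_fin, hV]
  show N.descFactorial 2 = _
  rw [Nat.descFactorial_succ, Nat.descFactorial_one, mul_comm]

private theorem P_top [Fintype V] (hV : Fintype.card V = 2) (q : ℝ) :
    P q (⊤ : SimpleGraph V) = q * (q - 1) := by
  have h : cp (⊤ : SimpleGraph V) = X * (X - 1) := by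
    apply poly_ext
    intro N
    rw [cp_eval, cnt_top hV, eval_mul, eval_sub, eval_X, eval_one]
    rcases N with _ | N
    · simp
    · push_cast
      ring
  show (cp (⊤ : SimpleGraph V)).eval q = _
  rw [h, eval_mul, eval_sub, eval_X, eval_one]

private theorem gr_top [Fintype V] (hV : Fintype.card V = 2) {a : E → V × V} (h : Cn a) :
    gr a = ⊤ := by
  ext u v
  rw [SimpleGraph.top_adj]
  constructor
  · exact fun h1 => h1.1
  · intro huv
    refine ⟨huv, ?_⟩
    obtain ⟨u', v', h1, h2, h3⟩ := exists_step_ne (p := fun y => y = u) (h u v) rfl huv.symm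
    have h2' : u' = u := h2
    have h3' : v' ≠ u := h3
    subst h2'
    have h4 : v' = v := by
      by_contra hne
      classical
      have h5 : ({u', v, v'} : Finset V).card ≤ 2 := by
        rw [← hV]; exact Finset.card_le_univ _
      rw [Finset.card_insert_of_notMem, Finset.card_insert_of_notMem, Finset.card_singleton] at h5
      · omega
      · rw [Finset.mem_singleton]; exact fun h6 => hne h6.symm
      · rw [Finset.mem_insert, Finset.mem_singleton]
        rintro (h6 | h6)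
        · exact huv h6
        · exact h3' h6.symm
    rw [← h4]
    exact h1

private theorem gold_two [Fintype V] (hV : Fintype.card V = 2) {a : E → V × V} (h : Cn a) :
    P (tau + 2) (gr a) = (tau + 2) * tau ^ (3 * ((2 : ℕ) : ℤ) - 10) * P (tau + 1) (gr a) ^ 2 := by
  rw [gr_top hV h, P_top hV, P_top hV]
  have h1 : tau ^ (3 * ((2 : ℕ) : ℤ) - 10) = (tau ^ 4)⁻¹ := by
    have : (3 * ((2 : ℕ) : ℤ) - 10) = -((4 : ℕ) : ℤ) := by norm_num
    rw [this, zpow_neg, zpow_natCast]
  have h2 : tau + 1 = tau ^ 2 := tau_sq.symm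
  have h3 : tau + 2 - 1 = tau ^ 2 := by rw [← h2]; ring
  have h4 : tau + 1 - 1 = tau := by ring
  rw [h1, h3, h4, h2]
  have h5 := tau_ne
  field_simp

open scoped Classical in
private theorem eqv_gold [Fintype V] [Fintype F] [Fintype E] {n : ℕ} (hn : 3 ≤ n)
    (ih : GI (n - 1)) {a : E → V × V} {b : E → F × F} (h : T3 a b)
    (hV : Fintype.card V = n) (e : E) :
    eqv (tau + 2) (gr (del a e)) (a e).1 (a e).2 =
      (tau + 2) * tau ^ (3 * (n : ℤ) - 13) *
        eqv (tau + 1) (gr (del a e)) (a e).1 (a e).2 ^ 2 := by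
  by_cases hadj : (gr (del a e)).Adj (a e).1 (a e).2
  · rw [eqv_adj hadj, eqv_adj hadj]; ring
  · have hnp : ∀ e', e' ≠ e → ¬ Par a e e' := by
      intro e' he' hp
      apply hadj
      refine ⟨h.nl e, ⟨e', he'⟩, ?_⟩
      rcases hp with ⟨h1, h2⟩ | ⟨h1, h2⟩
      · exact Or.inl ⟨h1.symm, h2.symm⟩
      · exact Or.inr ⟨h2.symm, h1.symm⟩
    have hc := card_ne (a e).2
    rw [← eqv_contr _ (h.nl e) hnp, ← eqv_contr _ (h.nl e) hnp,
      ih _ _ _ _ _ (h.contract (h.nl e) hnp) (by omega)]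
    have h1 : ((n - 1 : ℕ) : ℤ) = (n : ℤ) - 1 := by omega
    have h2 : 3 * ((n - 1 : ℕ) : ℤ) - 10 = 3 * (n : ℤ) - 13 := by rw [h1]; ring
    rw [h2]

private theorem ne_of_side {e : E} {b : E → F × F} (h0 : (b e).1 ≠ (b e).2) {c : Bool}
    {s : E × Bool} (h1 : sf b s = sf b (e, c)) (h2 : s ≠ (e, c)) : s.1 ≠ e := by
  obtain ⟨e', c'⟩ := s
  rintro h3
  dsimp only at h3
  subst h3
  cases c <;> cases c'
  · exact h2 rfl
  · exact h0 h1.symm
  · exact h0 h1
  · exact h2 rfl

private theorem gr_del_none {E' : Type} (a1 : E' → V × V) (z w : V) :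
    gr (del (addE a1 z w) none) = gr a1 := by
  ext u v
  constructor
  · rintro ⟨h1, ⟨⟨_ | e, he⟩, h2⟩⟩
    · exact absurd rfl he
    · exact ⟨h1, e, h2⟩
  · rintro ⟨h1, e, h2⟩
    exact ⟨h1, ⟨some e, by simp⟩, h2⟩

open scoped Classical in
private theorem gold_step {n : ℕ} (hn : 3 ≤ n) (ih : GI (n - 1)) : ∀ (m d : ℕ) (V F E : Type)
    [Fintype V] [Fintype F] [Fintype E] (a : E → V × V) (b : E → F × F) (v : V),
    T3 a b → Fintype.card V = n → Fintype.card E = m → dg a v = d →
    P (tau + 2) (gr a) = (tau + 2) * tau ^ (3 * (n : ℤ) - 10) * P (tau + 1) (gr a) ^ 2 := by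
  intro m
  induction m using Nat.strong_induction_on with
  | _ m ihm =>
  intro d
  induction d using Nat.strong_induction_on with
  | _ d ihd =>
  intro V F E _ _ _ a b v h hV hE hd
  -- an edge at `v`
  obtain ⟨x, e, hj, hvx⟩ : ∃ x e, Jn a v x e ∧ v ≠ x := by
    obtain ⟨w, hw⟩ : ∃ w : V, w ≠ v := by
      have : 1 < Fintype.card V := by omega
      exact Fintype.exists_ne_of_one_lt_card this v
    obtain ⟨u', x, h1, h2, h3⟩ := exists_step_ne (p := fun y => y = v) (h.pl.conn v w) rfl hw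
    have h2' : u' = v := h2
    subst h2'
    obtain ⟨e, he⟩ := h1
    exact ⟨x, e, he, fun h4 => h3 h4.symm⟩
  obtain ⟨h0, halt⟩ := h.loc (by omega) hj
  have hcE := card_ne e
  rcases halt with ⟨hT, e', he', hpar⟩ | ⟨z, w, s1, s2, s3, s4, T1, T2, hzv, hzx, hwv, hwx⟩
  · have h1 := ihm (Fintype.card {e' : E // e' ≠ e}) (by omega) _ _ _ _ _ _ v hT hV rfl rfl
    rwa [gr_del_par he' hpar] at h1
  -- the second alternative
  have hpl1 : IsPl (del a e) (contr b e h0) := h.pl.delete h0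
  have nl1 : ∀ e', (del a e e').1 ≠ (del a e e').2 := fun e' => h.nl e'.1
  have n1 := T1.nodup
  have n2 := T2.nodup
  have m1 := T1.mem
  have m2 := T2.mem
  have q1 := T1.path
  have q2 := T2.path
  have e1 : sides [Sum.inr ((e, false), x), Sum.inr (s1, z), Sum.inr (s2, v)] =
      [(e, false), s1, s2] := rfl
  have e2 : sides [Sum.inr ((e, true), v), Sum.inr (s3, w), Sum.inr (s4, x)] =
      [(e, true), s3, s4] := rfl
  rw [e1] at n1
  rw [e2] at n2
  simp only [List.nodup_cons, List.mem_cons, List.not_mem_nil, or_false, not_or] at n1 n2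
  have k1 : s1.1 ≠ e := ne_of_side h0 ((m1 s1).1 (by rw [e1]; simp)) (Ne.symm n1.1.1)
  have k2 : s2.1 ≠ e := ne_of_side h0 ((m1 s2).1 (by rw [e1]; simp)) (Ne.symm n1.1.2)
  have k3 : s3.1 ≠ e := ne_of_side h0 ((m2 s3).1 (by rw [e2]; simp)) (Ne.symm n2.1.1)
  have k4 : s4.1 ≠ e := ne_of_side h0 ((m2 s4).1 (by rw [e2]; simp)) (Ne.symm n2.1.2)
  obtain ⟨e1', c1⟩ := s1
  obtain ⟨e2', c2⟩ := s2
  obtain ⟨e3', c3⟩ := s3
  obtain ⟨e4', c4⟩ := s4
  dsimp only at k1 k2 k3 k4
  have ht1 := trk_del (c := false) h0 T1 T2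
  have hw : contrTok e (id : V → V) ([Sum.inr ((e1', c1), z), Sum.inr ((e2', c2), v)] ++
      [Sum.inr ((e3', c3), w), Sum.inr ((e4', c4), x)]) =
      [Sum.inr ((⟨e1', k1⟩, c1), z), Sum.inr ((⟨e2', k2⟩, c2), v),
        Sum.inr ((⟨e3', k3⟩, c3), w), Sum.inr ((⟨e4', k4⟩, c4), x)] := by
    show contrTok e (id : V → V) [Sum.inr ((e1', c1), z), Sum.inr ((e2', c2), v),
      Sum.inr ((e3', c3), w), Sum.inr ((e4', c4), x)] = _
    rw [contrTok_inr_ne k1, contrTok_inr_ne k2, contrTok_inr_ne k3, contrTok_inr_ne k4]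
    rfl
  rw [hw] at ht1
  obtain ⟨j1, j2, j3, j4, -⟩ := ht1.path
  set G4 : SimpleGraph V := gr (del a e) with hG4
  have a1 : G4.Adj x z := ⟨Ne.symm hzx, _, j1⟩
  have a2 : G4.Adj z v := ⟨hzv, _, j2⟩
  have a3 : G4.Adj v w := ⟨Ne.symm hwv, _, j3⟩
  have a4 : G4.Adj w x := ⟨hwx, _, j4⟩
  have hG : ∀ u v, G4.Adj u v → Lk (del a e) u v := fun _ _ h => h.2
  have ht2 : Trk (del a e) (contr b e h0) ⟨(b e).1, h0⟩ x
      [Sum.inl x, Sum.inr ((⟨e1', k1⟩, c1), z), Sum.inl z, Sum.inr ((⟨e2', k2⟩, c2), v),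
        Sum.inl v, Sum.inr ((⟨e3', k3⟩, c3), w), Sum.inl w, Sum.inr ((⟨e4', k4⟩, c4), x)] := by
    refine trk_of_sides ht1 rfl ?_
    exact ⟨rfl, j1, rfl, j2, rfl, j3, rfl, j4, rfl⟩
  -- the graph
  have hga : gr a = ad G4 v x := by
    rw [gr_del a e]
    rcases hj with ⟨g1, g2⟩ | ⟨g1, g2⟩
    · rw [g1, g2]
    · rw [g1, g2, ad_comm]
  have hM : eqv (tau + 2) G4 x v = (tau + 2) * tau ^ (3 * (n : ℤ) - 13) *
      eqv (tau + 1) G4 x v ^ 2 := by
    have h1 := eqv_gold hn ih h hV e
    rcases hj with ⟨g1, g2⟩ | ⟨g1, g2⟩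
    · rw [g1, g2] at h1
      rw [eqv_symm _ G4 x v, eqv_symm _ G4 x v]
      exact h1
    · rw [g1, g2] at h1
      exact h1
  have hPa : ∀ q, P q (gr a) = P q G4 - eqv q G4 x v := by
    intro q
    rw [hga, P_eq_add q G4 hvx, eqv_symm q G4 v x]
    ring
  have hz : tau ^ (3 * (n : ℤ) - 13) = tau ^ (3 * (n : ℤ) - 10) * (tau⁻¹) ^ 3 := by
    have : (3 * (n : ℤ) - 13) = (3 * (n : ℤ) - 10) + (-((3 : ℕ) : ℤ)) := by
      push_cast; ring
    rw [this, zpow_add₀ tau_ne, zpow_neg, zpow_natCast, inv_pow]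
  set κ : ℝ := (tau + 2) * tau ^ (3 * (n : ℤ) - 10) with hκ
  have hM' : eqv (tau + 2) G4 x v = κ * (tau⁻¹) ^ 3 * eqv (tau + 1) G4 x v ^ 2 := by
    rw [hM, hz, hκ]; ring
  have hti := tau_inv
  have hts := tau_sq
  by_cases hzw : z = w
  · subst hzw
    have hcut : ∀ q, P q G4 = (q - 1) * eqv q G4 x v := fun q =>
      relcut hpl1 ht2 rfl hG a1 a2.symm q
    rw [hPa, hPa, hcut, hcut, hM', hti]
    set M : ℝ := eqv (tau + 1) G4 x v
    have e5 : (tau - 1) ^ 3 * tau = (tau - 1) ^ 2 := by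
      linear_combination (tau ^ 2 - 2 * tau + 1) * hts
    linear_combination κ * M ^ 2 * e5
  · have hd1 : ∀ g, g ≠ (⟨(b e).1, h0⟩ : {f : F // f ≠ (b e).2}) →
        dg (contr b e h0) g ≤ 3 := by
      rintro ⟨g, hg2⟩ hg
      rw [dg_contr_ne h0 (fun h1 => hg (Subtype.ext h1)) hg2]
      exact h.d3 g
    obtain ⟨b', hT⟩ := flip hpl1 nl1 hd1 ht1 hzw
    have c1 : Fintype.card (Option {e' : E // e' ≠ e}) = m := by
      rw [Fintype.card_option]; omega
    have c2 : dg (addE (del a e) z w) v = dg (del a e) v :=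
      dg_addE (del a e) z w (Ne.symm hzv) (Ne.symm hwv)
    have c3 : dg (del a e) v + 1 = dg a v := dg_del_inc (h.nl e) hj.inc
    have hI := ihd (dg (addE (del a e) z w) v) (by omega) V _ _ (addE (del a e) z w) b' v hT hV
      c1 rfl
    rw [gr_addE] at hI
    have hMz := eqv_gold hn ih hT hV none
    rw [gr_del_none] at hMz
    have hMz' : eqv (tau + 2) G4 z w = κ * (tau⁻¹) ^ 3 * eqv (tau + 1) G4 z w ^ 2 := by
      have h1 : eqv (tau + 2) G4 z w = (tau + 2) * tau ^ (3 * (n : ℤ) - 13) *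
        eqv (tau + 1) G4 z w ^ 2 := hMz
      rw [h1, hz, hκ]; ring
    have hadd : ∀ q, P q G4 = P q (ad G4 z w) + eqv q G4 z w := fun q => P_eq_add q G4 hzw
    have hrel := rel4 hpl1 ht2 rfl hG a1 a2 a3 a4
    have hI' : P (tau + 2) (ad G4 z w) = κ * P (tau + 1) (ad G4 z w) ^ 2 := hI
    have hB : P (tau + 1) (ad G4 z w) = P (tau + 1) G4 - eqv (tau + 1) G4 z w := by
      rw [hadd (tau + 1)]; ring
    rw [hPa, hPa, hadd (tau + 2), hI', hB, hMz', hM', hrel, hti]
    set M : ℝ := eqv (tau + 1) G4 x v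
    set M' : ℝ := eqv (tau + 1) G4 z w
    have e5 : (tau - 1) ^ 3 = 2 * (tau - 1) - 1 := by
      linear_combination (tau - 2) * hts
    rw [e5]
    ring

end aux

theorem golden (V F E : Type) [Fintype V] [Fintype F] [Fintype E] (a : E → V × V)
    (b : E → F × F) (h : T3 a b) (hV : 2 ≤ Fintype.card V) :
    P (tau + 2) (gr a) = (tau + 2) * tau ^ (3 * (Fintype.card V : ℤ) - 10) *
      P (tau + 1) (gr a) ^ 2 := by
  have key : ∀ n, 2 ≤ n → GI n := by
    intro n
    induction n with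
    | zero => intro h2; omega
    | succ n ih =>
      intro h2 V F E _ _ _ a b h hV
      by_cases h3 : n + 1 = 2
      · rw [h3] at hV ⊢
        exact gold_two hV h.pl.conn
      · have hne : Nonempty V := by
          rw [← Fintype.card_pos_iff, hV]; omega
        obtain ⟨v⟩ := hne
        exact gold_step (n := n + 1) (by omega) (ih (by omega)) _ _ V F E a b v h hV rfl rfl
  exact key _ hV V F E a b h rfl

end Pool.Agent.SB
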