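import Pool.Agent.SB.GFlip
import Pool.Agent.SB.GRel
import Pool.Agent.SB.GGold

/-!
# Module SB-GPos: Tutte's inequality at `τ + 2` for the class `Pl`

PLAN.
1. `exists_T3`: let `Y` be a graph of the class `Pl` on `W`, `2 ≤ card W`, such that `Y` is edge
   maximal in `Pl`.  Then there is a `T3` structure `a, b` on `W` with `gr a = Y`.
   Take a spanning plane multigraph (`Pl.exists_spanning`), make it simple
   (`IsPl.exists_simple` with `Q := Lk a`: all `e` satisfy `Q`, links survive) so there is a loopless
   `a` with `Y ≤ gr a`; by maximality `gr a = Y` (`Pl.of_spanning`).  Among all loopless `IsPl a b` on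
   `W` with `gr a = Y` argue by strong induction on `∑ f, (dg b f - 3)` (truncated subtraction in `ℕ`).
   If some face has `dg b f ≥ 4`, take its word (`exists_trk`), which has at least four steps
   `p0 → p1 → p2 → p3 → ..`(`trk_len`), starting at `p0`; consecutive vertices are different
   (no loops).  By `noncross4` (put the four marks) not both `p0 = p2` and `p1 = p3`.  Insert the edge
   `p0 p2` (if `p0 ≠ p2`) or `p1 p3` by `insert_dg`: the graph is `ad Y p r` (`gr_addE`), in `Pl`, so
   equal to `Y` by maximality, and the sum of `dg - 3` has decreased by one: the new faces have degrees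
   `3` and `dg b f - 1`.  (For the marks `p0, p2`: `l1 = []`, `l2` has the two steps
   `p0 → p1 → p2`.  For `p1, p3`: `l1 = [step to p1]`, `l2` two steps.)
2. `pl_nonneg`: strong induction on `card W`, inside it on the number of non-adjacent pairs of `Y`.
   `card W = 0`: `P = 1`; `card W = 1`: `P q Y = q` (or: all graphs with at most one vertex have
   `cnt Y n = n ^ card W`).  If there are `p ≠ r` not adjacent with `Pl (ad Y p r)`:
   `P y Y = P y (ad Y p r) + P y (mgG Y p r _)` (`P_eq_add`, `eqv_mg`), both graphs are in `Pl`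
   (`mg_minor`, `Pl.minor`), the first has fewer non-adjacent pairs, the second fewer vertices.  Otherwise
   `Y` is edge maximal: `exists_T3` and `golden`, the right hand side is `≥ 0`.
-/

set_option autoImplicit false

namespace Pool.Agent.SB

open Polynomial
open Pool.Agent.Helper36.BL (cp cnt cols cp_eval mem_cols IsMinor poly_ext)
open Pool.Agent.Helper1.PG
open Pool.Agent.U5 (P)

/-- edge maximal in the class -/
def EMax {W : Type} (Y : SimpleGraph W) : Prop :=
  Pl Y ∧ ∀ p r, p ≠ r → Pl (ad Y p r) → Y.Adj p r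

private lemma one_step {V E : Type} : ∀ (l : List (Tok V E)), marks l = [] →
    1 ≤ (sides l).length → ∃ (s : E × Bool) (p : V) (r : List (Tok V E)),
      l = Sum.inr (s, p) :: r ∧ marks r = [] ∧ (sides r).length + 1 = (sides l).length
  | [], _, h => by simp [sides] at h
  | (Sum.inl v :: l), hm, _ => by
    have h1 : v :: marks l = [] := hm
    simp at h1
  | (Sum.inr (s, p) :: r), hm, _ => ⟨s, p, r, rfl, hm, rfl⟩

private lemma jn_ne {V E : Type} {a : E → V × V} (nl : ∀ e, (a e).1 ≠ (a e).2) {x y : V} {e : E}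
    (h : Jn a x y e) : x ≠ y := by
  rintro rfl
  rcases h with h | h
  · exact nl e (h.1.trans h.2.symm)
  · exact nl e (h.1.trans h.2.symm)

private lemma improve {W F E : Type} [Fintype W] [Nonempty W] [Fintype F] [Fintype E]
    {a : E → W × W} {b : E → F × F} (hp : IsPl a b) (nl : ∀ e, (a e).1 ≠ (a e).2)
    {f : F} (hf : 4 ≤ dg b f) :
    ∃ (p r : W) (b' : Option E → Option F × Option F), p ≠ r ∧ IsPl (addE a p r) b' ∧
      dg b' none = 3 ∧ dg b' (some f) + 1 = dg b f ∧ ∀ g, g ≠ f → dg b' (some g) = dg b g := by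
  obtain ⟨x, l, hm, ht⟩ := exists_trk hp f
  have hlen := trk_len ht
  obtain ⟨s1, p1, r1, rfl, hm1, hl1⟩ := one_step l hm (by omega)
  obtain ⟨s2, p2, r2, rfl, hm2, hl2⟩ := one_step r1 hm1 (by omega)
  obtain ⟨s3, p3, r3, rfl, hm3, hl3⟩ := one_step r2 hm2 (by omega)
  obtain ⟨s4, p4, r4, rfl, hm4, hl4⟩ := one_step r3 hm3 (by omega)
  obtain ⟨j1, j2, j3, j4, hr⟩ := ht.path
  have hcross : x ≠ p2 ∨ p1 ≠ p3 := by
    by_contra hc
    push Not at hc
    have ht' : Trk a b f x (Sum.inl x :: Sum.inr (s1, p1) :: Sum.inl p1 :: Sum.inr (s2, p2) ::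
        Sum.inl p2 :: Sum.inr (s3, p3) :: Sum.inl p3 :: Sum.inr (s4, p4) :: r4) :=
      trk_of_sides ht rfl ⟨rfl, j1, rfl, j2, rfl, j3, rfl, j4, hr⟩
    have hm' : marks (Sum.inl x :: Sum.inr (s1, p1) :: Sum.inl p1 :: Sum.inr (s2, p2) ::
        Sum.inl p2 :: Sum.inr (s3, p3) :: Sum.inl p3 :: Sum.inr (s4, p4) :: r4) =
        [x, p1, p2, p3] := by
      show [x, p1, p2, p3] ++ marks r4 = _
      rw [hm4, List.append_nil]
    exact jn_ne nl j1 (noncross4 hp ht' hm' hc.1 hc.2)
  rcases hcross with hc | hc
  · have ht' : Trk a b f x ([] ++ Sum.inl x :: ([Sum.inr (s1, p1), Sum.inr (s2, p2)] ++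
        Sum.inl p2 :: (Sum.inr (s3, p3) :: Sum.inr (s4, p4) :: r4))) :=
      trk_of_sides ht rfl ⟨rfl, j1, j2, rfl, j3, j4, hr⟩
    obtain ⟨b', h1, h2, h3, h4⟩ := insert_dg hp ht'
    refine ⟨x, p2, b', hc, h1, h2, ?_, h4⟩
    have e1 : (sides ([] : List (Tok W E))).length = 0 := rfl
    omega
  · have ht' : Trk a b f x ([Sum.inr (s1, p1)] ++ Sum.inl p1 :: ([Sum.inr (s2, p2),
        Sum.inr (s3, p3)] ++ Sum.inl p3 :: (Sum.inr (s4, p4) :: r4))) :=
      trk_of_sides ht rfl ⟨j1, rfl, j2, j3, rfl, j4, hr⟩
    obtain ⟨b', h1, h2, h3, h4⟩ := insert_dg hp ht'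
    refine ⟨p1, p3, b', hc, h1, h2, ?_, h4⟩
    have e1 : (sides ([Sum.inr (s1, p1)] : List (Tok W E))).length = 1 := rfl
    omega

theorem exists_T3 {W : Type} [Fintype W] {Y : SimpleGraph W} (h : EMax Y)
    (hW : 2 ≤ Fintype.card W) :
    ∃ (F E : Type) (_ : Fintype F) (_ : Fintype E) (a : E → W × W) (b : E → F × F),
      T3 a b ∧ gr a = Y := by
  classical
  have hne : Nonempty W := Fintype.card_pos_iff.1 (by omega)
  obtain ⟨F, E, i1, i2, a, b, hp, hl⟩ := h.1.exists_spanning
  obtain ⟨F', E', i1', i2', a', b', hp', hs, hl', -⟩ :=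
    IsPl.exists_simple (fun u v => Lk a u v) (fun u v =>
      Relation.ReflTransGen.mono (fun _ _ h => Or.inl h) _ _ (hp.toIsPlane.conn u v))
      (Fintype.card E) F E a b rfl hp (fun u v h _ => h)
  have hg : gr a' = Y := by
    apply le_antisymm
    · intro p r hpr
      apply h.2 p r hpr.1
      apply Pl.of_spanning hp'
      intro u v huv
      rcases huv with h1 | ⟨_, ⟨rfl, rfl⟩ | ⟨rfl, rfl⟩⟩
      · exact hl' u v (hl u v h1) h1.ne
      · exact hpr.2
      · exact hpr.2.symm
    · intro u v huv
      exact ⟨huv.ne, hl' u v (hl u v huv) huv.ne⟩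
  have key : ∀ (n : ℕ) (F E : Type) [Fintype F] [Fintype E] (a : E → W × W) (b : E → F × F),
      IsPl a b → (∀ e, (a e).1 ≠ (a e).2) → gr a = Y → ∑ f, (dg b f - 3) = n →
      ∃ (F E : Type) (_ : Fintype F) (_ : Fintype E) (a : E → W × W) (b : E → F × F),
        T3 a b ∧ gr a = Y := by
    intro n
    induction n using Nat.strong_induction_on with
    | _ n ih =>
      intro F E _ _ a b hp nl hg hn
      by_cases h3 : ∀ f, dg b f ≤ 3
      · exact ⟨F, E, inferInstance, inferInstance, a, b, ⟨hp, nl, h3⟩, hg⟩
      · push Not at h3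
        obtain ⟨f, hf⟩ := h3
        obtain ⟨p, r, b', hne', hp', hd1, hd2, hd3⟩ := improve hp nl (f := f) hf
        have hg' : gr (addE a p r) = ad Y p r := by rw [gr_addE, hg]
        have hadj : Y.Adj p r := by
          apply h.2 p r hne'
          rw [← hg']
          exact Pl.of_spanning hp' (fun u v huv => huv.2)
        rw [ad_eq_self (Or.inl hadj)] at hg'
        refine ih (∑ g, (dg b' g - 3)) ?_ (Option F) (Option E) (addE a p r) b' hp' ?_ hg' rfl
        · rw [← hn, Fintype.sum_option, hd1, Nat.sub_self, zero_add]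
          apply Finset.sum_lt_sum
          · intro g _
            by_cases hgf : g = f
            · rw [hgf]; omega
            · rw [hd3 g hgf]
          · exact ⟨f, Finset.mem_univ _, by omega⟩
        · rintro (_ | e)
          · exact hne'
          · exact nl e
  exact key _ F' E' a' b' hp' hs.noloop hg rfl

private lemma small_nonneg {W : Type} [Fintype W] (Y : SimpleGraph W)
    (h : Fintype.card W < 2) : 0 ≤ P (tau + 2) Y := by
  classical
  rcases isEmpty_or_nonempty W with hE | hE
  · show 0 ≤ (cp Y).eval (tau + 2)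
    rw [Pool.Agent.Helper36.BL.cp_of_isEmpty Y hE, eval_one]
    exact zero_le_one
  · have hc : Fintype.card W = 1 := by
      have := Fintype.card_pos_iff.2 hE
      omega
    have hsub : Subsingleton W := Fintype.card_le_one_iff_subsingleton.1 hc.le
    have hX : cp Y = X := by
      apply poly_ext
      intro n
      rw [cp_eval, eval_X]
      congr 1
      have h1 : cols Y n = Finset.univ := by
        ext c
        rw [mem_cols]
        constructor
        · intro _
          exact Finset.mem_univ _
        · intro _ u v huv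
          exact absurd (Subsingleton.elim u v) huv.ne
      unfold cnt
      rw [h1, Finset.card_univ, Fintype.card_fun, Fintype.card_fin, hc, pow_one]
    show 0 ≤ (cp Y).eval (tau + 2)
    rw [hX, eval_X]
    linarith [tau_pos]

theorem pl_nonneg {W : Type} [Fintype W] (Y : SimpleGraph W) (h : Pl Y) :
    0 ≤ P (tau + 2) Y := by
  classical
  have key : ∀ (n m : ℕ) (W : Type) [Fintype W] (Y : SimpleGraph W), Fintype.card W = n →
      (Finset.univ.filter (fun p : W × W => ¬ Y.Adj p.1 p.2)).card = m → Pl Y →
      0 ≤ P (tau + 2) Y := by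
    intro n
    induction n using Nat.strong_induction_on with
    | _ n ihn =>
      intro m
      induction m using Nat.strong_induction_on with
      | _ m ihm =>
        intro W _ Y hn hm hY
        by_cases h2 : Fintype.card W < 2
        · exact small_nonneg Y h2
        by_cases hmax : ∀ p r, p ≠ r → Pl (ad Y p r) → Y.Adj p r
        · obtain ⟨F, E, i1, i2, a, b, ht, hg⟩ := exists_T3 ⟨hY, hmax⟩ (by omega)
          rw [← hg, golden W F E a b ht (by omega)]
          have h3 : 0 < tau ^ (3 * (Fintype.card W : ℤ) - 10) := zpow_pos tau_pos _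
          have h4 : 0 < tau + 2 := by linarith [tau_pos]
          exact mul_nonneg (mul_nonneg h4.le h3.le) (sq_nonneg _)
        · push Not at hmax
          obtain ⟨p, r, hpr, hPl, hna⟩ := hmax
          rw [P_eq_add _ _ hpr, eqv_mg _ _ hpr hna]
          apply add_nonneg
          · refine ihm _ ?_ W (ad Y p r) hn rfl hPl
            rw [← hm]
            apply Finset.card_lt_card
            refine Finset.ssubset_iff_of_subset ?_ |>.2 ⟨(p, r), ?_, ?_⟩
            · intro z hz
              rw [Finset.mem_filter] at hz ⊢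
              exact ⟨hz.1, fun h => hz.2 (Or.inl h)⟩
            · rw [Finset.mem_filter]
              exact ⟨Finset.mem_univ _, hna⟩
            · rw [Finset.mem_filter]
              intro h
              exact h.2 (Or.inr ⟨hpr, Or.inl ⟨rfl, rfl⟩⟩)
          · have hc := card_ne r
            exact ihn (n - 1) (by omega) _ _ (mgG Y p r hpr) (by omega) rfl
              (hPl.minor (mg_minor Y hpr))
  exact key _ _ W Y rfl rfl h

end Pool.Agent.SB
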