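import Pool.Agent.SB.Disc
import Pool.Agent.SB.GPos
import Pool.Agent.Helper1.PG.Sep
import Pool.Agent.U5.Glue

/-!
# Minimal counterexample: definitions
-/

set_option autoImplicit false

noncomputable section

namespace Pool.Agent.SB

open Pool.Agent.Helper1.PG
open Pool.Agent.Helper36.BL (cp cnt cols cp_eval mem_cols IsMinor)
open Pool.Agent.U5 (P)

/-- no clique with at most three vertices separates -/
def CF {V : Type} (G : SimpleGraph V) : Prop :=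
  ∀ T : Finset V, T.card ≤ 3 → (∀ x ∈ T, ∀ y ∈ T, x ≠ y → G.Adj x y) →
    ∀ p r, p ∉ T → r ∉ T → Relation.ReflTransGen (fun s t => G.Adj s t ∧ s ∉ T ∧ t ∉ T) p r

/-- minimal counterexample -/
structure MinC {V : Type} [Fintype V] (G : SimpleGraph V) : Prop where
  four : 4 ≤ Fintype.card V
  emax : EMax G
  cf : CF G
  hmin : Hmin (Fintype.card V)
  lt : P (tau + 3) G < cc (Fintype.card V)

/-- the neighbours of `v` in cyclic order; they span a cycle -/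
structure Link {V : Type} (G : SimpleGraph V) (v : V) {d : ℕ} (g : ZMod d → V) : Prop where
  inj : Function.Injective g
  adj : ∀ x, G.Adj v x ↔ ∃ i, x = g i
  cyc : ∀ i j, G.Adj (g i) (g j) ↔ (j = i + 1 ∨ i = j + 1)

/-- triangulations of the sphere -/
structure Tri {V : Type} [Fintype V] (G : SimpleGraph V) (dg : V → ℕ)
    (g : (v : V) → ZMod (dg v) → V) : Prop where
  three : ∀ v, 3 ≤ dg v
  link : ∀ v, Link G v (g v)
  euler : ∑ v, (6 - (dg v : ℤ)) = 12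

/-- A window: the slots `0, …, k - 1` are the ring, the slots `k, …, n - 1` are inner; `E` is the list
of the edges with an inner end. -/
structure Wdw {V : Type} (k n : ℕ) (E : List (ℕ × ℕ)) (G : SimpleGraph V) (f : ℕ → V) : Prop where
  inj : ∀ i j, i < n → j < n → f i = f j → i = j
  nh : ∀ i, k ≤ i → i < n → ∀ x, G.Adj (f i) x ↔
    ∃ j, j < n ∧ ((i, j) ∈ E ∨ (j, i) ∈ E) ∧ x = f j
  ring : ∀ i, i < k → G.Adj (f i) (f ((i + 1) % k))

/-- the inner vertices of a window -/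
def WK {V : Type} (k n : ℕ) (f : ℕ → V) (x : V) : Prop := ∃ i, k ≤ i ∧ i < n ∧ x = f i

/-- the slots `i`, `j` are joined by an edge with an inner end -/
def eIn (E : List (ℕ × ℕ)) (i j : ℕ) : Prop := (i, j) ∈ E ∨ (j, i) ∈ E

/-- the slots `i`, `j` are neighbours on the ring -/
def eRg (k i j : ℕ) : Prop := (i < k ∧ j = (i + 1) % k) ∨ (j < k ∧ i = (j + 1) % k)

/-- the triangle `t` contains the slot `i` -/
def tIn (t : ℕ × ℕ × ℕ) (i : ℕ) : Prop := i = t.1 ∨ i = t.2.1 ∨ i = t.2.2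

instance (E : List (ℕ × ℕ)) (i j : ℕ) : Decidable (eIn E i j) := by unfold eIn; infer_instance
instance (k i j : ℕ) : Decidable (eRg k i j) := by unfold eRg; infer_instance
instance (t : ℕ × ℕ × ℕ) (i : ℕ) : Decidable (tIn t i) := by unfold tIn; infer_instance

/-- the table of the edges `E` and the triangles `T` at the inner slots is right -/
structure TblOK (k n : ℕ) (E : List (ℕ × ℕ)) (T : List (ℕ × ℕ × ℕ)) : Prop where
  k3 : 3 ≤ k
  kn : k < n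
  e : ∀ p ∈ E, p.1 < p.2 ∧ k ≤ p.2 ∧ p.2 < n
  eN : E.Nodup
  t : ∀ t ∈ T, t.1 < n ∧ t.2.1 < n ∧ t.2.2 < n ∧ t.1 ≠ t.2.1 ∧ t.2.1 ≠ t.2.2 ∧ t.1 ≠ t.2.2 ∧
    (k ≤ t.1 ∨ k ≤ t.2.1 ∨ k ≤ t.2.2) ∧
    (eIn E t.1 t.2.1 ∨ eRg k t.1 t.2.1) ∧ (eIn E t.2.1 t.2.2 ∨ eRg k t.2.1 t.2.2) ∧
    (eIn E t.1 t.2.2 ∨ eRg k t.1 t.2.2)
  tN : T.Nodup
  tE : ∀ s ∈ T, ∀ t ∈ T, (tIn s t.1 ∧ tIn s t.2.1 ∧ tIn s t.2.2) → s = t
  two : ∀ p ∈ E, ∃ s ∈ T, ∃ t ∈ T, s ≠ t ∧ tIn s p.1 ∧ tIn s p.2 ∧ tIn t p.1 ∧ tIn t p.2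
  one : ∀ i, i < k → ∃ t ∈ T, tIn t i ∧ tIn t ((i + 1) % k) ∧
    ∀ s ∈ T, tIn s i → tIn s ((i + 1) % k) → s = t
  count : T.length + (n - k) = E.length + 1
  conn : ∀ i, k ≤ i → i < n → ∃ p ∈ E, p.1 = i ∨ p.2 = i

/-- slots of the program: the slot `k` is not used -/
def sl (k i : ℕ) : ℕ := if i < k then i else i + 1

/-- constraint code of an edge -/
def wcode (k : ℕ) (p : ℕ × ℕ) : ℕ := cd 0 (sl k p.1) (sl k p.2)

/-- a configuration with `k` ring vertices and `m` inner vertices -/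
structure Conf (k m : ℕ) (cs : List ℕ) (al : List (ℕ × ℕ)) {V W : Type} [Fintype V] [Fintype W]
    (G : SimpleGraph V) (H : SimpleGraph W) (rr : ℕ → W) : Prop where
  card : Fintype.card W + m = Fintype.card V
  disc : Disc H ((List.range k).map rr)
  inj : ∀ i j, i < k → j < k → rr i = rr j → i = j
  ring : ∀ i, i < k → H.Adj (rr i) (rr ((i + 1) % k))
  na : ∀ p ∈ al, ¬ H.Adj (rr p.1) (rr p.2)
  cnt : ∀ N : ℕ, (Helper36.BL.cnt G N : ℝ) = ∑ c ∈ cols H N, cv k m cs (fun i => c (rr i))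

/-! ### the two configurations -/

/-- two adjacent vertices `6`, `7` of degree five -/
def E55 : List (ℕ × ℕ) := [(0, 6), (1, 6), (2, 6), (3, 6), (6, 7), (3, 7), (4, 7), (5, 7), (0, 7)]

def T55 : List (ℕ × ℕ × ℕ) := [(0, 1, 6), (1, 2, 6), (2, 3, 6), (3, 6, 7), (3, 4, 7), (4, 5, 7),
  (0, 5, 7), (0, 6, 7)]

/-- non-adjacent pairs of ring vertices -/
def al55 : List (ℕ × ℕ) := [(0, 2), (0, 3), (1, 3), (3, 5), (0, 4), (1, 5), (2, 4)]

/-- a vertex `8` of degree five, vertices `9` and `10` of degree six, a triangle -/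
def E566 : List (ℕ × ℕ) := [(0, 8), (1, 8), (2, 8), (8, 9), (8, 10), (9, 10), (2, 9), (3, 9),
  (4, 9), (5, 9), (5, 10), (6, 10), (7, 10), (0, 10)]

def T566 : List (ℕ × ℕ × ℕ) := [(0, 1, 8), (1, 2, 8), (2, 8, 9), (8, 9, 10), (0, 8, 10),
  (2, 3, 9), (3, 4, 9), (4, 5, 9), (5, 9, 10), (5, 6, 10), (6, 7, 10), (0, 7, 10)]

def al566 : List (ℕ × ℕ) := [(0, 2), (0, 5), (0, 6), (1, 3), (1, 7), (2, 4), (2, 5), (3, 5),
  (4, 6), (5, 7)]

end Pool.Agent.SB
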