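import Pool.Agent.SB.DatA
import Pool.Agent.SB.CDef

/-!
# The certificate for two adjacent vertices of degree five
-/

set_option autoImplicit false
set_option maxRecDepth 100000

noncomputable section

namespace Pool.Agent.SB

open Pool.Agent.U5C
open Pool.Agent.Helper1.PG (Fill)

theorem csa_eq : E55.map (wcode 6) = csa := by decide +kernel

private theorem chkA : chkT (fun _ c => z4 c)
    (zTs neg4 my4 add4 neg4 mq4 add4 (fun c => c) 12 Ra Ca 31 5 61 6 Aa Sa
      (topT neg4 mq4 add4 12 Ra Ca 61 6 6 Aa (List.range 6) ((1000000, 0), (0, 0)) csa 2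
        (TDa.map TEnt.ent))) = true := by
  decide +kernel

private theorem pwA : PW 12 Ra Ca := by
  refine ⟨by norm_num, by decide +kernel, by decide +kernel⟩

private theorem SA : ∀ S ∈ Sa, SOK 12 6 Aa S := by
  have h1 : allB (sokB 12 6 Aa) Sa = true := by decide +kernel
  have h2 : allB (fun S => allB (eokB 12 6) S.es) Sa = true := by decide +kernel
  exact fun S hS => sokB_spec (allB_spec h1 S hS) (allB_spec h2 S hS)

private theorem nA : ∀ S ∈ Sa, ∀ e ∈ S.es, 0 ≤ v4 e.c := by
  have h2 : allB (fun S : Sec K4 => allB (fun e : Ent K4 => nn4 e.c) S.es) Sa = true := by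
    decide +kernel
  exact fun S hS e he => nn4_spec (allB_spec (allB_spec h2 S hS) e he)

theorem certA : Cert 12 Ra Ca 31 5 61 6 6 2 Aa 1000000 (E55.map (wcode 6)) al55 TDa Sa where
  cpw := pwA
  cw := by norm_num
  ck := by norm_num
  ckm := by norm_num
  cA := aokB_spec (by decide +kernel)
  ccs := by
    have h : allB (cokB 12) (E55.map (wcode 6)) = true := by decide +kernel
    exact fun x hx => cokB_spec (allB_spec h x hx)
  cT := by
    have h : allB (tokB 12 6 2 al55) TDa = true := by decide +kernel
    exact fun x hx => tokB_spec (allB_spec h x hx)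
  cS := SA
  cnn := nA
  cchk := by
    rw [csa_eq]
    exact chkA
  csum := by
    refine sum_tau [(489107, 4), (608976, 4), (18127, 3), (961917, 3), (787724, 4), (769770, 4),
      (248, 3), (409918, 2), (73819, 2), (97109, 2), (418303, 2)] (by decide +kernel) ?_
    norm_num
  cD := by norm_num

end Pool.Agent.SB
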