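import Pool.Agent.SB.DatB1
import Pool.Agent.SB.DatB2
import Pool.Agent.SB.DatB3
import Pool.Agent.SB.DatB4
import Pool.Agent.SB.DatB5
import Pool.Agent.SB.DatB6
import Pool.Agent.SB.DatB7
import Pool.Agent.SB.DatB8

/-!
# The certificate for a triangle with degrees five, six, six: the total
-/

set_option autoImplicit false
set_option maxRecDepth 100000

noncomputable section

namespace Pool.Agent.SB

open Pool.Agent.U5C

theorem chkB : chkT (fun _ c => z4 c)
    (zTs neg4 my4 add4 neg4 mq4 add4 (fun c => c) 17 Rb Cb 31 5 251 8 Ab []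
      (insAll add4 251 (negs [Xb1, Xb2, Xb3, Xb4, Xb5, Xb6, Xb7, Xb8])
      (topT neg4 mq4 add4 17 Rb Cb 251 8 8 Ab (List.range 8) ((100000000, 0), (0, 0)) csb 3
        (TDb.map TEnt.ent)))) = true := by
  decide +kernel

end Pool.Agent.SB
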