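import Pool.Agent.SB.DatB5

/-!
# The certificate for a triangle with degrees five, six, six: group 5
-/

set_option autoImplicit false
set_option maxRecDepth 100000

noncomputable section

namespace Pool.Agent.SB

open Pool.Agent.U5C

theorem grpB5 : Grp 17 Rb Cb 31 5 251 8 8 Ab Xb5 Sb5 where
  gS := by
    have h1 : allB (sokB 17 8 Ab) Sb5 = true := by decide +kernel
    have h2 : allB (fun S => allB (eokB 17 8) S.es) Sb5 = true := by decide +kernel
    exact fun S hS => sokB_spec (allB_spec h1 S hS) (allB_spec h2 S hS)
  gnn := by
    have h2 : allB (fun S : Sec K4 => allB (fun e : Ent K4 => nn4 e.c) S.es) Sb5 = true := by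
      decide +kernel
    exact fun S hS e he => nn4_spec (allB_spec (allB_spec h2 S hS) e he)
  gchk := by
    decide +kernel

end Pool.Agent.SB
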