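import Pool.Agent.SB.CertB1
import Pool.Agent.SB.CertB2
import Pool.Agent.SB.CertB3
import Pool.Agent.SB.CertB4
import Pool.Agent.SB.CertB5
import Pool.Agent.SB.CertB6
import Pool.Agent.SB.CertB7
import Pool.Agent.SB.CertB8
import Pool.Agent.SB.CertB0
import Pool.Agent.SB.CDef

/-!
# The certificate for a triangle with degrees five, six, six
-/

set_option autoImplicit false
set_option maxRecDepth 100000

noncomputable section

namespace Pool.Agent.SB

open Pool.Agent.U5C

theorem csb_eq : E566.map (wcode 8) = csb := by decide +kernel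

private theorem pwB : PW 17 Rb Cb := by
  refine ⟨by norm_num, by decide +kernel, by decide +kernel⟩

theorem certB : CertG 17 Rb Cb 31 5 251 8 8 3 Ab 100000000 (E566.map (wcode 8)) al566 TDb
    [Xb1, Xb2, Xb3, Xb4, Xb5, Xb6, Xb7, Xb8] where
  cpw := pwB
  cw := by norm_num
  ck := by norm_num
  ckm := by norm_num
  cA := aokB_spec (by decide +kernel)
  ccs := by
    have h : allB (cokB 17) (E566.map (wcode 8)) = true := by decide +kernel
    exact fun x hx => cokB_spec (allB_spec h x hx)
  cT := by
    have h : allB (tokB 17 8 3 al566) TDb = true := by decide +kernel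
    exact fun x hx => tokB_spec (allB_spec h x hx)
  cX := by
    intro X hX
    simp only [List.mem_cons, List.not_mem_nil, or_false] at hX
    rcases hX with rfl | rfl | rfl | rfl | rfl | rfl | rfl | rfl
    · exact ⟨Sb1, grpB1⟩
    · exact ⟨Sb2, grpB2⟩
    · exact ⟨Sb3, grpB3⟩
    · exact ⟨Sb4, grpB4⟩
    · exact ⟨Sb5, grpB5⟩
    · exact ⟨Sb6, grpB6⟩
    · exact ⟨Sb7, grpB7⟩
    · exact ⟨Sb8, grpB8⟩
  cchk := by
    rw [csb_eq]
    exact chkB
  csum := by
    refine sum_tau [(35590742, 5), (3064194, 4), (12280796, 4), (13292127, 4), (6959518, 4),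
      (5204007, 4), (596581, 5), (10105672, 4), (62498083, 5), (3912706, 5), (48927465, 5),
      (75492478, 4), (11938182, 4), (13263525, 4), (43210949, 5), (608958, 4), (6747167, 4),
      (83556604, 4), (80213897, 4), (10527048, 4), (57888, 4), (3435245, 4), (944487, 4),
      (81451392, 4), (13285661, 3), (17401236, 2), (974542, 3), (12687944, 3), (4247344, 3),
      (19105322, 2)] (by decide +kernel) ?_
    norm_num
  cD := by norm_num

end Pool.Agent.SB
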