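import Pool.Agent.SB.CertDef

/-!
# Certificates in groups of sectors: definitions
-/

set_option autoImplicit false

noncomputable section

namespace Pool.Agent.SB

open Pool.Agent.U5C
open Pool.Agent.Helper1.PG (Fill)

/-- decode a coefficient, `64` bits for each of the four numbers -/
def decK (e : ℕ) : K4 :=
  frc (Nat.mod e 18446744073709551616) fun a =>
  frc (Nat.mod (Nat.div e 18446744073709551616) 18446744073709551616) fun a' =>
  frc (Nat.div e 340282366920938463463374607431768211456) fun e =>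
  frc (Nat.mod e 18446744073709551616) fun b =>
  frc (Nat.div e 18446744073709551616) fun b' => ((a, a'), (b, b'))

/-- the combination of the patterns `ps` with the coefficients `cs` -/
def zipX (ps cs : List ℕ) : FL K4 :=
  @List.rec ℕ (fun _ => List ℕ → FL K4) (fun _ => FL.nil)
    (fun s _ ih cs => @List.rec ℕ (fun _ => FL K4) FL.nil
      (fun c cs' _ => FL.cons s (decK c) (ih cs')) cs) ps cs

/-- put the opposite of `X` in front of `Y` -/
def negApp (X Y : FL K4) : FL K4 :=
  @FL.rec K4 (fun _ => FL K4) Y (fun s c _ ih => FL.cons s (neg4 c) ih) X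

/-- the opposite of the sum -/
def negs (Xs : List (FL K4)) : FL K4 :=
  @List.rec (FL K4) (fun _ => FL K4) FL.nil (fun X _ ih => negApp X ih) Xs

/-- a group of sectors whose total is `X` -/
structure Grp (w R C p n p' n' k AN : ℕ) (X : FL K4) (Ss : List (Sec K4)) : Prop where
  gS : ∀ S ∈ Ss, SOK w k AN S
  gnn : ∀ S ∈ Ss, ∀ e ∈ S.es, 0 ≤ v4 e.c
  gchk : chkT (fun _ c => z4 c) (zTs neg4 my4 add4 neg4 mq4 add4 (fun c => c) w R C p n p' k AN
      Ss (insAll add4 p' X (topT neg4 mq4 add4 w R C p' n' k AN (List.range k)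
        ((0, 0), (0, 0)) [] 0 []))) = true

/-- a certificate -/
structure CertG (w R C p n p' n' k m AN D : ℕ) (cs : List ℕ) (al : List (ℕ × ℕ))
    (TD : List TEnt) (Xs : List (FL K4)) : Prop where
  cpw : PW w R C
  cw : w ≤ 32
  ck : 0 < k
  ckm : k + m < w
  cA : AOK w k AN
  ccs : ∀ x ∈ cs, COk w (fun i => i < w) x
  cT : ∀ t ∈ TD, TOK w k m al t
  cX : ∀ X ∈ Xs, ∃ Ss, Grp w R C p n p' n' k AN X Ss
  cchk : chkT (fun _ c => z4 c) (zTs neg4 my4 add4 neg4 mq4 add4 (fun c => c) w R C p n p' k AN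
      [] (insAll add4 p' (negs Xs) (topT neg4 mq4 add4 w R C p' n' k AN (List.range k)
        ((D, 0), (0, 0)) cs m (TD.map TEnt.ent)))) = true
  csum : (D : ℝ) ≤ (TD.map fun t => (t.l : ℝ) * tau⁻¹ ^ t.j m).sum
  cD : 0 < D

end Pool.Agent.SB
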