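import Pool.Agent.SB.EId

/-!
# The identity proved by a certificate, with additional combinations of patterns

`lam H rr w s` is the value at `τ + 3` of the polynomial which counts the colourings of `H` in which
the ring satisfies the pattern `s`.
-/

set_option autoImplicit false

noncomputable section

namespace Pool.Agent.SB

open Polynomial
open Pool.Agent.U5C
open Pool.Agent.Helper1.PG (Fill)
open Pool.Agent.Helper36.BL (cp cnt cols cp_eval mem_cols)

/-- value of a pattern -/
def lam {V : Type} [Fintype V] (H : SimpleGraph V) (rr : ℕ → V) (w s : ℕ) : ℝ :=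
  (Classical.choose (pat_poly H rr w s)).eval (tau + 3)

private theorem lin_zero' {K : Type} (ι : K → ℝ) (Λ : ℕ → ℝ) (L : FL K)
    (h : AllCL (fun _ c => ι c = 0) L) : lin ι Λ L = 0 := by
  induction L with
  | nil => rfl
  | cons s c L ih => rw [lin_cons, h.1, ih h.2, zero_mul, add_zero]

private theorem linT_zero' {K : Type} (ι : K → ℝ) (Λ : ℕ → ℝ) (T : Tr K)
    (h : AllC (fun _ c => ι c = 0) T) : linT ι Λ T = 0 := by
  induction T with
  | lf L => exact lin_zero' ι Λ L h
  | nd l r ihl ihr => rw [linT_nd, ihl h.1, ihr h.2, add_zero]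

private theorem map_cR_eval (X : FL K4) :
    (X.map cR).map (fun c : ℝ[X] => c.eval (tau + 3)) = X.map v4 := by
  induction X with
  | nil => rfl
  | cons s c X ih =>
    rw [FL.map_cons, FL.map_cons, FL.map_cons, ih]
    congr 1
    rw [cR, eval_C]

theorem coef_zero2 {w R C p n p' n' k AN mC : ℕ} {U0 : List ℕ} {D : K4} {csC : List ℕ}
    {Ts : List (Ent K4)} {Ss : List (Sec K4)} {X : FL K4}
    (hchk : chkT (fun _ c => z4 c) (zTs neg4 my4 add4 neg4 mq4 add4 (fun c => c) w R C p n p' k AN
      Ss (insAll add4 p' X (topT neg4 mq4 add4 w R C p' n' k AN U0 D csC mC Ts))) = true)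
    (Λ : ℕ → ℝ) :
    linT (fun c : ℝ[X] => c.eval (tau + 3)) Λ
      (zTs nR mR aR nR mR aR fR w R C p n p' k AN (Ss.map (Sec.map cR))
        (insAll aR p' (X.map cR)
          (topT nR mR aR w R C p' n' k AN U0 (cR D) csC mC (Ts.map (Ent.map cR))))) = 0 := by
  have h4 := allC_of_chk hchk
  have h5 := linT_zero' v4 Λ _ (AllC.imp (fun _ c hc => z4_spec hc) h4)
  have h6 := linT_map (φ := v4) (fun c : ℝ => c) Λ
    (zTs neg4 my4 add4 neg4 mq4 add4 (fun c => c) w R C p n p' k AN
      Ss (insAll add4 p' X (topT neg4 mq4 add4 w R C p' n' k AN U0 D csC mC Ts)))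
  have h7 := linT_map (φ := fun c : ℝ[X] => c.eval (tau + 3)) (fun c : ℝ => c) Λ
    (zTs nR mR aR nR mR aR fR w R C p n p' k AN (Ss.map (Sec.map cR))
        (insAll aR p' (X.map cR)
          (topT nR mR aR w R C p' n' k AN U0 (cR D) csC mC (Ts.map (Ent.map cR)))))
  have hf : ∀ c : ℝ[X], (fR c).eval (tau + 3) = c.eval (tau + 2) := by
    intro c
    rw [fR_eval]
    congr 1
    ring
  rw [map_zTs hmRy hmRq (f1 := fun c => c) hf, map_insAll hmRq, map_topT hmRq] at h7
  rw [map_zTs hm4y hm4q (f := fun c => c) (f1 := fun c => c) (fun _ => rfl), map_insAll hm4q,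
    map_topT hm4q] at h6
  have hS : (Ss.map (Sec.map cR)).map (Sec.map (fun c : ℝ[X] => c.eval (tau + 2))) =
      Ss.map (Sec.map v4) := by
    rw [List.map_map]
    refine List.map_congr_left fun S _ => ?_
    show Sec.mk S.J S.U S.adj ((S.es.map (Ent.map cR)).map
      (Ent.map (fun c : ℝ[X] => c.eval (tau + 2)))) = Sec.mk S.J S.U S.adj (S.es.map (Ent.map v4))
    rw [List.map_map]
    congr 1
    refine List.map_congr_left fun e _ => ?_
    show Ent.mk ((cR e.c).eval (tau + 2)) e.P e.T = Ent.mk (v4 e.c) e.P e.T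
    rw [cR, eval_C]
  have hT : (Ts.map (Ent.map cR)).map (Ent.map (fun c : ℝ[X] => c.eval (tau + 3))) =
      Ts.map (Ent.map v4) := by
    rw [List.map_map]
    refine List.map_congr_left fun e _ => ?_
    show Ent.mk ((cR e.c).eval (tau + 3)) e.P e.T = Ent.mk (v4 e.c) e.P e.T
    rw [cR, eval_C]
  have hX := map_cR_eval X
  have hD : (cR D).eval (tau + 3) = v4 D := by rw [cR, eval_C]
  rw [hS, hT, hD, hX] at h7
  rw [← h7, h6]
  exact h5

private theorem lin_eval' {Λ : ℕ → ℝ[X]} (x : ℝ) (L : FL ℝ[X]) :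
    (lin (fun c : ℝ[X] => c) Λ L).eval x =
      lin (fun c : ℝ[X] => c.eval x) (fun s => (Λ s).eval x) L := by
  induction L with
  | nil => simp
  | cons s c L ih => simp [ih]

private theorem lin_sum' {ι K : Type} (S : Finset ι) (g : K → ℝ) (Λ : ι → ℕ → ℝ) (L : FL K) :
    ∑ c ∈ S, lin g (Λ c) L = lin g (fun s => ∑ c ∈ S, Λ c s) L := by
  induction L with
  | nil => simp
  | cons s c L ih =>
    simp only [lin_cons, Finset.sum_add_distrib, ih, Finset.mul_sum]

private theorem v4_cR' (c : K4) (x : ℝ) : (cR c).eval x = v4 c := by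
  unfold cR
  rw [eval_C]

private theorem PF_listSum' {α : Type} (L : List α) (f : α → ℕ → ℝ) (g : α → ℝ[X])
    (h : ∀ a ∈ L, PF (f a) (g a)) : PF (fun N => (L.map fun a => f a N).sum) (L.map g).sum := by
  induction L with
  | nil =>
    intro n
    simp
  | cons a L ih =>
    intro n
    have h1 := ih (fun b hb => h b (List.mem_cons_of_mem _ hb)) n
    have h2 := h a (List.mem_cons_self ..) n
    simp only [List.map_cons, List.sum_cons, eval_add]
    rw [h1, h2]

private theorem eval_listSum2 {α : Type} (L : List α) (g : α → ℝ[X]) (x : ℝ) :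
    ((L.map g).sum).eval x = (L.map fun a => (g a).eval x).sum := by
  induction L with
  | nil => simp
  | cons a L ih => simp only [List.map_cons, List.sum_cons, eval_add, ih]

private theorem sum_list_comm2 {α β : Type} (s : Finset β) (L : List α) (f : α → β → ℝ) :
    ∑ b ∈ s, (L.map fun a => f a b).sum = (L.map fun a => ∑ b ∈ s, f a b).sum := by
  induction L with
  | nil => simp
  | cons a L ih => simp only [List.map_cons, List.sum_cons, Finset.sum_add_distrib, ih]

theorem engine_id2 {w R C p n p' n' k AN mC : ℕ} (h : PW w R C) (hw : w ≤ 32) (hk0 : 0 < k)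
    (hk : k + mC < w) (hA : AOK w k AN) {D : K4} {csC : List ℕ}
    (hcs : ∀ x ∈ csC, COk w (fun i => i < w) x) {Ts : List (Ent K4)}
    (hT : ∀ e ∈ Ts, k + e.P.length < w) {Ss : List (Sec K4)} (hS : ∀ S ∈ Ss, SOK w k AN S)
    (X0 : FL K4)
    (hchk : chkT (fun _ c => z4 c) (zTs neg4 my4 add4 neg4 mq4 add4 (fun c => c) w R C p n p' k AN
      Ss (insAll add4 p' X0
        (topT neg4 mq4 add4 w R C p' n' k AN (List.range k) D csC mC Ts))) = true)
    {V : Type} [Fintype V] (H : SimpleGraph V) (rr : ℕ → V)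
    (hring : ∀ i, i < k → H.Adj (rr i) (rr ((i + 1) % k))) (pC : ℝ[X])
    (hpC : PF (fun N => ∑ c ∈ cols H N, cv k mC csC (fun i => c (rr i))) pC)
    (pT : List ℕ → Fill → ℝ[X])
    (hpT : ∀ P T, PF (fun N => ∑ c ∈ cols H N, fv k (List.range k) P T (fun i => c (rr i)))
      (pT P T))
    (pS : List ℕ → List ℕ → List ℕ → Fill → ℝ[X])
    (hpS : ∀ J U P T, PF (fun N => ∑ c ∈ cols H N, sv k J U P T (fun i => c (rr i)))
      (pS J U P T)) :
    v4 D * (tau + 3) * pC.eval (tau + 3) + lin v4 (lam H rr w) X0 =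
      (Ts.map fun e => v4 e.c * (tau + 3) * (pT e.P e.T).eval (tau + 3)).sum +
      (Ss.map fun S => (S.es.map fun e =>
        v4 e.c * (pS S.J S.U e.P e.T).eval (tau + 3)).sum).sum := by
  classical
  set E : Tr ℝ[X] := zTs nR mR aR nR mR aR fR w R C p n p' k AN (Ss.map (Sec.map cR))
    (insAll aR p' (X0.map cR)
      (topT nR mR aR w R C p' n' k AN (List.range k) (cR D) csC mC (Ts.map (Ent.map cR)))) with hE
  have h0 : ∀ Λ : ℕ → ℝ, linT (fun c : ℝ[X] => c.eval (tau + 3)) Λ E = 0 :=
    fun Λ => coef_zero2 hchk Λ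
  have hkw : k < w := by omega
  -- the value of the program
  have hval : ∀ (M : ℕ) (c : V → Fin (M + 1)), c ∈ cols H (M + 1) →
      linT (fun c : ℝ[X] => c.eval ((M + 1 : ℕ) : ℝ)) (lc ℝ w (fun i => c (rr i))) E =
        ((M + 1 : ℕ) : ℝ) * v4 D * cv k mC csC (fun i => c (rr i)) -
        (Ts.map fun e => ((M + 1 : ℕ) : ℝ) * v4 e.c *
          fv k (List.range k) e.P e.T (fun i => c (rr i))).sum -
        (Ss.map fun S => (S.es.map fun e =>
          v4 e.c * sv k S.J S.U e.P e.T (fun i => c (rr i))).sum).sum +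
        lin v4 (lc ℝ w (fun i => c (rr i))) X0 := by
    intro M c hc
    have hd : U5C.Prp w AN (fun i => c (rr i)) := by
      intro t ht
      obtain ⟨h1, h2, h3⟩ := hA t ht
      rcases h3 with h3 | h3
      · show c (rr (t / w)) ≠ c (rr (t % w))
        rw [h3]
        exact (mem_cols _ _ _).1 hc _ _ (hring _ h1)
      · show c (rr (t / w)) ≠ c (rr (t % w))
        rw [h3]
        exact ((mem_cols _ _ _).1 hc _ _ (hring _ h2)).symm
    rw [hE, linT_zTs h hw hkw hA p n p' (Ss.map (Sec.map cR)) ?_ hd,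
      linT_insAll _ _ (ipR (M + 1)), linT_topT h hw hA p' n' (fun u hu => List.mem_range.1 hu)
        (cR D) hk hcs (Ts.map (Ent.map cR)) ?_ hd, lin_map]
    · have hX : lin (fun c : K4 => (cR c).eval ((M + 1 : ℕ) : ℝ)) (lc ℝ w (fun i => c (rr i))) X0 =
          lin v4 (lc ℝ w (fun i => c (rr i))) X0 := by
        congr 1
        funext c
        exact v4_cR' c _
      rw [v4_cR', List.map_map, List.map_map, hX, add_sub_right_comm]
      congr 1
      congr 1
      · congr 1
        congr 1
        refine List.map_congr_left (fun e _ => ?_)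
        show ((M + 1 : ℕ) : ℝ) * (cR e.c).eval ((M + 1 : ℕ) : ℝ) * _ = _
        rw [v4_cR']
        rfl
      · congr 1
        refine List.map_congr_left (fun S _ => ?_)
        show (((S.map cR).es).map fun e : Ent ℝ[X] => e.c.eval (M : ℝ) * _).sum = _
        show ((S.es.map (Ent.map cR)).map fun e : Ent ℝ[X] => e.c.eval (M : ℝ) * _).sum = _
        rw [List.map_map]
        congr 1
        refine List.map_congr_left (fun e _ => ?_)
        show (cR e.c).eval (M : ℝ) * _ = _
        rw [v4_cR']
        rfl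
    · intro e he
      obtain ⟨e', he', rfl⟩ := List.mem_map.1 he
      exact hT e' he'
    · intro S hS'
      obtain ⟨S', hS'', rfl⟩ := List.mem_map.1 hS'
      exact (hS S' hS'').map cR
  -- the polynomial
  set Q : ℝ[X] := Polynomial.C (v4 D) * X * pC - (Ts.map fun e => Polynomial.C (v4 e.c) * X * pT e.P e.T).sum -
    (Ss.map fun S => (S.es.map fun e => Polynomial.C (v4 e.c) * pS S.J S.U e.P e.T).sum).sum +
    lin (fun c : ℝ[X] => c) (fun s => Classical.choose (pat_poly H rr w s)) (X0.map cR) with hQ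
  have hQp : PF (fun N => ∑ c ∈ cols H N,
      linT (fun c : ℝ[X] => c.eval (N : ℝ)) (lc ℝ w (fun i => c (rr i))) E) Q := by
    have hlX : ∀ N : ℕ, (lin (fun c : ℝ[X] => c) (fun s => Classical.choose (pat_poly H rr w s))
        (X0.map cR)).eval (N : ℝ) = ∑ c ∈ cols H N, lin v4 (lc ℝ w (fun i => c (rr i))) X0 := by
      intro N
      rw [lin_eval', lin_map]
      have h2 : (fun s => (Classical.choose (pat_poly H rr w s)).eval (N : ℝ)) =
          fun s => ∑ c ∈ cols H N, lc ℝ w (fun i => c (rr i)) s :=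
        funext fun s => Classical.choose_spec (pat_poly H rr w s) N
      have h3 : (fun c : K4 => (cR c).eval (N : ℝ)) = v4 := funext fun c => v4_cR' c _
      rw [h2, h3, lin_sum']
    intro N
    have hQe : Q.eval (N : ℝ) = v4 D * N * (∑ c ∈ cols H N, cv k mC csC (fun i => c (rr i))) -
        (Ts.map fun e => v4 e.c * N *
          ∑ c ∈ cols H N, fv k (List.range k) e.P e.T (fun i => c (rr i))).sum -
        (Ss.map fun S => (S.es.map fun e => v4 e.c *
          ∑ c ∈ cols H N, sv k S.J S.U e.P e.T (fun i => c (rr i))).sum).sum +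
        ∑ c ∈ cols H N, lin v4 (lc ℝ w (fun i => c (rr i))) X0 := by
      rw [hQ, eval_add, eval_sub, eval_sub, eval_listSum2, eval_listSum2, eval_mul, eval_mul,
        eval_C, eval_X, hpC N, hlX N]
      congr 1
      congr 1
      · congr 1
        congr 1
        refine List.map_congr_left (fun e _ => ?_)
        rw [eval_mul, eval_mul, eval_C, eval_X, hpT e.P e.T N]
      · congr 1
        refine List.map_congr_left (fun S _ => ?_)
        rw [eval_listSum2]
        congr 1
        refine List.map_congr_left (fun e _ => ?_)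
        rw [eval_mul, eval_C, hpS S.J S.U e.P e.T N]
    rw [hQe]
    rcases N with _ | M
    · have hcols : cols H 0 = ∅ := by
        refine Finset.eq_empty_of_forall_notMem (fun c _ => ?_)
        exact (c (rr 0)).elim0
      show _ = ∑ c ∈ cols H 0,
        linT (fun c : ℝ[X] => c.eval ((0 : ℕ) : ℝ)) (lc ℝ w (fun i => c (rr i))) E
      rw [hcols]
      simp
    · show _ = ∑ c ∈ cols H (M + 1),
        linT (fun c : ℝ[X] => c.eval ((M + 1 : ℕ) : ℝ)) (lc ℝ w (fun i => c (rr i))) E
      rw [Finset.sum_congr rfl (fun c hc => hval M c hc), Finset.sum_add_distrib,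
        Finset.sum_sub_distrib, Finset.sum_sub_distrib, ← Finset.mul_sum, sum_list_comm2,
        sum_list_comm2]
      congr 1
      congr 1
      · congr 1
        · ring
        · congr 1
          refine List.map_congr_left (fun e _ => ?_)
          rw [← Finset.mul_sum]
          ring
      · congr 1
        refine List.map_congr_left (fun S _ => ?_)
        rw [sum_list_comm2]
        congr 1
        refine List.map_congr_left (fun e _ => ?_)
        rw [← Finset.mul_sum]
  have hfin := engine_poly H rr h0 hQp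
  rw [hQ, eval_add, eval_sub, eval_sub, eval_listSum2, eval_listSum2, eval_mul, eval_mul, eval_C,
    eval_X, lin_eval', lin_map] at hfin
  have h3 : (fun c : K4 => (cR c).eval (tau + 3)) = v4 := funext fun c => v4_cR' c _
  rw [h3] at hfin
  have h4 : lin v4 (fun s => (Classical.choose (pat_poly H rr w s)).eval (tau + 3)) X0 =
      lin v4 (lam H rr w) X0 := rfl
  rw [h4] at hfin
  have e1 : (Ts.map fun e => (Polynomial.C (v4 e.c) * X * pT e.P e.T).eval (tau + 3)).sum =
      (Ts.map fun e => v4 e.c * (tau + 3) * (pT e.P e.T).eval (tau + 3)).sum := by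
    congr 1
    refine List.map_congr_left (fun e _ => ?_)
    rw [eval_mul, eval_mul, eval_C, eval_X]
  have e2 : (Ss.map fun S => ((S.es.map fun e => Polynomial.C (v4 e.c) * pS S.J S.U e.P e.T).sum).eval
      (tau + 3)).sum = (Ss.map fun S => (S.es.map fun e =>
        v4 e.c * (pS S.J S.U e.P e.T).eval (tau + 3)).sum).sum := by
    congr 1
    refine List.map_congr_left (fun S _ => ?_)
    rw [eval_listSum2]
    congr 1
    refine List.map_congr_left (fun e _ => ?_)
    rw [eval_mul, eval_C]
  rw [e1, e2] at hfin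
  linarith

end Pool.Agent.SB
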