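import Pool.Agent.SB.ECert
import Pool.Agent.SB.EId2
import Pool.Agent.SB.CertGDef

/-!
# Certificates in groups of sectors, and the bound proved by them
-/

set_option autoImplicit false

noncomputable section

namespace Pool.Agent.SB

open Polynomial
open Pool.Agent.U5C
open Pool.Agent.Helper1.PG (Fill)
open Pool.Agent.Helper36.BL (cp cnt cols cp_eval mem_cols)
open Pool.Agent.U5 (P)

theorem lin_negApp (Λ : ℕ → ℝ) (X Y : FL K4) :
    lin v4 Λ (negApp X Y) = lin v4 Λ Y - lin v4 Λ X := by
  induction X with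
  | nil => show lin v4 Λ Y = lin v4 Λ Y - lin v4 Λ FL.nil; simp
  | cons s c X ih =>
    show lin v4 Λ (FL.cons s (neg4 c) (negApp X Y)) = _
    rw [lin_cons, lin_cons, ih, hm4y.neg c]
    ring

theorem lin_negs (Λ : ℕ → ℝ) (Xs : List (FL K4)) :
    lin v4 Λ (negs Xs) = - (Xs.map fun X => lin v4 Λ X).sum := by
  induction Xs with
  | nil => show lin v4 Λ FL.nil = _; simp
  | cons X Xs ih =>
    show lin v4 Λ (negApp X (negs Xs)) = _
    rw [lin_negApp, ih, List.map_cons, List.sum_cons]
    ring

private theorem sum_nonneg2 {α : Type} (L : List α) (f : α → ℝ) (h : ∀ a ∈ L, 0 ≤ f a) :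
    0 ≤ (L.map f).sum := by
  apply List.sum_nonneg
  intro x hx
  obtain ⟨a, ha, rfl⟩ := List.mem_map.1 hx
  exact h a ha

private theorem sum_map_mul2 {α : Type} (L : List α) (f : α → ℝ) (x : ℝ) :
    (L.map fun a => f a * x).sum = (L.map f).sum * x := by
  induction L with
  | nil => simp
  | cons a L ih => simp only [List.map_cons, List.sum_cons, ih]; ring

/-- the total of a group is nonnegative -/
theorem grp_nonneg {w R C p n p' n' k AN : ℕ} {X : FL K4} {Ss : List (Sec K4)}
    (h : Grp w R C p n p' n' k AN X Ss) (hpw : PW w R C) (hw : w ≤ 32) (hk0 : 0 < k)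
    (hkw : k < w) (hA : AOK w k AN) {W : Type} [Fintype W] {H : SimpleGraph W} {rr : ℕ → W}
    (hdisc : Disc H ((List.range k).map rr))
    (hring : ∀ i, i < k → H.Adj (rr i) (rr ((i + 1) % k))) :
    0 ≤ lin v4 (lam H rr w) X := by
  classical
  obtain ⟨pC, hpC⟩ := cv_poly H rr k 0 []
  choose pT hpT using fv_poly H rr k (List.range k)
  choose pS hpS using sv_poly H rr k
  have hid := engine_id2 hpw hw hk0 (mC := 0) (by omega) hA (csC := []) (by simp) (Ts := [])
    (by simp) h.gS X h.gchk H rr hring pC hpC pT hpT pS hpS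
  have hD : v4 ((0, 0), (0, 0)) = 0 := by
    unfold v4
    simp
  rw [hD, zero_mul, zero_mul, zero_add, List.map_nil, List.sum_nil, zero_add] at hid
  rw [hid]
  apply sum_nonneg2
  intro S hSm
  apply sum_nonneg2
  intro e he
  have hok := h.gS S hSm
  exact mul_nonneg (h.gnn S hSm e he)
    (sec_nonneg hdisc hok.J hok.U hok.ne e.P e.T (hpS S.J S.U e.P e.T))

theorem certG_bound {w R C p n p' n' k m AN D : ℕ} {cs : List ℕ} {al : List (ℕ × ℕ)}
    {TD : List TEnt} {Xs : List (FL K4)}
    (h : CertG w R C p n p' n' k m AN D cs al TD Xs)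
    {V W : Type} [Fintype V] [Fintype W] {G : SimpleGraph V} {H : SimpleGraph W} {rr : ℕ → W}
    (hc : Conf k m cs al G H rr) (hmin : Hmin (Fintype.card V)) :
    cc (Fintype.card V) ≤ P (tau + 3) G := by
  classical
  have hk0 := h.ck
  have hpC : PF (fun N => ∑ c ∈ cols H N, cv k m cs (fun i => c (rr i))) (cp G) := by
    intro N
    rw [cp_eval]
    exact hc.cnt N
  choose pT hpT using fv_poly H rr k (List.range k)
  choose pS hpS using sv_poly H rr k
  have hid := engine_id2 h.cpw h.cw h.ck h.ckm h.cA h.ccs (Ts := TD.map TEnt.ent) (by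
      intro e he
      obtain ⟨t, ht, rfl⟩ := List.mem_map.1 he
      exact (h.cT t ht).w) (Ss := []) (by simp) (negs Xs) h.cchk H rr hc.ring (cp G) hpC
      pT hpT pS hpS
  rw [lin_negs, List.map_nil, List.sum_nil, add_zero] at hid
  have hkm := h.ckm
  have hS : 0 ≤ (Xs.map fun X => lin v4 (lam H rr w) X).sum := by
    apply sum_nonneg2
    intro X hX
    obtain ⟨Ss, hg⟩ := h.cX X hX
    exact grp_nonneg hg h.cpw h.cw h.ck (by omega) h.cA hc.disc hc.ring
  have hkW : k ≤ Fintype.card W := by
    have h1 : Function.Injective (fun i : Fin k => rr i) := fun i j hij =>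
      Fin.ext (hc.inj _ _ i.2 j.2 hij)
    have h2 := Fintype.card_le_of_injective _ h1
    rwa [Fintype.card_fin] at h2
  have hcard := hc.card
  have hrange : ∀ u ∈ List.range k, u < k := fun u hu => List.mem_range.1 hu
  have hne : List.range k ≠ [] := by
    intro h0
    have h1 := congrArg List.length h0
    rw [List.length_range] at h1
    simp at h1
    omega
  have ht3 : 0 < tau + 3 := by linarith [tau_pos]
  have hT : (TD.map fun t => (t.l : ℝ) * tau⁻¹ ^ t.j m * ((tau + 3) * cc (Fintype.card V))).sum ≤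
      ((TD.map TEnt.ent).map fun e => v4 e.c * (tau + 3) * (pT e.P e.T).eval (tau + 3)).sum := by
    rw [List.map_map]
    refine List.sum_le_sum (fun t ht => ?_)
    have hok := h.cT t ht
    have h1 := hok.mg
    have h2 := hok.m
    have h3 : v4 ((t.l, 0), (0, 0)) = (t.l : ℝ) := by
      unfold v4
      simp
    show (t.l : ℝ) * tau⁻¹ ^ t.j m * ((tau + 3) * cc (Fintype.card V)) ≤
      v4 ((t.l, 0), (0, 0)) * (tau + 3) * (pT t.P t.T).eval (tau + 3)
    rw [h3]
    have hal : ∀ i j, i < k → j < k → t.cl i = t.cl j → ¬ H.Adj (rr i) (rr j) := by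
      intro i j hi hj hij
      rcases lt_trichotomy i j with hlt | heq | hgt
      · exact hc.na _ (hok.al i hi j hj hlt hij)
      · rw [heq]
        exact fun hadj => hadj.ne rfl
      · exact fun hadj => hc.na _ (hok.al j hj i hi hgt hij.symm) hadj.symm
    have hlow := fv_low hmin hrange hne hc.disc t.P t.T (hpT t.P t.T) (by omega) (by omega)
      (fv_ne hc.inj t.cl hok.lt hal t.P t.T hok.val)
    have hj : Fintype.card W + t.P.length - mgc t.T + t.j m = Fintype.card V := by
      unfold TEnt.j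
      omega
    have hcc : tau⁻¹ ^ t.j m * cc (Fintype.card V) =
        cc (Fintype.card W + t.P.length - mgc t.T) := by
      rw [← hj, cc_add, ← mul_assoc, ← mul_pow, inv_mul_cancel₀ tau_ne, one_pow, one_mul]
    calc (t.l : ℝ) * tau⁻¹ ^ t.j m * ((tau + 3) * cc (Fintype.card V))
        = (t.l : ℝ) * (tau + 3) * (tau⁻¹ ^ t.j m * cc (Fintype.card V)) := by ring
      _ = (t.l : ℝ) * (tau + 3) * cc (Fintype.card W + t.P.length - mgc t.T) := by rw [hcc]
      _ ≤ _ := mul_le_mul_of_nonneg_left hlow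
        (mul_nonneg (Nat.cast_nonneg _) ht3.le)
  rw [sum_map_mul2] at hT
  have hD : v4 ((D, 0), (0, 0)) = (D : ℝ) := by
    unfold v4
    simp
  rw [hD] at hid
  have hD0 : (0 : ℝ) < D := by exact_mod_cast h.cD
  have hX := mul_pos ht3 (cc_pos (Fintype.card V))
  have h1 : (D : ℝ) * ((tau + 3) * cc (Fintype.card V)) ≤
      D * (tau + 3) * (cp G).eval (tau + 3) := by
    have h2 := mul_le_mul_of_nonneg_right h.csum hX.le
    linarith
  have h2 : (D : ℝ) * (tau + 3) * cc (Fintype.card V) ≤ D * (tau + 3) * P (tau + 3) G := by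
    rw [mul_assoc]
    exact h1
  exact le_of_mul_le_mul_left h2 (mul_pos hD0 ht3)

end Pool.Agent.SB
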