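import Pool.Agent.SB.Disc

/-!
# Fillings count colourings of plane graphs

JOB SB-AFill.  Prove all theorems of this file (remove the `sorry`s, keep the statements).

Plan.  `fills_rep` is `fills_nonneg` of `Helper1/PG/FillMain.lean` with another conclusion; copy
that proof.  Where it uses the zero polynomial (`hzero`), take `Or.inl`; for `ts = []` take `Or.inr`
with `Y = G` (`Pl.of_spanning`, `wcnt G [] n = cnt G n` is proved there); `leaf`, `chord`: the
induction hypothesis (the number of merges of the new tasks is the same or smaller by the merges of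
`t.T` that are used: `mgc (chord …) = mgc A + mgc B`); `merge` with `p = r`: induction hypothesis
(card V ≤ card W + (mgs - 1)); `merge` with `p ≠ r` not adjacent: the induction hypothesis for
`{v // v ≠ r}` with `card_ne`; `merge` with `p`, `r` adjacent: `Or.inl`.
(`mgs` of the lists after `Task.lift`, `Task.contr`: as `tsize_lift`, `tsize_contr`.)
* `disc_rep`: `fills_rep` for the task list `[⟨f, x, w, T⟩]`; `wcnt H [t] n` is the given sum
  (`wcnt`, `wt`, `cols`: filters over the same predicate).
-/

set_option autoImplicit false

noncomputable section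

namespace Pool.Agent.SB

open Pool.Agent.Helper1.PG
open Pool.Agent.Helper36.BL (cp cnt cols cp_eval mem_cols)

private theorem mgs_cons {V F E : Type} (t : Task V F E) (ts : List (Task V F E)) :
    mgs (t :: ts) = mgc t.T + mgs ts := rfl

private theorem mgs_lift {V F E : Type} (ts : List (Task V F E)) :
    mgs (ts.map Task.lift) = mgs ts := by
  unfold mgs
  rw [List.map_map]
  rfl

private theorem mgs_contr {V F E V' : Type} (e0 : E) (m : V → V') (ts : List (Task V F E)) :
    mgs (ts.map (Task.contr e0 m)) = mgs ts := by
  unfold mgs
  rw [List.map_map]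
  rfl

private theorem rep_transfer {V V' F E F' E' : Type} [Fintype V] [Fintype V']
    {G : SimpleGraph V} {G' : SimpleGraph V'} {ts : List (Task V F E)}
    {ts' : List (Task V' F' E')} (h : ∀ n : ℕ, wcnt G ts n = wcnt G' ts' n)
    (hc : Fintype.card V' ≤ Fintype.card V)
    (hm : Fintype.card V + mgs ts' ≤ Fintype.card V' + mgs ts)
    (h2 : (∀ n : ℕ, wcnt G' ts' n = 0) ∨ ∃ (W : Type) (_ : Fintype W) (Y : SimpleGraph W), Pl Y ∧
      (∀ n : ℕ, wcnt G' ts' n = cnt Y n) ∧ Fintype.card W ≤ Fintype.card V' ∧
      Fintype.card V' ≤ Fintype.card W + mgs ts') :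
    (∀ n : ℕ, wcnt G ts n = 0) ∨ ∃ (W : Type) (_ : Fintype W) (Y : SimpleGraph W), Pl Y ∧
      (∀ n : ℕ, wcnt G ts n = cnt Y n) ∧ Fintype.card W ≤ Fintype.card V ∧
      Fintype.card V ≤ Fintype.card W + mgs ts := by
  rcases h2 with h2 | ⟨W, i, Y, h3, h4, h5, h6⟩
  · exact Or.inl (fun n => (h n).trans (h2 n))
  · exact Or.inr ⟨W, i, Y, h3, fun n => (h n).trans (h4 n), h5.trans hc, by omega⟩

theorem fills_rep : ∀ (m : ℕ) (V F E : Type) [Fintype V] [Fintype F] [Fintype E]
    (a : E → V × V) (b : E → F × F) (G : SimpleGraph V) (ts : List (Task V F E)),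
    tsize ts = m → IsPl a b → (∀ u v, G.Adj u v → Lk a u v) → (ts.map Task.f).Nodup →
    (∀ t ∈ ts, Trk a b t.f t.x t.l) →
    (∀ n : ℕ, wcnt G ts n = 0) ∨ ∃ (W : Type) (_ : Fintype W) (Y : SimpleGraph W), Pl Y ∧
      (∀ n : ℕ, wcnt G ts n = cnt Y n) ∧ Fintype.card W ≤ Fintype.card V ∧
      Fintype.card V ≤ Fintype.card W + mgs ts := by
  classical
  intro m
  induction m with
  | zero =>
    intro V F E _ _ _ a b G ts hm hp hG _ _
    have hts : ts = [] := by
      rcases ts with _ | ⟨t, ts⟩
      · rfl
      · exfalso
        rw [tsize_cons] at hm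
        have := t.T.size_pos
        omega
    subst hts
    refine Or.inr ⟨V, inferInstance, G, Pl.of_spanning hp hG, ?_, le_rfl, Nat.le_add_right _ _⟩
    intro n
    unfold cnt wcnt
    rw [Finset.card_eq_sum_ones]
    symm
    apply Finset.sum_congr
    · ext c
      rw [mem_cols, Finset.mem_filter]
      exact ⟨fun h => ⟨Finset.mem_univ _, h⟩, fun h => h.2⟩
    · intro c _; rfl
  | succ m ih =>
    intro V F E _ _ _ a b G ts hm hp hG hnd htr
    rcases ts with _ | ⟨t, ts⟩
    · exact absurd hm (by unfold tsize; simp)
    rw [tsize_cons] at hm
    have htt := htr t (List.mem_cons_self ..)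
    have hts : ∀ s ∈ ts, Trk a b s.f s.x s.l := fun s hs => htr s (List.mem_cons_of_mem _ hs)
    have hnd' : t.f ∉ ts.map Task.f ∧ (ts.map Task.f).Nodup := List.nodup_cons.1 hnd
    have hne : ∀ s ∈ ts, s.f ≠ t.f := fun s hs h =>
      hnd'.1 (h ▸ List.mem_map_of_mem hs)
    obtain ⟨f0, x0, l, T⟩ := t
    have hzero : (∀ n (c : V → Fin n), Prp G c → T.val ((marks l).map c) = 0) →
        ∀ n : ℕ, wcnt G (⟨f0, x0, l, T⟩ :: ts) n = 0 := by
      intro h0 n
      rw [wcnt_eq]
      apply Finset.sum_eq_zero
      intro c _
      by_cases hc : Prp G c
      · rw [if_pos hc, wt_cons, h0 n c hc, zero_mul]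
      · rw [if_neg hc]
    -- new tasks after an insertion
    have hnew : ∀ (i j : ℕ) (A B : Fill) (p r : V) (l1 l2 l3 : List (Tok V E)),
        T.size = 1 + A.size + B.size →
        l = l1 ++ Sum.inl p :: (l2 ++ Sum.inl r :: l3) →
        inn i j (marks l) = p :: (marks l2 ++ [r]) →
        out i j (marks l) = marks l1 ++ p :: r :: marks l3 →
        ∃ (b' : Option E → Option F × Option F) (ts' : List (Task V (Option F) (Option E))),
          IsPl (addE a p r) b' ∧ tsize ts' = m ∧ (ts'.map Task.f).Nodup ∧
          (∀ t ∈ ts', Trk (addE a p r) b' t.f t.x t.l) ∧ mgs ts' = mgc A + mgc B + mgs ts ∧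
          ∀ (n : ℕ) (c : V → Fin n), wt ts' c =
            A.val (inn i j ((marks l).map c)) * B.val (out i j ((marks l).map c)) * wt ts c := by
      intro i j A B p r l1 l2 l3 hsz hl hin hout
      subst hl
      obtain ⟨A1, A2, h1, h2, h3, h4⟩ := hp.insert_trk htt
      refine ⟨splitF b f0 A1 A2,
        ⟨none, p, Sum.inl p :: (liftTok l2 ++ [Sum.inl r, Sum.inr ((none, true), p)]), A⟩ ::
        ⟨some f0, x0, liftTok l1 ++ Sum.inl p :: Sum.inr ((none, false), r) :: Sum.inl r ::
          liftTok l3, B⟩ :: ts.map Task.lift, h1, ?_, ?_, ?_, ?_, ?_⟩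
      · rw [tsize_cons, tsize_cons, tsize_lift]
        show A.size + (B.size + tsize ts) = m
        have : T.size + tsize ts = m + 1 := hm
        omega
      · show (none :: some f0 :: (ts.map Task.lift).map Task.f).Nodup
        have e1 : (ts.map Task.lift).map Task.f = (ts.map Task.f).map some := by
          rw [List.map_map, List.map_map]; rfl
        rw [e1, List.nodup_cons, List.nodup_cons]
        refine ⟨?_, ?_, ?_⟩
        · rw [List.mem_cons, not_or]
          refine ⟨by simp, ?_⟩
          rw [List.mem_map]
          rintro ⟨g, _, hg⟩
          simp at hg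
        · rw [List.mem_map]
          rintro ⟨g, hg, hg'⟩
          rw [Option.some_inj] at hg'
          exact hnd'.1 (hg' ▸ hg)
        · exact hnd'.2.map (Option.some_injective F)
      · intro t ht
        rcases List.mem_cons.1 ht with rfl | ht
        · exact h2
        · rcases List.mem_cons.1 ht with rfl | ht
          · exact h3
          · obtain ⟨s, hs, rfl⟩ := List.mem_map.1 ht
            exact h4 s.f s.x s.l (hne s hs) (hts s hs)
      · rw [mgs_cons, mgs_cons, mgs_lift, add_assoc]
      · intro n c
        rw [wt_cons, wt_cons, wt_lift, inn_map, out_map, hin, hout]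
        show A.val ((marks (Sum.inl p :: (liftTok l2 ++ [Sum.inl r, Sum.inr ((none, true), p)]) :
            List (Tok V (Option E)))).map c) *
          (B.val ((marks (liftTok l1 ++ Sum.inl p :: Sum.inr ((none, false), r) :: Sum.inl r ::
            liftTok l3 : List (Tok V (Option E)))).map c) * wt ts c) = _
        have e1 : marks (Sum.inl p :: (liftTok l2 ++ [Sum.inl r, Sum.inr ((none, true), p)]) :
            List (Tok V (Option E))) = p :: (marks l2 ++ [r]) := by
          show p :: marks (liftTok l2 ++ [Sum.inl r, Sum.inr ((none, true), p)]) = _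
          rw [marks_append, marks_liftTok]
          rfl
        have e2 : marks (liftTok l1 ++ Sum.inl p :: Sum.inr ((none, false), r) :: Sum.inl r ::
            liftTok l3 : List (Tok V (Option E))) = marks l1 ++ p :: r :: marks l3 := by
          rw [marks_append, marks_liftTok]
          show marks l1 ++ p :: r :: marks (liftTok l3) = _
          rw [marks_liftTok]
        rw [e1, e2, mul_assoc]
    cases T with
    | leaf =>
      refine rep_transfer (ts' := ts) (G' := G) ?_ le_rfl ?_ (ih V F E a b G ts (by
        change 1 + tsize ts = m + 1 at hm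
        omega) hp hG hnd'.2 hts)
      · intro n
        unfold wcnt
        apply Finset.sum_congr rfl
        intro c _
        rw [wt_cons]
        show 1 * wt ts c = wt ts c
        rw [one_mul]
      · rw [mgs_cons]
        show _ ≤ _ + (0 + mgs ts)
        omega
    | chord i j A B =>
      by_cases hij : i < j ∧ j < (marks l).length
      · obtain ⟨p, r, l1, l2, l3, hl, hi, hj, hin, hout⟩ := exists_split_two l i j hij.1 hij.2
        by_cases hpr : p = r
        · left
          apply hzero
          intro n c _
          show (if i < j ∧ j < ((marks l).map c).length ∧ ((marks l).map c)[i]? ≠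
            ((marks l).map c)[j]? then _ else 0) = 0
          rw [if_neg]
          rintro ⟨_, _, h1⟩
          apply h1
          rw [List.getElem?_map, List.getElem?_map, hi, hj, hpr]
        · obtain ⟨b', ts', h1, h2, h3, h4, hmg, h5⟩ :=
            hnew i j A B p r l1 l2 l3 rfl hl hin hout
          refine rep_transfer (ts' := ts') (G' := addG G p r hpr) ?_ le_rfl ?_
            (ih V (Option F) (Option E) (addE a p r) b' (addG G p r hpr) ts' h2 h1 (by
              rintro u v (huv | ⟨rfl, rfl⟩ | ⟨rfl, rfl⟩)
              · obtain ⟨e, he⟩ := hG u v huv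
                exact ⟨some e, he⟩
              · exact ⟨none, Or.inl ⟨rfl, rfl⟩⟩
              · exact ⟨none, Or.inr ⟨rfl, rfl⟩⟩) h3 h4)
          swap
          · rw [mgs_cons, hmg]
            show _ ≤ _ + (mgc A + mgc B + mgs ts)
            omega
          intro n
          symm
          rw [wcnt_eq, wcnt_eq]
          apply Finset.sum_congr rfl
          intro c _
          rw [h5 n c, wt_cons]
          by_cases hc : Prp G c
          · by_cases hc2 : c p = c r
            · rw [if_neg (fun h => ((prp_addG G hpr c).1 h).2 hc2), if_pos hc]
              symm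
              show (if i < j ∧ j < ((marks l).map c).length ∧ ((marks l).map c)[i]? ≠
                ((marks l).map c)[j]? then _ else 0) * _ = 0
              rw [if_neg, zero_mul]
              rintro ⟨_, _, h6⟩
              apply h6
              rw [List.getElem?_map, List.getElem?_map, hi, hj]
              simp [hc2]
            · rw [if_pos ((prp_addG G hpr c).2 ⟨hc, hc2⟩), if_pos hc]
              show _ = (if i < j ∧ j < ((marks l).map c).length ∧ ((marks l).map c)[i]? ≠
                ((marks l).map c)[j]? then _ else 0) * _
              rw [if_pos]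
              refine ⟨hij.1, by rw [List.length_map]; exact hij.2, ?_⟩
              rw [List.getElem?_map, List.getElem?_map, hi, hj]
              simpa using hc2
          · rw [if_neg hc, if_neg (fun h => hc ((prp_addG G hpr c).1 h).1)]
      · left
        apply hzero
        intro n c _
        show (if i < j ∧ j < ((marks l).map c).length ∧ ((marks l).map c)[i]? ≠
            ((marks l).map c)[j]? then _ else 0) = 0
        rw [if_neg]
        rintro ⟨h1, h2, _⟩
        rw [List.length_map] at h2
        exact hij ⟨h1, h2⟩
    | merge i j A B =>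
      by_cases hij : i < j ∧ j < (marks l).length
      · obtain ⟨p, r, l1, l2, l3, hl, hi, hj, hin, hout⟩ := exists_split_two l i j hij.1 hij.2
        obtain ⟨b', ts', h1, h2, h3, h4, hmg, h5⟩ :=
          hnew i j A B p r l1 l2 l3 rfl hl hin hout
        by_cases hpr : p = r
        · refine rep_transfer (ts' := ts') (G' := G) ?_ le_rfl ?_
            (ih V (Option F) (Option E) (addE a p r) b' G ts' h2 h1 (by
              intro u v huv
              obtain ⟨e, he⟩ := hG u v huv
              exact ⟨some e, he⟩) h3 h4)
          swap
          · rw [mgs_cons, hmg]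
            show _ ≤ _ + (1 + mgc A + mgc B + mgs ts)
            omega
          intro n
          symm
          rw [wcnt_eq, wcnt_eq]
          apply Finset.sum_congr rfl
          intro c _
          rw [h5 n c, wt_cons]
          congr 1
          show _ = (if i < j ∧ j < ((marks l).map c).length ∧ ((marks l).map c)[i]? =
            ((marks l).map c)[j]? then _ else 0) * _
          rw [if_pos]
          refine ⟨hij.1, by rw [List.length_map]; exact hij.2, ?_⟩
          rw [List.getElem?_map, List.getElem?_map, hi, hj, hpr]
        · by_cases hadj : G.Adj p r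
          · left
            apply hzero
            intro n c hc
            show (if i < j ∧ j < ((marks l).map c).length ∧ ((marks l).map c)[i]? =
              ((marks l).map c)[j]? then _ else 0) = 0
            rw [if_neg]
            rintro ⟨_, _, h6⟩
            rw [List.getElem?_map, List.getElem?_map, hi, hj] at h6
            exact hc p r hadj (by simpa using h6)
          · have h0 : ((addE a p r) none).1 ≠ ((addE a p r) none).2 := hpr
            have hcard := card_ne r
            refine rep_transfer (ts' := ts'.map (Task.contr none (Pool.Agent.Helper1.PG.merge p r hpr)))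
              (G' := mgG G p r hpr) ?_ (by omega) ?_
              (ih {v : V // v ≠ r} (Option F) {e : Option E // e ≠ none}
              (Pool.Agent.Helper1.PG.contr (addE a p r) none h0) (del b' none) (mgG G p r hpr)
              (ts'.map (Task.contr none (Pool.Agent.Helper1.PG.merge p r hpr))) (by rw [tsize_contr]; exact h2)
              (h1.contract h0) (fun u v huv => lk_mgG (a := addE a p r) (by
                intro u v huv
                obtain ⟨e, he⟩ := hG u v huv
                exact ⟨some e, he⟩) h0 u v huv) (by
                rw [List.map_map]; exact h3) (by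
                intro t ht
                obtain ⟨s, hs, rfl⟩ := List.mem_map.1 ht
                exact (h4 s hs).contract h0))
            swap
            · rw [mgs_cons, mgs_contr, hmg]
              show _ ≤ _ + (1 + mgc A + mgc B + mgs ts)
              omega
            intro n
            symm
            rw [wcnt_eq, wcnt_eq]
            simp only [wt_contr]
            refine Eq.trans (b := ∑ c : V → Fin n, if Prp G c ∧ c p = c r then wt ts' c else 0)
              ((sum_inst _ _ _ _ (fun c => if_congr Iff.rfl rfl rfl)).trans
                (sum_mgG G hpr hadj n (fun c => wt ts' c)).symm) ?_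
            apply Finset.sum_congr rfl
            intro c _
            rw [h5 n c, wt_cons]
            by_cases hc : Prp G c
            · by_cases hc2 : c p = c r
              · rw [if_pos ⟨hc, hc2⟩, if_pos hc]
                show _ = (if i < j ∧ j < ((marks l).map c).length ∧ ((marks l).map c)[i]? =
                  ((marks l).map c)[j]? then _ else 0) * _
                rw [if_pos]
                refine ⟨hij.1, by rw [List.length_map]; exact hij.2, ?_⟩
                rw [List.getElem?_map, List.getElem?_map, hi, hj]
                simp [hc2]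
              · rw [if_neg (fun h => hc2 h.2), if_pos hc]
                symm
                show (if i < j ∧ j < ((marks l).map c).length ∧ ((marks l).map c)[i]? =
                  ((marks l).map c)[j]? then _ else 0) * _ = 0
                rw [if_neg, zero_mul]
                rintro ⟨_, _, h6⟩
                rw [List.getElem?_map, List.getElem?_map, hi, hj] at h6
                exact hc2 (by simpa using h6)
            · rw [if_neg hc, if_neg (fun h => hc h.1)]
      · left
        apply hzero
        intro n c _
        show (if i < j ∧ j < ((marks l).map c).length ∧ ((marks l).map c)[i]? =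
            ((marks l).map c)[j]? then _ else 0) = 0
        rw [if_neg]
        rintro ⟨h1, h2, _⟩
        rw [List.length_map] at h2
        exact hij ⟨h1, h2⟩


theorem disc_rep {V : Type} [Fintype V] {H : SimpleGraph V} {l : List V} (h : Disc H l)
    (T : Fill) :
    (∀ N : ℕ, ∑ c ∈ cols H N, T.val (l.map c) = 0) ∨
    ∃ (W : Type) (_ : Fintype W) (Y : SimpleGraph W), Pl Y ∧
      (∀ N : ℕ, ∑ c ∈ cols H N, T.val (l.map c) = cnt Y N) ∧
      Fintype.card W ≤ Fintype.card V ∧ Fintype.card V ≤ Fintype.card W + mgc T := by
  classical
  obtain ⟨F, E, iF, iE, a, b, f, x, w, hp, htr, hm, hlk⟩ := h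
  have h1 := fills_rep _ V F E a b H [⟨f, x, w, T⟩] rfl hp hlk (by simp) (by
    intro t ht
    rw [List.mem_singleton] at ht
    rw [ht]
    exact htr)
  have h2 : ∀ N : ℕ, wcnt H [(⟨f, x, w, T⟩ : Task V F E)] N
      = ∑ c ∈ cols H N, T.val (l.map c) := by
    intro N
    unfold wcnt
    apply Finset.sum_congr
    · ext c
      rw [mem_cols, Finset.mem_filter]
      exact ⟨fun h => h.2, fun h => ⟨Finset.mem_univ _, h⟩⟩
    · intro c _
      rw [wt_cons, hm]
      show _ * 1 = _
      rw [mul_one]
  have h3 : mgs [(⟨f, x, w, T⟩ : Task V F E)] = mgc T := by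
    rw [mgs_cons]
    rfl
  rw [h3] at h1
  simp only [h2] at h1
  exact h1

end Pool.Agent.SB
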