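import Pool.Agent.SB.ESem

/-!
# Constraint codes of fillings

JOB SB-ECon.  Prove all theorems of this file (remove the `sorry`s, keep the statements).

Plan.
* `frcL_eq`: induction on `l` with `k` general (`frc_eq` of `U5C/Bits.lean`).
* `prs_eq`: induction on `T` with `l acc k` general; unfold `prs` by `rfl`-lemmas as in `colF_chord`
  of `U5C/Col.lean` (`frc_eq`, `frcL_eq` remove the forcing); the three cases `okN i j l` true or
  false, `Nat.beq a b` true or false.
* `lo`, `hi`, `cd`: for `a ≤ b < 32`, `cd kd a b = kd + 2 * (a + 32 * b)`; arithmetic by `omega`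
  after unfolding (`Nat.add`, `Nat.mul`, `Nat.div`, `Nat.mod` are `+ * / %` by `rfl`/`show`).
* `fill_val_01`: induction on `T` (`Fill.val` is a product of two values or `0`).
* `prs_con`: induction on `T`, `l acc` general.  `okN_eq`, `getN_some`, `innN_eq`, `outN_eq`,
  `inn_map`, `out_map` as in `lin_colF` of `U5C/Col.lean`.  A code `0` is never satisfied:
  `con d 0` says `d (lo 0) ≠ d (hi 0)`, `lo 0 = hi 0 = 0`.
* `prs_ok`: induction on `T`; `mem_inn`, `mem_out`, `getN_mem` of `U5C/Col.lean`.
* `mem_pndsN`, `val_map_injOn`: inductions (`pndN` is `take (p + 1) ++ x :: drop p`,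
  `tk_eq`, `drp_eq`, `app_eq`).
-/

set_option autoImplicit false

noncomputable section

namespace Pool.Agent.SB

open Pool.Agent.U5C
open Pool.Agent.Helper1.PG (Fill inn out inn_map out_map)

theorem frcL_eq {α : Type} (l : List ℕ) (k : List ℕ → α) : frcL l k = k l := by
  induction l generalizing k with
  | nil => rfl
  | cons a t ih =>
    have e : frcL (a :: t) k = frc a fun a => frcL t fun t => k (a :: t) := rfl
    rw [e, frc_eq, ih]

private theorem prs_leaf {α : Type} (l acc : List ℕ) (k : List ℕ → α) :
    prs Fill.leaf l acc k = k acc := rfl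

private theorem prs_chord {α : Type} (i j : ℕ) (A B : Fill) (l acc : List ℕ)
    (k : List ℕ → α) :
    prs (Fill.chord i j A B) l acc k = @Bool.rec (fun _ => α) (k (0 :: acc))
      (@Bool.rec (fun _ => α)
        (prs A (innN i j l) (cd 0 (getN l i) (getN l j) :: acc)
          fun acc => prs B (outN i j l) acc k)
        (k (0 :: acc)) (Nat.beq (getN l i) (getN l j))) (okN i j l) := by
  have e : prs (Fill.chord i j A B) l acc k = @Bool.rec (fun _ => α) (k (0 :: acc))
        (frc (getN l i) fun a => frc (getN l j) fun b =>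
          @Bool.rec (fun _ => α)
            (frc (cd 0 a b) fun x =>
              frcL (innN i j l) fun l1 => frcL (outN i j l) fun l2 =>
                prs A l1 (x :: acc) fun acc => prs B l2 acc k)
            (k (0 :: acc)) (Nat.beq a b))
        (okN i j l) := rfl
  rw [e]
  simp only [frc_eq, frcL_eq]

private theorem prs_merge {α : Type} (i j : ℕ) (A B : Fill) (l acc : List ℕ)
    (k : List ℕ → α) :
    prs (Fill.merge i j A B) l acc k = @Bool.rec (fun _ => α) (k (0 :: acc))
      (prs A (innN i j l) (cd 1 (getN l i) (getN l j) :: acc)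
        fun acc => prs B (outN i j l) acc k) (okN i j l) := by
  have e : prs (Fill.merge i j A B) l acc k = @Bool.rec (fun _ => α) (k (0 :: acc))
        (frc (getN l i) fun a => frc (getN l j) fun b => frc (cd 1 a b) fun x =>
          frcL (innN i j l) fun l1 => frcL (outN i j l) fun l2 =>
            prs A l1 (x :: acc) fun acc => prs B l2 acc k)
        (okN i j l) := rfl
  rw [e]
  simp only [frc_eq, frcL_eq]

private theorem prs_eq' (T : Fill) : ∀ {α : Type} (l acc : List ℕ) (k : List ℕ → α),
    prs T l acc k = k (prs T l acc fun x => x) := by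
  induction T with
  | leaf => intro α l acc k; rfl
  | chord i j A B ihA ihB =>
    intro α l acc k
    rw [prs_chord, prs_chord]
    cases okN i j l with
    | false => rfl
    | true =>
      cases Nat.beq (getN l i) (getN l j) with
      | true => rfl
      | false =>
        simp only
        rw [ihA, ihB, ihA _ _ (fun acc => prs B (outN i j l) acc fun x => x)]
  | merge i j A B ihA ihB =>
    intro α l acc k
    rw [prs_merge, prs_merge]
    cases okN i j l with
    | false => rfl
    | true =>
      simp only
      rw [ihA, ihB, ihA _ _ (fun acc => prs B (outN i j l) acc fun x => x)]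

theorem prs_eq {α : Type} (T : Fill) (l acc : List ℕ) (k : List ℕ → α) :
    prs T l acc k = k (prs T l acc fun x => x) :=
  prs_eq' T l acc k

private theorem prs_chord_id (i j : ℕ) (A B : Fill) (l acc : List ℕ) (hok : okN i j l = true)
    (hab : getN l i ≠ getN l j) :
    (prs (Fill.chord i j A B) l acc fun x => x) =
      prs B (outN i j l) (prs A (innN i j l) (cd 0 (getN l i) (getN l j) :: acc) fun x => x)
        fun x => x := by
  have hb : Nat.beq (getN l i) (getN l j) = false := by
    cases h : Nat.beq (getN l i) (getN l j) with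
    | false => rfl
    | true => exact absurd (Nat.eq_of_beq_eq_true h) hab
  rw [prs_chord, hok, hb]
  exact prs_eq _ _ _ _

private theorem prs_chord_eq (i j : ℕ) (A B : Fill) (l acc : List ℕ) (hok : okN i j l = true)
    (hab : getN l i = getN l j) :
    (prs (Fill.chord i j A B) l acc fun x => x) = 0 :: acc := by
  have hb : Nat.beq (getN l i) (getN l j) = true := by
    rw [hab]
    exact Nat.beq_refl _
  rw [prs_chord, hok, hb]

private theorem prs_chord_bad (i j : ℕ) (A B : Fill) (l acc : List ℕ)
    (hok : okN i j l = false) :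
    (prs (Fill.chord i j A B) l acc fun x => x) = 0 :: acc := by
  rw [prs_chord, hok]

private theorem prs_merge_id (i j : ℕ) (A B : Fill) (l acc : List ℕ) (hok : okN i j l = true) :
    (prs (Fill.merge i j A B) l acc fun x => x) =
      prs B (outN i j l) (prs A (innN i j l) (cd 1 (getN l i) (getN l j) :: acc) fun x => x)
        fun x => x := by
  rw [prs_merge, hok]
  exact prs_eq _ _ _ _

private theorem prs_merge_bad (i j : ℕ) (A B : Fill) (l acc : List ℕ)
    (hok : okN i j l = false) :
    (prs (Fill.merge i j A B) l acc fun x => x) = 0 :: acc := by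
  rw [prs_merge, hok]

private theorem cd_le {kd a b : ℕ} (h : a ≤ b) : cd kd a b = kd + 2 * (a + 32 * b) := by
  unfold cd
  rw [Nat.ble_eq_true_of_le h]
  rfl

private theorem cd_gt {kd a b : ℕ} (h : b < a) : cd kd a b = kd + 2 * (b + 32 * a) := by
  have hb : Nat.ble a b = false := by
    cases h' : Nat.ble a b with
    | false => rfl
    | true => exact absurd (Nat.le_of_ble_eq_true h') (not_le.2 h)
  unfold cd
  rw [hb]
  rfl

private theorem lo_def (x : ℕ) : lo x = x / 2 % 32 := rfl

private theorem hi_def (x : ℕ) : hi x = x / 64 := rfl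

theorem lo_cd {kd a b : ℕ} (hk : kd < 2) (ha : a < 32) (hb : b < 32) :
    lo (cd kd a b) = min a b ∧ hi (cd kd a b) = max a b ∧ cd kd a b % 2 = kd := by
  rw [lo_def, hi_def]
  rcases le_or_gt a b with h | h
  · rw [cd_le h, min_eq_left h, max_eq_right h]
    omega
  · rw [cd_gt h, min_eq_right h.le, max_eq_left h.le]
    omega

private theorem con_zero {κ : Type} (d : ℕ → κ) : ¬ con d 0 := by
  rintro (⟨_, h⟩ | ⟨h, _⟩)
  · exact h rfl
  · exact h rfl

private theorem con_cd0 {κ : Type} (d : ℕ → κ) {a b : ℕ} (ha : a < 32) (hb : b < 32) :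
    con d (cd 0 a b) ↔ d a ≠ d b := by
  obtain ⟨h1, h2, h3⟩ := lo_cd (kd := 0) (by omega) ha hb
  unfold con
  rw [h1, h2, h3]
  rcases le_total a b with h | h
  · rw [min_eq_left h, max_eq_right h]
    simp
  · rw [min_eq_right h, max_eq_left h]
    simp [eq_comm]

private theorem con_cd1 {κ : Type} (d : ℕ → κ) {a b : ℕ} (ha : a < 32) (hb : b < 32) :
    con d (cd 1 a b) ↔ d a = d b := by
  obtain ⟨h1, h2, h3⟩ := lo_cd (kd := 1) (by omega) ha hb
  unfold con
  rw [h1, h2, h3]
  rcases le_total a b with h | h
  · rw [min_eq_left h, max_eq_right h]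
    simp
  · rw [min_eq_right h, max_eq_left h]
    simp [eq_comm]

theorem fill_val_01 {κ : Type} [DecidableEq κ] (T : Fill) (L : List κ) :
    T.val L = 0 ∨ T.val L = 1 := by
  induction T generalizing L with
  | leaf => exact Or.inr rfl
  | chord i j A B ihA ihB =>
    rw [Fill.val]
    split_ifs with h
    · rcases ihA (inn i j L) with h1 | h1 <;> rcases ihB (out i j L) with h2 | h2 <;>
        rw [h1, h2] <;> simp
    · exact Or.inl rfl
  | merge i j A B ihA ihB =>
    rw [Fill.val]
    split_ifs with h
    · rcases ihA (inn i j L) with h1 | h1 <;> rcases ihB (out i j L) with h2 | h2 <;>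
        rw [h1, h2] <;> simp
    · exact Or.inl rfl

private theorem not_ok {i j : ℕ} {l : List ℕ} (h : okN i j l = false) :
    ¬ (i < j ∧ j < l.length) := fun h' => by
  rw [(okN_eq i j l).2 h'] at h
  exact absurd h (by decide)

private theorem val_chord_ok {κ : Type} [DecidableEq κ] (d : ℕ → κ) (i j : ℕ) (A B : Fill)
    (l : List ℕ) (hok : okN i j l = true) :
    (Fill.chord i j A B).val (l.map d) = 1 ↔
      d (getN l i) ≠ d (getN l j) ∧ A.val ((innN i j l).map d) = 1 ∧
        B.val ((outN i j l).map d) = 1 := by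
  rw [okN_eq] at hok
  have hi := hok.1.trans hok.2
  rw [Fill.val, innN_eq, outN_eq, inn_map, out_map]
  have hc : (i < j ∧ j < (l.map d).length ∧ (l.map d)[i]? ≠ (l.map d)[j]?) ↔
      ¬ (d (getN l i) = d (getN l j)) := by
    rw [List.length_map, List.getElem?_map, List.getElem?_map, getN_some hi, getN_some hok.2]
    simp [hok.1, hok.2]
  by_cases hab : d (getN l i) = d (getN l j)
  · rw [if_neg (by rw [hc]; exact not_not.2 hab)]
    simp [hab]
  · rw [if_pos (by rw [hc]; exact hab), mul_eq_one]
    simp [hab]

private theorem val_merge_ok {κ : Type} [DecidableEq κ] (d : ℕ → κ) (i j : ℕ) (A B : Fill)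
    (l : List ℕ) (hok : okN i j l = true) :
    (Fill.merge i j A B).val (l.map d) = 1 ↔
      d (getN l i) = d (getN l j) ∧ A.val ((innN i j l).map d) = 1 ∧
        B.val ((outN i j l).map d) = 1 := by
  rw [okN_eq] at hok
  have hi := hok.1.trans hok.2
  rw [Fill.val, innN_eq, outN_eq, inn_map, out_map]
  have hc : (i < j ∧ j < (l.map d).length ∧ (l.map d)[i]? = (l.map d)[j]?) ↔
      (d (getN l i) = d (getN l j)) := by
    rw [List.length_map, List.getElem?_map, List.getElem?_map, getN_some hi, getN_some hok.2]
    simp [hok.1, hok.2]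
  by_cases hab : d (getN l i) = d (getN l j)
  · rw [if_pos (by rw [hc]; exact hab), mul_eq_one]
    simp [hab]
  · rw [if_neg (by rw [hc]; exact hab)]
    simp [hab]

private theorem val_chord_bad {κ : Type} [DecidableEq κ] (d : ℕ → κ) (i j : ℕ) (A B : Fill)
    (l : List ℕ) (hok : okN i j l = false) : (Fill.chord i j A B).val (l.map d) ≠ 1 := by
  rw [Fill.val, if_neg]
  · exact zero_ne_one
  · rw [List.length_map]
    have := not_ok hok
    tauto

private theorem val_merge_bad {κ : Type} [DecidableEq κ] (d : ℕ → κ) (i j : ℕ) (A B : Fill)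
    (l : List ℕ) (hok : okN i j l = false) : (Fill.merge i j A B).val (l.map d) ≠ 1 := by
  rw [Fill.val, if_neg]
  · exact zero_ne_one
  · rw [List.length_map]
    have := not_ok hok
    tauto

private theorem forall_zero_cons {κ : Type} (d : ℕ → κ) (acc : List ℕ) :
    ¬ ∀ x ∈ (0 :: acc), con d x := fun h => con_zero d (h 0 (by simp))

theorem prs_con {κ : Type} [DecidableEq κ] (d : ℕ → κ) (T : Fill) (l acc : List ℕ)
    (hl : ∀ x ∈ l, x < 32) :
    (∀ x ∈ prs T l acc fun x => x, con d x) ↔ ((∀ x ∈ acc, con d x) ∧ T.val (l.map d) = 1) := by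
  induction T generalizing l acc with
  | leaf =>
    rw [prs_leaf]
    exact ⟨fun h => ⟨h, rfl⟩, fun h => h.1⟩
  | chord i j A B ihA ihB =>
    cases hok : okN i j l with
    | false =>
      rw [prs_chord_bad i j A B l acc hok]
      exact iff_of_false (forall_zero_cons d acc) fun h => val_chord_bad d i j A B l hok h.2
    | true =>
      have hok' := (okN_eq i j l).1 hok
      have hi := hok'.1.trans hok'.2
      have ha := hl _ (getN_mem hi)
      have hb := hl _ (getN_mem hok'.2)
      rw [val_chord_ok d i j A B l hok]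
      by_cases hab : getN l i = getN l j
      · rw [prs_chord_eq i j A B l acc hok hab]
        exact iff_of_false (forall_zero_cons d acc) fun h => h.2.1 (by rw [hab])
      · rw [prs_chord_id i j A B l acc hok hab, ihB _ _ (fun x hx => hl x (mem_out hx)),
          ihA _ _ (fun x hx => hl x (mem_inn hx)), List.forall_mem_cons, con_cd0 d ha hb]
        tauto
  | merge i j A B ihA ihB =>
    cases hok : okN i j l with
    | false =>
      rw [prs_merge_bad i j A B l acc hok]
      exact iff_of_false (forall_zero_cons d acc) fun h => val_merge_bad d i j A B l hok h.2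
    | true =>
      have hok' := (okN_eq i j l).1 hok
      have hi := hok'.1.trans hok'.2
      have ha := hl _ (getN_mem hi)
      have hb := hl _ (getN_mem hok'.2)
      rw [val_merge_ok d i j A B l hok, prs_merge_id i j A B l acc hok,
        ihB _ _ (fun x hx => hl x (mem_out hx)), ihA _ _ (fun x hx => hl x (mem_inn hx)),
        List.forall_mem_cons, con_cd1 d ha hb]
      tauto

theorem prs_ok {w : ℕ} (hw : w ≤ 32) {S : ℕ → Prop} (T : Fill) (l acc : List ℕ)
    (hl : ∀ x ∈ l, x < w ∧ S x) (hacc : ∀ x ∈ acc, COk w S x) :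
    ∀ x ∈ prs T l acc fun x => x, COk w S x := by
  have hzero : ∀ acc : List ℕ, (∀ x ∈ acc, COk w S x) → ∀ x ∈ (0 :: acc), COk w S x :=
    fun acc h => List.forall_mem_cons.2 ⟨Or.inl rfl, h⟩
  have hcd : ∀ kd a b : ℕ, kd < 2 → (a < w ∧ S a) → (b < w ∧ S b) → (kd = 0 → a ≠ b) →
      COk w S (cd kd a b) := by
    intro kd a b hk ha hb hne
    obtain ⟨h1, h2, h3⟩ := lo_cd hk (lt_of_lt_of_le ha.1 hw) (lt_of_lt_of_le hb.1 hw)
    right
    rw [h1, h2, h3]
    rcases le_total a b with h | h
    · rw [min_eq_left h, max_eq_right h]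
      exact ⟨ha.1, hb.1, ha.2, hb.2, fun h0 => lt_of_le_of_ne h (hne h0)⟩
    · rw [min_eq_right h, max_eq_left h]
      exact ⟨hb.1, ha.1, hb.2, ha.2, fun h0 => lt_of_le_of_ne h (hne h0).symm⟩
  induction T generalizing l acc with
  | leaf =>
    rw [prs_leaf]
    exact hacc
  | chord i j A B ihA ihB =>
    cases hok : okN i j l with
    | false =>
      rw [prs_chord_bad i j A B l acc hok]
      exact hzero acc hacc
    | true =>
      have hok' := (okN_eq i j l).1 hok
      have hi := hok'.1.trans hok'.2
      have ha := hl _ (getN_mem hi)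
      have hb := hl _ (getN_mem hok'.2)
      by_cases hab : getN l i = getN l j
      · rw [prs_chord_eq i j A B l acc hok hab]
        exact hzero acc hacc
      · rw [prs_chord_id i j A B l acc hok hab]
        exact ihB _ _ (fun x hx => hl x (mem_out hx)) (ihA _ _ (fun x hx => hl x (mem_inn hx))
          (List.forall_mem_cons.2 ⟨hcd 0 _ _ (by omega) ha hb fun _ => hab, hacc⟩))
  | merge i j A B ihA ihB =>
    cases hok : okN i j l with
    | false =>
      rw [prs_merge_bad i j A B l acc hok]
      exact hzero acc hacc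
    | true =>
      have hok' := (okN_eq i j l).1 hok
      have hi := hok'.1.trans hok'.2
      have ha := hl _ (getN_mem hi)
      have hb := hl _ (getN_mem hok'.2)
      rw [prs_merge_id i j A B l acc hok]
      exact ihB _ _ (fun x hx => hl x (mem_out hx)) (ihA _ _ (fun x hx => hl x (mem_inn hx))
        (List.forall_mem_cons.2 ⟨hcd 1 _ _ (by omega) ha hb fun h => absurd h one_ne_zero, hacc⟩))

private theorem mem_pndN {l : List ℕ} {p y x : ℕ} (hx : x ∈ pndN l p y) : x ∈ l ∨ x = y := by
  unfold pndN at hx
  rw [app_eq, tk_eq, drp_eq, List.mem_append, List.mem_cons] at hx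
  rcases hx with h | h | h
  · exact Or.inl (List.mem_of_mem_take h)
  · exact Or.inr h
  · exact Or.inl (List.mem_of_mem_drop h)

theorem mem_pndsN (P : List ℕ) (v : ℕ) (l : List ℕ) {x : ℕ} (hx : x ∈ pndsN P v l) :
    x ∈ l ∨ (v ≤ x ∧ x < v + P.length) := by
  induction P generalizing v l with
  | nil => exact Or.inl hx
  | cons p P ih =>
    have e : pndsN (p :: P) v l = frc (Nat.succ v) fun v' => pndsN P v' (pndN l p v) := rfl
    rw [e, frc_eq] at hx
    rw [List.length_cons]
    rcases ih (Nat.succ v) (pndN l p v) hx with h | ⟨h1, h2⟩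
    · rcases mem_pndN h with h | h
      · exact Or.inl h
      · right; omega
    · right; omega

theorem val_map_injOn {κ κ' : Type} [DecidableEq κ] [DecidableEq κ'] (T : Fill) (L : List κ)
    (g : κ → κ') (hg : ∀ x ∈ L, ∀ y ∈ L, g x = g y → x = y) : T.val (L.map g) = T.val L := by
  have hinn : ∀ (i j : ℕ) (L : List κ) (x : κ), x ∈ inn i j L → x ∈ L := fun i j L x h =>
    List.mem_of_mem_drop (List.mem_of_mem_take h)
  have hout : ∀ (i j : ℕ) (L : List κ) (x : κ), x ∈ out i j L → x ∈ L := fun i j L x h => by
    rcases List.mem_append.1 h with h | h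
    · exact List.mem_of_mem_take h
    · exact List.mem_of_mem_drop h
  have hkey : ∀ (i j : ℕ) (L : List κ), (∀ x ∈ L, ∀ y ∈ L, g x = g y → x = y) →
      i < j → j < L.length → ((L.map g)[i]? = (L.map g)[j]? ↔ L[i]? = L[j]?) := by
    intro i j L hg hij hj
    have hi := hij.trans hj
    rw [List.getElem?_map, List.getElem?_map, List.getElem?_eq_getElem hi,
      List.getElem?_eq_getElem hj]
    simp only [Option.map_some, Option.some_inj]
    exact ⟨fun h => hg _ (List.getElem_mem hi) _ (List.getElem_mem hj) h, fun h => by rw [h]⟩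
  induction T generalizing L with
  | leaf => rfl
  | chord i j A B ihA ihB =>
    rw [Fill.val, Fill.val, inn_map, out_map,
      ihA _ (fun x hx y hy => hg x (hinn i j L x hx) y (hinn i j L y hy)),
      ihB _ (fun x hx y hy => hg x (hout i j L x hx) y (hout i j L y hy)), List.length_map]
    refine if_congr ?_ rfl rfl
    constructor
    · rintro ⟨h1, h2, h3⟩
      exact ⟨h1, h2, fun h => h3 ((hkey i j L hg h1 h2).2 h)⟩
    · rintro ⟨h1, h2, h3⟩
      exact ⟨h1, h2, fun h => h3 ((hkey i j L hg h1 h2).1 h)⟩
  | merge i j A B ihA ihB =>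
    rw [Fill.val, Fill.val, inn_map, out_map,
      ihA _ (fun x hx y hy => hg x (hinn i j L x hx) y (hinn i j L y hy)),
      ihB _ (fun x hx y hy => hg x (hout i j L x hx) y (hout i j L y hy)), List.length_map]
    refine if_congr ?_ rfl rfl
    constructor
    · rintro ⟨h1, h2, h3⟩
      exact ⟨h1, h2, (hkey i j L hg h1 h2).1 h3⟩
    · rintro ⟨h1, h2, h3⟩
      exact ⟨h1, h2, (hkey i j L hg h1 h2).2 h3⟩

end Pool.Agent.SB
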