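import Pool.Agent.SB.APend
import Pool.Agent.SB.AFill
import Pool.Agent.SB.GPos
import Pool.Agent.SB.ECon

/-!
# The functionals of fillings: values of chromatic polynomials of plane graphs



Plan.
* `sum_isoG`: a colouring of `isoG H m` is a pair (colouring of `H`, arbitrary `Fin m → Fin N`)
  (`Equiv.sumArrowEquivProdArrow`, `Finset.sum_bij` or `Finset.sum_nbij'`).
* `fv_rep`: let `ρ i = if h : k < i ∧ i - (k + 1) < m then inr ⟨i - (k + 1), _⟩ else inl (rr i)`
  (`m = P.length`).  Then `upd k (fun i => c (rr i)) x = Sum.elim c x ∘ ρ`, and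
  `(pndsN P (k + 1) U).map ρ = pnds P (fun j => ρ (k + 1 + j)) ((U.map rr).map Sum.inl)` (`pndsN_eq`,
  `pnds_map`; elements of `U` are `< k`).  `Disc.pnds` and `disc_rep`, `sum_isoG`.
* `fv_nonneg`: in the first case the polynomial is `0` (`PF.unique`), in the second `p = cp Y`
  (`cp_eval`) and `pl_nonneg` (`GPos.lean`).
* `fv_low`: not the first case by `hne`; in the second `p = cp Y`, `card W ≥ 3`, `card W < n`,
  so `Hmin` gives `cc (card W) ≤ p.eval (tau + 3)`, and `cc_mono`.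
-/

set_option autoImplicit false

noncomputable section

namespace Pool.Agent.SB

open Polynomial
open Pool.Agent.Helper1.PG
open Pool.Agent.Helper36.BL (cp cnt cols cp_eval mem_cols)

variable {V : Type} [Fintype V]

theorem sum_isoG (H : SimpleGraph V) (m N : ℕ) (f : (V ⊕ Fin m → Fin N) → ℝ) :
    ∑ c ∈ cols (isoG H m) N, f c =
      ∑ c ∈ cols H N, ∑ x : Fin m → Fin N, f (Sum.elim c x) := by
  classical
  rw [← Finset.sum_product' (cols H N) Finset.univ (fun c x => f (Sum.elim c x))]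
  refine Finset.sum_nbij' (fun c => (c ∘ Sum.inl, c ∘ Sum.inr)) (fun p => Sum.elim p.1 p.2)
    ?_ ?_ ?_ ?_ ?_
  · intro c hc
    rw [mem_cols] at hc
    rw [Finset.mem_product, mem_cols]
    refine ⟨fun u v huv => hc (Sum.inl u) (Sum.inl v) ?_, Finset.mem_univ _⟩
    exact SimpleGraph.map_adj_apply' huv (fun h => huv.ne (Sum.inl_injective h))
  · rintro ⟨c, x⟩ hc
    rw [Finset.mem_product, mem_cols] at hc
    rw [mem_cols]
    intro u v huv
    unfold isoG at huv
    rw [SimpleGraph.map_adj'] at huv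
    obtain ⟨-, u', v', h, rfl, rfl⟩ := huv
    exact hc.1 u' v' h
  · intro c _
    exact Sum.elim_comp_inl_inr c
  · rintro ⟨c, x⟩ _
    rfl
  · intro c _
    rw [Sum.elim_comp_inl_inr]

private theorem afv_cnt {W : Type} [Fintype W] (Y : SimpleGraph W) :
    PF (fun N => (cnt Y N : ℝ)) (cp Y) := fun N => cp_eval Y N

theorem fv_rep {H : SimpleGraph V} {rr : ℕ → V} {k : ℕ} {U : List ℕ} (hU : ∀ u ∈ U, u < k)
    (hne : U ≠ []) (h : Disc H (U.map rr)) (P : List ℕ) (T : Fill) :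
    (∀ N : ℕ, ∑ c ∈ cols H N, fv k U P T (fun i => c (rr i)) = 0) ∨
    ∃ (W : Type) (_ : Fintype W) (Y : SimpleGraph W), Pl Y ∧
      (∀ N : ℕ, ∑ c ∈ cols H N, fv k U P T (fun i => c (rr i)) = (cnt Y N : ℝ)) ∧
      Fintype.card W ≤ Fintype.card V + P.length ∧
      Fintype.card V + P.length ≤ Fintype.card W + mgc T := by
  obtain ⟨ρ, hρ⟩ : ∃ ρ : ℕ → V ⊕ Fin P.length, ∀ i, ρ i =
      if h : k < i ∧ i - (k + 1) < P.length then Sum.inr ⟨i - (k + 1), h.2⟩
      else Sum.inl (rr i) := ⟨_, fun _ => rfl⟩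
  have hρ1 : ∀ (j : ℕ) (hj : j < P.length), ρ (k + 1 + j) = Sum.inr ⟨j, hj⟩ := by
    intro j hj
    rw [hρ, dif_pos (by omega)]
    congr 1
    apply Fin.ext
    show k + 1 + j - (k + 1) = j
    omega
  have hd := h.pnds (by simpa using hne) P (fun j => ρ (k + 1 + j)) hρ1
  have hL : SB.pnds P (fun j => ρ (k + 1 + j)) ((U.map rr).map Sum.inl) =
      (pndsN P (k + 1) U).map ρ := by
    rw [pndsN_eq, pnds_map]
    congr 1
    rw [List.map_map]
    refine List.map_congr_left fun u hu => ?_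
    have := hU u hu
    rw [hρ, dif_neg (by omega)]
    rfl
  rw [hL] at hd
  have hsum : ∀ N : ℕ, ∑ c ∈ cols H N, fv k U P T (fun i => c (rr i)) =
      ((∑ c ∈ cols (isoG H P.length) N, T.val (((pndsN P (k + 1) U).map ρ).map c) : ℕ) : ℝ) := by
    intro N
    rw [Nat.cast_sum, sum_isoG H P.length N
      (fun c => ((T.val (((pndsN P (k + 1) U).map ρ).map c) : ℕ) : ℝ))]
    refine Finset.sum_congr rfl fun c _ => ?_
    unfold fv
    refine Finset.sum_congr rfl fun x _ => ?_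
    congr 2
    rw [List.map_map]
    refine List.map_congr_left fun i _ => ?_
    rw [Function.comp_apply, hρ]
    unfold upd
    by_cases hi : k < i ∧ i - (k + 1) < P.length
    · rw [dif_pos hi, dif_pos hi]
      rfl
    · rw [dif_neg hi, dif_neg hi]
      rfl
  rcases disc_rep hd T with h1 | ⟨W, iW, Y, hY, h1, h2, h3⟩
  · left
    intro N
    rw [hsum N, h1 N, Nat.cast_zero]
  · right
    rw [Fintype.card_sum, Fintype.card_fin] at h2 h3
    exact ⟨W, iW, Y, hY, fun N => by rw [hsum N, h1 N], h2, h3⟩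

theorem fv_nonneg {H : SimpleGraph V} {rr : ℕ → V} {k : ℕ} {U : List ℕ} (hU : ∀ u ∈ U, u < k)
    (hne : U ≠ []) (h : Disc H (U.map rr)) (P : List ℕ) (T : Fill) {p : ℝ[X]}
    (hp : PF (fun N => ∑ c ∈ cols H N, fv k U P T (fun i => c (rr i))) p) :
    0 ≤ p.eval (tau + 2) := by
  rcases fv_rep hU hne h P T with h1 | ⟨W, iW, Y, hY, h1, -, -⟩
  · have h2 : PF (fun N => ∑ c ∈ cols H N, fv k U P T (fun i => c (rr i))) 0 := by
      intro N
      rw [eval_zero]
      exact (h1 N).symm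
    rw [hp.unique h2, eval_zero]
  · have h2 := (afv_cnt Y).congr (fun N => (h1 N).symm)
    rw [hp.unique h2]
    exact pl_nonneg Y hY

theorem fv_low {n : ℕ} (hmin : Hmin n) {H : SimpleGraph V} {rr : ℕ → V} {k : ℕ} {U : List ℕ}
    (hU : ∀ u ∈ U, u < k) (hne : U ≠ []) (h : Disc H (U.map rr)) (P : List ℕ) (T : Fill)
    {p : ℝ[X]} (hp : PF (fun N => ∑ c ∈ cols H N, fv k U P T (fun i => c (rr i))) p)
    (hn : Fintype.card V + P.length < n) (h3 : 3 + mgc T ≤ Fintype.card V + P.length)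
    (h0 : ∃ N : ℕ, ∑ c ∈ cols H N, fv k U P T (fun i => c (rr i)) ≠ 0) :
    cc (Fintype.card V + P.length - mgc T) ≤ p.eval (tau + 3) := by
  rcases fv_rep hU hne h P T with h1 | ⟨W, iW, Y, hY, h1, h2, h4⟩
  · obtain ⟨N, hN⟩ := h0
    exact absurd (h1 N) hN
  · have h5 := (afv_cnt Y).congr (fun N => (h1 N).symm)
    rw [hp.unique h5]
    exact (cc_mono (by omega)).trans (hmin W Y hY (by omega) (by omega))

end Pool.Agent.SB
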