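import Pool.Agent.SB.EHomA

/-!
# Naturality of the whole program; vanishing of the coefficients at `τ + 3`

JOB SB-EHomB.  Prove all theorems of this file (remove the `sorry`s, keep the statements).

Plan.
* `map_flat`, `map_mulEQs`: inductions (`map_mulEQ`).
* `map_zT`: unfold, `frc_eq`, `map_elimL` (`U5C/Nat.lean`), `map_mulEQs`, `map_flat`, `map_secT`,
  `map_emp`.  `map_zTs`, `map_topT`: inductions on the lists (`map_addTs`, `map_runE`, `map_runC`).
* `hm4y`, `hm4q`: `v4` of the operations on `K4`, linear in the components, with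
  `tau * tau = tau + 1` (`tau_sq`); `Nat.add`, `Nat.mul` are `+`, `*`, then `push_cast`.
* `hmRy`, `hmRq`: `eval`.
* `coef_zero`: let `E4`, `ER`, `EX` be the program over `K4`, over `ℝ` (sector operations with
  `(tau + 2) *`, outer operations with `(tau + 3) *`, `f = id`) and over `ℝ[X]`.  By `map_zTs` and
  `map_topT`, `E4.map v4 = ER` and `EX.map (eval (tau + 3)) = ER` (for `EX` the sector level is
  mapped with `eval (tau + 2)` and `(fR c).eval (tau + 3) = c.eval (tau + 2)`; `(cR c).eval _ = v4 c`).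
  By `allC_of_chk` (`U5C/Final.lean`) all coefficients `c` of `E4` have `z4 c = true`, hence
  `v4 c = 0`; so all coefficients of `ER` vanish and `linT_map` gives the claim.
-/

set_option autoImplicit false

noncomputable section

namespace Pool.Agent.SB

open Polynomial
open Pool.Agent.U5C
open Pool.Agent.Helper1.PG (Fill)

section

variable {K K' K1 K1' : Type} {neg mq : K → K} {add : K → K → K} {neg1 mq1 : K1 → K1}
  {add1 : K1 → K1 → K1} {φ : K → K1}
  {neg' mq' : K' → K'} {add' : K' → K' → K'} {neg1' mq1' : K1' → K1'}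
  {add1' : K1' → K1' → K1'} {φ' : K' → K1'}

theorem map_flat {f : K → K'} {f1 : K1 → K1'} (hf : ∀ c, φ' (f c) = f1 (φ c)) (T : Tr K)
    (L : FL K') : (flat f T L).map φ' = flat f1 (T.map φ) (L.map φ') := by
  induction T generalizing L with
  | lf L0 =>
    induction L0 with
    | nil => rfl
    | cons s c L0 ih =>
      have e : flat f (Tr.lf (FL.cons s c L0)) L = FL.cons s (f c) (flat f (Tr.lf L0) L) := rfl
      have e' : flat f1 (Tr.lf (FL.cons s (φ c) (L0.map φ))) (L.map φ') =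
        FL.cons s (f1 (φ c)) (flat f1 (Tr.lf (L0.map φ)) (L.map φ')) := rfl
      rw [Tr.map_lf] at ih
      rw [Tr.map_lf, FL.map_cons, e, e', FL.map_cons, ih, hf]
  | nd l r ihl ihr =>
    have e : flat f (Tr.nd l r) L = flat f r (flat f l L) := rfl
    have e' : flat f1 (Tr.nd (l.map φ) (r.map φ)) (L.map φ') =
      flat f1 (r.map φ) (flat f1 (l.map φ) (L.map φ')) := rfl
    rw [Tr.map_nd, e, e', ihr, ihl]

theorem map_mulEQs (w R C adj z : ℕ) (J : List ℕ) (L : FL K) :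
    (mulEQs w R C adj z J L).map φ = mulEQs w R C adj z J (L.map φ) := by
  induction J generalizing L with
  | nil => rfl
  | cons j J ih =>
    have e : mulEQs w R C adj z (j :: J) L = mulEQs w R C adj z J (mulEQ w R C adj z j L) := rfl
    have e' : mulEQs w R C adj z (j :: J) (L.map φ) =
      mulEQs w R C adj z J (mulEQ w R C adj z j (L.map φ)) := rfl
    rw [e, e', ih, map_mulEQ]

private theorem map_zT (hh : Hm neg mq add neg1 mq1 add1 φ)
    (hh' : Hm neg' mq' add' neg1' mq1' add1' φ')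
    {f : K → K'} {f1 : K1 → K1'} (hf : ∀ c, φ' (f c) = f1 (φ c)) (w R C p n p' k AN : ℕ)
    (S : Sec K) (T : Tr K') :
    (zT neg mq add neg' mq' add' f w R C p n p' k AN S T).map φ' =
      zT neg1 mq1 add1 neg1' mq1' add1' f1 w R C p n p' k AN (S.map φ) (T.map φ') := by
  unfold zT
  rw [frc_eq, frc_eq, map_elimL hh', map_mulEQs (φ := φ'),
    map_flat (φ := φ) (φ' := φ') (f1 := fun c => neg1' (f1 c)) (fun c => by rw [hh'.neg, hf]),
    map_secT hh, map_emp]
  rfl

theorem map_zTs (hh : Hm neg mq add neg1 mq1 add1 φ) (hh' : Hm neg' mq' add' neg1' mq1' add1' φ')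
    {f : K → K'} {f1 : K1 → K1'} (hf : ∀ c, φ' (f c) = f1 (φ c)) (w R C p n p' k AN : ℕ)
    (Ss : List (Sec K)) (T : Tr K') :
    (zTs neg mq add neg' mq' add' f w R C p n p' k AN Ss T).map φ' =
      zTs neg1 mq1 add1 neg1' mq1' add1' f1 w R C p n p' k AN (Ss.map (Sec.map φ)) (T.map φ') := by
  induction Ss generalizing T with
  | nil => rfl
  | cons S Ss ih =>
    have e : zTs neg mq add neg' mq' add' f w R C p n p' k AN (S :: Ss) T =
      zTs neg mq add neg' mq' add' f w R C p n p' k AN Ss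
        (zT neg mq add neg' mq' add' f w R C p n p' k AN S T) := rfl
    rw [e, ih, map_zT hh hh' hf]
    rfl

private def topR (neg' mq' : K' → K') (add' : K' → K' → K') (w R C p' n' k AN : ℕ)
    (U0 : List ℕ) (Ts : List (Ent K')) (T : Tr K') : Tr K' :=
  @List.rec (Ent K') (fun _ => Tr K' → Tr K') (fun T => T)
    (fun e _ ih T => ih (addTs add' (fun s => s) (fun c => c) p'
      (runE neg' mq' add' w R C p' n' k AN U0 (neg' (mq' e.c)) e.P e.T) T)) Ts T

private theorem map_topR (hh' : Hm neg' mq' add' neg1' mq1' add1' φ') (w R C p' n' k AN : ℕ)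
    (U0 : List ℕ) (Ts : List (Ent K')) (T : Tr K') :
    (topR neg' mq' add' w R C p' n' k AN U0 Ts T).map φ' =
      topR neg1' mq1' add1' w R C p' n' k AN U0 (Ts.map (Ent.map φ')) (T.map φ') := by
  induction Ts generalizing T with
  | nil => rfl
  | cons e Ts ih =>
    have e1 : topR neg' mq' add' w R C p' n' k AN U0 (e :: Ts) T =
      topR neg' mq' add' w R C p' n' k AN U0 Ts (addTs add' (fun s => s) (fun c => c) p'
        (runE neg' mq' add' w R C p' n' k AN U0 (neg' (mq' e.c)) e.P e.T) T) := rfl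
    have e2 : topR neg1' mq1' add1' w R C p' n' k AN U0 ((e :: Ts).map (Ent.map φ')) (T.map φ') =
      topR neg1' mq1' add1' w R C p' n' k AN U0 (Ts.map (Ent.map φ'))
        (addTs add1' (fun s => s) (fun c => c) p'
        (runE neg1' mq1' add1' w R C p' n' k AN U0 (neg1' (mq1' (φ' e.c))) e.P e.T)
          (T.map φ')) := rfl
    rw [e1, e2, ih, map_addTs hh' _ _ (fun c => c) (fun _ => rfl), map_runE hh', hh'.neg, hh'.mq]

theorem map_topT (hh' : Hm neg' mq' add' neg1' mq1' add1' φ') (w R C p' n' k AN : ℕ)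
    (U0 : List ℕ) (D : K') (csC : List ℕ) (mC : ℕ) (Ts : List (Ent K')) :
    (topT neg' mq' add' w R C p' n' k AN U0 D csC mC Ts).map φ' =
      topT neg1' mq1' add1' w R C p' n' k AN U0 (φ' D) csC mC (Ts.map (Ent.map φ')) := by
  have e1 : topT neg' mq' add' w R C p' n' k AN U0 D csC mC Ts =
    topR neg' mq' add' w R C p' n' k AN U0 Ts
      (runC neg' mq' add' w R C p' n' k AN (mq' D) mC csC) := rfl
  have e2 : topT neg1' mq1' add1' w R C p' n' k AN U0 (φ' D) csC mC (Ts.map (Ent.map φ')) =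
    topR neg1' mq1' add1' w R C p' n' k AN U0 (Ts.map (Ent.map φ'))
      (runC neg1' mq1' add1' w R C p' n' k AN (mq1' (φ' D)) mC csC) := rfl
  rw [e1, e2, map_topR hh', map_runC hh', hh'.mq]

end

theorem hm4y : Hm neg4 my4 add4 (fun c : ℝ => -c) (fun c => (tau + 2) * c) (fun c d => c + d)
    v4 := by
  refine ⟨?_, ?_, ?_⟩
  · intro c
    show ((c.1.2 : ℝ) - c.1.1) + ((c.2.2 : ℝ) - c.2.1) * tau =
      -(((c.1.1 : ℝ) - c.1.2) + ((c.2.1 : ℝ) - c.2.2) * tau)
    ring
  · intro c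
    show (((2 * c.1.1 + c.2.1 : ℕ) : ℝ) - ((2 * c.1.2 + c.2.2 : ℕ) : ℝ)) +
      (((c.1.1 + 3 * c.2.1 : ℕ) : ℝ) - ((c.1.2 + 3 * c.2.2 : ℕ) : ℝ)) * tau =
      (tau + 2) * (((c.1.1 : ℝ) - c.1.2) + ((c.2.1 : ℝ) - c.2.2) * tau)
    push_cast
    linear_combination (-((c.2.1 : ℝ) - c.2.2)) * tau_sq
  · intro c d
    show (((c.1.1 + d.1.1 : ℕ) : ℝ) - ((c.1.2 + d.1.2 : ℕ) : ℝ)) +
      (((c.2.1 + d.2.1 : ℕ) : ℝ) - ((c.2.2 + d.2.2 : ℕ) : ℝ)) * tau =
      (((c.1.1 : ℝ) - c.1.2) + ((c.2.1 : ℝ) - c.2.2) * tau) +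
        (((d.1.1 : ℝ) - d.1.2) + ((d.2.1 : ℝ) - d.2.2) * tau)
    push_cast
    ring

theorem hm4q : Hm neg4 mq4 add4 (fun c : ℝ => -c) (fun c => (tau + 3) * c) (fun c d => c + d)
    v4 := by
  refine ⟨hm4y.neg, ?_, hm4y.add⟩
  intro c
  show (((3 * c.1.1 + c.2.1 : ℕ) : ℝ) - ((3 * c.1.2 + c.2.2 : ℕ) : ℝ)) +
      (((c.1.1 + 4 * c.2.1 : ℕ) : ℝ) - ((c.1.2 + 4 * c.2.2 : ℕ) : ℝ)) * tau =
      (tau + 3) * (((c.1.1 : ℝ) - c.1.2) + ((c.2.1 : ℝ) - c.2.2) * tau)
  push_cast
  linear_combination (-((c.2.1 : ℝ) - c.2.2)) * tau_sq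

theorem hmRy : Hm nR mR aR (fun c : ℝ => -c) (fun c => (tau + 2) * c) (fun c d => c + d)
    (fun c : ℝ[X] => c.eval (tau + 2)) := by
  refine ⟨fun c => ?_, fun c => ?_, fun c d => ?_⟩
  · simp [nR]
  · simp [mR]
  · simp [aR]

theorem hmRq : Hm nR mR aR (fun c : ℝ => -c) (fun c => (tau + 3) * c) (fun c d => c + d)
    (fun c : ℝ[X] => c.eval (tau + 3)) := by
  refine ⟨fun c => ?_, fun c => ?_, fun c d => ?_⟩
  · simp [nR]
  · simp [mR]
  · simp [aR]

theorem z4_spec {c : K4} (h : z4 c = true) : v4 c = 0 := by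
  have e : z4 c = @Bool.rec (fun _ => Bool) false (Nat.beq c.2.1 c.2.2) (Nat.beq c.1.1 c.1.2) := rfl
  rw [e] at h
  cases h1 : Nat.beq c.1.1 c.1.2 with
  | false => rw [h1] at h; exact absurd h Bool.false_ne_true
  | true =>
    rw [h1] at h
    have h2 : c.2.1 = c.2.2 := Nat.eq_of_beq_eq_true h
    have h3 : c.1.1 = c.1.2 := Nat.eq_of_beq_eq_true h1
    unfold v4
    rw [h2, h3]
    ring

private theorem lin_zero {K : Type} (ι : K → ℝ) (Λ : ℕ → ℝ) (L : FL K)
    (h : AllCL (fun _ c => ι c = 0) L) : lin ι Λ L = 0 := by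
  induction L with
  | nil => rfl
  | cons s c L ih => rw [lin_cons, h.1, ih h.2, zero_mul, add_zero]

private theorem linT_zero {K : Type} (ι : K → ℝ) (Λ : ℕ → ℝ) (T : Tr K)
    (h : AllC (fun _ c => ι c = 0) T) : linT ι Λ T = 0 := by
  induction T with
  | lf L => exact lin_zero ι Λ L h
  | nd l r ihl ihr => rw [linT_nd, ihl h.1, ihr h.2, add_zero]

theorem coef_zero {w R C p n p' n' k AN mC : ℕ} {U0 : List ℕ} {D : K4} {csC : List ℕ}
    {Ts : List (Ent K4)} {Ss : List (Sec K4)}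
    (hchk : chkT (fun _ c => z4 c) (zTs neg4 my4 add4 neg4 mq4 add4 (fun c => c) w R C p n p' k AN
      Ss (topT neg4 mq4 add4 w R C p' n' k AN U0 D csC mC Ts)) = true) (Λ : ℕ → ℝ) :
    linT (fun c : ℝ[X] => c.eval (tau + 3)) Λ
      (zTs nR mR aR nR mR aR fR w R C p n p' k AN (Ss.map (Sec.map cR))
        (topT nR mR aR w R C p' n' k AN U0 (cR D) csC mC (Ts.map (Ent.map cR)))) = 0 := by
  have h4 := allC_of_chk hchk
  have h5 := linT_zero v4 Λ _ (AllC.imp (fun _ c hc => z4_spec hc) h4)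
  have h6 := linT_map (φ := v4) (fun c : ℝ => c) Λ
    (zTs neg4 my4 add4 neg4 mq4 add4 (fun c => c) w R C p n p' k AN
      Ss (topT neg4 mq4 add4 w R C p' n' k AN U0 D csC mC Ts))
  have h7 := linT_map (φ := fun c : ℝ[X] => c.eval (tau + 3)) (fun c : ℝ => c) Λ
    (zTs nR mR aR nR mR aR fR w R C p n p' k AN (Ss.map (Sec.map cR))
        (topT nR mR aR w R C p' n' k AN U0 (cR D) csC mC (Ts.map (Ent.map cR))))
  have hf : ∀ c : ℝ[X], (fR c).eval (tau + 3) = c.eval (tau + 2) := by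
    intro c
    rw [fR_eval]
    congr 1
    ring
  rw [map_zTs hmRy hmRq (f1 := fun c => c) hf, map_topT hmRq] at h7
  rw [map_zTs hm4y hm4q (f := fun c => c) (f1 := fun c => c) (fun _ => rfl), map_topT hm4q] at h6
  have hS : (Ss.map (Sec.map cR)).map (Sec.map (fun c : ℝ[X] => c.eval (tau + 2))) =
      Ss.map (Sec.map v4) := by
    rw [List.map_map]
    refine List.map_congr_left fun S _ => ?_
    show Sec.mk S.J S.U S.adj ((S.es.map (Ent.map cR)).map
      (Ent.map (fun c : ℝ[X] => c.eval (tau + 2)))) = Sec.mk S.J S.U S.adj (S.es.map (Ent.map v4))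
    rw [List.map_map]
    congr 1
    refine List.map_congr_left fun e _ => ?_
    show Ent.mk ((cR e.c).eval (tau + 2)) e.P e.T = Ent.mk (v4 e.c) e.P e.T
    rw [cR, eval_C]
  have hT : (Ts.map (Ent.map cR)).map (Ent.map (fun c : ℝ[X] => c.eval (tau + 3))) =
      Ts.map (Ent.map v4) := by
    rw [List.map_map]
    refine List.map_congr_left fun e _ => ?_
    show Ent.mk ((cR e.c).eval (tau + 3)) e.P e.T = Ent.mk (v4 e.c) e.P e.T
    rw [cR, eval_C]
  have hD : (cR D).eval (tau + 3) = v4 D := by rw [cR, eval_C]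
  rw [hS, hT, hD] at h7
  rw [← h7, h6]
  exact h5

end Pool.Agent.SB
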