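import Pool.Agent.SB.EPolyA

/-!
# Polynomials of the functionals

JOB SB-EPoly.  Prove all theorems of this file (remove the `sorry`s, keep the statements).

Plan.
* `pat_poly`: `poly_ker` for `F r = if (∀ u v, G.Adj u v → ¬ r u v) ∧ (∀ k, s.testBit k → r (rr (k / w))
  (rr (k % w))) then 1 else 0`; the sum over `cols G N` is a sum over all functions with `if`.
* `cv_poly`, `fv_poly`: `poly_ker` for the type `V ⊕ Fin m`: a function on `V ⊕ Fin m` is a pair
  (`Equiv.sumArrowEquivProdArrow`), the summand only depends on which values are equal: for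
  `cv` clear; for `fv` the value `T.val (l.map d)` only depends on the relation
  `d i = d j` on `l` (`val_ker`; take `F r` := the value for any function `g : ℕ → ℕ` with
  `g i = g j ↔ r (ρ i) (ρ j)` for all `i`, `j` if there is one, else `0`).
* `sv_poly`: the same with `V ⊕ (Fin m ⊕ Unit)` (the additional point has the colour `z`).
* `engine_poly`: choose the polynomials `Λ s` of `pat_poly`; by induction on the trie there is
  `p' := linT (fun c => c) Λ T` with `p'.eval x = linT (fun c => c.eval x) (fun s => (Λ s).eval x) T`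
  for all `x`; for `x = N` it is the given sum (`lin` and `linT` commute with the sum over `c`), so
  `p' = p` (`PF.unique`) and at `x` the hypothesis gives `0`.
-/

set_option autoImplicit false

noncomputable section

namespace Pool.Agent.SB

open Polynomial
open Pool.Agent.U5C
open Pool.Agent.Helper1.PG (Fill)
open Pool.Agent.Helper36.BL (cp cnt cols cp_eval mem_cols)

variable {V : Type} [Fintype V] (H : SimpleGraph V) (rr : ℕ → V)

section gen

open scoped Classical in
private theorem poly_gen {W : Type} [Fintype W] (Φ : ∀ N : ℕ, (W → Fin N) → ℝ)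
    (h : ∀ (N N' : ℕ) (c : W → Fin N) (c' : W → Fin N'),
      (∀ u v, (c u = c v ↔ c' u = c' v)) → Φ N c = Φ N' c') :
    ∃ p : ℝ[X], PF (fun N => ∑ c : W → Fin N, Φ N c) p := by
  obtain ⟨p, hp⟩ := poly_ker (V := W) (fun r =>
    if hr : ∃ Nc : Σ N : ℕ, (W → Fin N), ∀ u v, (Nc.2 u = Nc.2 v ↔ r u v) then
      Φ hr.choose.1 hr.choose.2 else 0)
  refine ⟨p, fun N => ?_⟩
  rw [hp N]
  refine Finset.sum_congr rfl fun c _ => ?_
  have hr : ∃ Nc : Σ N : ℕ, (W → Fin N), ∀ u v, (Nc.2 u = Nc.2 v ↔ c u = c v) :=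
    ⟨⟨N, c⟩, fun _ _ => Iff.rfl⟩
  rw [dif_pos hr]
  exact h _ _ _ _ hr.choose_spec

private theorem sum_sum {A B : Type} {N : ℕ} {i1 : Fintype (A ⊕ B → Fin N)}
    [Fintype (A → Fin N)] [Fintype (B → Fin N)] (f : (A ⊕ B → Fin N) → ℝ) :
    ∑ e : A ⊕ B → Fin N, f e = ∑ a : A → Fin N, ∑ b : B → Fin N, f (Sum.elim a b) := by
  rw [← Fintype.sum_prod_type' (f := fun (a : A → Fin N) (b : B → Fin N) => f (Sum.elim a b))]
  refine Fintype.sum_equiv (Equiv.sumArrowEquivProdArrow A B (Fin N)) _ _ fun e => ?_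
  congr 1
  funext x
  rcases x with x | x <;> rfl

private theorem sum_unit {N : ℕ} {i1 : Fintype (Unit → Fin N)} (f : (Unit → Fin N) → ℝ) :
    ∑ e : Unit → Fin N, f e = ∑ z : Fin N, f (fun _ => z) :=
  Fintype.sum_equiv (Equiv.funUnique Unit (Fin N)) _ _ fun e => by
    congr 1

open scoped Classical in
private theorem sum_cols {N : ℕ} (f : (V → Fin N) → ℝ) :
    ∑ c ∈ cols H N, f c = ∑ c : V → Fin N, if (∀ x y, H.Adj x y → c x ≠ c y) then f c else 0 := by
  rw [cols, Finset.sum_filter]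

/-- the slots -/
private def rho (k m : ℕ) (i : ℕ) : V ⊕ Fin m :=
  if h : k < i ∧ i - (k + 1) < m then Sum.inr ⟨i - (k + 1), h.2⟩ else Sum.inl (rr i)

omit [Fintype V] in
private theorem upd_rho {κ : Type} (k m : ℕ) (c : V → κ) (x : Fin m → κ) (i : ℕ) :
    upd k (fun i => c (rr i)) x i = Sum.elim c x (rho rr k m i) := by
  unfold upd rho
  split_ifs <;> rfl

private theorem con_congr {κ κ' : Type} {d : ℕ → κ} {d' : ℕ → κ'}
    (h : ∀ i j, (d i = d j ↔ d' i = d' j)) (x : ℕ) : con d x ↔ con d' x := by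
  unfold con
  simp only [ne_eq, h]

end gen

theorem pat_poly (w s : ℕ) :
    ∃ p : ℝ[X], PF (fun N => ∑ c ∈ cols H N, lc ℝ w (fun i => c (rr i)) s) p := by
  classical
  obtain ⟨p, hp⟩ := poly_gen (W := V) (fun N c =>
    if (∀ x y, H.Adj x y → c x ≠ c y) then lc ℝ w (fun i => c (rr i)) s else 0) (by
      intro N N' c c' h
      have h1 : (∀ x y, H.Adj x y → c x ≠ c y) ↔ (∀ x y, H.Adj x y → c' x ≠ c' y) := by
        simp only [ne_eq, h]
      have h2 : Sat w s (fun i => c (rr i)) ↔ Sat w s (fun i => c' (rr i)) := by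
        unfold Sat
        simp only [h]
      simp only [h1, lc, h2])
  refine ⟨p, hp.congr fun N => ?_⟩
  rw [sum_cols]

theorem cv_poly (k m : ℕ) (cs : List ℕ) :
    ∃ p : ℝ[X], PF (fun N => ∑ c ∈ cols H N, cv k m cs (fun i => c (rr i))) p := by
  classical
  obtain ⟨p, hp⟩ := poly_gen (W := V ⊕ Fin m) (fun N e =>
    if (∀ x y, H.Adj x y → e (Sum.inl x) ≠ e (Sum.inl y)) then
      (if (∀ y ∈ cs, con (fun i => e (rho rr k m i)) y) then 1 else 0) else 0) (by
      intro N N' c c' h
      have h1 : (∀ x y, H.Adj x y → c (Sum.inl x) ≠ c (Sum.inl y)) ↔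
          (∀ x y, H.Adj x y → c' (Sum.inl x) ≠ c' (Sum.inl y)) := by
        simp only [ne_eq, h]
      have h2 : (∀ y ∈ cs, con (fun i => c (rho rr k m i)) y) ↔
          (∀ y ∈ cs, con (fun i => c' (rho rr k m i)) y) := by
        refine forall₂_congr fun y _ => con_congr (fun i j => h _ _) y
      simp only [h1, h2])
  refine ⟨p, hp.congr fun N => ?_⟩
  rw [sum_cols, sum_sum]
  refine Finset.sum_congr rfl fun c _ => ?_
  by_cases hc : ∀ x y, H.Adj x y → c x ≠ c y
  · rw [if_pos hc]
    unfold cv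
    refine Finset.sum_congr rfl fun x _ => ?_
    rw [if_pos (by simpa using hc)]
    have : upd k (fun i => c (rr i)) x = fun i => Sum.elim c x (rho rr k m i) :=
      funext fun i => upd_rho rr k m c x i
    rw [this]
  · rw [if_neg hc]
    refine Finset.sum_eq_zero fun x _ => ?_
    rw [if_neg (by simpa using hc)]

theorem fv_poly (k : ℕ) (U P : List ℕ) (T : Fill) :
    ∃ p : ℝ[X], PF (fun N => ∑ c ∈ cols H N, fv k U P T (fun i => c (rr i))) p := by
  classical
  obtain ⟨p, hp⟩ := poly_gen (W := V ⊕ Fin P.length) (fun N e =>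
    if (∀ x y, H.Adj x y → e (Sum.inl x) ≠ e (Sum.inl y)) then
      ((T.val ((pndsN P (k + 1) U).map (fun i => e (rho rr k P.length i))) : ℕ) : ℝ) else 0) (by
      intro N N' c c' h
      have h1 : (∀ x y, H.Adj x y → c (Sum.inl x) ≠ c (Sum.inl y)) ↔
          (∀ x y, H.Adj x y → c' (Sum.inl x) ≠ c' (Sum.inl y)) := by
        simp only [ne_eq, h]
      have h2 := val_ker T (pndsN P (k + 1) U) (fun i => c (rho rr k P.length i))
        (fun i => c' (rho rr k P.length i)) (fun i _ j _ => h _ _)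
      simp only [h1, h2])
  refine ⟨p, hp.congr fun N => ?_⟩
  rw [sum_cols, sum_sum]
  refine Finset.sum_congr rfl fun c _ => ?_
  by_cases hc : ∀ x y, H.Adj x y → c x ≠ c y
  · rw [if_pos hc]
    unfold fv
    refine Finset.sum_congr rfl fun x _ => ?_
    rw [if_pos (by simpa using hc)]
    have : upd k (fun i => c (rr i)) x = fun i => Sum.elim c x (rho rr k P.length i) :=
      funext fun i => upd_rho rr k P.length c x i
    rw [this]
  · rw [if_neg hc]
    refine Finset.sum_eq_zero fun x _ => ?_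
    rw [if_neg (by simpa using hc)]

theorem sv_poly (k : ℕ) (J U P : List ℕ) (T : Fill) :
    ∃ p : ℝ[X], PF (fun N => ∑ c ∈ cols H N, sv k J U P T (fun i => c (rr i))) p := by
  classical
  obtain ⟨p, hp⟩ := poly_gen (W := V ⊕ (Unit ⊕ Fin P.length)) (fun N e =>
    if (∀ x y, H.Adj x y → e (Sum.inl x) ≠ e (Sum.inl y)) then
      (if (∀ i, i < k → (e (Sum.inl (rr i)) = e (Sum.inr (Sum.inl ())) ↔ i ∈ J)) then
        (if (∀ j, e (Sum.inr (Sum.inr j)) ≠ e (Sum.inr (Sum.inl ()))) then
          ((T.val ((pndsN P (k + 1) U).map (fun i =>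
            e (Sum.elim Sum.inl (fun j => Sum.inr (Sum.inr j)) (rho rr k P.length i)))) : ℕ) : ℝ)
          else 0) else 0) else 0) (by
      intro N N' c c' h
      have h1 : (∀ x y, H.Adj x y → c (Sum.inl x) ≠ c (Sum.inl y)) ↔
          (∀ x y, H.Adj x y → c' (Sum.inl x) ≠ c' (Sum.inl y)) := by
        simp only [ne_eq, h]
      have h2 := val_ker T (pndsN P (k + 1) U)
        (fun i => c (Sum.elim Sum.inl (fun j => Sum.inr (Sum.inr j)) (rho rr k P.length i)))
        (fun i => c' (Sum.elim Sum.inl (fun j => Sum.inr (Sum.inr j)) (rho rr k P.length i)))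
        (fun i _ j _ => h _ _)
      have h3 : (∀ i, i < k → (c (Sum.inl (rr i)) = c (Sum.inr (Sum.inl ())) ↔ i ∈ J)) ↔
          (∀ i, i < k → (c' (Sum.inl (rr i)) = c' (Sum.inr (Sum.inl ())) ↔ i ∈ J)) := by
        simp only [h]
      have h4 : (∀ j, c (Sum.inr (Sum.inr j)) ≠ c (Sum.inr (Sum.inl ()))) ↔
          (∀ j, c' (Sum.inr (Sum.inr j)) ≠ c' (Sum.inr (Sum.inl ()))) := by
        simp only [ne_eq, h]
      simp only [h1, h2, h3, h4])
  refine ⟨p, hp.congr fun N => ?_⟩
  rw [sum_cols, sum_sum]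
  refine Finset.sum_congr rfl fun c _ => ?_
  by_cases hc : ∀ x y, H.Adj x y → c x ≠ c y
  · rw [if_pos hc, sum_sum, sum_unit]
    unfold sv
    refine Finset.sum_congr rfl fun z _ => ?_
    by_cases hz : ∀ i, i < k → (c (rr i) = z ↔ i ∈ J)
    · rw [if_pos hz]
      unfold fz
      refine Finset.sum_congr rfl fun x _ => ?_
      rw [if_pos (by simpa using hc), if_pos (by simpa using hz)]
      have h5 : upd k (fun i => c (rr i)) x = fun i => (Sum.elim c (Sum.elim (fun _ : Unit => z) x))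
          (Sum.elim Sum.inl (fun j => Sum.inr (Sum.inr j)) (rho rr k P.length i)) := by
        funext i
        rw [upd_rho rr k P.length c x i]
        rcases rho rr k P.length i with v | j <;> rfl
      rw [h5]
      simp only [Sum.elim_inr, Sum.elim_inl]
      split_ifs <;> rfl
    · rw [if_neg hz]
      refine Finset.sum_eq_zero fun x _ => ?_
      rw [if_pos (by simpa using hc), if_neg (by simpa using hz)]
  · rw [if_neg hc]
    refine Finset.sum_eq_zero fun x _ => ?_
    rw [if_neg (by simpa using hc)]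

private theorem lin_eval {Λ : ℕ → ℝ[X]} (x : ℝ) (L : FL ℝ[X]) :
    (lin (fun c : ℝ[X] => c) Λ L).eval x =
      lin (fun c : ℝ[X] => c.eval x) (fun s => (Λ s).eval x) L := by
  induction L with
  | nil => simp
  | cons s c L ih => simp [ih]

private theorem linT_eval {Λ : ℕ → ℝ[X]} (x : ℝ) (T : Tr ℝ[X]) :
    (linT (fun c : ℝ[X] => c) Λ T).eval x =
      linT (fun c : ℝ[X] => c.eval x) (fun s => (Λ s).eval x) T := by
  induction T with
  | lf L => exact lin_eval x L
  | nd l r ihl ihr => simp [ihl, ihr]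

private theorem lin_sum {ι : Type} (S : Finset ι) (g : ℝ[X] → ℝ) (Λ : ι → ℕ → ℝ) (L : FL ℝ[X]) :
    ∑ c ∈ S, lin g (Λ c) L = lin g (fun s => ∑ c ∈ S, Λ c s) L := by
  induction L with
  | nil => simp
  | cons s c L ih =>
    simp only [lin_cons, Finset.sum_add_distrib, ih, Finset.mul_sum]

private theorem linT_sum {ι : Type} (S : Finset ι) (g : ℝ[X] → ℝ) (Λ : ι → ℕ → ℝ) (T : Tr ℝ[X]) :
    ∑ c ∈ S, linT g (Λ c) T = linT g (fun s => ∑ c ∈ S, Λ c s) T := by
  induction T with
  | lf L => exact lin_sum S g Λ L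
  | nd l r ihl ihr => simp only [linT_nd, Finset.sum_add_distrib, ihl, ihr]

theorem engine_poly {w : ℕ} {T : Tr ℝ[X]} {x : ℝ}
    (h0 : ∀ Λ : ℕ → ℝ, linT (fun c : ℝ[X] => c.eval x) Λ T = 0) {p : ℝ[X]}
    (hp : PF (fun N => ∑ c ∈ cols H N,
      linT (fun c : ℝ[X] => c.eval (N : ℝ)) (lc ℝ w (fun i => c (rr i))) T) p) :
    p.eval x = 0 := by
  choose Λ hΛ using fun s => pat_poly H rr w s
  have h1 : PF (fun N => ∑ c ∈ cols H N,
      linT (fun c : ℝ[X] => c.eval (N : ℝ)) (lc ℝ w (fun i => c (rr i))) T)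
      (linT (fun c : ℝ[X] => c) Λ T) := by
    intro N
    rw [linT_eval]
    have h2 : (fun s => (Λ s).eval (N : ℝ)) =
        fun s => ∑ c ∈ cols H N, lc ℝ w (fun i => c (rr i)) s := funext fun s => hΛ s N
    rw [h2]
    exact (linT_sum (cols H N) _ _ T).symm
  rw [hp.unique h1, linT_eval]
  exact h0 _

end Pool.Agent.SB
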