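import Pool.Agent.SB.ERun

/-!
# The content of the centre and of the terms with lower bounds

Status: proved (helper76).

Plan.  Induction on `Ts`, with the initial trie general: first
`linT ev (lc ℝ w d) (List.rec …)` adds to the value of the initial trie the values of
`runE … (nR (mR e.c)) …`, which are `- N * e.c.eval N * fv …` (`linT_addTs`, `linT_runE` with
`ipR N`); the initial trie is `runC … (mR D) mC csC` with value `N * D.eval N * cv …`
(`linT_runC`; `cv` is defined in `ESem.lean`).  The bits of `AN` are at slots `< k` by `AOK`.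
-/

set_option autoImplicit false

noncomputable section

namespace Pool.Agent.SB

open Polynomial
open Pool.Agent.U5C
open Pool.Agent.Helper1.PG (Fill)

private def topR {K' : Type} (neg' mq' : K' → K') (add' : K' → K' → K') (w R C p' n' k AN : ℕ)
    (U0 : List ℕ) (Ts : List (Ent K')) : Tr K' → Tr K' :=
  @List.rec (Ent K') (fun _ => Tr K' → Tr K') (fun T => T)
    (fun e _ ih T => ih (addTs add' (fun s => s) (fun c => c) p'
      (runE neg' mq' add' w R C p' n' k AN U0 (neg' (mq' e.c)) e.P e.T) T)) Ts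

private theorem top_aux {w R C k N : ℕ} (h : PW w R C) (hw : w ≤ 32) {AN : ℕ}
    (hA : ∀ t, AN.testBit t = true → t / w ≤ k ∧ t % w ≤ k) (p' n' : ℕ) {U0 : List ℕ}
    (hU : ∀ u ∈ U0, u < k) {d : ℕ → Fin N} (hd : U5C.Prp w AN d) (Ts : List (Ent ℝ[X]))
    (hT : ∀ e ∈ Ts, k + e.P.length < w) (T : Tr ℝ[X]) :
    linT (fun c : ℝ[X] => c.eval (N : ℝ)) (lc ℝ w d)
        (topR nR mR aR w R C p' n' k AN U0 Ts T) =
      linT (fun c : ℝ[X] => c.eval (N : ℝ)) (lc ℝ w d) T -
        (Ts.map fun e => N * e.c.eval (N : ℝ) * fv k U0 e.P e.T d).sum := by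
  induction Ts generalizing T with
  | nil =>
    show linT (fun c : ℝ[X] => c.eval (N : ℝ)) (lc ℝ w d) T = _
    simp
  | cons e Ts ih =>
    show linT (fun c : ℝ[X] => c.eval (N : ℝ)) (lc ℝ w d)
      (topR nR mR aR w R C p' n' k AN U0 Ts (addTs aR (fun s => s) (fun c => c) p'
        (runE nR mR aR w R C p' n' k AN U0 (nR (mR e.c)) e.P e.T) T)) = _
    rw [ih (fun e' he' => hT e' (List.mem_cons_of_mem _ he')),
      linT_addTs _ _ (ipR N), List.map_cons, List.sum_cons]
    have h1 := linT_runE (fun c : ℝ[X] => c.eval (N : ℝ)) h hw (ipR N) p' n' hA hd hU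
      (hT e List.mem_cons_self) e.T (nR (mR e.c))
    have h2 : linT (fun c : ℝ[X] => c.eval (N : ℝ)) (fun s => lc ℝ w d s)
        (runE nR mR aR w R C p' n' k AN U0 (nR (mR e.c)) e.P e.T) =
        - (N * e.c.eval (N : ℝ) * fv k U0 e.P e.T d) := by
      refine h1.trans ?_
      unfold fv
      simp only [nR, mR, Polynomial.eval_neg, Polynomial.eval_mul, Polynomial.eval_X]
      ring
    rw [h2]
    ring

theorem linT_topT {w R C k N mC : ℕ} (h : PW w R C) (hw : w ≤ 32) {AN : ℕ}
    (hA : AOK w k AN) (p' n' : ℕ) {U0 : List ℕ} (hU : ∀ u ∈ U0, u < k) (D : ℝ[X]) {csC : List ℕ}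
    (hm : k + mC < w) (hcs : ∀ x ∈ csC, COk w (fun i => i < w) x) (Ts : List (Ent ℝ[X]))
    (hT : ∀ e ∈ Ts, k + e.P.length < w) {d : ℕ → Fin N} (hd : U5C.Prp w AN d) :
    linT (fun c : ℝ[X] => c.eval (N : ℝ)) (lc ℝ w d)
        (topT nR mR aR w R C p' n' k AN U0 D csC mC Ts) =
      N * D.eval (N : ℝ) * cv k mC csC d -
        (Ts.map fun e => N * e.c.eval (N : ℝ) * fv k U0 e.P e.T d).sum := by

  have hA' : ∀ t, AN.testBit t = true → t / w ≤ k ∧ t % w ≤ k := by
    intro t ht
    have := hA t ht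
    exact ⟨this.1.le, this.2.1.le⟩
  show linT (fun c : ℝ[X] => c.eval (N : ℝ)) (lc ℝ w d)
    (topR nR mR aR w R C p' n' k AN U0 Ts (runC nR mR aR w R C p' n' k AN (mR D) mC csC)) = _
  rw [top_aux h hw hA' p' n' hU hd Ts hT]
  congr 1
  refine (linT_runC (fun c : ℝ[X] => c.eval (N : ℝ)) h (ipR N) p' n' hm hA' hd hcs (mR D)).trans ?_
  unfold cv
  simp only [mR, Polynomial.eval_mul, Polynomial.eval_X]


end Pool.Agent.SB
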