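import Pool.Agent.SB.EZ
import Pool.Agent.SB.ETop
import Pool.Agent.SB.EHomB
import Pool.Agent.SB.EPoly

/-!
# The identity proved by a certificate

JOB SB-EId.  Prove the theorem of this file (remove the `sorry`, keep the statement).

Plan.  Let `E` be the program over `ℝ[X]` (entries mapped by `cR`).  For `N = M + 1` colours and
`c ∈ cols H N`, `d i = c (rr i)` is proper for `AN` (`AOK`, `hring`; the slots `t / w`, `t % w` are
consecutive modulo `k`), so `linT_zTs` and `linT_topT` give
`linT (eval N) (lc ℝ w d) E = N * v4 D * cv … - ∑ N * v4 e.c * fv … - ∑ ∑ v4 e.c * sv …`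
(`(cR c).eval x = v4 c`; the maps of lists `List.map_map`).  For `N = 0` there are no colourings
(`V` has the element `rr 0`), both sides of the identity below are `0`.
So the polynomial
`p = Polynomial.C (v4 D) * X * pC - (Ts.map fun e => Polynomial.C (v4 e.c) * X * pT e.P e.T).sum - (Ss.map …).sum`
satisfies the hypothesis of `engine_poly` (`E` for `T`), with `coef_zero` for `h0`; evaluate at
`tau + 3` (`eval` of sums over lists: `Polynomial.eval_listSum` or induction / `map_list_sum` for
`Polynomial.evalRingHom`).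
-/

set_option autoImplicit false

noncomputable section

namespace Pool.Agent.SB

open Polynomial
open Pool.Agent.U5C
open Pool.Agent.Helper1.PG (Fill)
open Pool.Agent.Helper36.BL (cp cnt cols cp_eval mem_cols)

private theorem v4_cR (c : K4) (x : ℝ) : (cR c).eval x = v4 c := by
  unfold cR
  rw [eval_C]

private theorem PF_listSum {α : Type} (L : List α) (f : α → ℕ → ℝ) (g : α → ℝ[X])
    (h : ∀ a ∈ L, PF (f a) (g a)) : PF (fun N => (L.map fun a => f a N).sum) (L.map g).sum := by
  induction L with
  | nil =>
    intro n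
    simp
  | cons a L ih =>
    intro n
    have h1 := ih (fun b hb => h b (List.mem_cons_of_mem _ hb)) n
    have h2 := h a (List.mem_cons_self ..) n
    simp only [List.map_cons, List.sum_cons, eval_add]
    rw [h1, h2]

private theorem eval_listSum' {α : Type} (L : List α) (g : α → ℝ[X]) (x : ℝ) :
    ((L.map g).sum).eval x = (L.map fun a => (g a).eval x).sum := by
  induction L with
  | nil => simp
  | cons a L ih => simp only [List.map_cons, List.sum_cons, eval_add, ih]

private theorem sum_list_comm {α β : Type} (s : Finset β) (L : List α) (f : α → β → ℝ) :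
    ∑ b ∈ s, (L.map fun a => f a b).sum = (L.map fun a => ∑ b ∈ s, f a b).sum := by
  induction L with
  | nil => simp
  | cons a L ih => simp only [List.map_cons, List.sum_cons, Finset.sum_add_distrib, ih]

theorem engine_id {w R C p n p' n' k AN mC : ℕ} (h : PW w R C) (hw : w ≤ 32) (hk0 : 0 < k)
    (hk : k + mC < w) (hA : AOK w k AN) {D : K4} {csC : List ℕ}
    (hcs : ∀ x ∈ csC, COk w (fun i => i < w) x) {Ts : List (Ent K4)}
    (hT : ∀ e ∈ Ts, k + e.P.length < w) {Ss : List (Sec K4)} (hS : ∀ S ∈ Ss, SOK w k AN S)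
    (hchk : chkT (fun _ c => z4 c) (zTs neg4 my4 add4 neg4 mq4 add4 (fun c => c) w R C p n p' k AN
      Ss (topT neg4 mq4 add4 w R C p' n' k AN (List.range k) D csC mC Ts)) = true)
    {V : Type} [Fintype V] (H : SimpleGraph V) (rr : ℕ → V)
    (hring : ∀ i, i < k → H.Adj (rr i) (rr ((i + 1) % k))) (pC : ℝ[X])
    (hpC : PF (fun N => ∑ c ∈ cols H N, cv k mC csC (fun i => c (rr i))) pC)
    (pT : List ℕ → Fill → ℝ[X])
    (hpT : ∀ P T, PF (fun N => ∑ c ∈ cols H N, fv k (List.range k) P T (fun i => c (rr i)))
      (pT P T))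
    (pS : List ℕ → List ℕ → List ℕ → Fill → ℝ[X])
    (hpS : ∀ J U P T, PF (fun N => ∑ c ∈ cols H N, sv k J U P T (fun i => c (rr i)))
      (pS J U P T)) :
    v4 D * (tau + 3) * pC.eval (tau + 3) =
      (Ts.map fun e => v4 e.c * (tau + 3) * (pT e.P e.T).eval (tau + 3)).sum +
      (Ss.map fun S => (S.es.map fun e =>
        v4 e.c * (pS S.J S.U e.P e.T).eval (tau + 3)).sum).sum := by
  classical
  set E : Tr ℝ[X] := zTs nR mR aR nR mR aR fR w R C p n p' k AN (Ss.map (Sec.map cR))
    (topT nR mR aR w R C p' n' k AN (List.range k) (cR D) csC mC (Ts.map (Ent.map cR))) with hE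
  have h0 : ∀ Λ : ℕ → ℝ, linT (fun c : ℝ[X] => c.eval (tau + 3)) Λ E = 0 :=
    fun Λ => coef_zero hchk Λ
  have hkw : k < w := by omega
  -- the value of the program
  have hval : ∀ (M : ℕ) (c : V → Fin (M + 1)), c ∈ cols H (M + 1) →
      linT (fun c : ℝ[X] => c.eval ((M + 1 : ℕ) : ℝ)) (lc ℝ w (fun i => c (rr i))) E =
        ((M + 1 : ℕ) : ℝ) * v4 D * cv k mC csC (fun i => c (rr i)) -
        (Ts.map fun e => ((M + 1 : ℕ) : ℝ) * v4 e.c *
          fv k (List.range k) e.P e.T (fun i => c (rr i))).sum -
        (Ss.map fun S => (S.es.map fun e =>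
          v4 e.c * sv k S.J S.U e.P e.T (fun i => c (rr i))).sum).sum := by
    intro M c hc
    have hd : U5C.Prp w AN (fun i => c (rr i)) := by
      intro t ht
      obtain ⟨h1, h2, h3⟩ := hA t ht
      rcases h3 with h3 | h3
      · show c (rr (t / w)) ≠ c (rr (t % w))
        rw [h3]
        exact (mem_cols _ _ _).1 hc _ _ (hring _ h1)
      · show c (rr (t / w)) ≠ c (rr (t % w))
        rw [h3]
        exact ((mem_cols _ _ _).1 hc _ _ (hring _ h2)).symm
    rw [hE, linT_zTs h hw hkw hA p n p' (Ss.map (Sec.map cR)) ?_ hd,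
      linT_topT h hw hA p' n' (fun u hu => List.mem_range.1 hu) (cR D) hk hcs
        (Ts.map (Ent.map cR)) ?_ hd]
    · rw [v4_cR, List.map_map, List.map_map]
      congr 1
      · congr 1
        congr 1
        refine List.map_congr_left (fun e _ => ?_)
        show ((M + 1 : ℕ) : ℝ) * (cR e.c).eval ((M + 1 : ℕ) : ℝ) * _ = _
        rw [v4_cR]
        rfl
      · congr 1
        refine List.map_congr_left (fun S _ => ?_)
        show (((S.map cR).es).map fun e : Ent ℝ[X] => e.c.eval (M : ℝ) * _).sum = _
        show ((S.es.map (Ent.map cR)).map fun e : Ent ℝ[X] => e.c.eval (M : ℝ) * _).sum = _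
        rw [List.map_map]
        congr 1
        refine List.map_congr_left (fun e _ => ?_)
        show (cR e.c).eval (M : ℝ) * _ = _
        rw [v4_cR]
        rfl
    · intro e he
      obtain ⟨e', he', rfl⟩ := List.mem_map.1 he
      exact hT e' he'
    · intro S hS'
      obtain ⟨S', hS'', rfl⟩ := List.mem_map.1 hS'
      exact (hS S' hS'').map cR
  -- the polynomial
  set Q : ℝ[X] := Polynomial.C (v4 D) * X * pC - (Ts.map fun e => Polynomial.C (v4 e.c) * X * pT e.P e.T).sum -
    (Ss.map fun S => (S.es.map fun e => Polynomial.C (v4 e.c) * pS S.J S.U e.P e.T).sum).sum with hQ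
  have hQp : PF (fun N => ∑ c ∈ cols H N,
      linT (fun c : ℝ[X] => c.eval (N : ℝ)) (lc ℝ w (fun i => c (rr i))) E) Q := by
    intro N
    have hQe : Q.eval (N : ℝ) = v4 D * N * (∑ c ∈ cols H N, cv k mC csC (fun i => c (rr i))) -
        (Ts.map fun e => v4 e.c * N *
          ∑ c ∈ cols H N, fv k (List.range k) e.P e.T (fun i => c (rr i))).sum -
        (Ss.map fun S => (S.es.map fun e => v4 e.c *
          ∑ c ∈ cols H N, sv k S.J S.U e.P e.T (fun i => c (rr i))).sum).sum := by
      rw [hQ, eval_sub, eval_sub, eval_listSum', eval_listSum', eval_mul, eval_mul, eval_C, eval_X,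
        hpC N]
      congr 1
      · congr 1
        congr 1
        refine List.map_congr_left (fun e _ => ?_)
        rw [eval_mul, eval_mul, eval_C, eval_X, hpT e.P e.T N]
      · congr 1
        refine List.map_congr_left (fun S _ => ?_)
        rw [eval_listSum']
        congr 1
        refine List.map_congr_left (fun e _ => ?_)
        rw [eval_mul, eval_C, hpS S.J S.U e.P e.T N]
    rw [hQe]
    rcases N with _ | M
    · have hcols : cols H 0 = ∅ := by
        refine Finset.eq_empty_of_forall_notMem (fun c _ => ?_)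
        exact (c (rr 0)).elim0
      show _ = ∑ c ∈ cols H 0,
        linT (fun c : ℝ[X] => c.eval ((0 : ℕ) : ℝ)) (lc ℝ w (fun i => c (rr i))) E
      rw [hcols]
      simp
    · show _ = ∑ c ∈ cols H (M + 1),
        linT (fun c : ℝ[X] => c.eval ((M + 1 : ℕ) : ℝ)) (lc ℝ w (fun i => c (rr i))) E
      rw [Finset.sum_congr rfl (fun c hc => hval M c hc), Finset.sum_sub_distrib,
        Finset.sum_sub_distrib, ← Finset.mul_sum, sum_list_comm, sum_list_comm]
      congr 1
      · congr 1
        · ring
        · congr 1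
          refine List.map_congr_left (fun e _ => ?_)
          rw [← Finset.mul_sum]
          ring
      · congr 1
        refine List.map_congr_left (fun S _ => ?_)
        rw [sum_list_comm]
        congr 1
        refine List.map_congr_left (fun e _ => ?_)
        rw [← Finset.mul_sum]
  have hfin := engine_poly H rr h0 hQp
  rw [hQ, eval_sub, eval_sub, eval_listSum', eval_listSum', eval_mul, eval_mul, eval_C, eval_X]
    at hfin
  have e1 : (Ts.map fun e => (Polynomial.C (v4 e.c) * X * pT e.P e.T).eval (tau + 3)).sum =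
      (Ts.map fun e => v4 e.c * (tau + 3) * (pT e.P e.T).eval (tau + 3)).sum := by
    congr 1
    refine List.map_congr_left (fun e _ => ?_)
    rw [eval_mul, eval_mul, eval_C, eval_X]
  have e2 : (Ss.map fun S => ((S.es.map fun e => Polynomial.C (v4 e.c) * pS S.J S.U e.P e.T).sum).eval
      (tau + 3)).sum = (Ss.map fun S => (S.es.map fun e =>
        v4 e.c * (pS S.J S.U e.P e.T).eval (tau + 3)).sum).sum := by
    congr 1
    refine List.map_congr_left (fun S _ => ?_)
    rw [eval_listSum']
    congr 1
    refine List.map_congr_left (fun e _ => ?_)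
    rw [eval_mul, eval_C]
  rw [e1, e2] at hfin
  linarith

end Pool.Agent.SB
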