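import Pool.Agent.SB.ESem

/-!
# Graphs in a disc: definitions
-/

set_option autoImplicit false

noncomputable section

namespace Pool.Agent.SB

open Pool.Agent.Helper1.PG
open Pool.Agent.Helper36.BL (cp cnt cols cp_eval mem_cols IsMinor)
open Pool.Agent.U5 (P)

/-- `H` is a subgraph of a connected plane multigraph which has a face whose boundary walk contains
the corners `l` in this order -/
def Disc {V : Type} [Fintype V] (H : SimpleGraph V) (l : List V) : Prop :=
  ∃ (F E : Type) (_ : Fintype F) (_ : Fintype E) (a : E → V × V) (b : E → F × F) (f : F) (x : V)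
    (w : List (Tok V E)), IsPl a b ∧ Trk a b f x w ∧ marks w = l ∧ ∀ u v, H.Adj u v → Lk a u v

/-- insert `x` as a pendant at the corner `p` -/
def pnd {α : Type} (l : List α) (p : ℕ) (x : α) : List α := l.take (p + 1) ++ x :: l.drop p

/-- insert the pendants `f 0`, `f 1`, … at the corners `P` -/
def pnds {α : Type} : List ℕ → (ℕ → α) → List α → List α
  | [], _, l => l
  | p :: P, f, l => pnds P (fun j => f (j + 1)) (pnd l p (f 0))

/-- the graph with `m` new isolated vertices -/
def isoG {V : Type} (H : SimpleGraph V) (m : ℕ) : SimpleGraph (V ⊕ Fin m) :=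
  H.map Sum.inl

/-- number of merges -/
def mgc : Fill → ℕ
  | Fill.leaf => 0
  | Fill.chord _ _ A B => mgc A + mgc B
  | Fill.merge _ _ A B => 1 + mgc A + mgc B

/-- total number of merges -/
def mgs {V F E : Type} (ts : List (Task V F E)) : ℕ := (ts.map fun t => mgc t.T).sum

/-- the bound -/
def cc (n : ℕ) : ℝ := (tau + 3) * (tau + 2) * (tau + 1) * tau ^ n / tau ^ 3

theorem cc_pos (n : ℕ) : 0 < cc n := by
  unfold cc
  have := tau_pos
  positivity

theorem cc_succ (n : ℕ) : cc (n + 1) = tau * cc n := by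
  unfold cc
  rw [pow_succ]
  ring

theorem cc_add (n j : ℕ) : cc (n + j) = tau ^ j * cc n := by
  unfold cc
  rw [pow_add]
  ring

theorem cc_mono {m n : ℕ} (h : m ≤ n) : cc m ≤ cc n := by
  obtain ⟨j, rfl⟩ := Nat.exists_eq_add_of_le h
  rw [cc_add]
  have h1 : 1 ≤ tau ^ j := one_le_pow₀ (by linarith [lt_tau])
  nlinarith [cc_pos m]

/-- the bound holds for all plane graphs with fewer than `n` vertices -/
def Hmin (n : ℕ) : Prop := ∀ (W : Type) [Fintype W] (Y : SimpleGraph W), Pl Y →
  3 ≤ Fintype.card W → Fintype.card W < n → cc (Fintype.card W) ≤ P (tau + 3) Y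

end Pool.Agent.SB
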