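import Pool.Agent.SB.ECon
import Pool.Agent.SB.Disc

/-!
# The functionals with identifications do not vanish

JOB SB-ENz.  Prove the theorem of this file (remove the `sorry`, keep the statement).

`cls i` is the representative of the class of the ring slot `i` (for `i < k`).

Plan.  Let `m = P.length`, `N = card (V ⊕ Fin m)`, `e : V ⊕ Fin m ≃ Fin N`.  Let `g : V → V` be
`g v = rr (cls i)` if `v = rr i` for some `i < k` (the `i` is unique by `hinj`), `g v = v` otherwise.
The colouring `c v = e (inl (g v))` is proper: if `H.Adj u v` and `g u = g v`, then both `u = rr i` and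
`v = rr j` (a vertex outside the ring is fixed by `g` and `g` maps the ring into the ring, `hlt`), and
`rr (cls i) = rr (cls j)`, so `cls i = cls j`, contradiction to `hna`.  With `x j = e (inr j)` the colours of
the slots of `W = pndsN P (k + 1) (List.range k)` (which are `< k` or `k + 1 + j` with `j < m` by
`mem_pndsN`) are `ψ (cls' i)`, `cls' i = if i < k then cls i else i`, for
`ψ t = e (inl (rr t))` for `t < k`, `ψ (k + 1 + j) = e (inr j)`, which is injective on the values of
`cls'` on `W`; so `val_map_injOn` and `hT` give `T.val = 1` for this `c`, `x`.  All terms of the sum are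
`≥ 0`, so the sum is positive.
-/

set_option autoImplicit false

noncomputable section

namespace Pool.Agent.SB

open Pool.Agent.Helper1.PG
open Pool.Agent.Helper36.BL (cp cnt cols cp_eval mem_cols)

open scoped Classical in
private def gcls {V : Type} (rr : ℕ → V) (k : ℕ) (cls : ℕ → ℕ) (v : V) : V :=
  if h : ∃ i, i < k ∧ v = rr i then rr (cls (Classical.choose h)) else v

private theorem gcls_ring {V : Type} {rr : ℕ → V} {k : ℕ} {cls : ℕ → ℕ}
    (hinj : ∀ i j, i < k → j < k → rr i = rr j → i = j) {i : ℕ} (hi : i < k) :
    gcls rr k cls (rr i) = rr (cls i) := by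
  have h : ∃ j, j < k ∧ rr i = rr j := ⟨i, hi, rfl⟩
  unfold gcls
  rw [dif_pos h]
  have h1 := Classical.choose_spec h
  rw [← hinj _ _ hi h1.1 h1.2]

private theorem gcls_other {V : Type} {rr : ℕ → V} {k : ℕ} {cls : ℕ → ℕ} {v : V}
    (h : ¬ ∃ i, i < k ∧ v = rr i) : gcls rr k cls v = v := by
  unfold gcls
  rw [dif_neg h]

theorem fv_ne {V : Type} [Fintype V] {H : SimpleGraph V} {rr : ℕ → V} {k : ℕ}
    (hinj : ∀ i j, i < k → j < k → rr i = rr j → i = j) (cls : ℕ → ℕ)
    (hlt : ∀ i, i < k → cls i < k)
    (hna : ∀ i j, i < k → j < k → cls i = cls j → ¬ H.Adj (rr i) (rr j)) (P : List ℕ) (T : Fill)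
    (hT : T.val ((pndsN P (k + 1) (List.range k)).map
      (fun i => if i < k then cls i else i)) = 1) :
    ∃ N : ℕ, ∑ c ∈ cols H N, fv k (List.range k) P T (fun i => c (rr i)) ≠ 0 := by
  classical
  let e : V ⊕ Fin P.length ≃ Fin (Fintype.card (V ⊕ Fin P.length)) := Fintype.equivFin _
  refine ⟨Fintype.card (V ⊕ Fin P.length), ?_⟩
  set c : V → Fin (Fintype.card (V ⊕ Fin P.length)) :=
    fun v => e (Sum.inl (gcls rr k cls v)) with hc
  set x : Fin P.length → Fin (Fintype.card (V ⊕ Fin P.length)) := fun j => e (Sum.inr j) with hx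
  set G : ℕ → Fin (Fintype.card (V ⊕ Fin P.length)) :=
    upd k (fun t => e (Sum.inl (rr t))) x with hG
  have hcm : c ∈ cols H (Fintype.card (V ⊕ Fin P.length)) := by
    rw [mem_cols]
    intro u v huv heq
    have h1 : gcls rr k cls u = gcls rr k cls v := Sum.inl_injective (e.injective heq)
    by_cases hu : ∃ i, i < k ∧ u = rr i
    · obtain ⟨i, hi, rfl⟩ := hu
      rw [gcls_ring hinj hi] at h1
      by_cases hv : ∃ i, i < k ∧ v = rr i
      · obtain ⟨j, hj, rfl⟩ := hv
        rw [gcls_ring hinj hj] at h1
        exact hna i j hi hj (hinj _ _ (hlt i hi) (hlt j hj) h1) huv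
      · rw [gcls_other hv] at h1
        exact hv ⟨cls i, hlt i hi, h1.symm⟩
    · rw [gcls_other hu] at h1
      by_cases hv : ∃ i, i < k ∧ v = rr i
      · obtain ⟨j, hj, rfl⟩ := hv
        rw [gcls_ring hinj hj] at h1
        exact hu ⟨cls j, hlt j hj, h1⟩
      · rw [gcls_other hv] at h1
        exact huv.ne h1
  have hW : ∀ i ∈ pndsN P (k + 1) (List.range k), i < k ∨ (k < i ∧ i - (k + 1) < P.length) := by
    intro i hi
    rcases mem_pndsN P (k + 1) (List.range k) hi with h | h
    · exact Or.inl (List.mem_range.1 h)
    · right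
      omega
  have hmap : (pndsN P (k + 1) (List.range k)).map (upd k (fun i => c (rr i)) x)
      = ((pndsN P (k + 1) (List.range k)).map (fun i => if i < k then cls i else i)).map G := by
    rw [List.map_map]
    refine List.map_congr_left (fun i hi => ?_)
    rcases hW i hi with h | h
    · have h1 : ¬ (k < i ∧ i - (k + 1) < P.length) := fun h2 => by omega
      have h2 : ¬ (k < cls i ∧ cls i - (k + 1) < P.length) := fun h2 => by
        have := hlt i h
        omega
      simp only [Function.comp, if_pos h, hG, upd]
      rw [dif_neg h1, dif_neg h2]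
      simp only [hc]
      rw [gcls_ring hinj h]
    · have h1 : ¬ i < k := by omega
      simp only [Function.comp, if_neg h1, hG, upd]
      rw [dif_pos h, dif_pos h]
  have hGinj : ∀ s ∈ (pndsN P (k + 1) (List.range k)).map (fun i => if i < k then cls i else i),
      ∀ t ∈ (pndsN P (k + 1) (List.range k)).map (fun i => if i < k then cls i else i),
      G s = G t → s = t := by
    have hval : ∀ s ∈ (pndsN P (k + 1) (List.range k)).map (fun i => if i < k then cls i else i),
        s < k ∨ (k < s ∧ s - (k + 1) < P.length) := by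
      intro s hs
      obtain ⟨i, hi, rfl⟩ := List.mem_map.1 hs
      rcases hW i hi with h | h
      · left
        simp only [if_pos h]
        exact hlt i h
      · right
        have h1 : ¬ i < k := by omega
        simp only [if_neg h1]
        exact h
    intro s hs t ht hst
    rcases hval s hs with h1 | h1 <;> rcases hval t ht with h2 | h2
    · have h3 : ¬ (k < s ∧ s - (k + 1) < P.length) := fun h => by omega
      have h4 : ¬ (k < t ∧ t - (k + 1) < P.length) := fun h => by omega
      simp only [hG, upd, dif_neg h3, dif_neg h4] at hst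
      exact hinj _ _ h1 h2 (Sum.inl_injective (e.injective hst))
    · have h3 : ¬ (k < s ∧ s - (k + 1) < P.length) := fun h => by omega
      simp only [hG, upd, dif_neg h3, dif_pos h2, hx] at hst
      exact absurd (e.injective hst) (by simp)
    · have h4 : ¬ (k < t ∧ t - (k + 1) < P.length) := fun h => by omega
      simp only [hG, upd, dif_neg h4, dif_pos h1, hx] at hst
      exact absurd (e.injective hst) (by simp)
    · simp only [hG, upd, dif_pos h1, dif_pos h2, hx] at hst
      have h5 := congrArg Fin.val (Sum.inr_injective (e.injective hst))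
      simp only at h5
      omega
  have hone : T.val ((pndsN P (k + 1) (List.range k)).map (upd k (fun i => c (rr i)) x)) = 1 := by
    rw [hmap, val_map_injOn T _ G hGinj, hT]
  have hnn : ∀ c' ∈ cols H (Fintype.card (V ⊕ Fin P.length)),
      0 ≤ fv k (List.range k) P T (fun i => c' (rr i)) := by
    intro c' _
    unfold fv
    exact Finset.sum_nonneg (fun y _ => Nat.cast_nonneg _)
  have hpos : 0 < fv k (List.range k) P T (fun i => c (rr i)) := by
    unfold fv
    refine Finset.sum_pos' (fun y _ => Nat.cast_nonneg _) ⟨x, Finset.mem_univ _, ?_⟩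
    rw [hone]
    norm_num
  exact ne_of_gt (Finset.sum_pos' hnn ⟨c, hcm, hpos⟩)

end Pool.Agent.SB
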