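import Pool.Agent.SB.EPosA
import Pool.Agent.SB.AFv
import Pool.Agent.SB.EPoly

/-!
# Positivity of the sector functionals

JOB SB-EPosB.  (done)

Plan.  Write `U` for the filter, `good I` for: `I` is independent in `H` and
`∀ i < k, rr i ∈ I ↔ i ∈ J`.  For all `N`,
`∑_{c ∈ cols H (N + 1)} sv … = ∑_z ∑_{I} ∑_{c} [∀ v, c v = z ↔ v ∈ I] [∀ i < k, rr i ∈ I ↔ i ∈ J] fz …`
(every `c` has exactly one `I`), so by `sum_zset` (for `i ∈ U`, `rr i ∉ I`)
`N ^ card V * ∑_{c} sv … = (N + 1) * ∑_{I good} N ^ (card V - card I) * ∑_{c ∈ cols (dl H I) N} fv …`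
(multiply by `N ^ card V = N ^ card I * N ^ (card V - card I)`; for `I` with `rr i ∈ I ↔ i ∈ J` but
not independent both sides are `0`).  Let `p_I` be the polynomial of `fv_poly` for `dl H I`; then the
polynomials `X ^ card V * p.comp (X + 1)` and
`(X + 1) * ∑_{I good} X ^ (card V - card I) * p_I` agree at all natural numbers, so they are equal
(`poly_ext`); evaluate at `tau + 2`: `(tau + 2) ^ card V * p.eval (tau + 3) =
(tau + 3) * ∑ (tau + 2) ^ … * p_I.eval (tau + 2) ≥ 0` by `fv_nonneg`; its hypothesis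
`Disc (dl H I) (U.map rr)` is `Disc.mono` and `Disc.sublist` (`U` is a filter of `List.range k`, so
`U.map rr` is a sublist of `(List.range k).map rr`).
-/

set_option autoImplicit false

noncomputable section

namespace Pool.Agent.SB

open Polynomial
open Pool.Agent.Helper1.PG
open Pool.Agent.U5 (dl)
open Pool.Agent.Helper36.BL (cp cnt cols cp_eval mem_cols poly_ext)

open scoped Classical in
private theorem pb_z {V : Type} [Fintype V] (H : SimpleGraph V) (rr : ℕ → V) {k : ℕ}
    {J U : List ℕ} (hU : U = (List.range k).filter (fun i => decide (i ∉ J))) (P : List ℕ)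
    (T : Fill) {N : ℕ} (z : Fin (N + 1)) :
    (N : ℝ) ^ Fintype.card V * (∑ c ∈ cols H (N + 1),
        if (∀ i, i < k → (c (rr i) = z ↔ i ∈ J)) then fz k U P T (fun i => c (rr i)) z else 0) =
      ∑ I ∈ (Finset.univ : Finset (Finset V)).filter (fun I =>
          (∀ u ∈ I, ∀ v ∈ I, ¬ H.Adj u v) ∧ (∀ i, i < k → (rr i ∈ I ↔ i ∈ J))),
        (N : ℝ) ^ (Fintype.card V - I.card) *
          ∑ c ∈ cols (dl H I) N, fv k U P T (fun i => c (rr i)) := by
  have h1 : (∑ c ∈ cols H (N + 1),
        if (∀ i, i < k → (c (rr i) = z ↔ i ∈ J)) then fz k U P T (fun i => c (rr i)) z else 0) =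
      ∑ I : Finset V, if (∀ i, i < k → (rr i ∈ I ↔ i ∈ J)) then
        (∑ c ∈ cols H (N + 1), if (∀ v, c v = z ↔ v ∈ I) then
          fz k U P T (fun i => c (rr i)) z else 0) else 0 := by
    have h2 : ∀ c : V → Fin (N + 1),
        (if (∀ i, i < k → (c (rr i) = z ↔ i ∈ J)) then fz k U P T (fun i => c (rr i)) z else 0) =
        ∑ I : Finset V, if (∀ i, i < k → (rr i ∈ I ↔ i ∈ J)) then
          (if (∀ v, c v = z ↔ v ∈ I) then fz k U P T (fun i => c (rr i)) z else 0) else 0 := by
      intro c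
      rw [Finset.sum_eq_single (Finset.univ.filter (fun v => c v = z))]
      · have e1 : (∀ v, c v = z ↔ v ∈ Finset.univ.filter (fun v => c v = z)) := by
          intro v
          simp
        rw [if_pos e1]
        have e2 : (∀ i, i < k → (rr i ∈ Finset.univ.filter (fun v => c v = z) ↔ i ∈ J)) ↔
            (∀ i, i < k → (c (rr i) = z ↔ i ∈ J)) := by
          simp
        by_cases h3 : (∀ i, i < k → (c (rr i) = z ↔ i ∈ J))
        · rw [if_pos h3, if_pos (e2.2 h3)]
        · rw [if_neg h3, if_neg (fun h4 => h3 (e2.1 h4))]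
      · intro I _ hI
        by_cases h3 : (∀ i, i < k → (rr i ∈ I ↔ i ∈ J))
        · rw [if_pos h3, if_neg]
          intro h4
          apply hI
          ext v
          rw [Finset.mem_filter]
          exact ⟨fun h => ⟨Finset.mem_univ _, (h4 v).2 h⟩, fun h => (h4 v).1 h.2⟩
        · rw [if_neg h3]
      · intro h3
        exact absurd (Finset.mem_univ _) h3
    rw [Finset.sum_congr rfl fun c _ => h2 c, Finset.sum_comm]
    refine Finset.sum_congr rfl fun I _ => ?_
    by_cases h3 : (∀ i, i < k → (rr i ∈ I ↔ i ∈ J))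
    · simp only [if_pos h3]
    · simp only [if_neg h3, Finset.sum_const_zero]
  rw [h1, Finset.mul_sum, Finset.sum_filter]
  refine Finset.sum_congr rfl fun I _ => ?_
  by_cases h3 : (∀ i, i < k → (rr i ∈ I ↔ i ∈ J))
  · have hk : ∀ u ∈ U, u < k := by
      intro u hu
      rw [hU, List.mem_filter, List.mem_range] at hu
      exact hu.1
    have hUI : ∀ u ∈ U, rr u ∉ I := by
      intro u hu h4
      have h5 := (h3 u (hk u hu)).1 h4
      rw [hU, List.mem_filter] at hu
      exact (of_decide_eq_true hu.2) h5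
    have h4 := sum_zset H rr P T z I hk hUI
    rw [if_pos h3]
    have h5 : (N : ℝ) ^ Fintype.card V =
        (N : ℝ) ^ (Fintype.card V - I.card) * (N : ℝ) ^ I.card := by
      rw [← pow_add, Nat.sub_add_cancel (Finset.card_le_univ I)]
    rw [h5, mul_assoc, h4]
    by_cases h6 : (∀ u ∈ I, ∀ v ∈ I, ¬ H.Adj u v)
    · rw [if_pos h6, if_pos ⟨h6, h3⟩]
    · rw [if_neg h6, if_neg (fun h7 => h6 h7.1), mul_zero]
  · rw [if_neg h3, if_neg (fun h7 => h3 h7.2), mul_zero]

theorem sec_nonneg {V : Type} [Fintype V] {H : SimpleGraph V} {rr : ℕ → V} {k : ℕ}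
    (h : Disc H ((List.range k).map rr)) {J U : List ℕ} (hJ : ∀ j ∈ J, j < k)
    (hU : U = (List.range k).filter (fun i => decide (i ∉ J))) (hne : U ≠ []) (P : List ℕ)
    (T : Fill) {p : ℝ[X]}
    (hp : PF (fun N => ∑ c ∈ cols H N, sv k J U P T (fun i => c (rr i))) p) :
    0 ≤ p.eval (tau + 3) := by
  classical
  have hk : ∀ u ∈ U, u < k := by
    intro u hu
    rw [hU, List.mem_filter, List.mem_range] at hu
    exact hu.1
  have hsub : List.Sublist (U.map rr) ((List.range k).map rr) := by
    rw [hU]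
    exact List.filter_sublist.map rr
  have hD : ∀ I : Finset V, Disc (dl H I) (U.map rr) := by
    intro I
    refine Disc.sublist (Disc.mono h ?_) hsub
    intro u v huv
    exact huv.1
  choose q hq using fun I : Finset V => fv_poly (dl H I) rr k U P T
  have hq0 : ∀ I, 0 ≤ (q I).eval (tau + 2) := fun I => fv_nonneg hk hne (hD I) P T (hq I)
  set S : Finset (Finset V) := (Finset.univ : Finset (Finset V)).filter (fun I =>
    (∀ u ∈ I, ∀ v ∈ I, ¬ H.Adj u v) ∧ (∀ i, i < k → (rr i ∈ I ↔ i ∈ J))) with hS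
  have key : X ^ Fintype.card V * p.comp (X + 1) =
      (X + 1) * ∑ I ∈ S, X ^ (Fintype.card V - I.card) * q I := by
    apply poly_ext
    intro N
    rw [eval_mul, eval_comp, eval_pow, eval_X, eval_add, eval_X, eval_one, eval_mul, eval_add,
      eval_X, eval_one, eval_finsetSum]
    have e1 : p.eval ((N : ℝ) + 1) =
        ∑ c ∈ cols H (N + 1), sv k J U P T (fun i => c (rr i)) := by
      have := hp (N + 1)
      rwa [Nat.cast_succ] at this
    rw [e1]
    have e2 : ∑ c ∈ cols H (N + 1), sv k J U P T (fun i => c (rr i)) =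
        ∑ z : Fin (N + 1), ∑ c ∈ cols H (N + 1),
          if (∀ i, i < k → (c (rr i) = z ↔ i ∈ J)) then
            fz k U P T (fun i => c (rr i)) z else 0 := by
      rw [Finset.sum_comm]
      rfl
    rw [e2, Finset.mul_sum, Finset.sum_congr rfl fun z _ => pb_z H rr hU P T z]
    rw [Finset.sum_const, Finset.card_univ, Fintype.card_fin, nsmul_eq_mul, Nat.cast_succ]
    congr 1
    refine Finset.sum_congr rfl fun I _ => ?_
    rw [eval_mul, eval_pow, eval_X, hq I N]
  have h1 := congrArg (fun r : ℝ[X] => r.eval (tau + 2)) key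
  simp only [eval_mul, eval_comp, eval_pow, eval_X, eval_add, eval_one, eval_finsetSum] at h1
  have h2 : tau + 2 + 1 = tau + 3 := by ring
  rw [h2] at h1
  have ht : 0 < tau + 2 := by linarith [tau_pos]
  have h3 : 0 ≤ (tau + 2) ^ Fintype.card V * p.eval (tau + 3) := by
    rw [h1]
    refine mul_nonneg (by linarith [tau_pos]) (Finset.sum_nonneg fun I _ => ?_)
    exact mul_nonneg (pow_nonneg ht.le _) (hq0 I)
  exact nonneg_of_mul_nonneg_right h3 (pow_pos ht _)

end Pool.Agent.SB
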