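import Pool.Agent.SB.CertDef
import Pool.Agent.SB.CDef
import Pool.Agent.SB.EId
import Pool.Agent.SB.EPosB
import Pool.Agent.SB.AFv
import Pool.Agent.SB.ENz

/-!
# The bound proved by a certificate
-/

set_option autoImplicit false

noncomputable section

namespace Pool.Agent.SB

open Polynomial
open Pool.Agent.U5C
open Pool.Agent.Helper1.PG (Fill)
open Pool.Agent.Helper36.BL (cp cnt cols cp_eval mem_cols)
open Pool.Agent.U5 (P)

private theorem sum_le_map {α : Type} (L : List α) (f g : α → ℝ) (h : ∀ a ∈ L, f a ≤ g a) :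
    (L.map f).sum ≤ (L.map g).sum := List.sum_le_sum h

private theorem sum_map_mul {α : Type} (L : List α) (f : α → ℝ) (x : ℝ) :
    (L.map fun a => f a * x).sum = (L.map f).sum * x := by
  induction L with
  | nil => simp
  | cons a L ih => simp only [List.map_cons, List.sum_cons, ih]; ring

private theorem sum_nonneg' {α : Type} (L : List α) (f : α → ℝ) (h : ∀ a ∈ L, 0 ≤ f a) :
    0 ≤ (L.map f).sum := by
  apply List.sum_nonneg
  intro x hx
  obtain ⟨a, ha, rfl⟩ := List.mem_map.1 hx
  exact h a ha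

theorem cert_bound {w R C p n p' n' k m AN D : ℕ} {cs : List ℕ} {al : List (ℕ × ℕ)}
    {TD : List TEnt} {Ss : List (Sec K4)}
    (h : Cert w R C p n p' n' k m AN D cs al TD Ss)
    {V W : Type} [Fintype V] [Fintype W] {G : SimpleGraph V} {H : SimpleGraph W} {rr : ℕ → W}
    (hc : Conf k m cs al G H rr) (hmin : Hmin (Fintype.card V)) :
    cc (Fintype.card V) ≤ P (tau + 3) G := by
  classical
  have hk0 := h.ck
  have hpC : PF (fun N => ∑ c ∈ cols H N, cv k m cs (fun i => c (rr i))) (cp G) := by
    intro N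
    rw [cp_eval]
    exact hc.cnt N
  choose pT hpT using fv_poly H rr k (List.range k)
  choose pS hpS using sv_poly H rr k
  have hid := engine_id h.cpw h.cw h.ck h.ckm h.cA h.ccs (Ts := TD.map TEnt.ent) (by
      intro e he
      obtain ⟨t, ht, rfl⟩ := List.mem_map.1 he
      exact (h.cT t ht).w) h.cS h.cchk H rr hc.ring (cp G) hpC pT hpT pS hpS
  have hkW : k ≤ Fintype.card W := by
    have h1 : Function.Injective (fun i : Fin k => rr i) := fun i j hij =>
      Fin.ext (hc.inj _ _ i.2 j.2 hij)
    have h2 := Fintype.card_le_of_injective _ h1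
    rwa [Fintype.card_fin] at h2
  have hcard := hc.card
  have hrange : ∀ u ∈ List.range k, u < k := fun u hu => List.mem_range.1 hu
  have hne : List.range k ≠ [] := by
    intro h0
    have h1 := congrArg List.length h0
    rw [List.length_range] at h1
    simp at h1
    omega
  have ht3 : 0 < tau + 3 := by linarith [tau_pos]
  have hS : 0 ≤ (Ss.map fun S => (S.es.map fun e =>
      v4 e.c * (pS S.J S.U e.P e.T).eval (tau + 3)).sum).sum := by
    apply sum_nonneg'
    intro S hSm
    apply sum_nonneg'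
    intro e he
    have hok := h.cS S hSm
    exact mul_nonneg (h.cnn S hSm e he)
      (sec_nonneg hc.disc hok.J hok.U hok.ne e.P e.T (hpS S.J S.U e.P e.T))
  have hT : (TD.map fun t => (t.l : ℝ) * tau⁻¹ ^ t.j m * ((tau + 3) * cc (Fintype.card V))).sum ≤
      ((TD.map TEnt.ent).map fun e => v4 e.c * (tau + 3) * (pT e.P e.T).eval (tau + 3)).sum := by
    rw [List.map_map]
    apply sum_le_map
    intro t ht
    have hok := h.cT t ht
    have h1 := hok.mg
    have h2 := hok.m
    have h3 : v4 ((t.l, 0), (0, 0)) = (t.l : ℝ) := by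
      unfold v4
      simp
    show (t.l : ℝ) * tau⁻¹ ^ t.j m * ((tau + 3) * cc (Fintype.card V)) ≤
      v4 ((t.l, 0), (0, 0)) * (tau + 3) * (pT t.P t.T).eval (tau + 3)
    rw [h3]
    have hal : ∀ i j, i < k → j < k → t.cl i = t.cl j → ¬ H.Adj (rr i) (rr j) := by
      intro i j hi hj hij
      rcases lt_trichotomy i j with hlt | heq | hgt
      · exact hc.na _ (hok.al i hi j hj hlt hij)
      · rw [heq]
        exact fun hadj => hadj.ne rfl
      · exact fun hadj => hc.na _ (hok.al j hj i hi hgt hij.symm) hadj.symm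
    have hlow := fv_low hmin hrange hne hc.disc t.P t.T (hpT t.P t.T) (by omega) (by omega)
      (fv_ne hc.inj t.cl hok.lt hal t.P t.T hok.val)
    have hj : Fintype.card W + t.P.length - mgc t.T + t.j m = Fintype.card V := by
      unfold TEnt.j
      omega
    have hcc : tau⁻¹ ^ t.j m * cc (Fintype.card V) =
        cc (Fintype.card W + t.P.length - mgc t.T) := by
      rw [← hj, cc_add, ← mul_assoc, ← mul_pow, inv_mul_cancel₀ tau_ne, one_pow, one_mul]
    calc (t.l : ℝ) * tau⁻¹ ^ t.j m * ((tau + 3) * cc (Fintype.card V))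
        = (t.l : ℝ) * (tau + 3) * (tau⁻¹ ^ t.j m * cc (Fintype.card V)) := by ring
      _ = (t.l : ℝ) * (tau + 3) * cc (Fintype.card W + t.P.length - mgc t.T) := by rw [hcc]
      _ ≤ _ := mul_le_mul_of_nonneg_left hlow
        (mul_nonneg (Nat.cast_nonneg _) ht3.le)
  rw [sum_map_mul] at hT
  have hD : v4 ((D, 0), (0, 0)) = (D : ℝ) := by
    unfold v4
    simp
  rw [hD] at hid
  have hD0 : (0 : ℝ) < D := by exact_mod_cast h.cD
  have hX := mul_pos ht3 (cc_pos (Fintype.card V))
  have h1 : (D : ℝ) * ((tau + 3) * cc (Fintype.card V)) ≤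
      D * (tau + 3) * (cp G).eval (tau + 3) := by
    rw [hid]
    have h2 := mul_le_mul_of_nonneg_right h.csum hX.le
    linarith
  have h2 : (D : ℝ) * (tau + 3) * cc (Fintype.card V) ≤ D * (tau + 3) * P (tau + 3) G := by
    rw [mul_assoc]
    exact h1
  exact le_of_mul_le_mul_left h2 (mul_pos hD0 ht3)

end Pool.Agent.SB
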