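import Pool.Agent.SB.CConf
import Pool.Agent.SB.CCut
import Pool.Agent.SB.ECert
import Pool.Agent.SB.CertA
import Pool.Agent.SB.CertB
import Pool.Agent.SB.CertG

/-!
# The strong Birkhoff-Lewis bound at `τ + 3`
-/

set_option autoImplicit false

noncomputable section

namespace Pool.Agent.SB

open Polynomial
open Pool.Agent.Helper1.PG
open Pool.Agent.Helper36.BL (cp cnt cols cp_eval mem_cols IsMinor poly_ext)
open Pool.Agent.U5 (P)

private theorem cnt_top' {V : Type} [Fintype V] (N : ℕ) :
    cnt (⊤ : SimpleGraph V) N = N.descFactorial (Fintype.card V) := by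
  classical
  have h1 : cnt (⊤ : SimpleGraph V) N = Fintype.card (V ↪ Fin N) := by
    rw [← Fintype.card_congr (Equiv.subtypeInjectiveEquivEmbedding V (Fin N)),
      Fintype.card_subtype]
    unfold cnt
    congr 1
    ext c
    rw [mem_cols, Finset.mem_filter]
    constructor
    · intro h
      refine ⟨Finset.mem_univ _, fun u v huv => ?_⟩
      by_contra hne
      exact h u v hne huv
    · rintro ⟨-, h⟩ u v huv huv2
      exact huv (h huv2)
  rw [h1, Fintype.card_embedding_eq, Fintype.card_fin]

private theorem P_top' {V : Type} [Fintype V] (q : ℝ) :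
    P q (⊤ : SimpleGraph V) = (descPochhammer ℝ (Fintype.card V)).eval q := by
  have h : cp (⊤ : SimpleGraph V) = descPochhammer ℝ (Fintype.card V) := by
    apply poly_ext
    intro N
    rw [cp_eval, cnt_top', descPochhammer_eval_eq_descFactorial]
  show (cp (⊤ : SimpleGraph V)).eval q = _
  rw [h]

open scoped Classical in
/-- all graphs with at most three vertices -/
private theorem small_low : ∀ (n m : ℕ) (W : Type) [Fintype W] (Y : SimpleGraph W),
    Fintype.card W = n →
    (Finset.univ.filter (fun p : W × W => ¬ Y.Adj p.1 p.2)).card = m → n ≤ 3 →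
    (descPochhammer ℝ n).eval (tau + 3) ≤ P (tau + 3) Y := by
  classical
  have ht := tau_pos
  intro n
  induction n using Nat.strong_induction_on with
  | _ n ihn =>
    intro m
    induction m using Nat.strong_induction_on with
    | _ m ihm =>
      intro W _ Y hn hm h3
      by_cases htop : Y = ⊤
      · rw [htop, P_top', hn]
      · have hex : ∃ p r, p ≠ r ∧ ¬ Y.Adj p r := by
          by_contra hc
          push Not at hc
          apply htop
          ext u v
          rw [SimpleGraph.top_adj]
          exact ⟨fun h => h.ne, fun h => hc u v h⟩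
        obtain ⟨p, r, hpr, hna⟩ := hex
        rw [P_eq_add _ _ hpr, eqv_mg _ _ hpr hna]
        have h1 : (descPochhammer ℝ n).eval (tau + 3) ≤ P (tau + 3) (ad Y p r) := by
          refine ihm _ ?_ W (ad Y p r) hn rfl h3
          rw [← hm]
          apply Finset.card_lt_card
          refine Finset.ssubset_iff_of_subset ?_ |>.2 ⟨(p, r), ?_, ?_⟩
          · intro z hz
            rw [Finset.mem_filter] at hz ⊢
            exact ⟨hz.1, fun h => hz.2 (Or.inl h)⟩
          · rw [Finset.mem_filter]
            exact ⟨Finset.mem_univ _, hna⟩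
          · rw [Finset.mem_filter]
            intro h
            exact h.2 (Or.inr ⟨hpr, Or.inl ⟨rfl, rfl⟩⟩)
        have hc := card_ne r
        have h2 : (descPochhammer ℝ (n - 1)).eval (tau + 3) ≤
            P (tau + 3) (mgG Y p r hpr) :=
          ihn (n - 1) (by omega) _ _ (mgG Y p r hpr) (by omega) rfl (by omega)
        have h4 : 0 ≤ (descPochhammer ℝ (n - 1)).eval (tau + 3) := by
          have h5 : n - 1 = 0 ∨ n - 1 = 1 ∨ n - 1 = 2 := by omega
          rcases h5 with h5 | h5 | h5
          · rw [h5]; simp
          · rw [h5]; simp [descPochhammer_succ_right]; linarith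
          · rw [h5]; simp [descPochhammer_succ_right]; nlinarith
        linarith

private theorem cc_three' : cc 3 = (descPochhammer ℝ 3).eval (tau + 3) := by
  have ht := tau_pos
  have h1 : (descPochhammer ℝ 3).eval (tau + 3) = (tau + 3) * (tau + 2) * (tau + 1) := by
    simp only [descPochhammer_succ_right, descPochhammer_zero, eval_mul, eval_sub, eval_X,
      eval_natCast, eval_one]
    push_cast
    ring
  rw [h1]
  unfold cc
  field_simp

open scoped Classical in
/-- **The strong Birkhoff-Lewis bound at `τ + 3`.** -/
theorem sb_bound : ∀ (n m : ℕ) (W : Type) [Fintype W] (Y : SimpleGraph W),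
    Fintype.card W = n →
    (Finset.univ.filter (fun p : W × W => ¬ Y.Adj p.1 p.2)).card = m → 3 ≤ n → Pl Y →
    cc n ≤ P (tau + 3) Y := by
  classical
  intro n
  induction n using Nat.strong_induction_on with
  | _ n ihn =>
    have hmin : Hmin n := fun W _ Y hY h3 hlt => ihn _ hlt _ W Y rfl rfl h3 hY
    intro m
    induction m using Nat.strong_induction_on with
    | _ m ihm =>
      intro W _ Y hn hm h3 hY
      by_cases h4 : n = 3
      · rw [h4, cc_three']
        exact small_low 3 m W Y (hn.trans h4) hm le_rfl
      by_cases hmax : ∀ p r, p ≠ r → Pl (ad Y p r) → Y.Adj p r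
      · by_contra hcon
        push Not at hcon
        subst hn
        have hM : MinC Y := ⟨by omega, ⟨hY, hmax⟩, cf_of_min (by omega) hY hmin hcon, hmin, hcon⟩
        rcases exists_conf hM with ⟨W', i', H, rr, hc⟩ | ⟨W', i', H, rr, hc⟩
        · exact absurd (cert_bound certA hc hmin) (not_le.2 hcon)
        · exact absurd (certG_bound certB hc hmin) (not_le.2 hcon)
      · push Not at hmax
        obtain ⟨p, r, hpr, hPl, hna⟩ := hmax
        rw [P_eq_add _ _ hpr, eqv_mg _ _ hpr hna]
        have h1 : cc n ≤ P (tau + 3) (ad Y p r) := by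
          refine ihm _ ?_ W (ad Y p r) hn rfl h3 hPl
          rw [← hm]
          apply Finset.card_lt_card
          refine Finset.ssubset_iff_of_subset ?_ |>.2 ⟨(p, r), ?_, ?_⟩
          · intro z hz
            rw [Finset.mem_filter] at hz ⊢
            exact ⟨hz.1, fun h => hz.2 (Or.inl h)⟩
          · rw [Finset.mem_filter]
            exact ⟨Finset.mem_univ _, hna⟩
          · rw [Finset.mem_filter]
            intro h
            exact h.2 (Or.inr ⟨hpr, Or.inl ⟨rfl, rfl⟩⟩)
        have hc := card_ne r
        have h2 : cc (n - 1) ≤ P (tau + 3) (mgG Y p r hpr) :=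
          ihn (n - 1) (by omega) _ _ (mgG Y p r hpr) (by omega) rfl (by omega)
            (hPl.minor (mg_minor Y hpr))
        linarith [cc_pos (n - 1)]

theorem sb_main {W : Type} [Fintype W] {Y : SimpleGraph W} (hY : Pl Y)
    (h3 : 3 ≤ Fintype.card W) : cc (Fintype.card W) ≤ P (tau + 3) Y := by
  classical
  exact sb_bound _ _ W Y rfl rfl h3 hY

end Pool.Agent.SB
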