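import Pool.Agent.SB.Disc

/-!
# Graphs in a disc: monotonicity

JOB SB-ADisc.  Prove all theorems of this file (remove the `sorry`s, keep the statements).

Plan.
* `Disc.mono`: the same structure.
* `erase_mark`: a mark (a token `Sum.inl v`) can be removed from a tracked word: `Path` only loses the
  condition `v = x`, `sides` does not change (`path_append`, `sides_append`, `Helper1/PG/Track.lean`).
* `Disc.sublist`: for every word `w` and every sublist `l'` of `marks w` there is a word `w'` with
  `marks w' = l'`, `sides w' = sides w` and `Path a x w' y` whenever `Path a x w y`: induction on `w`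
  (with `x` general); a side token is kept, a mark is kept or dropped (`List.sublist_cons_iff` or
  `cases` of `List.Sublist`).
* `Disc.equiv`: `IsPl.mapV` (`Helper1/PG/Minor.lean`); the word is mapped by `e` on the vertices
  (`Tok V E = V ⊕ ((E × Bool) × V)`), the sides stay.
* `pnds_map`: induction on `P`.  `pndsN_eq`: induction on `P` with `v`, `l` general, `frc_eq`,
  `tk_eq`, `drp_eq`, `app_eq`.
-/

set_option autoImplicit false

noncomputable section

namespace Pool.Agent.SB

open Pool.Agent.Helper1.PG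
open Pool.Agent.U5C (frc frc_eq tk_eq drp_eq app_eq)

variable {V V' : Type} [Fintype V] [Fintype V']

theorem Disc.mono {H H' : SimpleGraph V} {l : List V} (h : Disc H l) (hH : H' ≤ H) :
    Disc H' l := by
  obtain ⟨F, E, i1, i2, a, b, f, x, w, h1, h2, h3, h4⟩ := h
  exact ⟨F, E, i1, i2, a, b, f, x, w, h1, h2, h3, fun u v huv => h4 u v (hH huv)⟩

private theorem exists_sub_word {V0 E0 : Type} : ∀ (w : List (Tok V0 E0)) (l' : List V0),
    List.Sublist l' (marks w) → ∃ w' : List (Tok V0 E0), marks w' = l' ∧ sides w' = sides w ∧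
      ∀ (a : E0 → V0 × V0) (x y : V0), Path a x w y → Path a x w' y
  | [], l', hl => by
    have h1 : l' = [] := List.sublist_nil.1 hl
    subst h1
    exact ⟨[], rfl, rfl, fun a x y h => h⟩
  | (Sum.inl v :: w), l', hl => by
    have hl' : List.Sublist l' (v :: marks w) := hl
    cases hl' with
    | cons _ h =>
      obtain ⟨w', h1, h2, h3⟩ := exists_sub_word w l' h
      exact ⟨w', h1, h2, fun a x y hp => h3 a x y hp.2⟩
    | cons_cons _ h =>
      obtain ⟨w', h1, h2, h3⟩ := exists_sub_word w _ h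
      refine ⟨Sum.inl v :: w', ?_, h2, fun a x y hp => ⟨hp.1, h3 a x y hp.2⟩⟩
      show v :: marks w' = _
      rw [h1]
  | (Sum.inr (s, z) :: w), l', hl => by
    obtain ⟨w', h1, h2, h3⟩ := exists_sub_word w l' hl
    refine ⟨Sum.inr (s, z) :: w', h1, ?_, fun a x y hp => ⟨hp.1, h3 a z y hp.2⟩⟩
    show s :: sides w' = s :: sides w
    rw [h2]

theorem Disc.sublist {H : SimpleGraph V} {l l' : List V} (h : Disc H l) (hl : List.Sublist l' l) :
    Disc H l' := by
  obtain ⟨F, E, i1, i2, a, b, f, x, w, h1, h2, h3, h4⟩ := h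
  rw [← h3] at hl
  obtain ⟨w', h5, h6, h7⟩ := exists_sub_word w l' hl
  refine ⟨F, E, i1, i2, a, b, f, x, w', h1, ⟨h7 a x x h2.path, ?_, ?_⟩, h5, h4⟩
  · rw [h6]; exact h2.nodup
  · rw [h6]; exact h2.mem

private def mapTok {V0 V1 E0 : Type} (e : V0 → V1) : Tok V0 E0 → Tok V1 E0
  | Sum.inl v => Sum.inl (e v)
  | Sum.inr (s, z) => Sum.inr (s, e z)

private theorem sides_mapTok {V0 V1 E0 : Type} (e : V0 → V1) :
    ∀ w : List (Tok V0 E0), sides (w.map (mapTok e)) = sides w
  | [] => rfl
  | (Sum.inl _ :: w) => sides_mapTok e w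
  | (Sum.inr (s, _) :: w) => congrArg (s :: ·) (sides_mapTok e w)

private theorem marks_mapTok {V0 V1 E0 : Type} (e : V0 → V1) :
    ∀ w : List (Tok V0 E0), marks (w.map (mapTok e)) = (marks w).map e
  | [] => rfl
  | (Sum.inl v :: w) => congrArg (e v :: ·) (marks_mapTok e w)
  | (Sum.inr (_, _) :: w) => marks_mapTok e w

private theorem path_mapTok {V0 V1 E0 : Type} (e : V0 → V1) (a : E0 → V0 × V0) :
    ∀ (w : List (Tok V0 E0)) (x y : V0), Path a x w y →
      Path (fun d => (e (a d).1, e (a d).2)) (e x) (w.map (mapTok e)) (e y)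
  | [], x, y, h => congrArg e h
  | (Sum.inl v :: w), x, y, h => ⟨congrArg e h.1, path_mapTok e a w x y h.2⟩
  | (Sum.inr (s, z) :: w), x, y, h => by
    refine ⟨?_, path_mapTok e a w z y h.2⟩
    rcases h.1 with ⟨h1, h2⟩ | ⟨h1, h2⟩
    · exact Or.inl ⟨congrArg e h1, congrArg e h2⟩
    · exact Or.inr ⟨congrArg e h1, congrArg e h2⟩

theorem Disc.equiv {H : SimpleGraph V} {H' : SimpleGraph V'} {l : List V} (h : Disc H l)
    (e : V ≃ V') (he : ∀ u v, H'.Adj (e u) (e v) → H.Adj u v) : Disc H' (l.map e) := by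
  obtain ⟨F, E, i1, i2, a, b, f, x, w, h1, h2, h3, h4⟩ := h
  refine ⟨F, E, i1, i2, fun d => (e (a d).1, e (a d).2), b, f, e x, w.map (mapTok e),
    h1.mapV e, ⟨path_mapTok e a w x x h2.path, ?_, ?_⟩, ?_, ?_⟩
  · rw [sides_mapTok]; exact h2.nodup
  · rw [sides_mapTok]; exact h2.mem
  · rw [marks_mapTok, h3]
  · intro u v huv
    have h5 : H'.Adj (e (e.symm u)) (e (e.symm v)) := by
      rw [e.apply_symm_apply, e.apply_symm_apply]; exact huv
    obtain ⟨d, hd⟩ := h4 _ _ (he _ _ h5)
    refine ⟨d, ?_⟩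
    rcases hd with ⟨h6, h7⟩ | ⟨h6, h7⟩
    · left
      exact ⟨(congrArg e h6).trans (e.apply_symm_apply u),
        (congrArg e h7).trans (e.apply_symm_apply v)⟩
    · right
      exact ⟨(congrArg e h6).trans (e.apply_symm_apply v),
        (congrArg e h7).trans (e.apply_symm_apply u)⟩

theorem pnds_map {α β : Type} (g : α → β) (P : List ℕ) (f : ℕ → α) (l : List α) :
    (pnds P f l).map g = pnds P (fun j => g (f j)) (l.map g) := by
  induction P generalizing f l with
  | nil => rfl
  | cons p P ih =>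
    show (pnds P (fun j => f (j + 1)) (pnd l p (f 0))).map g =
      pnds P (fun j => g (f (j + 1))) (pnd (l.map g) p (g (f 0)))
    rw [ih]
    congr 1
    unfold pnd
    rw [List.map_append, List.map_cons, List.map_take, List.map_drop]

theorem pndsN_eq (P : List ℕ) (v : ℕ) (l : List ℕ) :
    pndsN P v l = pnds P (fun j => v + j) l := by
  induction P generalizing v l with
  | nil => rfl
  | cons p P ih =>
    show frc (Nat.succ v) (fun v' => pndsN P v' (pndN l p v)) =
      pnds P (fun j => v + (j + 1)) (pnd l p (v + 0))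
    rw [frc_eq, ih]
    have h1 : pndN l p v = pnd l p (v + 0) := by
      unfold pndN pnd
      rw [app_eq, tk_eq, drp_eq]
      rfl
    rw [h1]
    congr 1
    funext j
    omega

end Pool.Agent.SB
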