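import Pool.Agent.SB.ADisc

/-!
# Graphs in a disc: pendants

JOB SB-APend.  Prove all theorems of this file (remove the `sorry`s, keep the statements).

Plan.
* `Disc.pend`: let `w` be the word, split at the mark `v` (`exists_split_mark`): `w = w1 ++ inl v :: w2`.
  New structure: `pendA a v`, `pendB b f` (`U5/PlIso.lean`; new vertex `none`, new edge `none` with both
  sides in `f`), new word: lift of `w1`, `inl (some v)`, `inr ((none, false), none)`, `inl none`,
  `inr ((none, true), some v)`, `inl (some v)`, lift of `w2`, where the lift replaces a vertex `x`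
  by `some x` and an edge `e` by `some e`.  `isPl_pend` needs
  `(∃ e, Inc a v e ∧ Inc b f e) ∨ IsEmpty E`: if `w` has a side token, the path passes through `v` at
  the mark, so the token before or after the mark (cyclically: the path is closed at `x`) is an edge at
  `v`, and it is an edge of the face `f` by `Trk.mem`; if `w` has no side token, then no edge has a
  side in `f`, and because the dual is connected (`IsPl.dconn`) there are no edges at all.
  (If all tokens before the mark are marks, `v = x`, the start of the path, and the last side token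
  ends at `x` or the first one starts there.)
* `Disc.pnds_aux`: induction on `P` with everything general.  `P = []`: `Disc.equiv` with
  `V ≃ V ⊕ Fin 0 ≃ W`.  `P = p :: P'`: `pnd (l.map some) p none` is
  `l1.map some ++ some v :: none :: some v :: l2.map some` if `p < l.length`, otherwise it is
  `l.map some ++ [none]`, a sublist of the list for `p = l.length - 1`; so `Disc.pend` and
  `Disc.sublist` give `Disc (H.map some) (pnd (l.map some) p none)`; use the induction hypothesis for
  `Option V`, `ι' none = f 0`, `ι' (some v) = ι v`, `f' j = f (j + 1)`.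
* `Disc.pnds`: special case `e = Equiv.refl`.
-/

set_option autoImplicit false

noncomputable section

namespace Pool.Agent.SB

open Pool.Agent.Helper1.PG
open Pool.Agent.U5 (pendA pendB isPl_pend)

/-- words after the insertion of a pendant edge -/
private def plft {V E : Type} (w : List (Tok V E)) : List (Tok (Option V) (Option E)) :=
  w.map (Sum.map some (fun t => ((some t.1.1, t.1.2), some t.2)))

private theorem marks_plft {V E : Type} (w : List (Tok V E)) :
    marks (plft w) = (marks w).map some := by
  induction w with
  | nil => rfl
  | cons t w ih =>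
    rcases t with v | ⟨s, z⟩
    · show some v :: marks (plft w) = some v :: (marks w).map some
      rw [ih]
    · exact ih

private theorem sides_plft {V E : Type} (w : List (Tok V E)) :
    sides (plft w) = (sides w).map (fun s => (some s.1, s.2)) := by
  induction w with
  | nil => rfl
  | cons t w ih =>
    rcases t with v | ⟨s, z⟩
    · exact ih
    · show (some s.1, s.2) :: sides (plft w) = (some s.1, s.2) :: _
      rw [ih]

private theorem path_plft {V E : Type} (a : E → V × V) (v0 : V) (w : List (Tok V E)) (x y : V)
    (h : Path a x w y) : Path (pendA a v0) (some x) (plft w) (some y) := by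
  induction w generalizing x with
  | nil => exact congrArg some h
  | cons t w ih =>
    rcases t with v | ⟨s, z⟩
    · exact ⟨congrArg some h.1, ih x h.2⟩
    · refine ⟨?_, ih z h.2⟩
      rcases h.1 with h1 | h1
      · exact Or.inl ⟨congrArg some h1.1, congrArg some h1.2⟩
      · exact Or.inr ⟨congrArg some h1.1, congrArg some h1.2⟩

private theorem mem_sides_plft {V E : Type} (w : List (Tok V E)) (s : E × Bool) :
    ((some s.1, s.2) : Option E × Bool) ∈ sides (plft w) ↔ s ∈ sides w := by
  rw [sides_plft, List.mem_map]
  constructor
  · rintro ⟨t, ht, h⟩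
    have h1 : t = s := by
      have h2 := congrArg Prod.fst h
      have h3 := congrArg Prod.snd h
      exact Prod.ext (Option.some_injective _ h2) h3
    rw [← h1]; exact ht
  · intro hs; exact ⟨s, hs, rfl⟩

private theorem none_not_mem_plft {V E : Type} (w : List (Tok V E)) (c : Bool) :
    ((none, c) : Option E × Bool) ∉ sides (plft w) := by
  rw [sides_plft, List.mem_map]
  rintro ⟨t, _, h⟩
  have h2 := congrArg Prod.fst h
  simp at h2

private theorem inj_side {E : Type} :
    Function.Injective (fun s : E × Bool => ((some s.1, s.2) : Option E × Bool)) := by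
  intro s t hst
  have h2 := congrArg Prod.fst hst
  have h3 := congrArg Prod.snd hst
  exact Prod.ext (Option.some_injective _ h2) h3

/-- a path with a side has a side at its start -/
private theorem path_start {V E : Type} (a : E → V × V) : ∀ (w : List (Tok V E)) (x y : V),
    Path a x w y → sides w ≠ [] → ∃ s ∈ sides w, Inc a x s.1
  | [], x, y, _, hne => absurd rfl hne
  | (Sum.inl v :: w), x, y, h, hne => path_start a w x y h.2 hne
  | (Sum.inr (s, z) :: w), x, y, h, _ => ⟨s, List.mem_cons_self .., Jn.inc h.1⟩

/-- a path with a side has a side at its end -/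
private theorem path_end {V E : Type} (a : E → V × V) : ∀ (w : List (Tok V E)) (x y : V),
    Path a x w y → (sides w = [] ∧ x = y) ∨ ∃ s ∈ sides w, Inc a y s.1
  | [], x, y, h => Or.inl ⟨rfl, h⟩
  | (Sum.inl v :: w), x, y, h => path_end a w x y h.2
  | (Sum.inr (s, z) :: w), x, y, h => by
    right
    rcases path_end a w z y h.2 with ⟨_, h2⟩ | ⟨t, ht, h2⟩
    · subst h2
      exact ⟨s, List.mem_cons_self .., Jn.inc' h.1⟩
    · exact ⟨t, List.mem_cons_of_mem _ ht, h2⟩

private theorem inc_of_mem {V F E : Type} {a : E → V × V} {b : E → F × F} {f : F} {x : V}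
    {w : List (Tok V E)} (h : Trk a b f x w) {s : E × Bool} (hs : s ∈ sides w) :
    Inc b f s.1 := by
  have h1 := (h.mem s).1 hs
  unfold sf at h1
  by_cases h2 : s.2 = true
  · rw [if_pos h2] at h1; exact Or.inr h1
  · rw [if_neg h2] at h1; exact Or.inl h1

private theorem pend_cond {V F E : Type} [Fintype V] [Fintype F] [Fintype E] {a : E → V × V}
    {b : E → F × F} (hp : IsPl a b) {f : F} {x v : V} {w1 w2 : List (Tok V E)}
    (h : Trk a b f x (w1 ++ Sum.inl v :: w2)) :
    (∃ e, Inc a v e ∧ Inc b f e) ∨ IsEmpty E := by
  have hsd : sides (w1 ++ Sum.inl v :: w2) = sides w1 ++ sides w2 := by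
    rw [sides_append]; rfl
  have hpath := h.path
  rw [path_append] at hpath
  obtain ⟨z, h1, hz, h2⟩ := hpath
  subst hz
  rcases path_end a w1 x v h1 with ⟨h3, _⟩ | ⟨s, hs, h3⟩
  · by_cases h4 : sides w2 = []
    · right
      have h5 : ∀ s : E × Bool, sf b s ≠ f := by
        intro s hs
        have h6 := (h.mem s).2 hs
        rw [hsd, h3, h4] at h6
        simp at h6
      refine ⟨fun e => ?_⟩
      have h6 : (b e).1 ≠ f := h5 (e, false)
      obtain ⟨p, q, ⟨e', he'⟩, h7, _⟩ :=
        exists_step_ne (p := fun z => z = f) (hp.dconn f (b e).1) rfl h6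
      rcases he' with ⟨h8, _⟩ | ⟨_, h8⟩
      · exact h5 (e', false) (h8.trans h7)
      · exact h5 (e', true) (h8.trans h7)
    · left
      obtain ⟨s, hs, h5⟩ := path_start a w2 v x h2 h4
      exact ⟨s.1, h5, inc_of_mem h (by rw [hsd]; exact List.mem_append_right _ hs)⟩
  · left
    exact ⟨s.1, h3, inc_of_mem h (by rw [hsd]; exact List.mem_append_left _ hs)⟩

theorem Disc.pend {V : Type} [Fintype V] {H : SimpleGraph V} {l1 l2 : List V} {v : V}
    (h : Disc H (l1 ++ v :: l2)) :
    Disc (H.map some)
      (l1.map some ++ some v :: none :: some v :: l2.map some) := by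
  obtain ⟨F, E, i1, i2, a, b, f, x, w, hp, ht, hm, hl⟩ := h
  obtain ⟨w1, w2, hw, hm1, hm2⟩ := exists_split_mark w l1.length v (by
    rw [hm]
    simp)
  rw [hm] at hm1 hm2
  have hm1' : marks w1 = l1 := by rw [hm1]; simp
  have hm2' : marks w2 = l2 := by rw [hm2]; simp
  subst hw
  have hc := pend_cond hp ht
  have hpath := ht.path
  rw [path_append] at hpath
  obtain ⟨z, h1, hz, h2⟩ := hpath
  subst hz
  have hsd : sides (w1 ++ Sum.inl v :: w2) = sides w1 ++ sides w2 := by
    rw [sides_append]; rfl
  have hnd := ht.nodup
  rw [hsd] at hnd
  have hmem := ht.mem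
  rw [hsd] at hmem
  have hnd1 := List.Nodup.of_append_left hnd
  have hnd2 := List.Nodup.of_append_right hnd
  have hdis := List.disjoint_of_nodup_append hnd
  obtain ⟨w', hw'⟩ : ∃ w' : List (Tok (Option V) (Option E)), w' = plft w1 ++
      (Sum.inl (some v) :: Sum.inr ((none, false), none) :: Sum.inl none ::
        Sum.inr ((none, true), some v) :: Sum.inl (some v) :: plft w2) := ⟨_, rfl⟩
  have hs' : sides w' = sides (plft w1) ++ ((none, false) :: (none, true) :: sides (plft w2)) := by
    rw [hw', sides_append]; rfl
  have hm' : marks w' = l1.map some ++ some v :: none :: some v :: l2.map some := by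
    rw [hw', marks_append, marks_plft, hm1']
    show l1.map some ++ some v :: none :: some v :: marks (plft w2) = _
    rw [marks_plft, hm2']
  refine ⟨F, Option E, i1, inferInstance, pendA a v, pendB b f, f, some x, w',
    isPl_pend hp v f hc, ⟨?_, ?_, ?_⟩, hm', ?_⟩
  · rw [hw', path_append]
    exact ⟨some v, path_plft a v w1 x v h1, rfl, Or.inr ⟨rfl, rfl⟩, rfl, Or.inl ⟨rfl, rfl⟩, rfl,
      path_plft a v w2 v x h2⟩
  · rw [hs']
    have e1 : (sides (plft w1)).Nodup := by rw [sides_plft]; exact hnd1.map inj_side
    have e2 : (sides (plft w2)).Nodup := by rw [sides_plft]; exact hnd2.map inj_side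
    refine List.Nodup.append e1 ?_ ?_
    · rw [List.nodup_cons, List.nodup_cons]
      refine ⟨?_, none_not_mem_plft _ _, e2⟩
      intro h3
      rcases List.mem_cons.1 h3 with h4 | h4
      · have h5 : false = true := congrArg Prod.snd h4
        exact absurd h5 (by decide)
      · exact none_not_mem_plft _ _ h4
    · intro s hs1 hs2
      rcases s with ⟨_ | e, c⟩
      · exact none_not_mem_plft _ _ hs1
      · rcases List.mem_cons.1 hs2 with h4 | h4
        · exact absurd (congrArg Prod.fst h4) (by simp)
        · rcases List.mem_cons.1 h4 with h5 | h5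
          · exact absurd (congrArg Prod.fst h5) (by simp)
          · rw [mem_sides_plft _ (e, c)] at hs1 h5
            exact hdis hs1 h5
  · rintro ⟨_ | e, c⟩
    · rw [hs']
      constructor
      · intro _
        cases c
        · rfl
        · rfl
      · intro _
        apply List.mem_append_right
        cases c
        · exact List.mem_cons_self ..
        · exact List.mem_cons_of_mem _ (List.mem_cons_self ..)
    · have h3 : sf (pendB b f) (some e, c) = sf b (e, c) := rfl
      rw [h3, ← hmem (e, c), hs', List.mem_append, List.mem_cons, List.mem_cons, List.mem_append,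
        mem_sides_plft w1 (e, c), mem_sides_plft w2 (e, c)]
      constructor
      · rintro (h4 | h4 | h4 | h4)
        · exact Or.inl h4
        · exact absurd (congrArg Prod.fst h4) (by simp)
        · exact absurd (congrArg Prod.fst h4) (by simp)
        · exact Or.inr h4
      · rintro (h4 | h4)
        · exact Or.inl h4
        · exact Or.inr (Or.inr (Or.inr h4))
  · rintro u u' ⟨_, y, y', hyy, rfl, rfl⟩
    exact Pool.Agent.U5.lk_pend (hl y y' hyy)

theorem Disc.pnds_aux (P : List ℕ) : ∀ (V : Type) [Fintype V] (H : SimpleGraph V) (l : List V),
    Disc H l → l ≠ [] → ∀ (W : Type) [Fintype W] (ι : V ↪ W) (f : ℕ → W)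
    (e : V ⊕ Fin P.length ≃ W), (∀ v, e (Sum.inl v) = ι v) → (∀ j, e (Sum.inr j) = f j) →
    Disc (H.map ι) (SB.pnds P f (l.map ι)) := by
  induction P with
  | nil =>
    intro V _ H l h _ W _ ι f e he _
    have hσ : ∀ v, ((Equiv.sumEmpty V (Fin 0)).symm.trans e) v = ι v := fun v => he v
    have h1 := h.equiv (H' := H.map ι) ((Equiv.sumEmpty V (Fin 0)).symm.trans e) (by
      intro u v huv
      rw [hσ u, hσ v] at huv
      exact SimpleGraph.map_adj_apply.1 huv)
    have h2 : l.map ((Equiv.sumEmpty V (Fin 0)).symm.trans e) = l.map ι :=
      List.map_congr_left fun v _ => hσ v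
    rw [h2] at h1
    exact h1
  | cons p P ih =>
    intro V _ H l h hl W _ ι f e he he'
    have hD : Disc (H.map some) (pnd (l.map some) p none) := by
      by_cases hp : p < l.length
      · have h1 : l = l.take p ++ l[p] :: l.drop (p + 1) := by
          rw [List.getElem_cons_drop, List.take_append_drop]
        rw [h1] at h
        have h2 := Disc.pend h
        have h3 : pnd (l.map some) p none = (l.take p).map some ++ some l[p] :: none :: some l[p] ::
            (l.drop (p + 1)).map some := by
          unfold pnd
          have h4 : (l.map some).take (p + 1) = (l.take p).map some ++ [some l[p]] := by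
            rw [← List.map_take, List.take_succ_eq_append_getElem hp, List.map_append]
            rfl
          have h5 : (l.map some).drop p = some l[p] :: (l.drop (p + 1)).map some := by
            rw [← List.map_drop, List.drop_eq_getElem_cons hp]
            rfl
          rw [h4, h5]
          simp
        rw [h3]
        exact h2
      · push Not at hp
        have h1 : l = l.dropLast ++ [l.getLast hl] := (List.dropLast_append_getLast hl).symm
        have h3 : pnd (l.map some) p none = l.map some ++ [none] := by
          unfold pnd
          rw [List.take_of_length_le (by rw [List.length_map]; omega),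
            List.drop_of_length_le (by rw [List.length_map]; omega)]
        have h4 : Disc H (l.dropLast ++ l.getLast hl :: []) := by rw [← h1]; exact h
        have h2 := Disc.pend h4
        refine Disc.sublist h2 ?_
        rw [h3]
        have h5 : l.map some = l.dropLast.map some ++ [some (l.getLast hl)] := by
          conv_lhs => rw [h1]
          rw [List.map_append]; rfl
        rw [h5, List.append_assoc]
        apply List.Sublist.append_left
        exact (List.nil_sublist _).cons_cons _ |>.cons_cons _
    let σ : Option V ⊕ Fin P.length ≃ V ⊕ Fin (P.length + 1) :=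
      { toFun := fun t => match t with
          | Sum.inl none => Sum.inr 0
          | Sum.inl (some v) => Sum.inl v
          | Sum.inr j => Sum.inr j.succ
        invFun := fun t => match t with
          | Sum.inl v => Sum.inl (some v)
          | Sum.inr j => Fin.cases (Sum.inl none) (fun j => Sum.inr j) j
        left_inv := by
          rintro ((_ | v) | j)
          · rfl
          · rfl
          · rfl
        right_inv := by
          rintro (v | j)
          · rfl
          · refine Fin.cases ?_ (fun j => ?_) j
            · rfl
            · rfl }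
    let ι' : Option V ↪ W := ⟨fun o => e (σ (Sum.inl o)), fun o o' h =>
      Sum.inl_injective (σ.injective (e.injective h))⟩
    have hn : ι' none = f 0 := he' 0
    have hs : ∀ v, ι' (some v) = ι v := fun v => he v
    have h1 := ih (Option V) (H.map some) (pnd (l.map some) p none) hD (by
      unfold pnd; simp) W ι' (fun j => f (j + 1)) (σ.trans e) (fun _ => rfl) (by
      intro j
      have h2 := he' j.succ
      rw [Fin.val_succ] at h2
      exact h2)
    have h2 : (H.map some).map ι' = H.map ι := by
      ext u v
      rw [SimpleGraph.map_adj, SimpleGraph.map_adj]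
      constructor
      · rintro ⟨_, _, ⟨_, y, y', hyy, rfl, rfl⟩, rfl, rfl⟩
        exact ⟨y, y', hyy, (hs y).symm, (hs y').symm⟩
      · rintro ⟨y, y', hyy, rfl, rfl⟩
        exact ⟨some y, some y', ⟨fun h => hyy.ne (Option.some_injective _ h), y, y', hyy, rfl, rfl⟩,
          hs y, hs y'⟩
    have h3 : (pnd (l.map some) p none).map ι' = pnd (l.map ι) p (f 0) := by
      unfold pnd
      rw [List.map_append, List.map_cons, hn, List.map_take, List.map_drop]
      have h4 : (l.map some).map ι' = l.map ι := by
        rw [List.map_map]
        exact List.map_congr_left fun v _ => hs v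
      rw [h4]
    rw [h2, h3] at h1
    exact h1

theorem Disc.pnds {V : Type} [Fintype V] {H : SimpleGraph V} {l : List V} (h : Disc H l)
    (hl : l ≠ []) (P : List ℕ) (f : ℕ → V ⊕ Fin P.length)
    (hf : ∀ (j : ℕ) (hj : j < P.length), f j = Sum.inr ⟨j, hj⟩) :
    Disc (isoG H P.length) (SB.pnds P f (l.map Sum.inl)) := by
  exact Disc.pnds_aux P V H l h hl (V ⊕ Fin P.length) Function.Embedding.inl f
    (Equiv.refl _) (fun _ => rfl) (fun j => (hf j j.2).symm)

end Pool.Agent.SB
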