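import Pool.Agent.SB.CDef
import Pool.Agent.SB.ECon

/-!
# The colourings of a graph with a window

Let `m = n - k`, `e : {v // ¬ WK k n f v} ⊕ Fin m ≃ V` (`inl v ↦ v`, `inr j ↦ f (k + j)`; bijective by
`hw.inj`).  A function `c : V → Fin N` is a pair (`c' = c ∘ val`, `x j = c (f (k + j))`)
(`Equiv.arrowCongr`, `Equiv.sumArrowEquivProdArrow`).  `c` is a proper colouring of `G` iff `c'` is a
proper colouring of the comap and for all `p ∈ E`, `c (f p.1) ≠ c (f p.2)` (an edge of `G` with an end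
`f i`, `k ≤ i < n`, joins the ends of a pair of `E` by `hw.nh`).  The colours of the slots:
`upd k (fun i => c' (rr i)) x (sl k i) = c (f i)` for `i < n`: for `i < k`, `sl k i = i` and
`(rr i).1 = f i`; for `k ≤ i`, `sl k i = i + 1`, `upd` gives `x (i - k) = c (f i)`.
`wcode k p = cd 0 (sl k p.1) (sl k p.2)` and by `lo_cd` (slots `≤ n < 32`, `p.1 < p.2`) the constraint
`con _ (wcode k p)` says that the colours of the slots `sl k p.1`, `sl k p.2` are different.
-/

set_option autoImplicit false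

noncomputable section

namespace Pool.Agent.SB

open Pool.Agent.Helper1.PG
open Pool.Agent.Helper36.BL (cp cnt cols cp_eval mem_cols IsMinor)

private theorem ccnt_sl_lt {k i : ℕ} (h : i < k) : sl k i = i := if_pos h

private theorem ccnt_sl_ge {k i : ℕ} (h : k ≤ i) : sl k i = i + 1 := if_neg (not_lt.2 h)

private theorem ccnt_con {κ : Type} (d : ℕ → κ) {k : ℕ} {p : ℕ × ℕ} (h1 : p.1 < 31)
    (h2 : p.2 < 31) : con d (wcode k p) ↔ d (sl k p.1) ≠ d (sl k p.2) := by
  have ha : sl k p.1 < 32 := by unfold sl; split_ifs <;> omega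
  have hb : sl k p.2 < 32 := by unfold sl; split_ifs <;> omega
  obtain ⟨e1, e2, e3⟩ := lo_cd (kd := 0) (by omega) ha hb
  unfold con wcode
  rw [e1, e2, e3]
  rcases le_total (sl k p.1) (sl k p.2) with h | h
  · rw [min_eq_left h, max_eq_right h]
    simp
  · rw [min_eq_right h, max_eq_left h]
    simp [eq_comm]

private theorem ccnt_upd {κ V : Type} {k n : ℕ} {f : ℕ → V} (c : V → κ) (d : ℕ → κ)
    (hd : ∀ i, i < k → d i = c (f i)) {i : ℕ} (hi : i < n) :
    upd k d (fun j : Fin (n - k) => c (f (k + j.1))) (sl k i) = c (f i) := by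
  by_cases h : i < k
  · rw [ccnt_sl_lt h]
    unfold upd
    rw [dif_neg (by omega), hd i h]
  · rw [ccnt_sl_ge (by omega)]
    unfold upd
    rw [dif_pos (by omega)]
    have : k + (i + 1 - (k + 1)) = i := by omega
    exact congrArg (fun t => c (f t)) this

private def ccntE {V : Type} (k n : ℕ) (f : ℕ → V)
    (inj : ∀ i j, i < n → j < n → f i = f j → i = j) :
    {v : V // ¬ WK k n f v} ⊕ Fin (n - k) ≃ V :=
  Equiv.ofBijective (Sum.elim Subtype.val (fun j => f (k + j.1))) (by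
    constructor
    · rintro (u | i) (v | j) h
      · exact congrArg Sum.inl (Subtype.ext h)
      · exact absurd ⟨k + j.1, by omega, by have := j.2; omega, h⟩ u.2
      · exact absurd ⟨k + i.1, by omega, by have := i.2; omega, h.symm⟩ v.2
      · have h1 := i.2
        have h2 := j.2
        have h3 := inj (k + i.1) (k + j.1) (by omega) (by omega) h
        exact congrArg Sum.inr (Fin.ext (by omega))
    · intro v
      by_cases hv : WK k n f v
      · obtain ⟨i, h1, h2, h3⟩ := hv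
        refine ⟨Sum.inr ⟨i - k, by omega⟩, ?_⟩
        have : k + (i - k) = i := by omega
        rw [h3]
        exact congrArg f this
      · exact ⟨Sum.inl ⟨v, hv⟩, rfl⟩)

private theorem ccnt_iff {V : Type} {k n : ℕ} {E : List (ℕ × ℕ)}
    (hE : ∀ p ∈ E, p.1 < p.2 ∧ k ≤ p.2 ∧ p.2 < n) (hn : n < 31)
    {G : SimpleGraph V} {f : ℕ → V} (hw : Wdw k n E G f)
    (rr : ℕ → {v : V // ¬ WK k n f v}) (hrr : ∀ i, i < k → (rr i).1 = f i) {N : ℕ}
    (c : V → Fin N) :
    (∀ x y, G.Adj x y → c x ≠ c y) ↔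
      (∀ x y : {v : V // ¬ WK k n f v}, G.Adj x.1 y.1 → c x.1 ≠ c y.1) ∧
      (∀ y ∈ E.map (wcode k),
        con (upd k (fun i => c (rr i).1) (fun j : Fin (n - k) => c (f (k + j.1)))) y) := by
  have hu : ∀ i, i < n →
      upd k (fun i => c (rr i).1) (fun j : Fin (n - k) => c (f (k + j.1))) (sl k i) = c (f i) := by
    intro i hi
    exact ccnt_upd (n := n) (f := f) c (fun i => c (rr i).1) (fun i h => congrArg c (hrr i h)) hi
  have hcon : (∀ y ∈ E.map (wcode k),
        con (upd k (fun i => c (rr i).1) (fun j : Fin (n - k) => c (f (k + j.1)))) y) ↔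
      ∀ p ∈ E, c (f p.1) ≠ c (f p.2) := by
    simp only [List.mem_map, forall_exists_index, and_imp, forall_apply_eq_imp_iff₂]
    refine forall₂_congr fun p hp => ?_
    obtain ⟨h1, h2, h3⟩ := hE p hp
    rw [ccnt_con _ (by omega) (by omega), hu p.1 (by omega), hu p.2 h3]
  rw [hcon]
  constructor
  · intro h
    refine ⟨fun x y hxy => h x.1 y.1 hxy, fun p hp => ?_⟩
    obtain ⟨h1, h2, h3⟩ := hE p hp
    have hadj : G.Adj (f p.2) (f p.1) :=
      (hw.nh p.2 h2 h3 (f p.1)).2 ⟨p.1, by omega, Or.inr hp, rfl⟩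
    exact (h _ _ hadj).symm
  · rintro ⟨h1, h2⟩
    have key : ∀ x y, WK k n f x → G.Adj x y → c x ≠ c y := by
      rintro x y ⟨i, hi1, hi2, rfl⟩ hxy
      obtain ⟨j, hj, hE' | hE', rfl⟩ := (hw.nh i hi1 hi2 y).1 hxy
      · exact h2 (i, j) hE'
      · exact (h2 (j, i) hE').symm
    intro x y hxy
    by_cases hx : WK k n f x
    · exact key x y hx hxy
    · by_cases hy : WK k n f y
      · exact (key y x hy hxy.symm).symm
      · exact h1 ⟨x, hx⟩ ⟨y, hy⟩ hxy

theorem cnt_wdw {V : Type} [Fintype V] {k n : ℕ} {E : List (ℕ × ℕ)}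
    (hE : ∀ p ∈ E, p.1 < p.2 ∧ k ≤ p.2 ∧ p.2 < n) (hkn : k < n) (hn : n < 31)
    {G : SimpleGraph V} {f : ℕ → V} (hw : Wdw k n E G f) [Fintype {v : V // ¬ WK k n f v}]
    (rr : ℕ → {v : V // ¬ WK k n f v}) (hrr : ∀ i, i < k → (rr i).1 = f i) (N : ℕ) :
    (cnt G N : ℝ) = ∑ c ∈ cols (G.comap (Subtype.val : {v : V // ¬ WK k n f v} → V)) N,
      cv k (n - k) (E.map (wcode k)) (fun i => c (rr i)) := by
  classical
  let Φ : (V → Fin N) ≃ ({v : V // ¬ WK k n f v} → Fin N) × (Fin (n - k) → Fin N) :=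
    (Equiv.arrowCongr (ccntE k n f hw.inj).symm (Equiv.refl _)).trans
      (Equiv.sumArrowEquivProdArrow _ _ _)
  have hΦ1 : ∀ c, (Φ c).1 = fun v => c v.1 := fun c => rfl
  have hΦ2 : ∀ c, (Φ c).2 = fun j => c (f (k + j.1)) := fun c => rfl
  have hL : (cnt G N : ℝ) =
      ∑ c : V → Fin N, if (∀ x y, G.Adj x y → c x ≠ c y) then (1 : ℝ) else 0 := by
    unfold cnt cols
    rw [Finset.card_filter]
    push_cast
    refine Finset.sum_congr rfl fun c _ => ?_
    by_cases h : ∀ x y, G.Adj x y → c x ≠ c y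
    · rw [if_pos h]
    · rw [if_neg h]
  have hR : ∑ c ∈ cols (G.comap (Subtype.val : {v : V // ¬ WK k n f v} → V)) N,
      cv k (n - k) (E.map (wcode k)) (fun i => c (rr i)) =
      ∑ q : ({v : V // ¬ WK k n f v} → Fin N) × (Fin (n - k) → Fin N),
        if ((∀ x y : {v : V // ¬ WK k n f v}, G.Adj x.1 y.1 → q.1 x ≠ q.1 y) ∧
          (∀ y ∈ E.map (wcode k), con (upd k (fun i => q.1 (rr i)) q.2) y)) then (1 : ℝ) else 0 := by
    rw [Fintype.sum_prod_type]
    unfold cols
    rw [Finset.sum_filter]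
    refine Finset.sum_congr (by ext; simp) fun c _ => ?_
    by_cases h : ∀ x y : {v : V // ¬ WK k n f v}, G.Adj x.1 y.1 → c x ≠ c y
    · rw [if_pos (by exact h)]
      unfold cv
      refine Finset.sum_congr rfl fun x _ => ?_
      by_cases h' : ∀ y ∈ E.map (wcode k), con (upd k (fun i => c (rr i)) x) y
      · rw [if_pos h', if_pos ⟨h, h'⟩]
      · rw [if_neg h', if_neg (fun hh => h' hh.2)]
    · rw [if_neg (by exact h)]
      symm
      refine Finset.sum_eq_zero fun x _ => ?_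
      rw [if_neg (fun hh => h hh.1)]
  rw [hL, hR]
  refine Fintype.sum_equiv Φ _ _ fun c => ?_
  have := ccnt_iff hE hn hw rr hrr c
  rw [hΦ1, hΦ2]
  by_cases h : ∀ x y, G.Adj x y → c x ≠ c y
  · rw [if_pos h, if_pos (this.1 h)]
  · rw [if_neg h, if_neg (fun hh => h (this.2 hh))]

end Pool.Agent.SB
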