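import Pool.Agent.SB.CDef

/-!
# A minimal counterexample has minimum degree five

JOB SB-CDeg.  Prove all theorems of this file (remove the `sorry`s, keep the statements).

Plan.  `rec_f` (`U5/Poly.lean`): `P q G = (q - deg G w) * P q (del G w) + ∑ p ∈ prs G w f, P q (mm G w f p)`
for an injective `f : V → ℕ` (`lab V`, `lab_inj`); `del G w`, `mm G w f p` are minors of `G`
(`isMinor_del`, the lemma with `hp : p ∈ prs G w f` in `Helper36/BL/Count.lean` near line 398) on
`card V - 1`, `card V - 2` vertices; `prs` are the pairs of non-adjacent neighbours of `w`, each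
unordered pair once.  `q = tau + 3`, `n = card V`, `deg G w = dg w` (`Link`: the neighbours are the
values of the injective `g w`).
* `deg w = 3`: `prs = ∅` (all neighbours are adjacent: `i`, `j : ZMod 3` different are consecutive), so
  `P = tau * P (del G w) ≥ tau * cc (n - 1) = cc n` (`Hmin`, `cc_succ`; `n - 1 ≥ 3`).
* `deg w = 4`: `n ≥ 5`; `g 0, g 2` and `g 1, g 3` are two non-adjacent pairs, so `prs` has at least two
  elements, each term is `≥ cc (n - 2) > 0`, so
  `P ≥ (tau - 1) * cc (n - 1) + 2 * cc (n - 2) = ((tau - 1) * tau + 2) * cc (n - 2) = 3 * cc (n - 2)`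
  and `cc n = tau ^ 2 * cc (n - 2)`, `tau ^ 2 < 3`.
-/

set_option autoImplicit false

noncomputable section

namespace Pool.Agent.SB

open Pool.Agent.Helper1.PG
open Pool.Agent.Helper36.BL (cp cnt cols cp_eval mem_cols IsMinor)
open Pool.Agent.U5 (P)

open Pool.Agent.Helper36.BL (deg mm lab lab_inj isMinor_del isMinor_mm card_del card_mm
  mem_prs)

private theorem deg_link {V : Type} [Fintype V] {G : SimpleGraph V} {d : ℕ} [NeZero d] {w : V}
    {g : ZMod d → V} (hl : Link G w g) : deg G w = d := by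
  classical
  have h1 : deg G w = (Finset.univ.image g).card := by
    unfold deg
    congr 1
    ext x
    rw [Finset.mem_filter, Finset.mem_image]
    constructor
    · rintro ⟨-, h⟩
      obtain ⟨i, hi⟩ := (hl.adj x).1 h
      exact ⟨i, Finset.mem_univ _, hi.symm⟩
    · rintro ⟨i, -, hi⟩
      exact ⟨Finset.mem_univ _, (hl.adj x).2 ⟨i, hi.symm⟩⟩
  rw [h1, Finset.card_image_of_injective _ hl.inj, Finset.card_univ, ZMod.card]

theorem not_three {V : Type} [Fintype V] {G : SimpleGraph V} (h : MinC G) {w : V}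
    {g : ZMod 3 → V} (hl : Link G w g) : False := by
  classical
  have h1 := Pool.Agent.U5.rec_f (tau + 3) G w (lab V) lab_inj
  have h2 : Helper36.BL.prs G w (lab V) = ∅ := by
    apply Finset.eq_empty_of_forall_notMem
    intro p hp
    rw [mem_prs] at hp
    obtain ⟨⟨ha, hb, hlt⟩, hna⟩ := hp
    obtain ⟨i, hi⟩ := (hl.adj _).1 ha
    obtain ⟨j, hj⟩ := (hl.adj _).1 hb
    apply hna
    rw [hi, hj, hl.cyc]
    have hij : i ≠ j := by
      rintro rfl
      rw [hi, hj] at hlt
      exact lt_irrefl _ hlt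
    revert hij
    revert i j
    have key : ∀ i j : ZMod 3, i ≠ j → (j = i + 1 ∨ i = j + 1) := by decide
    intro i _ j _ hij
    exact key i j hij
  rw [h2, Finset.sum_empty, deg_link hl, add_zero] at h1
  have h4 := h.four
  have hcard : ∀ [i : Fintype {x : V // x ≠ w}], Fintype.card {x : V // x ≠ w} + 1 =
      Fintype.card V := fun {i} => card_del w
  have h5 := h.hmin {x : V // x ≠ w} (Helper36.BL.del G w) (h.emax.1.minor (isMinor_del G w))
    (by have := card_del w; omega) (by have := card_del w; omega)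
  have h6 : cc (Fintype.card V) = tau * cc (Fintype.card {x : V // x ≠ w}) := by
    rw [← cc_succ, card_del w]
  have h7 := h.lt
  rw [h6, h1] at h7
  have h8 := mul_le_mul_of_nonneg_left h5 tau_pos.le
  push_cast at h7
  have e : tau + 3 - 3 = tau := by ring
  rw [e] at h7
  linarith

theorem not_four {V : Type} [Fintype V] {G : SimpleGraph V} (h : MinC G) {w : V}
    {g : ZMod 4 → V} (hl : Link G w g) : False := by
  classical
  have hwg : ∀ i, g i ≠ w := fun i => ((hl.adj (g i)).2 ⟨i, rfl⟩).ne'
  have h1 := Pool.Agent.U5.rec_f (tau + 3) G w (lab V) lab_inj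
  -- at least five vertices
  have hn5 : 5 ≤ Fintype.card V := by
    have hc := card_del w
    have h2 : Fintype.card (ZMod 4) ≤ Fintype.card {x : V // x ≠ w} :=
      Fintype.card_le_of_injective (fun i => (⟨g i, hwg i⟩ : {x : V // x ≠ w}))
        (fun i j hij => hl.inj (congrArg Subtype.val hij))
    rw [ZMod.card] at h2
    omega
  have hpair : ∀ i j : ZMod 4, i ≠ j → ¬ (j = i + 1 ∨ i = j + 1) →
      ∃ p ∈ Helper36.BL.prs G w (lab V), ((p.1 : V) = g i ∨ (p.1 : V) = g j) := by
    intro i j hij hc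
    have hna : ¬ G.Adj (g i) (g j) := fun ha => hc ((hl.cyc i j).1 ha)
    have hai := (hl.adj (g i)).2 ⟨i, rfl⟩
    have haj := (hl.adj (g j)).2 ⟨j, rfl⟩
    rcases lt_trichotomy (lab V (g i)) (lab V (g j)) with hlt | heq | hlt
    · exact ⟨(⟨g i, hwg i⟩, ⟨g j, hwg j⟩), (mem_prs _ _ _ _).2 ⟨⟨hai, haj, hlt⟩, hna⟩,
        Or.inl rfl⟩
    · exact absurd (hl.inj (lab_inj heq)) hij
    · exact ⟨(⟨g j, hwg j⟩, ⟨g i, hwg i⟩),
        (mem_prs _ _ _ _).2 ⟨⟨haj, hai, hlt⟩, fun ha => hna ha.symm⟩, Or.inr rfl⟩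
  obtain ⟨p1, hp1, hq1⟩ := hpair 0 2 (by decide) (by decide)
  obtain ⟨p2, hp2, hq2⟩ := hpair 1 3 (by decide) (by decide)
  have hp12 : p1 ≠ p2 := by
    rintro rfl
    rcases hq1 with hq1 | hq1 <;> rcases hq2 with hq2 | hq2
    · exact absurd (hl.inj (hq1.symm.trans hq2)) (by decide)
    · exact absurd (hl.inj (hq1.symm.trans hq2)) (by decide)
    · exact absurd (hl.inj (hq1.symm.trans hq2)) (by decide)
    · exact absurd (hl.inj (hq1.symm.trans hq2)) (by decide)
  obtain ⟨n, hn⟩ : ∃ n, Fintype.card V = n + 2 := ⟨Fintype.card V - 2, by omega⟩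
  have hterm : ∀ p ∈ Helper36.BL.prs G w (lab V), cc n ≤ P (tau + 3) (mm G w (lab V) p) := by
    intro p hp
    have hc := card_mm w p.2
    have h2 := h.hmin _ (mm G w (lab V) p) (h.emax.1.minor (isMinor_mm G w (lab V) p hp))
      (by omega) (by omega)
    have h3 : Fintype.card {x : {x : V // x ≠ w} // x ≠ p.2} = n := by omega
    rwa [h3] at h2
  have hsum : 2 * cc n ≤ ∑ p ∈ Helper36.BL.prs G w (lab V), P (tau + 3) (mm G w (lab V) p) := by
    have h2 : ({p1, p2} : Finset _) ⊆ Helper36.BL.prs G w (lab V) := by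
      intro p hp
      rw [Finset.mem_insert, Finset.mem_singleton] at hp
      rcases hp with rfl | rfl
      · exact hp1
      · exact hp2
    have h3 := Finset.sum_le_sum_of_subset_of_nonneg
      (f := fun p => P (tau + 3) (mm G w (lab V) p)) h2
      (fun p hp _ => le_trans (cc_pos n).le (hterm p hp))
    rw [Finset.sum_pair hp12] at h3
    have h4 := hterm p1 hp1
    have h5 := hterm p2 hp2
    linarith
  have h5 := h.hmin {x : V // x ≠ w} (Helper36.BL.del G w) (h.emax.1.minor (isMinor_del G w))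
    (by have := card_del w; omega) (by have := card_del w; omega)
  have h6 : Fintype.card {x : V // x ≠ w} = n + 1 := by
    have := card_del w
    omega
  rw [h6, cc_succ] at h5
  have h7 := h.lt
  rw [hn, cc_add, h1, deg_link hl] at h7
  push_cast at h7
  have e : tau + 3 - 4 = tau - 1 := by ring
  rw [e] at h7
  have ht := lt_tau
  have ht2 := tau_lt
  have hsq := tau_sq
  have hcc := cc_pos n
  have h8 : (tau - 1) * (tau * cc n) ≤ (tau - 1) * P (tau + 3) (Helper36.BL.del G w) :=
    mul_le_mul_of_nonneg_left h5 (by linarith)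
  have h9 : (tau - 1) * (tau * cc n) = cc n := by
    have : (tau - 1) * tau = 1 := by linear_combination hsq
    rw [← mul_assoc, this, one_mul]
  have h10 : tau ^ 2 * cc n < 3 * cc n := by
    rw [hsq]
    exact mul_lt_mul_of_pos_right (by linarith) hcc
  linarith

end Pool.Agent.SB
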