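import Pool.Agent.SB.CDef

/-!
# Discharging

Plan.  Suppose there is no edge with both ends of degree five and no triangle with degrees
`5, 6, 6`.  Let `S = {v | dg v = 5}` and count the pairs `(v, w)` with `v ∈ S`, `G.Adj v w`, `7 ≤ dg w`:
* every `v ∈ S` has at least three such `w`: the five neighbours `g v i`, `i : ZMod 5`, have degree
  `≥ 6` (`h5`, no 5-5 edge) and no two consecutive ones have degree six, so at most two have degree six
  (`decide` on subsets of `ZMod 5`);
* every `w` with `7 ≤ dg w` has at most `dg w / 2` neighbours of degree five: they are pairwise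
  non-adjacent, so no two consecutive `i : ZMod (dg w)` have `g w i ∈ S`; the set `A` of these `i` and
  `A + 1` are disjoint, so `2 * A.card ≤ dg w` (`ZMod.card`).
Hence `3 * S.card ≤ ∑_{7 ≤ dg w} (number of neighbours of w in S) ≤ ∑_{7 ≤ dg w} dg w / 2`, and for
`d ≥ 7`, `d / 2 ≤ 3 * (d - 6)` (`7 / 2 = 3`), so
`3 * ∑ (6 - dg v) = 3 * S.card - ∑_{7 ≤ dg w} 3 * (dg w - 6) ≤ 0`, contradiction to `12`.
-/

set_option autoImplicit false

noncomputable section

namespace Pool.Agent.SB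

private theorem dis_five : ∀ b : Fin 5 → Bool, (∀ i, ¬ (b i = true ∧ b (i + 1) = true)) →
    3 ≤ (Finset.univ.filter (fun i => b i = false)).card := by
  decide

open scoped Classical in
private theorem dis_low {V : Type} [Fintype V] {G : SimpleGraph V} {v : V} {d : ℕ} (hd : d = 5)
    {g : ZMod d → V} (hg : Link G v g) (p : V → Prop) (T : Finset V)
    (hc : ∀ i, ¬ (p (g i) ∧ p (g (i + 1)))) (hT : ∀ i, ¬ p (g i) → g i ∈ T) :
    3 ≤ (T.bipartiteAbove G.Adj v).card := by
  subst hd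
  have h1 := dis_five (fun i : ZMod 5 => decide (p (g i))) (fun i h => hc i (by
    have h2 := h.1
    have h3 := h.2
    exact ⟨of_decide_eq_true h2, of_decide_eq_true h3⟩))
  refine h1.trans ?_
  refine Finset.card_le_card_of_injOn (fun i : ZMod 5 => g i) ?_ ?_
  · intro i hi
    have h2 : i ∈ Finset.univ.filter (fun i : Fin 5 => decide (p (g i)) = false) := hi
    rw [Finset.mem_filter, decide_eq_false_iff_not] at h2
    show g i ∈ T.bipartiteAbove G.Adj v
    rw [Finset.mem_bipartiteAbove]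
    exact ⟨hT i h2.2, (hg.adj _).2 ⟨i, rfl⟩⟩
  · intro i _ j _ hij
    exact hg.inj hij

open scoped Classical in
private theorem dis_up {V : Type} [Fintype V] {G : SimpleGraph V} {v : V} {d : ℕ} (hd : 0 < d)
    {g : ZMod d → V} (hg : Link G v g) (S : Finset V)
    (hc : ∀ i, ¬ (g i ∈ S ∧ g (i + 1) ∈ S)) :
    2 * (S.bipartiteBelow G.Adj v).card ≤ d := by
  have : NeZero d := ⟨hd.ne'⟩
  set B : Finset (ZMod d) := Finset.univ.filter (fun i => g i ∈ S) with hB
  have h1 : (S.bipartiteBelow G.Adj v).card ≤ B.card := by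
    have h2 : S.bipartiteBelow G.Adj v ⊆ B.image g := by
      intro x hx
      rw [Finset.mem_bipartiteBelow] at hx
      obtain ⟨i, rfl⟩ := (hg.adj x).1 hx.2.symm
      exact Finset.mem_image.2 ⟨i, Finset.mem_filter.2 ⟨Finset.mem_univ _, hx.1⟩, rfl⟩
    exact (Finset.card_le_card h2).trans Finset.card_image_le
  have h3 : Disjoint B (B.image (fun i => i + 1)) := by
    rw [Finset.disjoint_left]
    intro i hi hi'
    obtain ⟨j, hj, rfl⟩ := Finset.mem_image.1 hi'
    exact hc j ⟨(Finset.mem_filter.1 hj).2, (Finset.mem_filter.1 hi).2⟩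
  have h4 : (B.image (fun i => i + 1)).card = B.card :=
    Finset.card_image_of_injective _ (add_left_injective 1)
  have h5 : (B ∪ B.image (fun i => i + 1)).card ≤ d := by
    have h6 := Finset.card_le_univ (B ∪ B.image (fun i => i + 1))
    rwa [ZMod.card] at h6
  rw [Finset.card_union_of_disjoint h3, h4] at h5
  omega

theorem discharge {V : Type} [Fintype V] {G : SimpleGraph V} {dg : V → ℕ}
    {g : (v : V) → ZMod (dg v) → V} (h : Tri G dg g) (h5 : ∀ v, 5 ≤ dg v) :
    (∃ u v, G.Adj u v ∧ dg u = 5 ∧ dg v = 5) ∨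
    ∃ u v w, G.Adj u v ∧ G.Adj v w ∧ G.Adj u w ∧ dg u = 5 ∧ dg v = 6 ∧ dg w = 6 := by
  classical
  by_contra hcon
  rw [not_or] at hcon
  obtain ⟨hA, hB⟩ := hcon
  have hadj : ∀ v (i : ZMod (dg v)), G.Adj v (g v i) := fun v i => ((h.link v).adj _).2 ⟨i, rfl⟩
  have hcyc : ∀ v (i : ZMod (dg v)), G.Adj (g v i) (g v (i + 1)) :=
    fun v i => ((h.link v).cyc _ _).2 (Or.inl rfl)
  set S : Finset V := Finset.univ.filter (fun v => dg v = 5) with hS
  set T : Finset V := Finset.univ.filter (fun v => 7 ≤ dg v) with hT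
  have h1 : ∀ v ∈ S, 3 ≤ (T.bipartiteAbove G.Adj v).card := by
    intro v hv
    have hv5 : dg v = 5 := (Finset.mem_filter.1 hv).2
    refine dis_low hv5 (h.link v) (fun w => dg w = 6) T ?_ ?_
    · rintro i ⟨e1, e2⟩
      exact hB ⟨v, _, _, hadj v i, hcyc v i, hadj v (i + 1), hv5, e1, e2⟩
    · intro i hi
      have h2 := h5 (g v i)
      have h3 : dg (g v i) ≠ 5 := fun h3 => hA ⟨v, _, hadj v i, hv5, h3⟩
      exact Finset.mem_filter.2 ⟨Finset.mem_univ _, by omega⟩
  have h2 : ∀ w ∈ T, ((S.bipartiteBelow G.Adj w).card : ℤ) ≤ 3 * ((dg w : ℤ) - 6) := by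
    intro w hw
    have hw7 : 7 ≤ dg w := (Finset.mem_filter.1 hw).2
    have h3 : 2 * (S.bipartiteBelow G.Adj w).card ≤ dg w := by
      refine dis_up (by omega) (h.link w) S ?_
      rintro i ⟨e1, e2⟩
      exact hA ⟨_, _, hcyc w i, (Finset.mem_filter.1 e1).2, (Finset.mem_filter.1 e2).2⟩
    omega
  have h3 := Finset.sum_card_bipartiteAbove_eq_sum_card_bipartiteBelow (s := S) (t := T) G.Adj
  have h4 : 3 * (S.card : ℤ) ≤ ∑ w ∈ T, 3 * ((dg w : ℤ) - 6) := by
    have e1 : S.card * 3 ≤ ∑ v ∈ S, (T.bipartiteAbove G.Adj v).card := by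
      rw [← smul_eq_mul]
      exact Finset.card_nsmul_le_sum _ _ _ h1
    rw [h3] at e1
    have e2 : ((∑ w ∈ T, (S.bipartiteBelow G.Adj w).card : ℕ) : ℤ) ≤
        ∑ w ∈ T, 3 * ((dg w : ℤ) - 6) := by
      push_cast
      exact Finset.sum_le_sum h2
    have e3 : ((S.card * 3 : ℕ) : ℤ) ≤ ((∑ w ∈ T, (S.bipartiteBelow G.Adj w).card : ℕ) : ℤ) := by
      exact_mod_cast e1
    push_cast at e3 e2
    linarith
  have h6 : ∑ v, (6 - (dg v : ℤ)) = (S.card : ℤ) - ∑ w ∈ T, ((dg w : ℤ) - 6) := by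
    have e1 : (S.card : ℤ) = ∑ v, if dg v = 5 then (1 : ℤ) else 0 := by
      rw [← Finset.sum_filter, Finset.sum_const, nsmul_eq_mul, mul_one]
    have e2 : ∑ w ∈ T, ((dg w : ℤ) - 6) = ∑ v, if 7 ≤ dg v then ((dg v : ℤ) - 6) else 0 := by
      rw [← Finset.sum_filter]
    rw [e1, e2, ← Finset.sum_sub_distrib]
    apply Finset.sum_congr rfl
    intro v _
    have h7 := h5 v
    by_cases h8 : dg v = 5
    · rw [if_pos h8, if_neg (by omega)]
      omega
    · rw [if_neg h8]
      by_cases h9 : 7 ≤ dg v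
      · rw [if_pos h9]
        ring
      · rw [if_neg h9]
        have : dg v = 6 := by omega
        omega
  rw [← Finset.mul_sum] at h4
  have h7 := h.euler
  rw [h6] at h7
  linarith

end Pool.Agent.SB
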