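import Pool.Agent.SB.CDef

/-!
# The tables of the two configurations
-/

set_option autoImplicit false

namespace Pool.Agent.SB

theorem tbl55 : TblOK 6 8 E55 T55 where
  k3 := by decide
  kn := by decide
  e := by decide
  eN := by decide
  t := by decide
  tN := by decide
  tE := by decide
  two := by decide
  one := by decide
  count := by decide
  conn := by
    intro i h1 h2
    interval_cases i <;> decide

theorem tbl566 : TblOK 8 11 E566 T566 where
  k3 := by decide
  kn := by decide
  e := by decide
  eN := by decide
  t := by decide
  tN := by decide
  tE := by decide
  two := by decide
  one := by decide
  count := by decide
  conn := by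
    intro i h1 h2
    interval_cases i <;> decide

end Pool.Agent.SB
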