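import Pool.Agent.SB.CLnk

/-!
# The window of two adjacent vertices of degree five

JOB SB-CW55.  Prove the theorem of this file (remove the `sorry`, keep the statement).

Plan.  `u` has a link `gu : ZMod 5 → V` with `gu 0 = v`, `gu 1 = r0` (`Link.exists_from`, `r0` := the
next one); put `r1 = gu 2`, `r2 = gu 3`, `r3 = gu 4`.  `r3` is adjacent to `u` and `v` (`gu 4`, `gu 0`
are consecutive), so `v` has a link `gv` with `gv 0 = u`, `gv 1 = r3`; put `r4 = gv 2`, `r5 = gv 3`.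
`gv 4` is a common neighbour of `v` and `u`, so it is `gu 1` or `gu 4` (`Link.common`), and it is not
`gv 1 = r3 = gu 4`, so `gv 4 = r0`.  Take `f = r0, r1, r2, r3, r4, r5, u, v` on `0, …, 7`
(`fun i => [r0, r1, r2, r3, r4, r5, u, v].getD i u`).
* injective: in the links; `r1, r2` versus `r4, r5`: if equal, it is a common neighbour of `u` and `v`,
  hence `gu 1` or `gu 4` by `Link.common` (applied to the link of `u` and `gu 0 = v`), but
  `r1 = gu 2`, `r2 = gu 3`.
* `nh`: the neighbours of `u` are the `gu i`, those of `v` the `gv i`; `E55` gives for `6` the slots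
  `0, 1, 2, 3, 7`, for `7` the slots `6, 3, 4, 5, 0`.
* ring: `r0 r1, r1 r2, r2 r3` in the link of `u`, `r3 r4, r4 r5, r5 r0` in the link of `v`.
* pairs of `al55`: `02, 03, 13` in the link of `u` (positions `1, 3`; `1, 4`; `2, 4`), `35, 04` in the
  link of `v` (positions `1, 3`; `4, 2`), `15` by `Link.far` at `r0` for the path `r1, u, v, r5`
  (`hr0`), `24` by `Link.far` at `r3` for the path `r2, u, v, r4`.
-/

set_option autoImplicit false

noncomputable section

namespace Pool.Agent.SB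

theorem exists_wdw55 {V : Type} {G : SimpleGraph V}
    (hl : ∀ x, ∃ (d : ℕ) (g : ZMod d → V), 5 ≤ d ∧ Link G x g) {u v : V} (huv : G.Adj u v)
    (hu : ∃ g : ZMod 5 → V, Link G u g) (hv : ∃ g : ZMod 5 → V, Link G v g) :
    ∃ f : ℕ → V, Wdw 6 8 E55 G f ∧ ∀ p ∈ al55, ¬ G.Adj (f p.1) (f p.2) := by
  obtain ⟨g0, h0⟩ := hu
  obtain ⟨g1, h1⟩ := hv
  obtain ⟨i0, hi0⟩ := (h0.adj v).1 huv
  obtain ⟨gu, hgu, hu0, hu1⟩ := h0.exists_from huv ((h0.adj (g0 (i0 + 1))).2 ⟨_, rfl⟩) (by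
    rw [hi0]
    exact (h0.cyc _ _).2 (Or.inl rfl))
  have au : ∀ i, G.Adj u (gu i) := fun i => (hgu.adj _).2 ⟨i, rfl⟩
  have cu : ∀ i j : ZMod 5, (j = i + 1 ∨ i = j + 1) → G.Adj (gu i) (gu j) := fun i j h =>
    (hgu.cyc i j).2 h
  have nu : ∀ i j : ZMod 5, ¬ (j = i + 1 ∨ i = j + 1) → ¬ G.Adj (gu i) (gu j) := fun i j h h' =>
    h ((hgu.cyc i j).1 h')
  have hv4 : G.Adj v (gu 4) := by
    rw [← hu0]
    exact cu 0 4 (by decide)
  obtain ⟨gv, hgv, hv0, hv1⟩ := h1.exists_from huv.symm hv4 (au 4)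
  have av : ∀ i, G.Adj v (gv i) := fun i => (hgv.adj _).2 ⟨i, rfl⟩
  have cvv : ∀ i j : ZMod 5, (j = i + 1 ∨ i = j + 1) → G.Adj (gv i) (gv j) := fun i j h =>
    (hgv.cyc i j).2 h
  have nv : ∀ i j : ZMod 5, ¬ (j = i + 1 ∨ i = j + 1) → ¬ G.Adj (gv i) (gv j) := fun i j h h' =>
    h ((hgv.cyc i j).1 h')
  have hcom : ∀ x, G.Adj u x → G.Adj v x → x = gu 1 ∨ x = gu 4 := by
    intro x hx hx'
    have h := hgu.common (i := 0) hx (by rw [hu0]; exact hx')
    have e1 : (0 : ZMod 5) + 1 = 1 := by decide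
    have e2 : (0 : ZMod 5) - 1 = 4 := by decide
    rwa [e1, e2] at h
  have hug4 : G.Adj u (gv 4) := by
    rw [← hv0]
    exact cvv 0 4 (by decide)
  have hv4' : gv 4 = gu 1 := by
    rcases hcom _ hug4 (av 4) with h | h
    · exact h
    · rw [← hv1] at h
      exact absurd (hgv.inj h) (by decide)
  -- distinctness
  have iu : ∀ i j : ZMod 5, i ≠ j → gu i ≠ gu j := fun i j h h' => h (hgu.inj h')
  have iv : ∀ i j : ZMod 5, i ≠ j → gv i ≠ gv j := fun i j h h' => h (hgv.inj h')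
  have uu : ∀ i, gu i ≠ u := fun i => (au i).ne'
  have vv : ∀ i, gv i ≠ v := fun i => (av i).ne'
  have d13 : ∀ j, gu 2 ≠ gv j := by
    intro j h
    rcases hcom (gu 2) (au 2) (h ▸ av j) with h' | h'
    · exact iu 2 1 (by decide) h'
    · exact iu 2 4 (by decide) h'
  have d14 : ∀ j, gu 3 ≠ gv j := by
    intro j h
    rcases hcom (gu 3) (au 3) (h ▸ av j) with h' | h'
    · exact iu 3 1 (by decide) h'
    · exact iu 3 4 (by decide) h'
  have n0 : gu 1 ≠ gv 2 := by rw [← hv4']; exact iv 4 2 (by decide)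
  have n1 : gu 1 ≠ gv 3 := by rw [← hv4']; exact iv 4 3 (by decide)
  have n2 : gu 4 ≠ gv 2 := by rw [← hv1]; exact iv 1 2 (by decide)
  have n3 : gu 4 ≠ gv 3 := by rw [← hv1]; exact iv 1 3 (by decide)
  have n4 : gv 2 ≠ u := by rw [← hv0]; exact iv 2 0 (by decide)
  have n5 : gv 3 ≠ u := by rw [← hv0]; exact iv 3 0 (by decide)
  have n6 : ∀ i, i ≠ 0 → gu i ≠ v := fun i h => by rw [← hu0]; exact iu i 0 h
  have hnd : [gu 1, gu 2, gu 3, gu 4, gv 2, gv 3, u, v].Nodup := by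
    simp only [List.nodup_cons, List.mem_cons, List.not_mem_nil, or_false, not_or,
      not_false_eq_true, List.nodup_nil, and_true]
    exact ⟨⟨iu 1 2 (by decide), iu 1 3 (by decide), iu 1 4 (by decide), n0, n1, uu 1,
      n6 1 (by decide)⟩, ⟨iu 2 3 (by decide), iu 2 4 (by decide), d13 2, d13 3, uu 2,
      n6 2 (by decide)⟩, ⟨iu 3 4 (by decide), d14 2, d14 3, uu 3, n6 3 (by decide)⟩,
      ⟨n2, n3, uu 4, n6 4 (by decide)⟩, ⟨iv 2 3 (by decide), n4, vv 2⟩, ⟨n5, vv 3⟩, huv.ne⟩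
  refine ⟨fun i => [gu 1, gu 2, gu 3, gu 4, gv 2, gv 3, u, v].getD i u, ⟨?_, ?_, ?_⟩, ?_⟩
  · intro i j hi hj h
    have hi' : i < [gu 1, gu 2, gu 3, gu 4, gv 2, gv 3, u, v].length := hi
    have hj' : j < [gu 1, gu 2, gu 3, gu 4, gv 2, gv 3, u, v].length := hj
    simp only [List.getD_eq_getElem _ _ hi', List.getD_eq_getElem _ _ hj'] at h
    exact hnd.getElem_inj_iff.1 h
  · intro i hi hi' x
    have hcase : i = 6 ∨ i = 7 := by omega
    rcases hcase with rfl | rfl
    · show G.Adj u x ↔ _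
      rw [hgu.adj x]
      constructor
      · rintro ⟨c, rfl⟩
        have hc : c = 0 ∨ c = 1 ∨ c = 2 ∨ c = 3 ∨ c = 4 := by revert c; decide
        rcases hc with rfl | rfl | rfl | rfl | rfl
        · exact ⟨7, by decide, by decide, hu0⟩
        · exact ⟨0, by decide, by decide, rfl⟩
        · exact ⟨1, by decide, by decide, rfl⟩
        · exact ⟨2, by decide, by decide, rfl⟩
        · exact ⟨3, by decide, by decide, rfl⟩
      · rintro ⟨j, hj, hE, rfl⟩
        have hj' : j = 0 ∨ j = 1 ∨ j = 2 ∨ j = 3 ∨ j = 7 := by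
          revert j
          decide
        rcases hj' with rfl | rfl | rfl | rfl | rfl
        · exact ⟨1, rfl⟩
        · exact ⟨2, rfl⟩
        · exact ⟨3, rfl⟩
        · exact ⟨4, rfl⟩
        · exact ⟨0, hu0.symm⟩
    · show G.Adj v x ↔ _
      rw [hgv.adj x]
      constructor
      · rintro ⟨c, rfl⟩
        have hc : c = 0 ∨ c = 1 ∨ c = 2 ∨ c = 3 ∨ c = 4 := by revert c; decide
        rcases hc with rfl | rfl | rfl | rfl | rfl
        · exact ⟨6, by decide, by decide, hv0⟩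
        · exact ⟨3, by decide, by decide, hv1⟩
        · exact ⟨4, by decide, by decide, rfl⟩
        · exact ⟨5, by decide, by decide, rfl⟩
        · exact ⟨0, by decide, by decide, hv4'⟩
      · rintro ⟨j, hj, hE, rfl⟩
        have hj' : j = 6 ∨ j = 3 ∨ j = 4 ∨ j = 5 ∨ j = 0 := by
          revert j
          decide
        rcases hj' with rfl | rfl | rfl | rfl | rfl
        · exact ⟨0, hv0.symm⟩
        · exact ⟨1, hv1.symm⟩
        · exact ⟨2, rfl⟩
        · exact ⟨3, rfl⟩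
        · exact ⟨4, hv4'.symm⟩
  · intro i hi
    have hcase : i = 0 ∨ i = 1 ∨ i = 2 ∨ i = 3 ∨ i = 4 ∨ i = 5 := by omega
    rcases hcase with rfl | rfl | rfl | rfl | rfl | rfl
    · exact cu 1 2 (by decide)
    · exact cu 2 3 (by decide)
    · exact cu 3 4 (by decide)
    · show G.Adj (gu 4) (gv 2)
      rw [← hv1]
      exact cvv 1 2 (by decide)
    · exact cvv 2 3 (by decide)
    · show G.Adj (gv 3) (gu 1)
      rw [← hv4']
      exact cvv 3 4 (by decide)
  · intro p hp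
    have hcase : p = (0, 2) ∨ p = (0, 3) ∨ p = (1, 3) ∨ p = (3, 5) ∨ p = (0, 4) ∨ p = (1, 5) ∨
        p = (2, 4) := by
      simpa [al55] using hp
    rcases hcase with rfl | rfl | rfl | rfl | rfl | rfl | rfl
    · exact nu 1 3 (by decide)
    · exact nu 1 4 (by decide)
    · exact nu 2 4 (by decide)
    · show ¬ G.Adj (gu 4) (gv 3)
      rw [← hv1]
      exact nv 1 3 (by decide)
    · show ¬ G.Adj (gu 1) (gv 2)
      rw [← hv4']
      exact nv 4 2 (by decide)
    · show ¬ G.Adj (gu 2) (gv 3)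
      obtain ⟨d, g, hd, hg⟩ := hl (gu 1)
      have b1 : G.Adj (gu 1) v := by rw [← hv4']; exact (av 4).symm
      have b2 : G.Adj (gu 1) (gv 3) := by rw [← hv4']; exact cvv 4 3 (by decide)
      exact (hg.far hd (cu 1 2 (by decide)) (au 1).symm b1 b2 (au 2).symm huv (av 3)
        (n6 2 (by decide)) n5.symm).2
    · show ¬ G.Adj (gu 3) (gv 2)
      obtain ⟨d, g, hd, hg⟩ := hl (gu 4)
      have b2 : G.Adj (gu 4) (gv 2) := by rw [← hv1]; exact cvv 1 2 (by decide)
      exact (hg.far hd (cu 4 3 (by decide)) (au 4).symm hv4.symm b2 (au 3).symm huv (av 2)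
        (n6 3 (by decide)) n4.symm).2

end Pool.Agent.SB
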