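import Pool.Agent.SB.CLnk

/-!
# The window of a triangle with degrees 5, 6, 6
-/

set_option autoImplicit false

noncomputable section

namespace Pool.Agent.SB

theorem exists_wdw566 {V : Type} {G : SimpleGraph V}
    (hl : ∀ x, ∃ (d : ℕ) (g : ZMod d → V), 5 ≤ d ∧ Link G x g) {u a b : V} (hua : G.Adj u a)
    (hab : G.Adj a b) (hub : G.Adj u b) (hu : ∃ g : ZMod 5 → V, Link G u g)
    (ha : ∃ g : ZMod 6 → V, Link G a g) (hb : ∃ g : ZMod 6 → V, Link G b g) :
    ∃ f : ℕ → V, Wdw 8 11 E566 G f ∧ ∀ p ∈ al566, ¬ G.Adj (f p.1) (f p.2) := by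
  obtain ⟨g0, h0⟩ := hu
  obtain ⟨g1, h1⟩ := ha
  obtain ⟨g2, h2⟩ := hb
  obtain ⟨gu, hgu, hu0, hu1⟩ := h0.exists_from hua hub hab
  obtain ⟨ga, hga, ha0, ha1⟩ := h1.exists_from hab hua.symm hub.symm
  obtain ⟨gb, hgb, hb0, hb1⟩ := h2.exists_from hub.symm hab.symm hua
  have au : ∀ i, G.Adj u (gu i) := fun i => (hgu.adj _).2 ⟨i, rfl⟩
  have aa : ∀ i, G.Adj a (ga i) := fun i => (hga.adj _).2 ⟨i, rfl⟩
  have ab : ∀ i, G.Adj b (gb i) := fun i => (hgb.adj _).2 ⟨i, rfl⟩
  have cu : ∀ i j : ZMod 5, (j = i + 1 ∨ i = j + 1) → G.Adj (gu i) (gu j) := fun i j h =>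
    (hgu.cyc i j).2 h
  have nu : ∀ i j : ZMod 5, ¬ (j = i + 1 ∨ i = j + 1) → ¬ G.Adj (gu i) (gu j) := fun i j h h' =>
    h ((hgu.cyc i j).1 h')
  have ca : ∀ i j : ZMod 6, (j = i + 1 ∨ i = j + 1) → G.Adj (ga i) (ga j) := fun i j h =>
    (hga.cyc i j).2 h
  have na : ∀ i j : ZMod 6, ¬ (j = i + 1 ∨ i = j + 1) → ¬ G.Adj (ga i) (ga j) := fun i j h h' =>
    h ((hga.cyc i j).1 h')
  have cb : ∀ i j : ZMod 6, (j = i + 1 ∨ i = j + 1) → G.Adj (gb i) (gb j) := fun i j h =>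
    (hgb.cyc i j).2 h
  have nb : ∀ i j : ZMod 6, ¬ (j = i + 1 ∨ i = j + 1) → ¬ G.Adj (gb i) (gb j) := fun i j h h' =>
    h ((hgb.cyc i j).1 h')
  have iu : ∀ i j : ZMod 5, i ≠ j → gu i ≠ gu j := fun i j h h' => h (hgu.inj h')
  have ia : ∀ i j : ZMod 6, i ≠ j → ga i ≠ ga j := fun i j h h' => h (hga.inj h')
  have ib : ∀ i j : ZMod 6, i ≠ j → gb i ≠ gb j := fun i j h h' => h (hgb.inj h')
  have cua : ∀ x, G.Adj u x → G.Adj a x → x = gu 1 ∨ x = gu 4 := by
    intro x hx hx'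
    have h := hgu.common (i := 0) hx (by rw [hu0]; exact hx')
    have e1 : (0 : ZMod 5) + 1 = 1 := by decide
    have e2 : (0 : ZMod 5) - 1 = 4 := by decide
    rwa [e1, e2] at h
  have cub : ∀ x, G.Adj u x → G.Adj b x → x = gu 2 ∨ x = gu 0 := by
    intro x hx hx'
    have h := hgu.common (i := 1) hx (by rw [hu1]; exact hx')
    have e1 : (1 : ZMod 5) + 1 = 2 := by decide
    have e2 : (1 : ZMod 5) - 1 = 0 := by decide
    rwa [e1, e2] at h
  have cab : ∀ x, G.Adj a x → G.Adj b x → x = ga 1 ∨ x = ga 5 := by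
    intro x hx hx'
    have h := hga.common (i := 0) hx (by rw [ha0]; exact hx')
    have e1 : (0 : ZMod 6) + 1 = 1 := by decide
    have e2 : (0 : ZMod 6) - 1 = 5 := by decide
    rwa [e1, e2] at h
  have ha2 : ga 2 = gu 4 := by
    have h3 : G.Adj u (ga 2) := by
      rw [← ha1]
      exact ca 1 2 (by decide)
    rcases cua _ h3 (aa 2) with h | h
    · rw [hu1, ← ha0] at h
      exact absurd h (ia 2 0 (by decide))
    · exact h
  have hb2 : gb 2 = ga 5 := by
    have h3 : G.Adj a (gb 2) := by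
      rw [← hb1]
      exact cb 1 2 (by decide)
    rcases cab _ h3 (ab 2) with h | h
    · rw [ha1, ← hb0] at h
      exact absurd h (ib 2 0 (by decide))
    · exact h
  have hb5 : gb 5 = gu 2 := by
    have h3 : G.Adj u (gb 5) := by
      rw [← hb0]
      exact cb 0 5 (by decide)
    rcases cub _ h3 (ab 5) with h | h
    · exact h
    · rw [hu0, ← hb1] at h
      exact absurd h (ib 5 1 (by decide))
  -- distinctness
  have uu : ∀ i, gu i ≠ u := fun i => (au i).ne'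
  have aaa : ∀ i, ga i ≠ a := fun i => (aa i).ne'
  have bb : ∀ i, gb i ≠ b := fun i => (ab i).ne'
  have ua : ∀ i, i ≠ 0 → gu i ≠ a := fun i h => by rw [← hu0]; exact iu i 0 h
  have ub : ∀ i, i ≠ 1 → gu i ≠ b := fun i h => by rw [← hu1]; exact iu i 1 h
  have au' : ∀ i, i ≠ 1 → ga i ≠ u := fun i h => by rw [← ha1]; exact ia i 1 h
  have ab' : ∀ i, i ≠ 0 → ga i ≠ b := fun i h => by rw [← ha0]; exact ia i 0 h
  have bu : ∀ i, i ≠ 0 → gb i ≠ u := fun i h => by rw [← hb0]; exact ib i 0 h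
  have ba : ∀ i, i ≠ 1 → gb i ≠ a := fun i h => by rw [← hb1]; exact ib i 1 h
  have dua : ∀ i : ZMod 5, i ≠ 1 → i ≠ 4 → ∀ j, gu i ≠ ga j := by
    intro i hi hi' j h
    rcases cua (gu i) (au i) (h ▸ aa j) with h' | h'
    · exact iu i 1 hi h'
    · exact iu i 4 hi' h'
  have dub : ∀ i : ZMod 5, i ≠ 2 → i ≠ 0 → ∀ j, gu i ≠ gb j := by
    intro i hi hi' j h
    rcases cub (gu i) (au i) (h ▸ ab j) with h' | h'
    · exact iu i 2 hi h'
    · exact iu i 0 hi' h'
  have dab : ∀ i : ZMod 6, i ≠ 1 → i ≠ 5 → ∀ j, ga i ≠ gb j := by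
    intro i hi hi' j h
    rcases cab (ga i) (aa i) (h ▸ ab j) with h' | h'
    · exact ia i 1 hi h'
    · exact ia i 5 hi' h'
  have n03 : gu 2 ≠ gb 3 := by rw [← hb5]; exact ib 5 3 (by decide)
  have n04 : gu 2 ≠ gb 4 := by rw [← hb5]; exact ib 5 4 (by decide)
  have n23 : gu 4 ≠ ga 3 := by rw [← ha2]; exact ia 2 3 (by decide)
  have n24 : gu 4 ≠ ga 4 := by rw [← ha2]; exact ia 2 4 (by decide)
  have n25 : gu 4 ≠ ga 5 := by rw [← ha2]; exact ia 2 5 (by decide)
  have n53 : ga 5 ≠ gb 3 := by rw [← hb2]; exact ib 2 3 (by decide)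
  have n54 : ga 5 ≠ gb 4 := by rw [← hb2]; exact ib 2 4 (by decide)
  have hnd : [gu 2, gu 3, gu 4, ga 3, ga 4, ga 5, gb 3, gb 4, u, a, b].Nodup := by
    simp only [List.nodup_cons, List.mem_cons, List.not_mem_nil, or_false, not_or,
      not_false_eq_true, List.nodup_nil, and_true]
    exact ⟨⟨iu 2 3 (by decide), iu 2 4 (by decide), dua 2 (by decide) (by decide) 3,
        dua 2 (by decide) (by decide) 4, dua 2 (by decide) (by decide) 5, n03, n04, uu 2,
        ua 2 (by decide), ub 2 (by decide)⟩,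
      ⟨iu 3 4 (by decide), dua 3 (by decide) (by decide) 3, dua 3 (by decide) (by decide) 4,
        dua 3 (by decide) (by decide) 5, dub 3 (by decide) (by decide) 3,
        dub 3 (by decide) (by decide) 4, uu 3, ua 3 (by decide), ub 3 (by decide)⟩,
      ⟨n23, n24, n25, dub 4 (by decide) (by decide) 3, dub 4 (by decide) (by decide) 4, uu 4,
        ua 4 (by decide), ub 4 (by decide)⟩,
      ⟨ia 3 4 (by decide), ia 3 5 (by decide), dab 3 (by decide) (by decide) 3,
        dab 3 (by decide) (by decide) 4, au' 3 (by decide), aaa 3, ab' 3 (by decide)⟩,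
      ⟨ia 4 5 (by decide), dab 4 (by decide) (by decide) 3, dab 4 (by decide) (by decide) 4,
        au' 4 (by decide), aaa 4, ab' 4 (by decide)⟩,
      ⟨n53, n54, au' 5 (by decide), aaa 5, ab' 5 (by decide)⟩,
      ⟨ib 3 4 (by decide), bu 3 (by decide), ba 3 (by decide), bb 3⟩,
      ⟨bu 4 (by decide), ba 4 (by decide), bb 4⟩,
      ⟨hua.ne, hub.ne⟩, hab.ne⟩
  refine ⟨fun i => [gu 2, gu 3, gu 4, ga 3, ga 4, ga 5, gb 3, gb 4, u, a, b].getD i u,
    ⟨?_, ?_, ?_⟩, ?_⟩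
  · intro i j hi hj h
    have hi' : i < [gu 2, gu 3, gu 4, ga 3, ga 4, ga 5, gb 3, gb 4, u, a, b].length := hi
    have hj' : j < [gu 2, gu 3, gu 4, ga 3, ga 4, ga 5, gb 3, gb 4, u, a, b].length := hj
    simp only [List.getD_eq_getElem _ _ hi', List.getD_eq_getElem _ _ hj'] at h
    exact hnd.getElem_inj_iff.1 h
  · intro i hi hi' x
    have hcase : i = 8 ∨ i = 9 ∨ i = 10 := by omega
    rcases hcase with rfl | rfl | rfl
    · show G.Adj u x ↔ _
      rw [hgu.adj x]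
      constructor
      · rintro ⟨c, rfl⟩
        have hc : c = 0 ∨ c = 1 ∨ c = 2 ∨ c = 3 ∨ c = 4 := by revert c; decide
        rcases hc with rfl | rfl | rfl | rfl | rfl
        · exact ⟨9, by decide, by decide, hu0⟩
        · exact ⟨10, by decide, by decide, hu1⟩
        · exact ⟨0, by decide, by decide, rfl⟩
        · exact ⟨1, by decide, by decide, rfl⟩
        · exact ⟨2, by decide, by decide, rfl⟩
      · rintro ⟨j, hj, hE, rfl⟩
        have hj' : j = 0 ∨ j = 1 ∨ j = 2 ∨ j = 9 ∨ j = 10 := by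
          revert j
          decide
        rcases hj' with rfl | rfl | rfl | rfl | rfl
        · exact ⟨2, rfl⟩
        · exact ⟨3, rfl⟩
        · exact ⟨4, rfl⟩
        · exact ⟨0, hu0.symm⟩
        · exact ⟨1, hu1.symm⟩
    · show G.Adj a x ↔ _
      rw [hga.adj x]
      constructor
      · rintro ⟨c, rfl⟩
        have hc : c = 0 ∨ c = 1 ∨ c = 2 ∨ c = 3 ∨ c = 4 ∨ c = 5 := by revert c; decide
        rcases hc with rfl | rfl | rfl | rfl | rfl | rfl
        · exact ⟨10, by decide, by decide, ha0⟩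
        · exact ⟨8, by decide, by decide, ha1⟩
        · exact ⟨2, by decide, by decide, ha2⟩
        · exact ⟨3, by decide, by decide, rfl⟩
        · exact ⟨4, by decide, by decide, rfl⟩
        · exact ⟨5, by decide, by decide, rfl⟩
      · rintro ⟨j, hj, hE, rfl⟩
        have hj' : j = 8 ∨ j = 10 ∨ j = 2 ∨ j = 3 ∨ j = 4 ∨ j = 5 := by
          revert j
          decide
        rcases hj' with rfl | rfl | rfl | rfl | rfl | rfl
        · exact ⟨1, ha1.symm⟩
        · exact ⟨0, ha0.symm⟩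
        · exact ⟨2, ha2.symm⟩
        · exact ⟨3, rfl⟩
        · exact ⟨4, rfl⟩
        · exact ⟨5, rfl⟩
    · show G.Adj b x ↔ _
      rw [hgb.adj x]
      constructor
      · rintro ⟨c, rfl⟩
        have hc : c = 0 ∨ c = 1 ∨ c = 2 ∨ c = 3 ∨ c = 4 ∨ c = 5 := by revert c; decide
        rcases hc with rfl | rfl | rfl | rfl | rfl | rfl
        · exact ⟨8, by decide, by decide, hb0⟩
        · exact ⟨9, by decide, by decide, hb1⟩
        · exact ⟨5, by decide, by decide, hb2⟩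
        · exact ⟨6, by decide, by decide, rfl⟩
        · exact ⟨7, by decide, by decide, rfl⟩
        · exact ⟨0, by decide, by decide, hb5⟩
      · rintro ⟨j, hj, hE, rfl⟩
        have hj' : j = 8 ∨ j = 9 ∨ j = 5 ∨ j = 6 ∨ j = 7 ∨ j = 0 := by
          revert j
          decide
        rcases hj' with rfl | rfl | rfl | rfl | rfl | rfl
        · exact ⟨0, hb0.symm⟩
        · exact ⟨1, hb1.symm⟩
        · exact ⟨2, hb2.symm⟩
        · exact ⟨3, rfl⟩
        · exact ⟨4, rfl⟩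
        · exact ⟨5, hb5.symm⟩
  · intro i hi
    have hcase : i = 0 ∨ i = 1 ∨ i = 2 ∨ i = 3 ∨ i = 4 ∨ i = 5 ∨ i = 6 ∨ i = 7 := by omega
    rcases hcase with rfl | rfl | rfl | rfl | rfl | rfl | rfl | rfl
    · exact cu 2 3 (by decide)
    · exact cu 3 4 (by decide)
    · show G.Adj (gu 4) (ga 3)
      rw [← ha2]
      exact ca 2 3 (by decide)
    · exact ca 3 4 (by decide)
    · exact ca 4 5 (by decide)
    · show G.Adj (ga 5) (gb 3)
      rw [← hb2]
      exact cb 2 3 (by decide)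
    · exact cb 3 4 (by decide)
    · show G.Adj (gb 4) (gu 2)
      rw [← hb5]
      exact cb 4 5 (by decide)
  · intro p hp
    have hcase : p = (0, 2) ∨ p = (0, 5) ∨ p = (0, 6) ∨ p = (1, 3) ∨ p = (1, 7) ∨ p = (2, 4) ∨
        p = (2, 5) ∨ p = (3, 5) ∨ p = (4, 6) ∨ p = (5, 7) := by
      simpa [al566] using hp
    rcases hcase with rfl | rfl | rfl | rfl | rfl | rfl | rfl | rfl | rfl | rfl
    · exact nu 2 4 (by decide)
    · show ¬ G.Adj (gu 2) (ga 5)
      rw [← hb5, ← hb2]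
      exact nb 5 2 (by decide)
    · show ¬ G.Adj (gu 2) (gb 3)
      rw [← hb5]
      exact nb 5 3 (by decide)
    · show ¬ G.Adj (gu 3) (ga 3)
      obtain ⟨d, g, hd, hg⟩ := hl (gu 4)
      have b1 : G.Adj (gu 4) a := by rw [← ha2]; exact (aa 2).symm
      have b2 : G.Adj (gu 4) (ga 3) := by rw [← ha2]; exact ca 2 3 (by decide)
      exact (hg.far hd (cu 4 3 (by decide)) (au 4).symm b1 b2 (au 3).symm hua (aa 3)
        (ua 3 (by decide)) (au' 3 (by decide)).symm).2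
    · show ¬ G.Adj (gu 3) (gb 4)
      obtain ⟨d, g, hd, hg⟩ := hl (gu 2)
      have b1 : G.Adj (gu 2) b := by rw [← hb5]; exact (ab 5).symm
      have b2 : G.Adj (gu 2) (gb 4) := by rw [← hb5]; exact cb 5 4 (by decide)
      exact (hg.far hd (cu 2 3 (by decide)) (au 2).symm b1 b2 (au 3).symm hub (ab 4)
        (ub 3 (by decide)) (bu 4 (by decide)).symm).2
    · show ¬ G.Adj (gu 4) (ga 4)
      rw [← ha2]
      exact na 2 4 (by decide)
    · show ¬ G.Adj (gu 4) (ga 5)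
      rw [← ha2]
      exact na 2 5 (by decide)
    · exact na 3 5 (by decide)
    · show ¬ G.Adj (ga 4) (gb 3)
      obtain ⟨d, g, hd, hg⟩ := hl (ga 5)
      have b1 : G.Adj (ga 5) b := by rw [← hb2]; exact (ab 2).symm
      have b2 : G.Adj (ga 5) (gb 3) := by rw [← hb2]; exact cb 2 3 (by decide)
      exact (hg.far hd (ca 5 4 (by decide)) (aa 5).symm b1 b2 (aa 4).symm hab (ab 3)
        (ab' 4 (by decide)) (ba 3 (by decide)).symm).2
    · show ¬ G.Adj (ga 5) (gb 4)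
      rw [← hb2]
      exact nb 2 4 (by decide)

end Pool.Agent.SB
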