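import Pool.Agent.SB.CHole
import Pool.Agent.SB.CCnt
import Pool.Agent.SB.CTbl
import Pool.Agent.SB.CTri
import Pool.Agent.SB.CDeg
import Pool.Agent.SB.CDis
import Pool.Agent.SB.CW55
import Pool.Agent.SB.CW566

/-!
# A minimal counterexample contains one of the two configurations

JOB SB-CConf.  Prove all theorems of this file (remove the `sorry`s, keep the statements).

Plan.
* `conf_of_wdw`: `H = G.comap val` on `{v // ¬ WK k n f v}`, `rr i = ⟨f i, _⟩` for `i < k` and
  `rr i = ⟨f 0, _⟩` otherwise (`ring_not_WK`).  `card`: `Fintype.card_subtype_compl`-type count with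
  `card_WK` (`n - k` inner vertices).  `disc`: `hole`.  `cnt`: `cnt_wdw`.  The rest: `hw.inj`, `hw.ring`, `hal`.
* `exists_conf`: `exists_tri`; all `dg v ≥ 5` by `not_three`, `not_four` (`3 ≤ dg v`; if `dg v = 3`, transport
  `g v` to `ZMod 3`: `obtain`/`generalize` the pair `(dg v, g v)`, `subst`); `discharge`; then
  `exists_wdw55` or `exists_wdw566` with `tbl55`, `tbl566`, and `conf_of_wdw`.
-/

set_option autoImplicit false

noncomputable section

namespace Pool.Agent.SB

open Pool.Agent.Helper1.PG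
open Pool.Agent.Helper36.BL (cp cnt cols cp_eval mem_cols IsMinor)

theorem conf_of_wdw {V : Type} [Fintype V] {k n : ℕ} {E : List (ℕ × ℕ)}
    {T : List (ℕ × ℕ × ℕ)} (hT : TblOK k n E T) (hn : n < 31) {G : SimpleGraph V} {f : ℕ → V}
    (hw : Wdw k n E G f) (h : MinC G) {al : List (ℕ × ℕ)} (hal : ∀ p ∈ al, p.1 < k ∧ p.2 < k)
    (hna : ∀ p ∈ al, ¬ G.Adj (f p.1) (f p.2)) :
    ∃ (W : Type) (_ : Fintype W) (H : SimpleGraph W) (rr : ℕ → W),
      Conf k (n - k) (E.map (wcode k)) al G H rr := by
  classical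
  have hk : 0 < k := by
    have := hT.k3
    omega
  have hno : ∀ i, i < k → ¬ WK k n f (f i) := fun i hi => by
    rintro ⟨j, h1, h2, h3⟩
    have h4 := hw.inj i j (by have := hT.kn; omega) h2 h3
    omega
  obtain ⟨rr, hrr⟩ : ∃ rr : ℕ → {v : V // ¬ WK k n f v}, ∀ i, i < k → (rr i).1 = f i := by
    refine ⟨fun i => if hi : i < k then ⟨f i, hno i hi⟩ else ⟨f 0, hno 0 hk⟩, fun i hi => ?_⟩
    show (if hi : i < k then (⟨f i, hno i hi⟩ : {v : V // ¬ WK k n f v})
      else ⟨f 0, hno 0 hk⟩).1 = f i
    rw [dif_pos hi]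
  refine ⟨{v : V // ¬ WK k n f v}, inferInstance,
    G.comap (Subtype.val : {v : V // ¬ WK k n f v} → V), rr, ?_, ?_, ?_, ?_, ?_, ?_⟩
  · -- the number of vertices
    have e1 : Fintype.card {v : V // WK k n f v} = n - k := by
      have h1 : Function.Bijective (fun j : Fin (n - k) =>
          (⟨f (k + j.val), k + j.val, by omega, by omega, rfl⟩ : {v : V // WK k n f v})) := by
        constructor
        · intro i j hij
          have h2 := congrArg Subtype.val hij
          have h3 := hw.inj (k + i.val) (k + j.val) (by omega) (by omega) h2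
          apply Fin.ext
          omega
        · rintro ⟨v, i, h1, h2, h3⟩
          refine ⟨⟨i - k, by omega⟩, ?_⟩
          apply Subtype.ext
          show f (k + (i - k)) = v
          rw [h3]
          congr 1
          omega
      have h2 := Fintype.card_of_bijective h1
      rw [Fintype.card_fin] at h2
      exact h2.symm
    have e2 := Fintype.card_subtype_compl (WK k n f)
    have e3 : Fintype.card {v : V // WK k n f v} ≤ Fintype.card V :=
      Fintype.card_subtype_le _
    omega
  · exact hole hT hw h.emax.1 h.cf h.four rr hrr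
  · intro i j hi hj hij
    have h1 := congrArg Subtype.val hij
    rw [hrr i hi, hrr j hj] at h1
    have := hT.kn
    exact hw.inj i j (by omega) (by omega) h1
  · intro i hi
    show G.Adj (rr i).1 (rr ((i + 1) % k)).1
    rw [hrr i hi, hrr _ (Nat.mod_lt _ hk)]
    exact hw.ring i hi
  · intro p hp hadj
    have h1 : G.Adj (rr p.1).1 (rr p.2).1 := hadj
    rw [hrr _ (hal p hp).1, hrr _ (hal p hp).2] at h1
    exact hna p hp h1
  · intro N
    exact cnt_wdw hT.e hT.kn hn hw rr hrr N

private theorem ge_five {V : Type} [Fintype V] {G : SimpleGraph V} (h : MinC G) {w : V} {d : ℕ}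
    {g : ZMod d → V} (hl : Link G w g) (h3 : 3 ≤ d) : 5 ≤ d := by
  by_contra hc
  have h4 : d = 3 ∨ d = 4 := by omega
  rcases h4 with rfl | rfl
  · exact not_three h hl
  · exact not_four h hl

private theorem link_eq {V : Type} {G : SimpleGraph V} {w : V} {d e : ℕ}
    {g : ZMod d → V} (hl : Link G w g) (h : d = e) : ∃ g' : ZMod e → V, Link G w g' := by
  subst h
  exact ⟨g, hl⟩

theorem exists_conf {V : Type} [Fintype V] {G : SimpleGraph V} (h : MinC G) :
    (∃ (W : Type) (_ : Fintype W) (H : SimpleGraph W) (rr : ℕ → W),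
      Conf 6 2 (E55.map (wcode 6)) al55 G H rr) ∨
    ∃ (W : Type) (_ : Fintype W) (H : SimpleGraph W) (rr : ℕ → W),
      Conf 8 3 (E566.map (wcode 8)) al566 G H rr := by
  obtain ⟨dg, g, ht⟩ := exists_tri h.four h.emax h.cf
  have h5 : ∀ v, 5 ≤ dg v := fun v => ge_five h (ht.link v) (ht.three v)
  have hl : ∀ x, ∃ (d : ℕ) (g : ZMod d → V), 5 ≤ d ∧ Link G x g :=
    fun x => ⟨dg x, g x, h5 x, ht.link x⟩
  rcases discharge ht h5 with ⟨u, v, huv, hu, hv⟩ | ⟨u, a, b, hua, hab, hub, hu, ha, hb⟩
  · left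
    obtain ⟨f, hw, hna⟩ := exists_wdw55 hl huv (link_eq (ht.link u) hu) (link_eq (ht.link v) hv)
    exact conf_of_wdw tbl55 (by norm_num) hw h (by decide) hna
  · right
    obtain ⟨f, hw, hna⟩ := exists_wdw566 hl hua hab hub (link_eq (ht.link u) hu)
      (link_eq (ht.link a) ha) (link_eq (ht.link b) hb)
    exact conf_of_wdw tbl566 (by norm_num) hw h (by decide) hna

end Pool.Agent.SB
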