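import Pool.Agent.SB.CDef

/-!
# Clique cuts

JOB SB-CGlue.  Prove all theorems of this file (remove the `sorry`s, keep the statements).

Plan.  `P_glue` (`U5/Glue.lean`): `P q H * P q (cqW K T) = P q (inW H K T) * P q (dl H K)`.
* `P_dl_set`: `P q (dl H K) = q ^ K.card * P q (H.comap val)` for the vertices outside of `K`
  (count: a colouring of `dl H K` is a colouring of `H` outside `K` and arbitrary colours on `K`,
  `Equiv.piEquivPiSubtypeProd`; or induction on `K` with `P_dl`, `P_isolated` of `U5/Poly.lean`;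
  polynomial identity by `poly_ext` and `cp_eval`).
* `P_cqW`: `P q (cqW K T) = q ^ K.card * fall q T.card` with `fall q 0 = 1`, `fall q 1 = q`,
  `fall q 2 = q (q - 1)`, `fall q 3 = q (q - 1) (q - 2)` (number of injective maps
  `T → Fin N` is `N.descFactorial T.card`, `Fintype.card_embedding_eq`; the elements of `K` are
  isolated).
* `P_clique_cut`: cancel `q ^ K.card` (`q ≠ 0`).
-/

set_option autoImplicit false

noncomputable section

namespace Pool.Agent.SB

open Polynomial
open Pool.Agent.Helper1.PG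
open Pool.Agent.Helper36.BL (cp cnt cols cp_eval mem_cols IsMinor poly_ext)
open Pool.Agent.U5 (P dl inW cqW P_glue)

/-- falling factorial at a real number, `t ≤ 3` -/
def fall (q : ℝ) (t : ℕ) : ℝ :=
  if t = 0 then 1 else if t = 1 then q else if t = 2 then q * (q - 1) else q * (q - 1) * (q - 2)

open scoped Classical in
private theorem cg_cnt {V : Type} [Fintype V] (G : SimpleGraph V) (K : Finset V) (N : ℕ) :
    cnt (dl G K) N = N ^ K.card *
      cnt (G.comap (Subtype.val : {x // x ∉ K} → V)) N := by
  have h1 : N ^ K.card = (Finset.univ : Finset ({x // x ∈ K} → Fin N)).card := by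
    rw [Finset.card_univ, Fintype.card_fun, Fintype.card_fin, Fintype.card_coe]
  rw [h1]
  unfold cnt
  rw [← Finset.card_product]
  refine Finset.card_equiv (Equiv.piEquivPiSubtypeProd (fun x => x ∈ K) (fun _ => Fin N)) ?_
  intro c
  rw [Finset.mem_product, mem_cols, mem_cols]
  constructor
  · intro h
    refine ⟨Finset.mem_univ _, fun x y hxy => ?_⟩
    exact h x y ⟨hxy, x.2, y.2⟩
  · rintro ⟨-, h⟩ x y hxy
    exact h ⟨x, hxy.2.1⟩ ⟨y, hxy.2.2⟩ hxy.1

open scoped Classical in
private theorem cg_P_dl {V : Type} [Fintype V] (q : ℝ) (G : SimpleGraph V) (K : Finset V) :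
    P q (dl G K) = q ^ K.card * P q (G.comap (Subtype.val : {x // x ∉ K} → V)) := by
  have h : cp (dl G K) = X ^ K.card * cp (G.comap (Subtype.val : {x // x ∉ K} → V)) := by
    apply poly_ext
    intro N
    rw [eval_mul, eval_pow, eval_X, cp_eval, cp_eval, cg_cnt]
    push_cast
    rfl
  unfold P
  rw [h, eval_mul, eval_pow, eval_X]

/-- the falling factorial as a polynomial, `t ≤ 3` -/
private def cgF (t : ℕ) : ℝ[X] :=
  if t = 0 then 1 else if t = 1 then X else if t = 2 then X * (X - 1) else X * (X - 1) * (X - 2)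

private theorem cgF_eval (q : ℝ) (t : ℕ) : (cgF t).eval q = fall q t := by
  unfold cgF fall
  split_ifs <;> simp

private theorem cgF_nat (N t : ℕ) (ht : t ≤ 3) :
    (cgF t).eval (N : ℝ) = ((N.descFactorial t : ℕ) : ℝ) := by
  rw [cgF_eval]
  unfold fall
  have h2 : ((N.descFactorial 2 : ℕ) : ℝ) = (N : ℝ) * ((N : ℝ) - 1) := Nat.cast_descFactorial_two ℝ N
  have h : t = 0 ∨ t = 1 ∨ t = 2 ∨ t = 3 := by omega
  rcases h with h | h | h | h
  · subst h
    simp
  · subst h
    simp
  · subst h
    rw [if_neg (by norm_num), if_neg (by norm_num), if_pos rfl, h2]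
  · subst h
    rw [if_neg (by norm_num), if_neg (by norm_num), if_neg (by norm_num),
      Nat.descFactorial_succ N 2, Nat.cast_mul, h2]
    rcases Nat.lt_or_ge N 2 with hN | hN
    · have h3 : N = 0 ∨ N = 1 := by omega
      rcases h3 with h3 | h3
      · subst h3
        simp
      · subst h3
        simp
    · rw [Nat.cast_sub hN]
      push_cast
      ring

open scoped Classical in
private theorem cg_top {W : Type} [Fintype W] (G : SimpleGraph W) (hG : ∀ x y, G.Adj x y ↔ x ≠ y)
    (N : ℕ) : cnt G N = N.descFactorial (Fintype.card W) := by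
  have h1 : cnt G N = Fintype.card (W ↪ Fin N) := by
    unfold cnt
    rw [← Finset.card_univ]
    symm
    refine Finset.card_bij (fun (e : W ↪ Fin N) _ => (e : W → Fin N)) ?_ ?_ ?_
    · intro e _
      rw [mem_cols]
      intro x y hxy h
      exact (hG x y).1 hxy (e.injective h)
    · intro e _ e' _ h
      exact DFunLike.coe_injective h
    · intro c hc
      rw [mem_cols] at hc
      refine ⟨⟨c, ?_⟩, Finset.mem_univ _, rfl⟩
      intro x y hxy
      by_contra hne
      exact hc x y ((hG x y).2 hne) hxy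
  rw [h1, Fintype.card_embedding_eq, Fintype.card_fin]

open scoped Classical in
private theorem cg_cqW {V : Type} [Fintype V] (q : ℝ) (K T : Finset V) (hT : T.card ≤ 3)
    (hTK : Disjoint K T) : P q (cqW K T) = q ^ K.card * fall q T.card := by
  set K' : Finset {x // x ∈ K ∪ T} := Finset.univ.filter (fun x => (x : V) ∈ K) with hK'
  have hmem : ∀ x, x ∈ K' ↔ (x : V) ∈ K := by
    intro x
    rw [hK', Finset.mem_filter]
    exact ⟨fun h => h.2, fun h => ⟨Finset.mem_univ _, h⟩⟩
  have hdl : dl (cqW K T) K' = cqW K T := by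
    ext x y
    rw [Pool.Agent.U5.dl_adj]
    constructor
    · exact fun h => h.1
    · intro h
      refine ⟨h, ?_, ?_⟩
      · rw [hmem]
        exact fun h1 => Finset.disjoint_left.1 hTK h1 h.2.1
      · rw [hmem]
        exact fun h1 => Finset.disjoint_left.1 hTK h1 h.2.2
  have hc : K'.card = K.card := by
    refine Finset.card_bij (fun x _ => (x : V)) ?_ ?_ ?_
    · intro x hx
      exact (hmem x).1 hx
    · intro x _ y _ h
      exact Subtype.ext h
    · intro v hv
      exact ⟨⟨v, Finset.mem_union_left _ hv⟩, (hmem _).2 hv, rfl⟩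
  have hcT : Fintype.card {x : {x // x ∈ K ∪ T} // x ∉ K'} = T.card := by
    rw [← Fintype.card_coe T]
    refine Fintype.card_congr ?_
    exact
      { toFun := fun x => ⟨(x.1 : V), (Finset.mem_union.1 x.1.2).resolve_left
          (fun h => x.2 ((hmem _).2 h))⟩
        invFun := fun x => ⟨⟨(x : V), Finset.mem_union_right _ x.2⟩, fun h =>
          Finset.disjoint_left.1 hTK ((hmem _).1 h) x.2⟩
        left_inv := fun x => rfl
        right_inv := fun x => rfl }
  have h1 := cg_P_dl q (cqW K T) K'
  rw [hdl, hc] at h1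
  rw [h1]
  congr 1
  have h2 : cp ((cqW K T).comap (Subtype.val : {x // x ∉ K'} → {x // x ∈ K ∪ T})) =
      cgF T.card := by
    apply poly_ext
    intro N
    rw [cp_eval, cg_top, hcT, cgF_nat N _ hT]
    intro x y
    rw [SimpleGraph.comap_adj]
    constructor
    · intro h h'
      exact h.1 (by rw [h'])
    · intro h
      have hx : ((x : {x // x ∈ K ∪ T}) : V) ∈ T := (Finset.mem_union.1 x.1.2).resolve_left
        (fun h => x.2 ((hmem _).2 h))
      have hy : ((y : {x // x ∈ K ∪ T}) : V) ∈ T := (Finset.mem_union.1 y.1.2).resolve_left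
        (fun h => y.2 ((hmem _).2 h))
      exact ⟨fun h' => h (Subtype.ext h'), hx, hy⟩
  have h3 : P q ((cqW K T).comap (Subtype.val : {x // x ∉ K'} → {x // x ∈ K ∪ T})) =
      fall q T.card := by
    unfold P
    rw [h2, cgF_eval]
  exact (Pool.Agent.U5.P_inst _ _ q _).trans h3

open scoped Classical in
theorem P_clique_cut {V : Type} [Fintype V] (q : ℝ) (hq : q ≠ 0) (H : SimpleGraph V)
    (K T : Finset V) (hT : T.card ≤ 3) (hTc : ∀ x ∈ T, ∀ y ∈ T, x ≠ y → H.Adj x y)
    (hTK : Disjoint K T) (hKT : ∀ s ∈ K, ∀ x, H.Adj s x → x ∈ K ∨ x ∈ T) :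
    P q H * fall q T.card = P q (H.comap (Subtype.val : {x // x ∈ K ∪ T} → V)) *
      P q (H.comap (Subtype.val : {x // x ∉ K} → V)) := by
  have h1 := P_glue q H K T hTc hTK hKT
  have h2 := cg_cqW q K T hT hTK
  have h3 := cg_P_dl q H K
  have h4 : P q (inW H K T) = P q (H.comap (Subtype.val : {x // x ∈ K ∪ T} → V)) := rfl
  rw [h3, h4] at h1
  have h5 : P q H * (q ^ K.card * fall q T.card) =
      P q (H.comap (Subtype.val : {x // x ∈ K ∪ T} → V)) *
        (q ^ K.card * P q (H.comap (Subtype.val : {x // x ∉ K} → V))) := by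
    rw [← h1, h2]
  have h6 : q ^ K.card ≠ 0 := pow_ne_zero _ hq
  apply mul_left_cancel₀ h6
  linear_combination h5

end Pool.Agent.SB
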