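import Pool.Agent.SB.CDef
import Pool.Agent.Helper1.PG.Remove

/-!
# Plane representation of a graph with a window

JOB SB-CHoleA.  Prove the theorem of this file (remove the `sorry`, keep the statement).

Plan.  Copy `Hex.exists_rep` of `Helper1/PG/HexMain.lean`: `hPl.exists_spanning`,
`IsPl.exists_simple G.Adj` (connected: `CF` with `T = ∅`), `hadj`, `hlk`, choose the edges `eK p` for
`p ∈ E` (`G.Adj (f p.1) (f p.2)` by `hw.nh` at the inner end `p.2`; for `p ∉ E` any edge, there is one)
and `gR i` for `i < k` (`hw.ring`), and the faces: for `t ∈ T` the three vertices `f t.1`, `f t.2.1`,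
`f t.2.2` are pairwise different (`hT.t`, `hw.inj`) and adjacent (`hT.t`: every pair is an edge of `E`
in some order or a ring edge), `IsPl.tri_face` with the connectedness from `CF` for the clique
`{x, y, z}` as in `htri` of `Hex.exists_rep`, and a further vertex because `4 ≤ card V`.
(`eIn`, `eRg` are defined in `CDef.lean`.)
-/

set_option autoImplicit false

noncomputable section

namespace Pool.Agent.SB

open Pool.Agent.Helper1.PG
open Pool.Agent.Helper36.BL (cp cnt cols cp_eval mem_cols IsMinor)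

/-- a simple plane representation of a graph with a window, with chosen edges and faces -/
structure WRep {V F E' : Type} [Fintype V] [Fintype F] [Fintype E'] (k : ℕ) (E : List (ℕ × ℕ))
    (T : List (ℕ × ℕ × ℕ)) (G : SimpleGraph V) (f : ℕ → V) (a : E' → V × V) (b : E' → F × F)
    (eK : ℕ × ℕ → E') (gR : ℕ → E') (fK : ℕ × ℕ × ℕ → F) : Prop where
  pl : IsPl a b
  simp : Simp a
  adj : ∀ e, G.Adj (a e).1 (a e).2
  lk : ∀ u v, G.Adj u v → Lk a u v
  ek : ∀ p ∈ E, Jn a (f p.1) (f p.2) (eK p)
  gr : ∀ i, i < k → Jn a (f i) (f ((i + 1) % k)) (gR i)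
  tf : ∀ t ∈ T, TF a b (fK t) (f t.1) (f t.2.1) (f t.2.2)

theorem exists_wrep {V : Type} [Fintype V] {k n : ℕ} {E : List (ℕ × ℕ)} {T : List (ℕ × ℕ × ℕ)}
    (hT : TblOK k n E T) {G : SimpleGraph V} {f : ℕ → V} (hw : Wdw k n E G f) (hPl : Pl G)
    (hcf : CF G) (h4 : 4 ≤ Fintype.card V) :
    ∃ (F E' : Type) (_ : Fintype F) (_ : Fintype E') (a : E' → V × V) (b : E' → F × F)
      (eK : ℕ × ℕ → E') (gR : ℕ → E') (fK : ℕ × ℕ × ℕ → F), WRep k E T G f a b eK gR fK := by
  classical
  have : Nonempty V := ⟨f 0⟩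
  have hG : ∀ p r, Relation.ReflTransGen G.Adj p r := by
    intro p r
    have h0 := hcf ∅ (by simp) (by simp) p r (Finset.notMem_empty p) (Finset.notMem_empty r)
    induction h0 with
    | refl => exact Relation.ReflTransGen.refl
    | tail _ h2 ih => exact ih.tail h2.1
  obtain ⟨F0, E0, i1, i2, a0, b0, hp0, hl0⟩ := hPl.exists_spanning
  obtain ⟨F, E', i3, i4, a, b, hp, hs, hl, hQ⟩ := IsPl.exists_simple G.Adj (fun u v => by
      have := hG u v
      induction this with
      | refl => exact Relation.ReflTransGen.refl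
      | tail _ h2 ih => exact ih.tail (Or.inl h2))
    (Fintype.card E0) F0 E0 a0 b0 rfl hp0 (fun u v huv _ => hl0 u v huv)
  have hadj : ∀ e, G.Adj (a e).1 (a e).2 := by
    intro e
    rcases hQ e with h1 | h1
    · exact h1
    · exact h1.symm
  have hlk : ∀ u v, G.Adj u v → ∃ e, Jn a u v e := by
    intro u v huv
    obtain ⟨e, he⟩ := hl u v huv huv.ne
    exact ⟨e, he⟩
  -- adjacencies
  have hE : ∀ i j, (i, j) ∈ E → G.Adj (f i) (f j) := by
    intro i j hij
    obtain ⟨h1, h2, h3⟩ := hT.e (i, j) hij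
    have h1' : i < j := h1
    have h2' : k ≤ j := h2
    have h3' : j < n := h3
    exact ((hw.nh j h2' h3' (f i)).2 ⟨i, by omega, Or.inr hij, rfl⟩).symm
  have hin : ∀ i j, eIn E i j → G.Adj (f i) (f j) := by
    intro i j hij
    rcases hij with h | h
    · exact hE i j h
    · exact (hE j i h).symm
  have hrg : ∀ i j, eRg k i j → G.Adj (f i) (f j) := by
    intro i j hij
    rcases hij with ⟨h1, rfl⟩ | ⟨h1, rfl⟩
    · exact hw.ring i h1
    · exact (hw.ring j h1).symm
  have hir : ∀ i j, (eIn E i j ∨ eRg k i j) → G.Adj (f i) (f j) :=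
    fun i j h => h.elim (hin i j) (hrg i j)
  have hk0 : 0 < k := by
    have := hT.k3
    omega
  obtain ⟨e0, he0⟩ := hlk _ _ (hw.ring 0 hk0)
  -- triangles
  have htri : ∀ x y z, G.Adj x y → G.Adj y z → G.Adj x z → ∃ f, TF a b f x y z := by
    intro x y z hy hyz hz
    obtain ⟨e1, he1⟩ := hlk _ _ hy
    obtain ⟨e2, he2⟩ := hlk _ _ hyz
    obtain ⟨e3, he3⟩ := hlk _ _ hz
    refine hp.tri_face hs hy.ne hyz.ne hz.ne he1 he2 he3 ?_ ?_
    · intro p r hp' hr
      have h3 := hcf {x, y, z} Finset.card_le_three (by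
        intro u hu v hv huv
        simp only [Finset.mem_insert, Finset.mem_singleton] at hu hv
        rcases hu with rfl | rfl | rfl <;> rcases hv with rfl | rfl | rfl
        · exact absurd rfl huv
        · exact hy
        · exact hz
        · exact hy.symm
        · exact absurd rfl huv
        · exact hyz
        · exact hz.symm
        · exact hyz.symm
        · exact absurd rfl huv) p r (by simp [hp'.1, hp'.2.1, hp'.2.2])
        (by simp [hr.1, hr.2.1, hr.2.2])
      clear hp' hr
      induction h3 with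
      | refl => exact Relation.ReflTransGen.refl
      | @tail s t _ h4 ih =>
        obtain ⟨e, he⟩ := hlk s t h4.1
        refine ih.tail ⟨e, ?_, he⟩
        have hs1 : s ≠ x ∧ s ≠ y ∧ s ≠ z := by
          have := h4.2.1
          simpa only [Finset.mem_insert, Finset.mem_singleton, not_or] using this
        have ht1 : t ≠ x ∧ t ≠ y ∧ t ≠ z := by
          have := h4.2.2
          simpa only [Finset.mem_insert, Finset.mem_singleton, not_or] using this
        have key : ∀ v, s ≠ v → t ≠ v → ¬ Inc a v e := by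
          intro v hv1 hv2 hv
          rcases he with ⟨h5, h6⟩ | ⟨h5, h6⟩ <;> rcases hv with h7 | h7
          · exact hv1 (h5.symm.trans h7)
          · exact hv2 (h6.symm.trans h7)
          · exact hv2 (h5.symm.trans h7)
          · exact hv1 (h6.symm.trans h7)
        exact ⟨key _ hs1.1 ht1.1, key _ hs1.2.1 ht1.2.1, key _ hs1.2.2 ht1.2.2⟩
    · by_contra hno
      push Not at hno
      have h4' : (Finset.univ : Finset V) ⊆ ({x, y, z} : Finset V) := by
        intro v _
        by_cases h5 : v = x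
        · simp [h5]
        · by_cases h6 : v = y
          · simp [h6]
          · simp [hno v h5 h6]
      have h5 := Finset.card_le_card h4'
      rw [Finset.card_univ] at h5
      have h6 := Finset.card_le_three (a := x) (b := y) (c := z)
      omega
  have c1 : ∀ p : ℕ × ℕ, ∃ e, p ∈ E → Jn a (f p.1) (f p.2) e := by
    intro p
    by_cases hpE : p ∈ E
    · obtain ⟨e, he⟩ := hlk _ _ (hE p.1 p.2 hpE)
      exact ⟨e, fun _ => he⟩
    · exact ⟨e0, fun h => absurd h hpE⟩
  have c2 : ∀ i : ℕ, ∃ e, i < k → Jn a (f i) (f ((i + 1) % k)) e := by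
    intro i
    by_cases hi : i < k
    · obtain ⟨e, he⟩ := hlk _ _ (hw.ring i hi)
      exact ⟨e, fun _ => he⟩
    · exact ⟨e0, fun h => absurd h hi⟩
  have c3 : ∀ t : ℕ × ℕ × ℕ, ∃ g, t ∈ T → TF a b g (f t.1) (f t.2.1) (f t.2.2) := by
    intro t
    by_cases ht : t ∈ T
    · obtain ⟨-, -, -, -, -, -, -, h1, h2, h3⟩ := hT.t t ht
      obtain ⟨g, hg⟩ := htri _ _ _ (hir _ _ h1) (hir _ _ h2) (hir _ _ h3)
      exact ⟨g, fun _ => hg⟩
    · exact ⟨(b e0).1, fun h => absurd h ht⟩
  choose eK heK using c1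
  choose gR hgR using c2
  choose fK hfK using c3
  exact ⟨F, E', i3, i4, a, b, eK, gR, fK, hp, hs, hadj, hlk, heK, hgR, hfK⟩

end Pool.Agent.SB
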