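import Pool.Agent.SB.CHoleA

/-!
# Edges and faces at a window

These are the lemmas of the namespace `Rep` in `Helper1/PG/Hex.lean`, for a table instead of
the hexagonal window.
* `eK_inj`: if `eK p = eK p'` the end sets `{f p.1, f p.2}` agree (`Jn.unique`, `Jn.eq_right`), `hw.inj`
  (all slots `< n`) and `p.1 < p.2`, `p'.1 < p'.2` give `p = p'`.
* `jn_eK`: an edge joining `f i` and `f j`, `(i, j) ∈ E`, is `eK (i, j)` (`Jn.unique R.simp`).
* `EK_iff`: an edge with an end `f i`, `k ≤ i < n`, has the other end `f j` with `(i, j) ∈ E` or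
  `(j, i) ∈ E` (`hw.nh`, `R.adj`).  Conversely `p.2` is inner.
* `inc_iff`: `→`: `R.tf t ht |>.all` gives that `eK p` joins two of the three vertices of `t`, so
  `{p.1, p.2}` are two slots of `t` (`hw.inj`); `←`: the two slots `p.1 ≠ p.2` are two of the three
  slots of `t`, use `xy`, `yz` or `xz` of `TF` and `inc_of_st`.
* `fK_inj`: if `fK s = fK t`: an inner slot of `s` has two edges of `E` in `s` (`hT.t`: pairs with an
  inner slot are in `eIn`, not `eRg`, because ring pairs have both slots `< k`); by `inc_iff` these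
  edges are in `t`, so all slots of `s` are in `t`: `hT.tE`.
* `FK_iff`: `hT.two` and `fK_inj`: the two faces at an edge `eK p` are the `fK` of the two triangles.
  Conversely `t` has an inner slot (`hT.t`), hence an edge of `E`.
* `card_F`, `card_E`, `card_K`: bijections with `{t // t ∈ T}`, `{p // p ∈ E}` (cardinality of the
  subtype of the members of a list without repetitions: `List.toFinset_card_of_nodup`), and
  `{i // k ≤ i ∧ i < n}`.
* `gR_not`, `incR`, `st_gR`, `exists_sd`, `conn_rest`: as in `Hex.lean` (`conn_rest`: a vertex outside of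
  the window which is adjacent to an inner vertex is a ring vertex; the ring is connected).
-/

set_option autoImplicit false

noncomputable section

namespace Pool.Agent.SB

open Pool.Agent.Helper1.PG
open Pool.Agent.Helper36.BL (cp cnt cols cp_eval mem_cols IsMinor)

/-- the two end pairs of an edge agree -/
private theorem jn_two {V E' : Type} {a : E' → V × V} {u v u' v' : V} {e : E'}
    (h : Jn a u v e) (h' : Jn a u' v' e) : (u = u' ∧ v = v') ∨ (u = v' ∧ v = u') := by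
  rcases h with ⟨h1, h2⟩ | ⟨h1, h2⟩ <;> rcases h' with ⟨h3, h4⟩ | ⟨h3, h4⟩
  · exact Or.inl ⟨h1.symm.trans h3, h2.symm.trans h4⟩
  · exact Or.inr ⟨h1.symm.trans h3, h2.symm.trans h4⟩
  · exact Or.inr ⟨h2.symm.trans h4, h1.symm.trans h3⟩
  · exact Or.inl ⟨h2.symm.trans h4, h1.symm.trans h3⟩

private theorem ek_of_jn' {V E' : Type} {a : E' → V × V} {K : V → Prop} {x y : V} {e : E'}
    (hj : Jn a x y e) (hx : K x) : EK a K e := by
  rcases hj with ⟨h1, h2⟩ | ⟨h1, h2⟩
  · left; rw [h1]; exact hx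
  · right; rw [h2]; exact hx

private theorem not_ek_of_jn' {V E' : Type} {a : E' → V × V} {K : V → Prop} {x y : V} {e : E'}
    (hj : Jn a x y e) (hx : ¬ K x) (hy : ¬ K y) : ¬ EK a K e := by
  rcases hj with ⟨h1, h2⟩ | ⟨h1, h2⟩
  · rintro (h3 | h3)
    · rw [h1] at h3; exact hx h3
    · rw [h2] at h3; exact hy h3
  · rintro (h3 | h3)
    · rw [h1] at h3; exact hy h3
    · rw [h2] at h3; exact hx h3

private theorem eRg_lt {k i j : ℕ} (hk : 3 ≤ k) (h : eRg k i j) : i < k ∧ j < k := by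
  rcases h with ⟨h1, h2⟩ | ⟨h1, h2⟩
  · exact ⟨h1, h2 ▸ Nat.mod_lt _ (by omega)⟩
  · exact ⟨h2 ▸ Nat.mod_lt _ (by omega), h1⟩

private theorem eIn_of_inner {k : ℕ} {E : List (ℕ × ℕ)} {i j : ℕ} (hk : 3 ≤ k)
    (h : eIn E i j ∨ eRg k i j) (hi : k ≤ i ∨ k ≤ j) : eIn E i j := by
  rcases h with h | h
  · exact h
  · have := eRg_lt hk h
    omega

theorem ring_not_WK {V : Type} {k n : ℕ} {E : List (ℕ × ℕ)} {G : SimpleGraph V} {f : ℕ → V}
    (hw : Wdw k n E G f) (hkn : k < n) {i : ℕ} (hi : i < k) : ¬ WK k n f (f i) := by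
  rintro ⟨j, h1, h2, h3⟩
  have := hw.inj i j (by omega) h2 h3
  omega

theorem card_WK {V : Type} {k n : ℕ} {E : List (ℕ × ℕ)} {G : SimpleGraph V} {f : ℕ → V}
    (hw : Wdw k n E G f) : Nat.card {v : V // WK k n f v} = n - k := by
  have e : {i : ℕ // i ∈ Finset.Ico k n} ≃ {v : V // WK k n f v} :=
    Equiv.ofBijective (fun i => ⟨f i.1, i.1, (Finset.mem_Ico.1 i.2).1, (Finset.mem_Ico.1 i.2).2, rfl⟩)
      (by
      constructor
      · intro s t hst
        exact Subtype.ext (hw.inj s.1 t.1 (Finset.mem_Ico.1 s.2).2 (Finset.mem_Ico.1 t.2).2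
          (congrArg Subtype.val hst))
      · rintro ⟨v, i, h1, h2, h3⟩
        exact ⟨⟨i, Finset.mem_Ico.2 ⟨h1, h2⟩⟩, Subtype.ext h3.symm⟩)
  rw [← Nat.card_congr e, Nat.card_eq_fintype_card, Fintype.card_coe, Nat.card_Ico]

namespace WRep

variable {V F E' : Type} [Fintype V] [Fintype F] [Fintype E'] {k n : ℕ} {E : List (ℕ × ℕ)}
  {T : List (ℕ × ℕ × ℕ)} {G : SimpleGraph V} {f : ℕ → V} {a : E' → V × V} {b : E' → F × F}
  {eK : ℕ × ℕ → E'} {gR : ℕ → E'} {fK : ℕ × ℕ × ℕ → F}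

theorem eK_inj (R : WRep k E T G f a b eK gR fK) (hT : TblOK k n E T) (hw : Wdw k n E G f)
    {p p' : ℕ × ℕ} (hp : p ∈ E) (hp' : p' ∈ E) (h : eK p = eK p') : p = p' := by
  have h1 := hT.e p hp
  have h2 := hT.e p' hp'
  have h3 := R.ek p hp
  rw [h] at h3
  rcases jn_two h3 (R.ek p' hp') with ⟨h4, h5⟩ | ⟨h4, h5⟩
  · have h6 := hw.inj _ _ (by omega) (by omega) h4
    have h7 := hw.inj _ _ (by omega) (by omega) h5
    exact Prod.ext h6 h7
  · have h6 := hw.inj _ _ (by omega) (by omega) h4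
    have h7 := hw.inj _ _ (by omega) (by omega) h5
    omega

/-- an edge joining the ends of an edge of the list -/
private theorem jn_eK (R : WRep k E T G f a b eK gR fK) {i j : ℕ} {e : E'}
    (h : eIn E i j) (hj : Jn a (f i) (f j) e) : ∃ p ∈ E, e = eK p := by
  rcases h with h | h
  · exact ⟨(i, j), h, hj.unique R.simp (R.ek (i, j) h)⟩
  · exact ⟨(j, i), h, hj.symm.unique R.simp (R.ek (j, i) h)⟩

theorem EK_iff (R : WRep k E T G f a b eK gR fK) (hT : TblOK k n E T) (hw : Wdw k n E G f)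
    (e : E') : EK a (WK k n f) e ↔ ∃ p ∈ E, e = eK p := by
  constructor
  · intro he
    have key : ∀ x y, Jn a x y e → WK k n f x → ∃ p ∈ E, e = eK p := by
      rintro x y hj ⟨i, h1, h2, rfl⟩
      have hxy : G.Adj (f i) y := by
        have := R.adj e
        rcases hj with ⟨h1, h2⟩ | ⟨h1, h2⟩
        · rw [h1, h2] at this; exact this
        · rw [h1, h2] at this; exact this.symm
      obtain ⟨j, -, h4, rfl⟩ := (hw.nh i h1 h2 y).1 hxy
      exact jn_eK R h4 hj
    rcases he with he | he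
    · exact key _ _ (Or.inl ⟨rfl, rfl⟩) he
    · exact key _ _ (Or.inr ⟨rfl, rfl⟩) he
  · rintro ⟨p, hp, rfl⟩
    have h1 := hT.e p hp
    exact ek_of_jn' (R.ek p hp).symm ⟨p.2, h1.2.1, h1.2.2, rfl⟩

/-- an edge between two slots of a triangle is on its face -/
private theorem st_of_tIn (R : WRep k E T G f a b eK gR fK) {t : ℕ × ℕ × ℕ} (ht : t ∈ T)
    {i j : ℕ} (hij : i ≠ j) (hi : tIn t i) (hj : tIn t j) {e : E'} (he : Jn a (f i) (f j) e) :
    st b (fK t) e ≠ 0 := by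
  have hf := R.tf t ht
  rcases hi with rfl | rfl | rfl <;> rcases hj with rfl | rfl | rfl
  · exact absurd rfl hij
  · exact hf.xy _ he
  · exact hf.xz _ he
  · exact hf.xy _ he.symm
  · exact absurd rfl hij
  · exact hf.yz _ he
  · exact hf.xz _ he.symm
  · exact hf.yz _ he.symm
  · exact absurd rfl hij

/-- the slots of an edge on the face of a triangle -/
private theorem pair_of_inc (R : WRep k E T G f a b eK gR fK) (hT : TblOK k n E T)
    {t : ℕ × ℕ × ℕ} (ht : t ∈ T) {e : E'} (h : Inc b (fK t) e) :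
    ∃ i j, tIn t i ∧ tIn t j ∧ i < n ∧ j < n ∧ (eIn E i j ∨ eRg k i j) ∧ Jn a (f i) (f j) e := by
  obtain ⟨t1, t2, t3, -, -, -, -, h12, h23, h13⟩ := hT.t t ht
  rcases (R.tf t ht).all e h with h1 | h1 | h1
  · exact ⟨_, _, Or.inl rfl, Or.inr (Or.inl rfl), t1, t2, h12, h1⟩
  · exact ⟨_, _, Or.inr (Or.inl rfl), Or.inr (Or.inr rfl), t2, t3, h23, h1⟩
  · exact ⟨_, _, Or.inl rfl, Or.inr (Or.inr rfl), t1, t3, h13, h1⟩

theorem inc_iff (R : WRep k E T G f a b eK gR fK) (hT : TblOK k n E T) (hw : Wdw k n E G f)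
    {t : ℕ × ℕ × ℕ} (ht : t ∈ T) {p : ℕ × ℕ} (hp : p ∈ E) :
    Inc b (fK t) (eK p) ↔ (tIn t p.1 ∧ tIn t p.2) := by
  have h0 := hT.e p hp
  constructor
  · intro h
    obtain ⟨i, j, hi, hj, hin, hjn, -, he⟩ := pair_of_inc R hT ht h
    rcases jn_two (R.ek p hp) he with ⟨h4, h5⟩ | ⟨h4, h5⟩
    · have h6 := hw.inj _ _ (by omega) hin h4
      have h7 := hw.inj _ _ (by omega) hjn h5
      rw [h6, h7]
      exact ⟨hi, hj⟩
    · have h6 := hw.inj _ _ (by omega) hjn h4
      have h7 := hw.inj _ _ (by omega) hin h5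
      rw [h6, h7]
      exact ⟨hj, hi⟩
  · rintro ⟨h1, h2⟩
    exact inc_of_st (st_of_tIn R ht h0.1.ne h1 h2 (R.ek p hp))

/-- slots joined by an edge on a common face -/
private theorem tIn_of_eq (R : WRep k E T G f a b eK gR fK) (hT : TblOK k n E T)
    (hw : Wdw k n E G f) {s t : ℕ × ℕ × ℕ} (hs : s ∈ T) (ht : t ∈ T) (h : fK s = fK t) {i j : ℕ}
    (hi : tIn t i) (hj : tIn t j) (he : eIn E i j) : tIn s i ∧ tIn s j := by
  rcases he with he | he
  · have h1 := (inc_iff R hT hw ht he).2 ⟨hi, hj⟩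
    rw [← h] at h1
    exact (inc_iff R hT hw hs he).1 h1
  · have h1 := (inc_iff R hT hw ht he).2 ⟨hj, hi⟩
    rw [← h] at h1
    exact ((inc_iff R hT hw hs he).1 h1).symm

theorem fK_inj (R : WRep k E T G f a b eK gR fK) (hT : TblOK k n E T) (hw : Wdw k n E G f)
    {s t : ℕ × ℕ × ℕ} (hs : s ∈ T) (ht : t ∈ T) (h : fK s = fK t) : s = t := by
  apply hT.tE s hs t ht
  obtain ⟨-, -, -, -, -, -, hin, h12, h23, h13⟩ := hT.t t ht
  have i1 : tIn t t.1 := Or.inl rfl
  have i2 : tIn t t.2.1 := Or.inr (Or.inl rfl)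
  have i3 : tIn t t.2.2 := Or.inr (Or.inr rfl)
  rcases hin with h1 | h1 | h1
  · have a1 := tIn_of_eq R hT hw hs ht h i1 i2 (eIn_of_inner hT.k3 h12 (Or.inl h1))
    have a2 := tIn_of_eq R hT hw hs ht h i1 i3 (eIn_of_inner hT.k3 h13 (Or.inl h1))
    exact ⟨a1.1, a1.2, a2.2⟩
  · have a1 := tIn_of_eq R hT hw hs ht h i1 i2 (eIn_of_inner hT.k3 h12 (Or.inr h1))
    have a2 := tIn_of_eq R hT hw hs ht h i2 i3 (eIn_of_inner hT.k3 h23 (Or.inl h1))
    exact ⟨a1.1, a1.2, a2.2⟩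
  · have a1 := tIn_of_eq R hT hw hs ht h i1 i3 (eIn_of_inner hT.k3 h13 (Or.inr h1))
    have a2 := tIn_of_eq R hT hw hs ht h i2 i3 (eIn_of_inner hT.k3 h23 (Or.inr h1))
    exact ⟨a1.1, a2.1, a1.2⟩

/-- every triangle has an edge of the list -/
private theorem exists_edge (hT : TblOK k n E T) {t : ℕ × ℕ × ℕ} (ht : t ∈ T) :
    ∃ p ∈ E, tIn t p.1 ∧ tIn t p.2 := by
  obtain ⟨-, -, -, -, -, -, hin, h12, h23, h13⟩ := hT.t t ht
  have i1 : tIn t t.1 := Or.inl rfl
  have i2 : tIn t t.2.1 := Or.inr (Or.inl rfl)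
  have i3 : tIn t t.2.2 := Or.inr (Or.inr rfl)
  have key : ∀ i j, tIn t i → tIn t j → eIn E i j → ∃ p ∈ E, tIn t p.1 ∧ tIn t p.2 := by
    rintro i j hi hj (h | h)
    · exact ⟨_, h, hi, hj⟩
    · exact ⟨_, h, hj, hi⟩
  rcases hin with h1 | h1 | h1
  · exact key _ _ i1 i2 (eIn_of_inner hT.k3 h12 (Or.inl h1))
  · exact key _ _ i1 i2 (eIn_of_inner hT.k3 h12 (Or.inr h1))
  · exact key _ _ i1 i3 (eIn_of_inner hT.k3 h13 (Or.inr h1))

theorem FK_iff (R : WRep k E T G f a b eK gR fK) (hT : TblOK k n E T) (hw : Wdw k n E G f)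
    (g : F) : FK a b (WK k n f) g ↔ ∃ t ∈ T, g = fK t := by
  constructor
  · rintro ⟨e, he, hf⟩
    obtain ⟨p, hp, rfl⟩ := (EK_iff R hT hw e).1 he
    obtain ⟨s, hs, t, ht, hst, s1, s2, t1, t2⟩ := hT.two p hp
    have h1 := (inc_iff R hT hw hs hp).2 ⟨s1, s2⟩
    have h2 := (inc_iff R hT hw ht hp).2 ⟨t1, t2⟩
    have h3 : fK s ≠ fK t := fun h => hst (fK_inj R hT hw hs ht h)
    rcases hf with hf | hf <;> rcases h1 with h1 | h1 <;> rcases h2 with h2 | h2
    · exact ⟨s, hs, hf.symm.trans h1⟩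
    · exact ⟨s, hs, hf.symm.trans h1⟩
    · exact ⟨t, ht, hf.symm.trans h2⟩
    · exact absurd (h1.symm.trans h2) h3
    · exact absurd (h1.symm.trans h2) h3
    · exact ⟨t, ht, hf.symm.trans h2⟩
    · exact ⟨s, hs, hf.symm.trans h1⟩
    · exact ⟨s, hs, hf.symm.trans h1⟩
  · rintro ⟨t, ht, rfl⟩
    obtain ⟨p, hp, h1, h2⟩ := exists_edge hT ht
    exact ⟨eK p, (EK_iff R hT hw _).2 ⟨p, hp, rfl⟩, (inc_iff R hT hw ht hp).2 ⟨h1, h2⟩⟩

theorem card_F (R : WRep k E T G f a b eK gR fK) (hT : TblOK k n E T) (hw : Wdw k n E G f) :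
    Nat.card {g : F // FK a b (WK k n f) g} = T.length := by
  have e : {t : ℕ × ℕ × ℕ // t ∈ T.toFinset} ≃ {g : F // FK a b (WK k n f) g} :=
    Equiv.ofBijective (fun t => ⟨fK t.1, (FK_iff R hT hw _).2 ⟨t.1, List.mem_toFinset.1 t.2, rfl⟩⟩)
      (by
      constructor
      · intro s t hst
        exact Subtype.ext (fK_inj R hT hw (List.mem_toFinset.1 s.2) (List.mem_toFinset.1 t.2)
          (congrArg Subtype.val hst))
      · rintro ⟨g, hg⟩
        obtain ⟨t, ht, rfl⟩ := (FK_iff R hT hw g).1 hg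
        exact ⟨⟨t, List.mem_toFinset.2 ht⟩, rfl⟩)
  rw [← Nat.card_congr e, Nat.card_eq_fintype_card, Fintype.card_coe,
    List.toFinset_card_of_nodup hT.tN]

theorem card_E (R : WRep k E T G f a b eK gR fK) (hT : TblOK k n E T) (hw : Wdw k n E G f) :
    Nat.card {e : E' // EK a (WK k n f) e} = E.length := by
  have e : {p : ℕ × ℕ // p ∈ E.toFinset} ≃ {e : E' // EK a (WK k n f) e} :=
    Equiv.ofBijective (fun p => ⟨eK p.1, (EK_iff R hT hw _).2 ⟨p.1, List.mem_toFinset.1 p.2, rfl⟩⟩)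
      (by
      constructor
      · intro s t hst
        exact Subtype.ext (eK_inj R hT hw (List.mem_toFinset.1 s.2) (List.mem_toFinset.1 t.2)
          (congrArg Subtype.val hst))
      · rintro ⟨g, hg⟩
        obtain ⟨t, ht, rfl⟩ := (EK_iff R hT hw g).1 hg
        exact ⟨⟨t, List.mem_toFinset.2 ht⟩, rfl⟩)
  rw [← Nat.card_congr e, Nat.card_eq_fintype_card, Fintype.card_coe,
    List.toFinset_card_of_nodup hT.eN]

theorem gR_not (R : WRep k E T G f a b eK gR fK) (hT : TblOK k n E T) (hw : Wdw k n E G f)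
    {i : ℕ} (hi : i < k) : ¬ EK a (WK k n f) (gR i) := by
  have hk := hT.k3
  exact not_ek_of_jn' (R.gr i hi) (ring_not_WK hw hT.kn hi)
    (ring_not_WK hw hT.kn (Nat.mod_lt _ (by omega)))

/-- an edge outside of the window on a face of the window is a ring edge -/
theorem incR (R : WRep k E T G f a b eK gR fK) (hT : TblOK k n E T) (hw : Wdw k n E G f)
    {t : ℕ × ℕ × ℕ} (ht : t ∈ T) {e : E'} (h1 : Inc b (fK t) e) (h2 : ¬ EK a (WK k n f) e) :
    ∃ i, i < k ∧ e = gR i ∧ tIn t i ∧ tIn t ((i + 1) % k) := by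
  obtain ⟨i, j, hi, hj, -, -, hij, he⟩ := pair_of_inc R hT ht h1
  rcases hij with hij | ⟨h3, h4⟩ | ⟨h3, h4⟩
  · exact absurd ((EK_iff R hT hw e).2 (jn_eK R hij he)) h2
  · refine ⟨i, h3, ?_, hi, h4 ▸ hj⟩
    rw [h4] at he
    exact he.unique R.simp (R.gr i h3)
  · refine ⟨j, h3, ?_, hj, h4 ▸ hi⟩
    rw [h4] at he
    exact he.symm.unique R.simp (R.gr j h3)

theorem st_gR (R : WRep k E T G f a b eK gR fK) (hT : TblOK k n E T) (hw : Wdw k n E G f)
    {i : ℕ} (hi : i < k) {t : ℕ × ℕ × ℕ} (ht : t ∈ T) (h1 : tIn t i)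
    (h2 : tIn t ((i + 1) % k)) : st b (fK t) (gR i) ≠ 0 := by
  refine st_of_tIn R ht ?_ h1 h2 (R.gr i hi)
  have hk := hT.k3
  rcases Nat.lt_or_ge (i + 1) k with h | h
  · rw [Nat.mod_eq_of_lt h]
    omega
  · have h3 : i + 1 = k := by omega
    rw [h3, Nat.mod_self]
    omega

theorem conn_rest (R : WRep k E T G f a b eK gR fK) (hT : TblOK k n E T) (hw : Wdw k n E G f)
    (x y : V) (hx : ¬ WK k n f x) (hy : ¬ WK k n f y) :
    Relation.ReflTransGen (LkOn a (fun e => ¬ EK a (WK k n f) e)) x y := by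
  set Q := LkOn a (fun e => ¬ EK a (WK k n f) e) with hQ
  have hs : ∀ {x y}, Relation.ReflTransGen Q x y → Relation.ReflTransGen Q y x :=
    fun h => rtg_symm (fun _ _ h => h.symm) h
  have s0 : ∀ i, i < k → Q (f i) (f ((i + 1) % k)) := fun i hi => ⟨gR i, gR_not R hT hw hi, R.gr i hi⟩
  have hn : ∀ m : ℕ, m < k → Relation.ReflTransGen Q (f 0) (f m) := by
    intro m
    induction m with
    | zero => exact fun _ => Relation.ReflTransGen.refl
    | succ m ih =>
      intro hm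
      have h1 := s0 m (by omega)
      rw [Nat.mod_eq_of_lt hm] at h1
      exact (ih (by omega)).tail h1
  have hstay : ∀ {p z}, Relation.ReflTransGen Q p z → ¬ WK k n f p → ¬ WK k n f z := by
    intro p z hpz hp
    induction hpz with
    | refl => exact hp
    | tail _ h2 _ =>
      obtain ⟨e, he, he'⟩ := h2
      intro h3
      exact he (ek_of_jn' (Jn.symm he') h3)
  have key : ∀ p, ¬ WK k n f p → Relation.ReflTransGen Q (f 0) p := by
    intro p hp
    obtain ⟨u, w, ⟨e, he⟩, h1, h2⟩ := exists_step_ne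
      (p := fun z => Relation.ReflTransGen Q p z) (R.pl.conn p (f k)) Relation.ReflTransGen.refl
      (fun h3 => hstay h3 hp ⟨k, le_rfl, hT.kn, rfl⟩)
    have he : Jn a u w e := he
    have hu : ¬ WK k n f u := hstay h1 hp
    have hek : EK a (WK k n f) e := by
      by_contra h3
      exact h2 (Relation.ReflTransGen.tail h1 ⟨e, h3, he⟩)
    have hw' : WK k n f w := by
      by_contra h3
      exact not_ek_of_jn' he hu h3 hek
    have hadj : G.Adj w u := by
      have := R.adj e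
      rcases he with ⟨h3, h4⟩ | ⟨h3, h4⟩
      · rw [h3, h4] at this; exact this.symm
      · rw [h3, h4] at this; exact this
    have hur : Relation.ReflTransGen Q (f 0) u := by
      obtain ⟨i, h3, h4, rfl⟩ := hw'
      obtain ⟨j, hj, -, rfl⟩ := (hw.nh i h3 h4 u).1 hadj
      rcases Nat.lt_or_ge j k with h5 | h5
      · exact hn j h5
      · exact absurd ⟨j, h5, hj, rfl⟩ hu
    exact hur.trans (hs h1)
  exact (hs (key x hx)).trans (key y hy)

end WRep

end Pool.Agent.SB
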