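import Pool.Agent.SB.CGlue

/-!
# Lower bounds for all numbers of vertices and their products

JOB SB-CLb.  Prove all theorems of this file (remove the `sorry`s, keep the statements).

Plan.  `q = tau + 3`.
* `lb_le`: `card ≥ 3`: `Hmin`.  `card = 0`: `cnt Y N = 1` for all `N` (unique map), so `P = 1`.
  `card = 1`: `cnt Y N = N`, `P = q`.  `card = 2`: `Y` has an edge (`cnt Y N = N (N - 1)`, `P = q (q - 1)`) or
  not (`Y = ⊥`, `P_bot` of `U5/Glue.lean`, `P = q ^ 2 ≥ q (q - 1)`).
* `lb_mul`: `cc n = (tau + 3) (tau + 2) (tau + 1) tau ^ n / tau ^ 3`.  Cases `t = 0, 1, 2, 3`, and for each of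
  `a`, `b`: `1`, `2` or `≥ 3` (`a, b > t`).  Write `a = 3 + a'`, `cc (3 + a') = tau ^ a' * cc 3`,
  `cc 3 = q (q - 1) (q - 2)`, and use `tau ^ 2 = tau + 1` (`tau_sq`), `1.618 < tau < 1.6181`
  (`lt_tau`, `tau_lt`).  The inequalities are: `t = 0`: `q * q ≥ q (q - 1)`,
  `q * q (q - 1) ≥ cc 3`, `q * cc b ≥ cc (b + 1) = tau cc b`, `(q (q - 1)) ^ 2 ≥ cc 4`,
  `q (q - 1) cc b ≥ tau ^ 2 cc b`, `cc 3 ≥ tau ^ 3` (then `cc a cc b ≥ cc (a + b)`); `t = 1`:
  `(q (q - 1)) ^ 2 ≥ q cc 3`, `q (q - 1) cc b ≥ q tau cc b`, `cc 3 ≥ q tau ^ 2`; `t = 2`: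
  `cc 3 ≥ q (q - 1) tau` (equality: `q - 2 = tau ^ 2`, so `≥` holds because `tau ^ 2 ≥ tau`); `t = 3`:
  equality.
-/

set_option autoImplicit false

noncomputable section

namespace Pool.Agent.SB

open Polynomial
open Pool.Agent.Helper1.PG
open Pool.Agent.Helper36.BL (cp cnt cols cp_eval mem_cols IsMinor poly_ext)
open Pool.Agent.U5 (P)

/-- lower bound for graphs with `n` vertices -/
def lb (n : ℕ) : ℝ := if n = 0 then 1 else if n = 1 then tau + 3 else
  if n = 2 then (tau + 3) * (tau + 2) else cc n

theorem lb_pos (n : ℕ) : 0 < lb n := by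
  have ht := tau_pos
  unfold lb
  split_ifs
  · exact one_pos
  · linarith
  · positivity
  · exact cc_pos n

private theorem clb_cnt_top {V : Type} [Fintype V] (hV : Fintype.card V = 2) (N : ℕ) :
    cnt (⊤ : SimpleGraph V) N = N * (N - 1) := by
  classical
  have h1 : cnt (⊤ : SimpleGraph V) N = Fintype.card (V ↪ Fin N) := by
    rw [← Fintype.card_congr (Equiv.subtypeInjectiveEquivEmbedding V (Fin N)),
      Fintype.card_subtype]
    unfold cnt
    congr 1
    ext c
    rw [mem_cols, Finset.mem_filter]
    constructor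
    · intro h
      refine ⟨Finset.mem_univ _, fun u v huv => ?_⟩
      by_contra hne
      exact h u v hne huv
    · rintro ⟨-, h⟩ u v huv huv2
      exact huv (h huv2)
  rw [h1, Fintype.card_embedding_eq, Fintype.card_fin, hV]
  show N.descFactorial 2 = _
  rw [Nat.descFactorial_succ, Nat.descFactorial_one, mul_comm]

private theorem clb_P_top {V : Type} [Fintype V] (hV : Fintype.card V = 2) (q : ℝ) :
    P q (⊤ : SimpleGraph V) = q * (q - 1) := by
  have h : cp (⊤ : SimpleGraph V) = X * (X - 1) := by
    apply poly_ext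
    intro N
    rw [cp_eval, clb_cnt_top hV, eval_mul, eval_sub, eval_X, eval_one]
    rcases N with _ | N
    · simp
    · push_cast
      ring
  show (cp (⊤ : SimpleGraph V)).eval q = _
  rw [h, eval_mul, eval_sub, eval_X, eval_one]

private theorem clb_P_one {W : Type} [Fintype W] (Y : SimpleGraph W) (hc : Fintype.card W = 1)
    (q : ℝ) : P q Y = q := by
  have hsub : Subsingleton W := Fintype.card_le_one_iff_subsingleton.1 hc.le
  have hX : cp Y = X := by
    apply poly_ext
    intro n
    rw [cp_eval, eval_X]
    congr 1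
    have h1 : cols Y n = Finset.univ := by
      ext c
      rw [mem_cols]
      constructor
      · intro _
        exact Finset.mem_univ _
      · intro _ u v huv
        exact absurd (Subsingleton.elim u v) huv.ne
    unfold cnt
    rw [h1, Finset.card_univ, Fintype.card_fun, Fintype.card_fin, hc, pow_one]
  show (cp Y).eval q = q
  rw [hX, eval_X]

theorem lb_le {n : ℕ} (h : Hmin n) {W : Type} [Fintype W] (Y : SimpleGraph W) (hY : Pl Y)
    (hn : Fintype.card W < n) : lb (Fintype.card W) ≤ P (tau + 3) Y := by
  classical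
  have ht := tau_pos
  have h4 : Fintype.card W = 0 ∨ Fintype.card W = 1 ∨ Fintype.card W = 2 ∨
      3 ≤ Fintype.card W := by omega
  rcases h4 with h4 | h4 | h4 | h4
  · have hE : IsEmpty W := Fintype.card_eq_zero_iff.1 h4
    rw [h4]
    show lb 0 ≤ (cp Y).eval (tau + 3)
    rw [Pool.Agent.Helper36.BL.cp_of_isEmpty Y hE, eval_one]
    unfold lb
    rw [if_pos rfl]
  · rw [clb_P_one Y h4, h4]
    unfold lb
    rw [if_neg one_ne_zero, if_pos rfl]
  · have hlb : lb (Fintype.card W) = (tau + 3) * (tau + 2) := by
      rw [h4]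
      unfold lb
      rw [if_neg (by norm_num), if_neg (by norm_num), if_pos rfl]
    rw [hlb]
    by_cases hb : Y = ⊥
    · subst hb
      rw [Pool.Agent.U5.P_bot, h4]
      nlinarith
    · have htop : Y = ⊤ := by
        obtain ⟨x, y, hxy, hu⟩ := Finset.card_eq_two.1 (show (Finset.univ : Finset W).card = 2 from h4)
        have hall : ∀ z : W, z = x ∨ z = y := by
          intro z
          have hz : z ∈ (Finset.univ : Finset W) := Finset.mem_univ z
          rw [hu] at hz
          simpa using hz
        have hne : ∃ a b, Y.Adj a b := by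
          by_contra hcon
          push Not at hcon
          apply hb
          ext a b
          constructor
          · intro hab
            exact absurd hab (hcon a b)
          · intro hab
            exact absurd hab (by simp)
        obtain ⟨a, b, hab⟩ := hne
        have hxyA : Y.Adj x y := by
          rcases hall a with ha | ha <;> rcases hall b with hb' | hb'
          · rw [ha, hb'] at hab
            exact absurd hab (Y.irrefl)
          · rw [ha, hb'] at hab
            exact hab
          · rw [ha, hb'] at hab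
            exact hab.symm
          · rw [ha, hb'] at hab
            exact absurd hab (Y.irrefl)
        ext u v
        rw [SimpleGraph.top_adj]
        constructor
        · exact fun huv => huv.ne
        · intro huv
          rcases hall u with ha | ha <;> rcases hall v with hb' | hb'
          · exact absurd (ha.trans hb'.symm) huv
          · rw [ha, hb']
            exact hxyA
          · rw [ha, hb']
            exact hxyA.symm
          · exact absurd (ha.trans hb'.symm) huv
      subst htop
      rw [clb_P_top h4]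
      nlinarith
  · have hlb : lb (Fintype.card W) = cc (Fintype.card W) := by
      unfold lb
      rw [if_neg (by omega), if_neg (by omega), if_neg (by omega)]
    rw [hlb]
    exact h W Y hY h4 hn

private theorem cc_three : cc 3 = (tau + 3) * (tau + 2) * (tau + 1) := by
  have ht := tau_pos
  unfold cc
  field_simp

private theorem cc_ge {a : ℕ} (h : 3 ≤ a) : cc a = tau ^ (a - 3) * cc 3 := by
  have h1 := cc_add 3 (a - 3)
  rwa [show 3 + (a - 3) = a by omega] at h1

private theorem cc_mix {a b t : ℕ} (h : t ≤ a) : cc (a + b - t) = tau ^ (a - t) * cc b := by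
  have h1 := cc_add b (a - t)
  rwa [show b + (a - t) = a + b - t by omega] at h1

private theorem lb_ge {a : ℕ} (h : 3 ≤ a) : lb a = cc a := by
  unfold lb
  rw [if_neg (by omega), if_neg (by omega), if_neg (by omega)]

private theorem lb_one : lb 1 = tau + 3 := by
  unfold lb
  rw [if_neg one_ne_zero, if_pos rfl]

private theorem lb_two : lb 2 = (tau + 3) * (tau + 2) := by
  unfold lb
  rw [if_neg (by norm_num), if_neg (by norm_num), if_pos rfl]

private theorem fall_zero (q : ℝ) : fall q 0 = 1 := by
  unfold fall
  rw [if_pos rfl]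

private theorem fall_one (q : ℝ) : fall q 1 = q := by
  unfold fall
  rw [if_neg one_ne_zero, if_pos rfl]

private theorem fall_two (q : ℝ) : fall q 2 = q * (q - 1) := by
  unfold fall
  rw [if_neg (by norm_num), if_neg (by norm_num), if_pos rfl]

private theorem fall_three (q : ℝ) : fall q 3 = q * (q - 1) * (q - 2) := by
  unfold fall
  rw [if_neg (by norm_num), if_neg (by norm_num), if_neg (by norm_num)]

private theorem lb_mul_aux {a b t : ℕ} (ht : t ≤ 3) (ha : t < a) (hab : t + 3 ≤ a + b)
    (hle : a ≤ b) : fall (tau + 3) t * cc (a + b - t) ≤ lb a * lb b := by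
  have h0 := tau_pos
  have h1 := tau_sq
  have h2 := lt_tau
  have h3 := tau_lt
  have hb := cc_pos b
  rw [cc_mix ha.le]
  have ha' : a = 1 ∨ a = 2 ∨ 3 ≤ a := by omega
  rcases ha' with ha' | ha' | ha'
  · have ht0 : t = 0 := by omega
    subst ht0
    subst ha'
    rw [fall_zero, lb_one, one_mul, Nat.sub_zero, pow_one]
    have hb' : b = 2 ∨ 3 ≤ b := by omega
    rcases hb' with hb' | hb'
    · subst hb'
      rw [lb_two]
      have h5 := cc_add 2 1
      rw [show 2 + 1 = 3 from rfl, cc_three, pow_one] at h5
      rw [← h5]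
      nlinarith [mul_pos (show (0 : ℝ) < tau + 3 by linarith) (show (0 : ℝ) < tau + 2 by linarith)]
    · rw [lb_ge hb']
      nlinarith
  · have ht1 : t = 0 ∨ t = 1 := by omega
    subst ha'
    have hb' : b = 2 ∨ 3 ≤ b := by omega
    rw [lb_two]
    have h32 := mul_pos (show (0 : ℝ) < tau + 3 by linarith) (show (0 : ℝ) < tau + 2 by linarith)
    rcases hb' with hb' | hb'
    · subst hb'
      rw [lb_two]
      have h5 := cc_add 2 1
      rw [show 2 + 1 = 3 from rfl, cc_three, pow_one] at h5
      rcases ht1 with ht1 | ht1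
      · subst ht1
        rw [fall_zero, one_mul, Nat.sub_zero]
        have h6 : tau ^ 2 * cc 2 = tau * ((tau + 3) * (tau + 2) * (tau + 1)) := by
          rw [h5]
          ring
        rw [h6]
        nlinarith [mul_pos h32 h32, mul_pos h32 h0]
      · subst ht1
        rw [fall_one, show 2 - 1 = 1 from rfl, pow_one, ← h5]
        nlinarith [mul_pos h32 h32, mul_pos h32 (show (0 : ℝ) < tau + 3 by linarith)]
    · rw [lb_ge hb']
      rcases ht1 with ht1 | ht1
      · subst ht1
        rw [fall_zero, one_mul, Nat.sub_zero]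
        apply mul_le_mul_of_nonneg_right _ hb.le
        nlinarith
      · subst ht1
        rw [fall_one, show 2 - 1 = 1 from rfl, pow_one, ← mul_assoc]
        apply mul_le_mul_of_nonneg_right _ hb.le
        nlinarith
  · have hb' : 3 ≤ b := by omega
    rw [lb_ge ha', lb_ge hb', ← mul_assoc]
    apply mul_le_mul_of_nonneg_right _ hb.le
    rw [cc_ge ha', cc_three]
    have hp : 0 < tau ^ (a - 3) := pow_pos h0 _
    have ht4 : t = 0 ∨ t = 1 ∨ t = 2 ∨ t = 3 := by omega
    rcases ht4 with ht4 | ht4 | ht4 | ht4
    · subst ht4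
      rw [fall_zero, one_mul, Nat.sub_zero]
      have h6 : tau ^ a = tau ^ (a - 3) * tau ^ 3 := by
        rw [← pow_add]
        congr 1
        omega
      rw [h6]
      apply mul_le_mul_of_nonneg_left _ hp.le
      have h7 : tau ^ 3 = tau * (tau + 1) := by
        rw [← h1]
        ring
      rw [h7]
      nlinarith [mul_pos h0 (show (0 : ℝ) < tau + 1 by linarith)]
    · subst ht4
      rw [fall_one]
      have h6 : tau ^ (a - 1) = tau ^ (a - 3) * tau ^ 2 := by
        rw [← pow_add]
        congr 1
        omega
      rw [h6, h1]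
      have h7 : (tau + 3) * (tau ^ (a - 3) * (tau + 1)) = tau ^ (a - 3) * ((tau + 3) * (tau + 1)) := by
        ring
      rw [h7]
      apply mul_le_mul_of_nonneg_left _ hp.le
      nlinarith [mul_pos (show (0 : ℝ) < tau + 3 by linarith) (show (0 : ℝ) < tau + 1 by linarith)]
    · subst ht4
      rw [fall_two]
      have h6 : tau ^ (a - 2) = tau ^ (a - 3) * tau := by
        rw [← pow_succ]
        congr 1
        omega
      rw [h6]
      have h7 : (tau + 3) * (tau + 3 - 1) * (tau ^ (a - 3) * tau) =
          tau ^ (a - 3) * ((tau + 3) * (tau + 2) * tau) := by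
        ring
      rw [h7]
      apply mul_le_mul_of_nonneg_left _ hp.le
      nlinarith [mul_pos (show (0 : ℝ) < tau + 3 by linarith) (show (0 : ℝ) < tau + 2 by linarith)]
    · subst ht4
      rw [fall_three]
      apply le_of_eq
      ring

theorem lb_mul {a b t : ℕ} (ht : t ≤ 3) (ha : t < a) (hb : t < b) (hab : t + 3 ≤ a + b) :
    fall (tau + 3) t * cc (a + b - t) ≤ lb a * lb b := by
  rcases le_total a b with h | h
  · exact lb_mul_aux ht ha hab h
  · rw [add_comm a b, mul_comm (lb a)]
    exact lb_mul_aux ht hb (by omega) h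

end Pool.Agent.SB
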