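import Pool.Agent.SB.Disc

/-!
# Certificates: definitions
-/

set_option autoImplicit false

noncomputable section

namespace Pool.Agent.SB

open Pool.Agent.U5C
open Pool.Agent.Helper1.PG (Fill)

/-- a term with a lower bound: coefficient, pendants, filling, classes of the ring slots -/
structure TEnt where
  l : ℕ
  P : List ℕ
  T : Fill
  cls : List ℕ

def TEnt.ent (t : TEnt) : Ent K4 := ⟨((t.l, 0), (0, 0)), t.P, t.T⟩

/-- the class of a slot -/
def TEnt.cl (t : TEnt) (i : ℕ) : ℕ := t.cls.getD i 0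

/-- admissible terms -/
structure TOK (w k m : ℕ) (al : List (ℕ × ℕ)) (t : TEnt) : Prop where
  w : k + t.P.length < w
  m : t.P.length < m
  lt : ∀ i, i < k → t.cl i < k
  al : ∀ i, i < k → ∀ j, j < k → i < j → t.cl i = t.cl j → (i, j) ∈ al
  val : t.T.val ((pndsN t.P (k + 1) (List.range k)).map
    (fun i => if i < k then t.cl i else i)) = 1
  mg : 3 + mgc t.T ≤ k + t.P.length

/-- the number of vertices by which the graph of the term is smaller -/
def TEnt.j (m : ℕ) (t : TEnt) : ℕ := m + mgc t.T - t.P.length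

/-- a certificate -/
structure Cert (w R C p n p' n' k m AN D : ℕ) (cs : List ℕ) (al : List (ℕ × ℕ))
    (TD : List TEnt) (Ss : List (Sec K4)) : Prop where
  cpw : PW w R C
  cw : w ≤ 32
  ck : 0 < k
  ckm : k + m < w
  cA : AOK w k AN
  ccs : ∀ x ∈ cs, COk w (fun i => i < w) x
  cT : ∀ t ∈ TD, TOK w k m al t
  cS : ∀ S ∈ Ss, SOK w k AN S
  cnn : ∀ S ∈ Ss, ∀ e ∈ S.es, 0 ≤ v4 e.c
  cchk : chkT (fun _ c => z4 c) (zTs neg4 my4 add4 neg4 mq4 add4 (fun c => c) w R C p n p' k AN
      Ss (topT neg4 mq4 add4 w R C p' n' k AN (List.range k) ((D, 0), (0, 0)) cs m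
        (TD.map TEnt.ent))) = true
  csum : (D : ℝ) ≤ (TD.map fun t => (t.l : ℝ) * tau⁻¹ ^ t.j m).sum
  cD : 0 < D

/-! ### tests for the kernel -/

/-- sign test for coefficients -/
def nn4 (c : K4) : Bool :=
  @Bool.rec (fun _ => Bool)
    -- `c.1.1 < c.1.2`
    (@Bool.rec (fun _ => Bool) false
      (Nat.ble (Nat.mul (Nat.sub c.1.2 c.1.1) (Nat.sub c.1.2 c.1.1))
        (Nat.add (Nat.mul (Nat.sub c.1.2 c.1.1) (Nat.sub c.2.1 c.2.2))
          (Nat.mul (Nat.sub c.2.1 c.2.2) (Nat.sub c.2.1 c.2.2))))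
      (Nat.ble c.2.2 c.2.1))
    (@Bool.rec (fun _ => Bool)
      (Nat.ble (Nat.add (Nat.mul (Nat.sub c.1.1 c.1.2) (Nat.sub c.2.2 c.2.1))
          (Nat.mul (Nat.sub c.2.2 c.2.1) (Nat.sub c.2.2 c.2.1)))
        (Nat.mul (Nat.sub c.1.1 c.1.2) (Nat.sub c.1.1 c.1.2)))
      true
      (Nat.ble c.2.2 c.2.1))
    (Nat.ble c.1.2 c.1.1)

/-- `x ≤ y τ` -/
theorem le_mul_tau {x y : ℝ} (hx : 0 ≤ x) (hy : 0 ≤ y) (h : x * x ≤ x * y + y * y) :
    x ≤ y * tau := by
  by_contra hc
  push Not at hc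
  have ht := tau_pos
  have h1 := tau_sq
  nlinarith [mul_nonneg hy ht.le, mul_nonneg hx hy, mul_pos ht ht,
    mul_nonneg (sub_nonneg.2 hc.le) hy, mul_nonneg (sub_nonneg.2 hc.le) hx]

/-- `y τ ≤ x` -/
theorem mul_tau_le {x y : ℝ} (hx : 0 ≤ x) (hy : 0 ≤ y) (h : x * y + y * y ≤ x * x) :
    y * tau ≤ x := by
  by_contra hc
  push Not at hc
  have ht := tau_pos
  have h1 := tau_sq
  nlinarith [mul_nonneg hy ht.le, mul_nonneg hx hy, mul_pos ht ht,
    mul_nonneg (sub_nonneg.2 hc.le) hy, mul_nonneg (sub_nonneg.2 hc.le) hx]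

theorem nn4_spec {c : K4} (h : nn4 c = true) : 0 ≤ v4 c := by
  obtain ⟨⟨a, a'⟩, ⟨b, b'⟩⟩ := c
  unfold v4
  simp only
  have ht := tau_pos
  cases h1 : Nat.ble a' a with
  | true =>
    have h1' : a' ≤ a := Nat.le_of_ble_eq_true h1
    cases h2 : Nat.ble b' b with
    | true =>
      have h2' : b' ≤ b := Nat.le_of_ble_eq_true h2
      have h3 : (a' : ℝ) ≤ a := by exact_mod_cast h1'
      have h4 : (b' : ℝ) ≤ b := by exact_mod_cast h2'
      nlinarith
    | false =>
      have h2' : b < b' := by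
        by_contra hc
        rw [Nat.ble_eq_true_of_le (by omega)] at h2
        exact absurd h2 (by decide)
      have h3 : Nat.ble (Nat.add (Nat.mul (Nat.sub a a') (Nat.sub b' b))
          (Nat.mul (Nat.sub b' b) (Nat.sub b' b))) (Nat.mul (Nat.sub a a') (Nat.sub a a'))
            = true := by
        have h4 : nn4 ((a, a'), (b, b')) = _ := rfl
        unfold nn4 at h
        simp only [h1, h2] at h
        exact h
      have h4 : (a - a') * (b' - b) + (b' - b) * (b' - b) ≤ (a - a') * (a - a') :=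
        Nat.le_of_ble_eq_true h3
      obtain ⟨x, rfl⟩ := Nat.exists_eq_add_of_le h1'
      obtain ⟨y, rfl⟩ := Nat.exists_eq_add_of_le h2'.le
      rw [Nat.add_sub_cancel_left, Nat.add_sub_cancel_left] at h4
      have h5 : (x : ℝ) * y + y * y ≤ x * x := by exact_mod_cast h4
      have h6 := mul_tau_le (Nat.cast_nonneg x) (Nat.cast_nonneg y) h5
      push_cast
      linarith
  | false =>
    have h1' : a < a' := by
      by_contra hc
      rw [Nat.ble_eq_true_of_le (by omega)] at h1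
      exact absurd h1 (by decide)
    cases h2 : Nat.ble b' b with
    | true =>
      have h2' : b' ≤ b := Nat.le_of_ble_eq_true h2
      have h3 : Nat.ble (Nat.mul (Nat.sub a' a) (Nat.sub a' a))
          (Nat.add (Nat.mul (Nat.sub a' a) (Nat.sub b b'))
          (Nat.mul (Nat.sub b b') (Nat.sub b b'))) = true := by
        unfold nn4 at h
        simp only [h1, h2] at h
        exact h
      have h4 : (a' - a) * (a' - a) ≤ (a' - a) * (b - b') + (b - b') * (b - b') :=
        Nat.le_of_ble_eq_true h3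
      obtain ⟨x, rfl⟩ := Nat.exists_eq_add_of_le h1'.le
      obtain ⟨y, rfl⟩ := Nat.exists_eq_add_of_le h2'
      rw [Nat.add_sub_cancel_left, Nat.add_sub_cancel_left] at h4
      have h5 : (x : ℝ) * x ≤ x * y + y * y := by exact_mod_cast h4
      have h6 := le_mul_tau (Nat.cast_nonneg x) (Nat.cast_nonneg y) h5
      push_cast
      linarith
    | false =>
      unfold nn4 at h
      simp only [h1, h2] at h
      exact absurd h Bool.false_ne_true

/-- conjunction over a list -/
def allB {α : Type} (f : α → Bool) (l : List α) : Bool :=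
  @List.rec α (fun _ => Bool) true (fun a _ ih => @Bool.rec (fun _ => Bool) false ih (f a)) l

theorem allB_spec {α : Type} {f : α → Bool} {l : List α} (h : allB f l = true) :
    ∀ a ∈ l, f a = true := by
  induction l with
  | nil => simp
  | cons a l ih =>
    have e : allB f (a :: l) = @Bool.rec (fun _ => Bool) false (allB f l) (f a) := rfl
    rw [e] at h
    cases h1 : f a with
    | false => rw [h1] at h; exact absurd h Bool.false_ne_true
    | true =>
      rw [h1] at h
      intro x hx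
      rcases List.mem_cons.1 hx with rfl | hx
      · exact h1
      · exact ih h x hx

theorem lt_of_testBit {A m t : ℕ} (hA : A < 2 ^ m) (h : A.testBit t = true) : t < m := by
  by_contra hc
  have h1 := Nat.testBit_lt_two_pow (lt_of_lt_of_le hA
    (Nat.pow_le_pow_right (by norm_num) (not_lt.1 hc)))
  rw [h1] at h
  exact absurd h Bool.false_ne_true

/-- test for the adjacency matrix -/
def aokB (w k AN : ℕ) : Bool := decide (AN < 2 ^ (w * w) ∧ ∀ t, t < w * w →
  AN.testBit t = true → t / w < k ∧ t % w < k ∧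
    (t % w = (t / w + 1) % k ∨ t / w = (t % w + 1) % k))

theorem aokB_spec {w k AN : ℕ} (h : aokB w k AN = true) : AOK w k AN := by
  obtain ⟨h1, h2⟩ := of_decide_eq_true h
  intro t ht
  exact h2 t (lt_of_testBit h1 ht) ht

/-- test for constraint codes -/
def cokB (w x : ℕ) : Bool := decide (x = 0 ∨ (lo x < w ∧ hi x < w ∧ (x % 2 = 0 → lo x < hi x)))

theorem cokB_spec {w x : ℕ} (h : cokB w x = true) : COk w (fun i => i < w) x := by
  rcases of_decide_eq_true h with h | ⟨h1, h2, h3⟩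
  · exact Or.inl h
  · exact Or.inr ⟨h1, h2, h1, h2, h3⟩

/-- test for terms -/
def tokB (w k m : ℕ) (al : List (ℕ × ℕ)) (t : TEnt) : Bool :=
  decide (k + t.P.length < w ∧ t.P.length < m ∧ (∀ i, i < k → t.cl i < k) ∧
    (∀ p ∈ (List.range k).product (List.range k), ¬ p.1 < p.2 ∨ t.cl p.1 ≠ t.cl p.2 ∨ p ∈ al) ∧
    t.T.val ((pndsN t.P (k + 1) (List.range k)).map (fun i => if i < k then t.cl i else i)) = 1 ∧
    3 + mgc t.T ≤ k + t.P.length)

theorem tokB_spec {w k m : ℕ} {al : List (ℕ × ℕ)} {t : TEnt} (h : tokB w k m al t = true) :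
    TOK w k m al t := by
  obtain ⟨h1, h2, h3, h4, h5, h6⟩ := of_decide_eq_true h
  refine ⟨h1, h2, h3, fun i hi j hj hij he => ?_, h5, h6⟩
  rcases h4 (i, j) (List.mem_product.2 ⟨List.mem_range.2 hi, List.mem_range.2 hj⟩) with h | h | h
  · exact absurd hij h
  · exact absurd he h
  · exact h

/-- test for sectors -/
def sokB (w k AN : ℕ) (S : Sec K4) : Bool :=
  decide ((∀ j ∈ S.J, j < k) ∧ S.U = (List.range k).filter (fun i => decide (i ∉ S.J)) ∧
    S.U ≠ [] ∧ S.adj < 2 ^ (w * w) ∧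
    (∀ t, t < w * w → S.adj.testBit t = true → AN.testBit t = true ∧ t / w ∈ S.U ∧ t % w ∈ S.U))

/-- test for entries -/
def eokB (w k : ℕ) (e : Ent K4) : Bool := Nat.ble (k + e.P.length + 1) w

theorem sokB_spec {w k AN : ℕ} {S : Sec K4} (h : sokB w k AN S = true)
    (h' : allB (eokB w k) S.es = true) : SOK w k AN S := by
  obtain ⟨h1, h2, h3, h4, h5⟩ := of_decide_eq_true h
  refine ⟨h1, h2, h3, fun t ht => h5 t (lt_of_testBit h4 ht) ht, fun e he => ?_⟩
  exact Nat.le_of_ble_eq_true (allB_spec h' e he)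

/-- lower bound for the total of the terms -/
theorem sum_tau {D m : ℕ} {TD : List TEnt} (L : List (ℕ × ℕ))
    (hL : TD.map (fun t => (t.l, t.j m)) = L)
    (h : (D : ℝ) ≤ (L.map fun p => (p.1 : ℝ) * (0.61803 : ℝ) ^ p.2).sum) :
    (D : ℝ) ≤ (TD.map fun t => (t.l : ℝ) * tau⁻¹ ^ t.j m).sum := by
  refine h.trans ?_
  have h1 : (TD.map fun t => (t.l : ℝ) * tau⁻¹ ^ t.j m) =
      L.map fun p => (p.1 : ℝ) * tau⁻¹ ^ p.2 := by
    rw [← hL, List.map_map]
    rfl
  rw [h1]
  refine List.sum_le_sum (fun p _ => ?_)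
  have h2 : (0.61803 : ℝ) ≤ tau⁻¹ := by
    rw [tau_inv]
    linarith [lt_tau]
  exact mul_le_mul_of_nonneg_left (pow_le_pow_left₀ (by norm_num) h2 _) (Nat.cast_nonneg _)

end Pool.Agent.SB
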