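import Mathlib
import Pool.Agent.U5.Defs
import Pool.Agent.U5.PlIso
import Pool.Agent.Helper1.PG.FillMain

/-!
# Strong Birkhoff-Lewis bound at `τ + 3`: common definitions

`P q G` is the value of the chromatic polynomial at the real number `q` (`U5/Defs.lean`).
-/

set_option autoImplicit false

namespace Pool.Agent.SB

open Polynomial
open Pool.Agent.Helper36.BL (cp cnt cols cp_eval mem_cols IsMinor poly_ext)
open Pool.Agent.Helper1.PG
open Pool.Agent.U5 (P)

/-- the golden ratio -/
noncomputable def tau : ℝ := (1 + √5) / 2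

theorem tau_sq : tau ^ 2 = tau + 1 := by
  unfold tau
  have h : (√5 : ℝ) ^ 2 = 5 := Real.sq_sqrt (by norm_num)
  linear_combination h / 4

theorem tau_lt : tau < 1.61804 := by
  unfold tau
  have h : (√5 : ℝ) < 2.23608 := by
    rw [Real.sqrt_lt' (by norm_num)]
    norm_num
  linarith

theorem lt_tau : 1.61803 < tau := by
  unfold tau
  have h : (2.23606 : ℝ) < √5 := by
    apply Real.lt_sqrt_of_sq_lt
    norm_num
  linarith

theorem tau_pos : 0 < tau := by linarith [lt_tau]

theorem tau_ne : tau ≠ 0 := tau_pos.ne'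

theorem tau_inv : tau⁻¹ = tau - 1 := by
  have h := tau_sq
  have h2 := tau_ne
  field_simp
  linear_combination -h

/-- the polynomial `p` gives the values of `f` -/
def PF (f : ℕ → ℝ) (p : ℝ[X]) : Prop := ∀ n : ℕ, p.eval (n : ℝ) = f n

theorem PF.unique {f : ℕ → ℝ} {p p' : ℝ[X]} (h : PF f p) (h' : PF f p') : p = p' :=
  poly_ext p p' fun n => (h n).trans (h' n).symm

theorem PF.congr {f g : ℕ → ℝ} {p : ℝ[X]} (h : PF f p) (e : ∀ n, f n = g n) : PF g p :=
  fun n => (h n).trans (e n)

theorem PF.add {f g : ℕ → ℝ} {p p' : ℝ[X]} (h : PF f p) (h' : PF g p') :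
    PF (fun n => f n + g n) (p + p') := fun n => by rw [eval_add, h n, h' n]

theorem PF.mul {f g : ℕ → ℝ} {p p' : ℝ[X]} (h : PF f p) (h' : PF g p') :
    PF (fun n => f n * g n) (p * p') := fun n => by rw [eval_mul, h n, h' n]

theorem PF.const (c : ℝ) : PF (fun _ => c) (C c) := fun n => by rw [eval_C]

theorem PF.id : PF (fun n => (n : ℝ)) X := fun n => by rw [eval_X]

section

variable {V F E : Type}

/-- the graph with the additional edge `pr` (nothing is added when `p = r`) -/
def ad (G : SimpleGraph V) (p r : V) : SimpleGraph V where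
  Adj u v := G.Adj u v ∨ (u ≠ v ∧ ((u = p ∧ v = r) ∨ (u = r ∧ v = p)))
  symm := ⟨fun u v h => by
    rcases h with h | ⟨h, h1 | h1⟩
    · exact Or.inl h.symm
    · exact Or.inr ⟨h.symm, Or.inr ⟨h1.2, h1.1⟩⟩
    · exact Or.inr ⟨h.symm, Or.inl ⟨h1.2, h1.1⟩⟩⟩
  loopless := ⟨fun u h => by
    rcases h with h | h
    · exact h.ne rfl
    · exact h.1 rfl⟩

theorem ad_adj {G : SimpleGraph V} {p r u v : V} : (ad G p r).Adj u v ↔
    G.Adj u v ∨ (u ≠ v ∧ ((u = p ∧ v = r) ∨ (u = r ∧ v = p))) := Iff.rfl

theorem le_ad (G : SimpleGraph V) (p r : V) : G ≤ ad G p r := fun _ _ h => Or.inl h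

open scoped Classical in
/-- the value at `q` of the number of colourings of `G` in which `p` and `r` have the same colour -/
noncomputable def eqv (q : ℝ) [Fintype V] (G : SimpleGraph V) (p r : V) : ℝ :=
  if p = r then P q G else P q G - P q (ad G p r)

/-- plane multigraphs without loops with faces of degree at most three -/
structure T3 [Fintype V] [Fintype F] [Fintype E] (a : E → V × V) (b : E → F × F) : Prop where
  pl : IsPl a b
  nl : ∀ e, (a e).1 ≠ (a e).2
  d3 : ∀ f, dg b f ≤ 3

end

end Pool.Agent.SB
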