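import Pool.Agent.SB.ESem

/-!
# Naturality of the content of a sector

JOB SB-EHomA.  Prove all theorems of this file (remove the `sorry`s, keep the statements).

Plan.  As `map_mulNE`, `map_expand` (`U5C/Nat.lean`) and `map_mulEQ` (`U5C/Col.lean`): `eqsL` and
`nesL` by induction on the list of codes (first prove the unfolding lemmas with `frc_eq`), `runC` by
`map_expand`, `map_insAll`, `map_emp`; `runE` by `frc_eq`, and because `frcL`, `prs` only pass a list
(`frcL_eq` and `prs_eq`: prove here the private versions, or use that for all functions
`F : List ℕ → Tr K`, `(frcL l F).map φ = frcL l fun t => (F t).map φ` and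
`(prs T l acc F).map φ = prs T l acc fun t => (F t).map φ` by induction); `secT` by induction on `es`
with `map_addTs` (`U5C/Prog.lean`).
-/

set_option autoImplicit false

noncomputable section

namespace Pool.Agent.SB

open Pool.Agent.U5C
open Pool.Agent.Helper1.PG (Fill)

variable {K K' : Type} {neg mq : K → K} {add : K → K → K} {neg' mq' : K' → K'}
  {add' : K' → K' → K'} {φ : K → K'}

private theorem ehomA_frcL {α : Type} (l : List ℕ) (k : List ℕ → α) : frcL l k = k l := by
  induction l generalizing k with
  | nil => rfl
  | cons a t ih =>
    have e : frcL (a :: t) k = frc a (fun a => frcL t fun t => k (a :: t)) := rfl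
    rw [e, frc_eq, ih]

private theorem ehomA_chord {α : Type} (i j : ℕ) (A B : Fill) (l acc : List ℕ)
    (k : List ℕ → α) : prs (Fill.chord i j A B) l acc k =
      @Bool.rec (fun _ => α) (k (0 :: acc))
        (@Bool.rec (fun _ => α) (prs A (innN i j l) (cd 0 (getN l i) (getN l j) :: acc)
          fun acc => prs B (outN i j l) acc k) (k (0 :: acc))
          (Nat.beq (getN l i) (getN l j))) (okN i j l) := by
  have e : prs (Fill.chord i j A B) l acc k = @Bool.rec (fun _ => α) (k (0 :: acc))
        (frc (getN l i) fun a => frc (getN l j) fun b =>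
          @Bool.rec (fun _ => α)
            (frc (cd 0 a b) fun x =>
              frcL (innN i j l) fun l1 => frcL (outN i j l) fun l2 =>
                prs A l1 (x :: acc) fun acc => prs B l2 acc k)
            (k (0 :: acc)) (Nat.beq a b))
        (okN i j l) := rfl
  rw [e, frc_eq, frc_eq, frc_eq, ehomA_frcL, ehomA_frcL]

private theorem ehomA_merge {α : Type} (i j : ℕ) (A B : Fill) (l acc : List ℕ)
    (k : List ℕ → α) : prs (Fill.merge i j A B) l acc k =
      @Bool.rec (fun _ => α) (k (0 :: acc))
        (prs A (innN i j l) (cd 1 (getN l i) (getN l j) :: acc)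
          fun acc => prs B (outN i j l) acc k) (okN i j l) := by
  have e : prs (Fill.merge i j A B) l acc k = @Bool.rec (fun _ => α) (k (0 :: acc))
        (frc (getN l i) fun a => frc (getN l j) fun b => frc (cd 1 a b) fun x =>
          frcL (innN i j l) fun l1 => frcL (outN i j l) fun l2 =>
            prs A l1 (x :: acc) fun acc => prs B l2 acc k)
        (okN i j l) := rfl
  rw [e, frc_eq, frc_eq, frc_eq, ehomA_frcL, ehomA_frcL]

private theorem ehomA_prs {α β : Type} (G : α → β) (T : Fill) (l acc : List ℕ)
    (F : List ℕ → α) : G (prs T l acc F) = prs T l acc (fun t => G (F t)) := by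
  induction T generalizing l acc F with
  | leaf => rfl
  | chord i j A B ihA ihB =>
    rw [ehomA_chord, ehomA_chord]
    cases okN i j l with
    | false => rfl
    | true =>
      cases Nat.beq (getN l i) (getN l j) with
      | true => rfl
      | false =>
        show G (prs A (innN i j l) (cd 0 (getN l i) (getN l j) :: acc)
          fun acc => prs B (outN i j l) acc F) = prs A (innN i j l)
            (cd 0 (getN l i) (getN l j) :: acc) fun acc =>
              prs B (outN i j l) acc (fun t => G (F t))
        rw [ihA]
        congr 1
        funext t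
        exact ihB _ _ _
  | merge i j A B ihA ihB =>
    rw [ehomA_merge, ehomA_merge]
    cases okN i j l with
    | false => rfl
    | true =>
      show G (prs A (innN i j l) (cd 1 (getN l i) (getN l j) :: acc)
        fun acc => prs B (outN i j l) acc F) = prs A (innN i j l)
          (cd 1 (getN l i) (getN l j) :: acc) fun acc =>
            prs B (outN i j l) acc (fun t => G (F t))
      rw [ihA]
      congr 1
      funext t
      exact ihB _ _ _

private theorem ehomA_eqsL (w R C adj : ℕ) (cs : List ℕ) (L : FL K) :
    (eqsL w R C adj cs L).map φ = eqsL w R C adj cs (L.map φ) := by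
  induction cs generalizing L with
  | nil => rfl
  | cons x cs ih =>
    have e : ∀ {K : Type} (L : FL K), eqsL w R C adj (x :: cs) L =
        @Nat.rec (fun _ => FL K) (eqsL w R C adj cs L)
          (fun _ _ => frc (lo x) fun a => frc (hi x) fun b =>
            eqsL w R C adj cs (mulEQ w R C adj a b L)) (Nat.mod x 2) := fun L => rfl
    rw [e, e]
    cases Nat.mod x 2 with
    | zero => exact ih L
    | succ m =>
      simp only [frc_eq]
      rw [ih, map_mulEQ]

private theorem ehomA_nesL (hh : Hm neg mq add neg' mq' add' φ) (w R C k m adj : ℕ)
    (cs : List ℕ) (L : FL K) :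
    (nesL neg w R C k m adj cs L).map φ = nesL neg' w R C k m adj cs (L.map φ) := by
  induction cs generalizing L with
  | nil => rfl
  | cons x cs ih =>
    have e : ∀ {K : Type} (neg : K → K) (L : FL K), nesL neg w R C k m adj (x :: cs) L =
        @Bool.rec (fun _ => FL K) (nesL neg w R C k m adj cs L)
          (frc (lo x) fun a => frc (hi x) fun b =>
            nesL neg w R C k m adj cs (mulNE neg w R C adj a b L)) (lft k m x) :=
      fun neg L => rfl
    rw [e, e]
    cases lft k m x with
    | false => exact ih L
    | true =>
      simp only [frc_eq]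
      rw [ih, map_mulNE hh]

theorem map_runC (hh : Hm neg mq add neg' mq' add' φ) (w R C p n k adj : ℕ) (c : K) (m : ℕ)
    (cs : List ℕ) : (runC neg mq add w R C p n k adj c m cs).map φ =
      runC neg' mq' add' w R C p n k adj (φ c) m cs := by
  unfold runC
  rw [map_expand hh, map_insAll hh, map_emp, ehomA_nesL hh, ehomA_eqsL, FL.map_cons, FL.map_nil]

theorem map_runE (hh : Hm neg mq add neg' mq' add' φ) (w R C p n k adj : ℕ) (U : List ℕ) (c : K)
    (P : List ℕ) (T : Fill) : (runE neg mq add w R C p n k adj U c P T).map φ =
      runE neg' mq' add' w R C p n k adj U (φ c) P T := by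
  unfold runE
  rw [frc_eq, frc_eq, ehomA_frcL, ehomA_frcL, ehomA_prs (Tr.map φ)]
  congr 1
  funext cs
  exact map_runC hh w R C p n k adj c _ cs

theorem map_secT (hh : Hm neg mq add neg' mq' add' φ) (w R C p n k adj : ℕ) (U : List ℕ)
    (es : List (Ent K)) (T : Tr K) : (secT neg mq add w R C p n k adj U es T).map φ =
      secT neg' mq' add' w R C p n k adj U (es.map (Ent.map φ)) (T.map φ) := by
  induction es generalizing T with
  | nil => rfl
  | cons e es ih =>
    have e1 : secT neg mq add w R C p n k adj U (e :: es) T =
      secT neg mq add w R C p n k adj U es (addTs add (fun s => s) (fun c => c) p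
        (runE neg mq add w R C p n k adj U e.c e.P e.T) T) := rfl
    have e2 : secT neg' mq' add' w R C p n k adj U ((e :: es).map (Ent.map φ)) (T.map φ) =
      secT neg' mq' add' w R C p n k adj U (es.map (Ent.map φ))
        (addTs add' (fun s => s) (fun c => c) p
          (runE neg' mq' add' w R C p n k adj U (φ e.c) e.P e.T) (T.map φ)) := rfl
    rw [e1, e2, ih, map_addTs hh _ _ (fun c => c) (fun _ => rfl), map_runE hh]

end Pool.Agent.SB
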