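import Pool.Agent.SB.ESem

/-!
# Polynomials from kernels of colourings

Both theorems of this file are proved below.

Plan.
* `poly_ker`: group the `c : V → Fin N` by the relation `c u = c v` (finitely many relations,
  `Finset.sum_fiberwise`/`Finset.sum_comm'` over `Setoid V` or over functions `V → V → Prop`): for a
  setoid `s` the `c` with kernel `s` are the injective maps `Quotient s → Fin N`
  (`Setoid.ker`, `Function.Embedding`), whose number is `N.descFactorial (card (Quotient s))`
  (`Fintype.card_embedding_eq`), a polynomial in `N`: `descPochhammer ℝ k` with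
  `descPochhammer_eval_eq_descFactorial`.  Alternative: induction on `Fintype.card V`.
* `val_ker`: induction on `T` with `l` general; `Fill.val` (`Helper1/PG/Fill.lean`) only asks whether
  `(l.map d)[i]? = (l.map d)[j]?`; `inn_map`, `out_map`.
-/

set_option autoImplicit false

noncomputable section

namespace Pool.Agent.SB

open Polynomial
open Pool.Agent.U5C
open Pool.Agent.Helper1.PG (Fill)
open Pool.Agent.Helper36.BL (cp cnt cols cp_eval mem_cols)

private def kerEquiv {V : Type} (s : Setoid V) (N : ℕ) :
    {c : V → Fin N // Setoid.ker c = s} ≃ (Quotient s ↪ Fin N) where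
  toFun c := ⟨Quotient.lift c.1 (fun a b hab => by
      have h : (Setoid.ker c.1) a b := by
        rw [c.2]
        exact hab
      exact h), by
    intro x y
    refine Quotient.inductionOn₂ x y ?_
    intro a b hab
    apply Quotient.sound
    have h : (Setoid.ker c.1) a b := hab
    rw [c.2] at h
    exact h⟩
  invFun f := ⟨fun v => f (Quotient.mk s v), by
    ext a b
    constructor
    · intro h
      exact Quotient.exact (f.injective h)
    · intro h
      show f _ = f _
      rw [Quotient.sound h]⟩
  left_inv c := Subtype.ext rfl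
  right_inv f := by
    ext x
    refine Quotient.inductionOn x ?_
    intro a
    rfl

open scoped Classical in
theorem poly_ker {V : Type} [Fintype V] (F : (V → V → Prop) → ℝ) :
    ∃ p : ℝ[X], ∀ N : ℕ, p.eval (N : ℝ) = ∑ c : V → Fin N, F (fun u v => c u = c v) := by
  haveI h0 : Finite (Setoid V) := Finite.of_injective (fun s : Setoid V => s.r) (by
    intro s t h
    ext a b
    exact iff_of_eq (congrFun (congrFun h a) b))
  haveI : Fintype (Setoid V) := Fintype.ofFinite _
  refine ⟨∑ s : Setoid V, C (F s.r) * descPochhammer ℝ (Fintype.card (Quotient s)), fun N => ?_⟩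
  rw [eval_finset_sum, ← Finset.sum_fiberwise (Finset.univ : Finset (V → Fin N))
    (fun c => Setoid.ker c)]
  refine Finset.sum_congr rfl fun s _ => ?_
  rw [eval_mul, eval_C, descPochhammer_eval_eq_descFactorial]
  have h1 : ∀ c ∈ (Finset.univ : Finset (V → Fin N)).filter (fun c => Setoid.ker c = s),
      F (fun u v => c u = c v) = F s.r := by
    intro c hc
    rw [Finset.mem_filter] at hc
    rw [← hc.2]
    rfl
  rw [Finset.sum_congr rfl h1, Finset.sum_const, nsmul_eq_mul, mul_comm]
  congr 1
  have h2 : ((Finset.univ : Finset (V → Fin N)).filter (fun c => Setoid.ker c = s)).card =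
      N.descFactorial (Fintype.card (Quotient s)) := by
    rw [← Fintype.card_subtype, Fintype.card_congr (kerEquiv s N), Fintype.card_embedding_eq,
      Fintype.card_fin]
  rw [h2]

open Pool.Agent.Helper1.PG (inn out inn_map out_map)

private theorem inn_sub {i j : ℕ} {l : List ℕ} {a : ℕ} (h : a ∈ inn i j l) : a ∈ l :=
  List.mem_of_mem_drop (List.mem_of_mem_take h)

private theorem out_sub {i j : ℕ} {l : List ℕ} {a : ℕ} (h : a ∈ out i j l) : a ∈ l := by
  unfold out at h
  rw [List.mem_append] at h
  rcases h with h | h
  · exact List.mem_of_mem_take h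
  · exact List.mem_of_mem_drop h

/-- the value of a filling only depends on which corners have the same colour -/
theorem val_ker {κ κ' : Type} [DecidableEq κ] [DecidableEq κ'] (T : Fill) (l : List ℕ)
    (d : ℕ → κ) (d' : ℕ → κ') (h : ∀ i ∈ l, ∀ j ∈ l, (d i = d j ↔ d' i = d' j)) :
    T.val (l.map d) = T.val (l.map d') := by
  induction T generalizing l with
  | leaf => rfl
  | chord i j A B ihA ihB =>
    unfold Fill.val
    rw [List.length_map, List.length_map]
    by_cases h1 : i < j ∧ j < l.length
    · have hi : i < l.length := h1.1.trans h1.2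
      have e1 : ((l.map d)[i]? = (l.map d)[j]?) ↔ ((l.map d')[i]? = (l.map d')[j]?) := by
        rw [List.getElem?_map, List.getElem?_map, List.getElem?_map, List.getElem?_map,
          List.getElem?_eq_getElem hi, List.getElem?_eq_getElem h1.2]
        simp only [Option.map_some, Option.some.injEq]
        exact h _ (List.getElem_mem hi) _ (List.getElem_mem h1.2)
      have e2 : (i < j ∧ j < l.length ∧ (l.map d)[i]? ≠ (l.map d)[j]?) ↔
          (i < j ∧ j < l.length ∧ (l.map d')[i]? ≠ (l.map d')[j]?) := by
        rw [ne_eq, ne_eq, e1]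
      by_cases h3 : (i < j ∧ j < l.length ∧ (l.map d)[i]? ≠ (l.map d)[j]?)
      · rw [if_pos h3, if_pos (e2.1 h3), inn_map, inn_map, out_map, out_map,
          ihA _ (fun a ha b hb => h a (inn_sub ha) b (inn_sub hb)),
          ihB _ (fun a ha b hb => h a (out_sub ha) b (out_sub hb))]
      · rw [if_neg h3, if_neg (fun h4 => h3 (e2.2 h4))]
    · rw [if_neg (fun h2 => h1 ⟨h2.1, h2.2.1⟩), if_neg (fun h2 => h1 ⟨h2.1, h2.2.1⟩)]
  | merge i j A B ihA ihB =>
    unfold Fill.val
    rw [List.length_map, List.length_map]
    by_cases h1 : i < j ∧ j < l.length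
    · have hi : i < l.length := h1.1.trans h1.2
      have e1 : ((l.map d)[i]? = (l.map d)[j]?) ↔ ((l.map d')[i]? = (l.map d')[j]?) := by
        rw [List.getElem?_map, List.getElem?_map, List.getElem?_map, List.getElem?_map,
          List.getElem?_eq_getElem hi, List.getElem?_eq_getElem h1.2]
        simp only [Option.map_some, Option.some.injEq]
        exact h _ (List.getElem_mem hi) _ (List.getElem_mem h1.2)
      have e2 : (i < j ∧ j < l.length ∧ (l.map d)[i]? = (l.map d)[j]?) ↔
          (i < j ∧ j < l.length ∧ (l.map d')[i]? = (l.map d')[j]?) := by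
        rw [e1]
      by_cases h3 : (i < j ∧ j < l.length ∧ (l.map d)[i]? = (l.map d)[j]?)
      · rw [if_pos h3, if_pos (e2.1 h3), inn_map, inn_map, out_map, out_map,
          ihA _ (fun a ha b hb => h a (inn_sub ha) b (inn_sub hb)),
          ihB _ (fun a ha b hb => h a (out_sub ha) b (out_sub hb))]
      · rw [if_neg h3, if_neg (fun h4 => h3 (e2.2 h4))]
    · rw [if_neg (fun h2 => h1 ⟨h2.1, h2.2.1⟩), if_neg (fun h2 => h1 ⟨h2.1, h2.2.1⟩)]

end Pool.Agent.SB
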