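import Pool.Agent.SB.ECon
import Pool.Agent.SB.Disc

/-!
# The colourings in which the colour `z` is used exactly on `I`

`dl H I` (`U5/Defs.lean`) is `H` without the edges at `I`.

Plan.  If `I` is not independent in `H` there is no proper `c` with `c v = z ↔ v ∈ I`, the left side is
`0`; this is the reason for the factor `if`.  Otherwise: map `c'' ∈ cols (dl H I) N` to
`c v = if v ∈ I then z else z.succAbove (c'' v)`; this is a proper colouring of `H` with
`c v = z ↔ v ∈ I`, and every such `c` has exactly `N ^ I.card` preimages (the values on `I` are free, the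
others are determined because `z.succAbove` is injective with image the complement of `z`).
For such a pair, `fz k U P T (c ∘ rr) z = fv k U P T (c'' ∘ rr)`: functions `Fin m → Fin (N + 1)`
avoiding `z` are the `z.succAbove ∘ x`; the colours of the slots of `pndsN P (k + 1) U` for `c` are the
`z.succAbove` of those for `c''` (the slots in `U` have `rr u ∉ I` by `hU`, and `u < k`), so
`val_map_injOn` (`ECon.lean`) applies (`mem_pndsN`).
A convenient way to count: `Finset.sum_fiberwise`/`Finset.card_eq_of_equiv` with the equivalence
`(V → Fin N) ≃ ({v // v ∈ I} → Fin N) × ({v // v ∉ I} → Fin N)` (`Equiv.piEquivPiSubtypeProd`).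
-/

set_option autoImplicit false

noncomputable section

namespace Pool.Agent.SB

open Pool.Agent.Helper1.PG
open Pool.Agent.U5 (dl)
open Pool.Agent.Helper36.BL (cp cnt cols cp_eval mem_cols)

theorem upd_succ {N k m : ℕ} (z : Fin (N + 1)) (d : ℕ → Fin (N + 1)) (d' : ℕ → Fin N)
    (y : Fin m → Fin N) {i : ℕ} (h : (i < k ∧ d i = z.succAbove (d' i)) ∨ (k + 1 ≤ i ∧ i < k + 1 + m)) :
    upd k d (fun j => z.succAbove (y j)) i = z.succAbove (upd k d' y i) := by
  unfold upd
  by_cases hi : k < i ∧ i - (k + 1) < m
  · rw [dif_pos hi, dif_pos hi]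
  · rw [dif_neg hi, dif_neg hi]
    rcases h with h | h
    · exact h.2
    · exfalso
      apply hi
      constructor <;> omega

theorem fz_succ {N k : ℕ} {U P : List ℕ} {T : Fill} (z : Fin (N + 1)) (d : ℕ → Fin (N + 1))
    (d' : ℕ → Fin N) (hk : ∀ u ∈ U, u < k) (hd : ∀ u ∈ U, d u = z.succAbove (d' u)) :
    fz k U P T d z = fv k U P T d' := by
  unfold fz fv
  rw [← Finset.sum_filter]
  symm
  refine Finset.sum_bij (fun y _ => fun j => z.succAbove (y j)) ?_ ?_ ?_ ?_
  · intro y _
    rw [Finset.mem_filter]
    exact ⟨Finset.mem_univ _, fun j => Fin.succAbove_ne z (y j)⟩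
  · intro y _ y' _ h
    funext j
    exact Fin.succAbove_right_injective (congrFun h j)
  · intro x hx
    rw [Finset.mem_filter] at hx
    choose y hy using fun j => Fin.exists_succAbove_eq (hx.2 j)
    exact ⟨y, Finset.mem_univ _, funext hy⟩
  · intro y _
    have e : (pndsN P (k + 1) U).map (upd k d (fun j => z.succAbove (y j))) =
        ((pndsN P (k + 1) U).map (upd k d' y)).map z.succAbove := by
      rw [List.map_map]
      apply List.map_congr_left
      intro i hi
      apply upd_succ
      rcases mem_pndsN P (k + 1) U hi with h | h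
      · exact Or.inl ⟨hk i h, hd i h⟩
      · exact Or.inr h
    rw [e, val_map_injOn T _ z.succAbove
      (fun x _ y _ h => Fin.succAbove_right_injective h)]

open scoped Classical in
theorem sum_zset {V : Type} [Fintype V] (H : SimpleGraph V) (rr : ℕ → V) {k : ℕ} {U : List ℕ}
    (P : List ℕ) (T : Fill) {N : ℕ} (z : Fin (N + 1)) (I : Finset V)
    (hk : ∀ u ∈ U, u < k) (hU : ∀ u ∈ U, rr u ∉ I) :
    (N : ℝ) ^ I.card * (∑ c ∈ cols H (N + 1), if (∀ v, c v = z ↔ v ∈ I) then
        fz k U P T (fun i => c (rr i)) z else 0) =
      if (∀ u ∈ I, ∀ v ∈ I, ¬ H.Adj u v) then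
        ∑ c ∈ cols (dl H I) N, fv k U P T (fun i => c (rr i)) else 0 := by
  by_cases hI : ∀ u ∈ I, ∀ v ∈ I, ¬ H.Adj u v
  swap
  · rw [if_neg hI, Finset.sum_eq_zero, mul_zero]
    intro c hc
    rw [if_neg]
    intro h
    apply hI
    intro u hu v hv huv
    rw [mem_cols] at hc
    exact hc u v huv (((h u).2 hu).trans ((h v).2 hv).symm)
  rw [if_pos hI, ← Finset.sum_filter]
  have h1 : ∑ c ∈ cols (dl H I) N, fv k U P T (fun i => c (rr i)) =
      ∑ c ∈ cols (dl H I) N, fz k U P T
        (fun i => (fun v => if v ∈ I then z else z.succAbove (c v)) (rr i)) z := by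
    apply Finset.sum_congr rfl
    intro c _
    rw [fz_succ z _ (fun i => c (rr i)) hk]
    intro u hu
    simp only [if_neg (hU u hu)]
  rw [h1, ← Finset.sum_fiberwise_of_maps_to
    (g := fun c : V → Fin N => fun v => if v ∈ I then z else z.succAbove (c v))
    (t := (cols H (N + 1)).filter (fun c => ∀ v, c v = z ↔ v ∈ I)), Finset.mul_sum]
  · apply Finset.sum_congr rfl
    intro c hc
    rw [Finset.mem_filter, mem_cols] at hc
    have h2 : ∀ c' ∈ (cols (dl H I) N).filter
        (fun c' : V → Fin N => (fun v => if v ∈ I then z else z.succAbove (c' v)) = c),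
        fz k U P T (fun i => (fun v => if v ∈ I then z else z.succAbove (c' v)) (rr i)) z =
          fz k U P T (fun i => c (rr i)) z := by
      intro c' hc'
      rw [Finset.mem_filter] at hc'
      have := hc'.2
      simp only [← this]
    rw [Finset.sum_congr rfl h2, Finset.sum_const, nsmul_eq_mul]
    congr 1
    have h3 : (cols (dl H I) N).filter
        (fun c' : V → Fin N => (fun v => if v ∈ I then z else z.succAbove (c' v)) = c) =
        Fintype.piFinset (fun v => if v ∈ I then (Finset.univ : Finset (Fin N)) else
          Finset.univ.filter (fun y => z.succAbove y = c v)) := by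
      ext c'
      rw [Finset.mem_filter, mem_cols, Fintype.mem_piFinset]
      constructor
      · rintro ⟨_, h⟩ v
        by_cases hv : v ∈ I
        · rw [if_pos hv]
          exact Finset.mem_univ _
        · rw [if_neg hv, Finset.mem_filter]
          refine ⟨Finset.mem_univ _, ?_⟩
          have := congrFun h v
          simpa only [if_neg hv] using this
      · intro h
        have h' : ∀ v, v ∉ I → z.succAbove (c' v) = c v := by
          intro v hv
          have := h v
          rw [if_neg hv, Finset.mem_filter] at this
          exact this.2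
        refine ⟨?_, ?_⟩
        · intro x y hxy e
          rw [Pool.Agent.U5.dl_adj] at hxy
          apply hc.1 x y hxy.1
          rw [← h' x hxy.2.1, ← h' y hxy.2.2, e]
        · funext v
          by_cases hv : v ∈ I
          · simp only [if_pos hv]
            exact ((hc.2 v).2 hv).symm
          · simp only [if_neg hv]
            exact h' v hv
    rw [h3, Fintype.card_piFinset]
    have h4 : ∀ v, (if v ∈ I then (Finset.univ : Finset (Fin N)) else
          Finset.univ.filter (fun y => z.succAbove y = c v)).card = if v ∈ I then N else 1 := by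
      intro v
      by_cases hv : v ∈ I
      · rw [if_pos hv, if_pos hv, Finset.card_univ, Fintype.card_fin]
      · rw [if_neg hv, if_neg hv]
        have hne : c v ≠ z := fun h => hv ((hc.2 v).1 h)
        obtain ⟨y, hy⟩ := Fin.exists_succAbove_eq hne
        rw [Finset.card_eq_one]
        refine ⟨y, ?_⟩
        ext y'
        rw [Finset.mem_filter, Finset.mem_singleton]
        constructor
        · rintro ⟨_, h⟩
          exact Fin.succAbove_right_injective (h.trans hy.symm)
        · rintro rfl
          exact ⟨Finset.mem_univ _, hy⟩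
    rw [Finset.prod_congr rfl (fun v _ => h4 v), Finset.prod_ite, Finset.prod_const_one,
      Finset.prod_const, mul_one, Finset.filter_mem_eq_inter, Finset.univ_inter]
    push_cast
    rfl
  · intro c' hc'
    rw [mem_cols] at hc'
    rw [Finset.mem_filter, mem_cols]
    refine ⟨?_, ?_⟩
    · intro x y hxy
      by_cases hx : x ∈ I
      · have hy : y ∉ I := fun hy => hI x hx y hy hxy
        simp only [if_pos hx, if_neg hy]
        exact (Fin.succAbove_ne z _).symm
      · by_cases hy : y ∈ I
        · simp only [if_pos hy, if_neg hx]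
          exact Fin.succAbove_ne z _
        · simp only [if_neg hx, if_neg hy]
          intro h
          exact hc' x y ((Pool.Agent.U5.dl_adj H I x y).2 ⟨hxy, hx, hy⟩)
            (Fin.succAbove_right_injective h)
    · intro v
      by_cases hv : v ∈ I
      · simp [hv]
      · simp only [hv, iff_false]
        exact Fin.succAbove_ne z _

end Pool.Agent.SB
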