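import Pool.Agent.U5C.Final
import Pool.Agent.SB.Def

/-!
# The program which the kernel runs on a certificate

Slots: the ring `0, …, k - 1`, the auxiliary slot `k`, inner slots `k + 1, …`.
-/

set_option autoImplicit false

noncomputable section

namespace Pool.Agent.SB

open Pool.Agent.U5C
open Pool.Agent.Helper1.PG (Fill)

/-- force the evaluation of a list of natural numbers -/
def frcL {α : Type} (l : List ℕ) (k : List ℕ → α) : α :=
  @List.rec ℕ (fun _ => (List ℕ → α) → α) (fun k => k [])
    (fun a _ ih k => frc a fun a => ih fun t => k (a :: t)) l k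

/-- insert a pendant named `x` at the corner `p` -/
def pndN (l : List ℕ) (p x : ℕ) : List ℕ := app (tk l (Nat.succ p)) (x :: drp l p)

/-- insert pendants named `v, v + 1, …` at the corners `P` -/
def pndsN (P : List ℕ) (v : ℕ) (l : List ℕ) : List ℕ :=
  @List.rec ℕ (fun _ => ℕ → List ℕ → List ℕ) (fun _ l => l)
    (fun p _ ih v l => frc (Nat.succ v) fun v' => ih v' (pndN l p v)) P v l

/-- smaller slot of a constraint code -/
def lo (x : ℕ) : ℕ := Nat.mod (Nat.div x 2) 32

/-- larger slot of a constraint code -/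
def hi (x : ℕ) : ℕ := Nat.div x 64

/-- code of the constraint between the slots `a` and `b`; `kd` is `0` (different) or `1` (equal) -/
def cd (kd a b : ℕ) : ℕ :=
  Nat.add kd (Nat.mul 2 (@Bool.rec (fun _ => ℕ) (Nat.add b (Nat.mul 32 a))
    (Nat.add a (Nat.mul 32 b)) (Nat.ble a b)))

/-- constraint codes of a filling of the face with corners `l`, added to `acc`; an impossible
filling gives the code `0`, which is never satisfied -/
def prs {α : Type} (T : Fill) (l : List ℕ) (acc : List ℕ) (k : List ℕ → α) : α :=
  @Fill.rec (fun _ => List ℕ → List ℕ → (List ℕ → α) → α) (fun _ acc k => k acc)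
    (fun i j _ _ ihA ihB l acc k =>
      @Bool.rec (fun _ => α) (k (0 :: acc))
        (frc (getN l i) fun a => frc (getN l j) fun b =>
          @Bool.rec (fun _ => α)
            (frc (cd 0 a b) fun x =>
              frcL (innN i j l) fun l1 => frcL (outN i j l) fun l2 =>
                ihA l1 (x :: acc) fun acc => ihB l2 acc k)
            (k (0 :: acc)) (Nat.beq a b))
        (okN i j l))
    (fun i j _ _ ihA ihB l acc k =>
      @Bool.rec (fun _ => α) (k (0 :: acc))
        (frc (getN l i) fun a => frc (getN l j) fun b => frc (cd 1 a b) fun x =>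
          frcL (innN i j l) fun l1 => frcL (outN i j l) fun l2 =>
            ihA l1 (x :: acc) fun acc => ihB l2 acc k)
        (okN i j l)) T l acc k

/-- neighbours of the slot `v` among the smaller slots -/
def nbl (v : ℕ) (cs : List ℕ) : List ℕ :=
  @List.rec ℕ (fun _ => List ℕ) [] (fun x _ ih =>
    @Bool.rec (fun _ => List ℕ) ih (lo x :: ih)
      (Nat.beq (Nat.add (Nat.mod x 2) (Nat.mul 2 (hi x))) (Nat.mul 2 v))) cs

/-- the list of inner slots with their neighbours -/
def vsl (m v : ℕ) (cs : List ℕ) : List (ℕ × List ℕ) :=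
  @Nat.rec (fun _ => ℕ → List (ℕ × List ℕ)) (fun _ => [])
    (fun _ ih v => frcL (nbl v cs) fun nb => frc (Nat.succ v) fun v' => (v, nb) :: ih v') m v

/-- codes of the first kind which do not belong to the slots `k + 1, …, k + m` -/
def lft (k m x : ℕ) : Bool :=
  @Nat.rec (fun _ => Bool)
    (@Nat.rec (fun _ => Bool) true (fun y _ => @Bool.rec (fun _ => Bool) true false
      (Nat.ble (Nat.succ y) m)) (Nat.sub (hi x) k))
    (fun _ _ => false) (Nat.mod x 2)

section

variable {K : Type} (neg mq : K → K) (add : K → K → K) (w R C p n k : ℕ)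

/-- multiply by the constraints of the second kind -/
def eqsL (adj : ℕ) (cs : List ℕ) (L : FL K) : FL K :=
  @List.rec ℕ (fun _ => FL K → FL K) (fun L => L)
    (fun x _ ih L => @Nat.rec (fun _ => FL K) (ih L)
      (fun _ _ => frc (lo x) fun a => frc (hi x) fun b => ih (mulEQ w R C adj a b L))
      (Nat.mod x 2)) cs L

/-- multiply by the remaining constraints of the first kind -/
def nesL (m adj : ℕ) (cs : List ℕ) (L : FL K) : FL K :=
  @List.rec ℕ (fun _ => FL K → FL K) (fun L => L)
    (fun x _ ih L => @Bool.rec (fun _ => FL K) (ih L)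
      (frc (lo x) fun a => frc (hi x) fun b => ih (mulNE neg w R C adj a b L))
      (lft k m x)) cs L

/-- the content of a filling with constraint codes `cs` and `m` inner slots -/
def runC (adj : ℕ) (c : K) (m : ℕ) (cs : List ℕ) : Tr K :=
  expand neg mq add w R C p n
    (insAll add p (nesL neg w R C k m adj cs
      (eqsL w R C adj cs (FL.cons (idp w w) c FL.nil))) (Tr.emp K n))
    (vsl m (Nat.succ k) cs) adj

/-- the content of a filling with pendants at the corners `P` of the face with corners `U` -/
def runE (adj : ℕ) (U : List ℕ) (c : K) (P : List ℕ) (T : Fill) : Tr K :=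
  frc (lenN P) fun m => frcL (pndsN P (Nat.succ k) U) fun W =>
    prs T W [] fun cs => runC neg mq add w R C p n k adj c m cs

end

/-- entries of the certificate: coefficient, pendants, filling -/
structure Ent (K : Type) where
  c : K
  P : List ℕ
  T : Fill

section

variable {K K' : Type} (neg mq : K → K) (add : K → K → K) (w R C p n k : ℕ)

/-- the sum of the contents of the entries of a sector -/
def secT (adj : ℕ) (U : List ℕ) (es : List (Ent K)) (T : Tr K) : Tr K :=
  @List.rec (Ent K) (fun _ => Tr K → Tr K) (fun T => T)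
    (fun e _ ih T => ih (addTs add (fun s => s) (fun c => c) p
      (runE neg mq add w R C p n k adj U e.c e.P e.T) T)) es T

/-- flatten a trie -/
def flat (f : K → K') (T : Tr K) (L : FL K') : FL K' :=
  @Tr.rec K (fun _ => FL K' → FL K')
    (fun L0 L => @FL.rec K (fun _ => FL K') L (fun s c _ ih => FL.cons s (f c) ih) L0)
    (fun _ _ ihl ihr L => ihr (ihl L)) T L

/-- multiply by `e_zj`, `j ∈ J` -/
def mulEQs (adj z : ℕ) (J : List ℕ) (L : FL K) : FL K :=
  @List.rec ℕ (fun _ => FL K → FL K) (fun L => L)
    (fun j _ ih L => ih (mulEQ w R C adj z j L)) J L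

end

/-- a sector: `J`, `U`, the adjacency matrix on `U`, the entries -/
structure Sec (K : Type) where
  J : List ℕ
  U : List ℕ
  adj : ℕ
  es : List (Ent K)

section

variable {K K' : Type} (neg mq : K → K) (add : K → K → K) (neg' mq' : K' → K')
  (add' : K' → K' → K') (f : K → K') (w R C p n p' n' k AN : ℕ)

/-- add the content of a sector, with opposite sign -/
def zT (S : Sec K) (T : Tr K') : Tr K' :=
  frc (keep w R C k) fun kp =>
    elimL neg' mq' add' w R C AN k kp S.U p'
      (mulEQs w R C AN k S.J (flat (fun c => neg' (f c))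
        (secT neg mq add w R C p n k S.adj S.U S.es (Tr.emp K n)) FL.nil)) T

/-- add the contents of all sectors -/
def zTs (Ss : List (Sec K)) (T : Tr K') : Tr K' :=
  @List.rec (Sec K) (fun _ => Tr K' → Tr K') (fun T => T)
    (fun S _ ih T => ih (zT neg mq add neg' mq' add' f w R C p n p' k AN S T)) Ss T

/-- the content of the centre, multiplied by `q D`, minus the terms with lower bounds -/
def topT (U0 : List ℕ) (D : K') (csC : List ℕ) (mC : ℕ) (Ts : List (Ent K')) : Tr K' :=
  @List.rec (Ent K') (fun _ => Tr K' → Tr K') (fun T => T)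
    (fun e _ ih T => ih (addTs add' (fun s => s) (fun c => c) p'
      (runE neg' mq' add' w R C p' n' k AN U0 (neg' (mq' e.c)) e.P e.T) T)) Ts
    (runC neg' mq' add' w R C p' n' k AN (mq' D) mC csC)

end

/-! ### coefficients -/

/-- `a - b + (c - d) τ` -/
abbrev K4 : Type := (ℕ × ℕ) × (ℕ × ℕ)

def neg4 (c : K4) : K4 := ((c.1.2, c.1.1), (c.2.2, c.2.1))
def add4 (c d : K4) : K4 :=
  ((Nat.add c.1.1 d.1.1, Nat.add c.1.2 d.1.2), (Nat.add c.2.1 d.2.1, Nat.add c.2.2 d.2.2))
/-- multiplication by `τ + 2` -/
def my4 (c : K4) : K4 :=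
  ((Nat.add (Nat.mul 2 c.1.1) c.2.1, Nat.add (Nat.mul 2 c.1.2) c.2.2),
    (Nat.add c.1.1 (Nat.mul 3 c.2.1), Nat.add c.1.2 (Nat.mul 3 c.2.2)))
/-- multiplication by `τ + 3` -/
def mq4 (c : K4) : K4 :=
  ((Nat.add (Nat.mul 3 c.1.1) c.2.1, Nat.add (Nat.mul 3 c.1.2) c.2.2),
    (Nat.add c.1.1 (Nat.mul 4 c.2.1), Nat.add c.1.2 (Nat.mul 4 c.2.2)))

/-- is the coefficient zero? -/
def z4 (c : K4) : Bool :=
  @Bool.rec (fun _ => Bool) false (Nat.beq c.2.1 c.2.2) (Nat.beq c.1.1 c.1.2)

/-! ### decoding -/

/-- decode a filling -/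
def decF (fuel : ℕ) {α : Type} (e : ℕ) (k : ℕ → Fill → α) : α :=
  @Nat.rec (fun _ => ℕ → (ℕ → Fill → α) → α) (fun e k => k e Fill.leaf)
    (fun _ ih e k =>
      frc (Nat.mod e 4) fun kd =>
      @Nat.rec (fun _ => α) (frc (Nat.div e 4) fun e => k e Fill.leaf)
        (fun kd' _ =>
          frc (Nat.mod (Nat.div e 4) 32) fun i =>
          frc (Nat.mod (Nat.div e 128) 32) fun j =>
          frc (Nat.div e 4096) fun e =>
            ih e fun e A => ih e fun e B =>
              @Nat.rec (fun _ => α) (k e (Fill.chord i j A B))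
                (fun _ _ => k e (Fill.merge i j A B)) kd') kd) fuel e k

/-- decode a list of `m` numbers of `5` bits -/
def decP {α : Type} (m e : ℕ) (k : ℕ → List ℕ → α) : α :=
  @Nat.rec (fun _ => ℕ → (ℕ → List ℕ → α) → α) (fun e k => k e [])
    (fun _ ih e k => frc (Nat.mod e 32) fun a => frc (Nat.div e 32) fun e =>
      ih e fun e P => k e (a :: P)) m e k

/-- decode an entry: `4 * 64` bits for the coefficient, `4` bits for the number of pendants -/
def decE (e : ℕ) : Ent K4 :=
  frc (Nat.mod e 18446744073709551616) fun a =>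
  frc (Nat.mod (Nat.div e 18446744073709551616) 18446744073709551616) fun a' =>
  frc (Nat.div e 340282366920938463463374607431768211456) fun e =>
  frc (Nat.mod e 18446744073709551616) fun b =>
  frc (Nat.mod (Nat.div e 18446744073709551616) 18446744073709551616) fun b' =>
  frc (Nat.div e 340282366920938463463374607431768211456) fun e =>
  frc (Nat.mod e 16) fun m => frc (Nat.div e 16) fun e =>
    decP m e fun e P => decF 64 e fun _ T => ⟨((a, a'), (b, b')), P, T⟩

/-- decode a list of entries -/
def decEs (L : List ℕ) : List (Ent K4) :=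
  @List.rec ℕ (fun _ => List (Ent K4)) [] (fun e _ ih => decE e :: ih) L

end Pool.Agent.SB
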