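import Pool.Agent.SB.ESem

/-!
# Supports of patterns

JOB SB-ESup.  Prove all theorems of this file (remove the `sorry`s, keep the statements).

`Sup w S s` (`ESem.lean`): `s` is the bit matrix of an equivalence relation on the `w` slots and only
slots in `S` are tied to other slots.

Plan (everything is parallel to the lemmas `Eqv…`, `allL_…`, `allT_…` of `U5C/Bits.lean`,
`U5C/Sound.lean`, `U5C/Col.lean`, `U5C/Elim.lean`).
* `sup_idp`: `eqv_idp`, `testBit_idp`, `idx`.
* `Sup.mrg`: `Eqv.mrg`, `PW.mrg_ij`.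
* `allL_supNE`, `allL_supEQ`: inductions on `L` with `mulNE_cons`, `mulEQ_cons`.
* `allL_nil_self`: if all patterns of `L` are equivalence relations, `mulNE … a a L` has no terms
  (the bit `(a, a)` is set, `beq_bit`), so it satisfies everything.
* `allT_sup_elimA`: as `allT_elimT`, `allT_elimL`, `allT_elimA`.  If `v` is alone in its block
  (`r = 0`, see the proof of `linT_elimT`), `Sup w (S ∪ {v}) s` gives `Sup w S s`; otherwise
  `Nat.land s (keep w R C v)` has support in `S` (`PW.and_keep`), `b = log2 r` is tied to `v`,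
  `b ≠ v`, hence `S b`.
* `allT_sup_expand`: induction on `vs` with `expand_cons`.
-/

set_option autoImplicit false

noncomputable section

namespace Pool.Agent.SB

open Pool.Agent.U5C

variable {K : Type} {neg mq : K → K} {add : K → K → K} {w R C : ℕ} {S : ℕ → Prop}

theorem sup_idp (w : ℕ) (S : ℕ → Prop) : Sup w S (idp w w) := by
  refine ⟨eqv_idp, fun i j _ hj h => Or.inl ?_⟩
  rw [testBit_idp] at h
  obtain ⟨l, h1, h2⟩ := h
  have h3 : w * i + j = w * l + l := by rw [h2]; ring
  have a1 := idx (w := w) (i := i) hj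
  have a2 := idx (w := w) (i := l) h1
  rw [h3] at a1
  omega

theorem Sup.mono {S' : ℕ → Prop} (h : ∀ i, S i → S' i) {s : ℕ} (hs : Sup w S s) : Sup w S' s := by
  refine ⟨hs.1, fun i j hi hj hij => ?_⟩
  rcases hs.2 i j hi hj hij with h1 | h1
  · exact Or.inl h1
  · exact Or.inr ⟨h _ h1.1, h _ h1.2⟩

theorem Sup.mrg (h : PW w R C) {s : ℕ} (hs : Sup w S s) {a b : ℕ} (ha : a < w) (hb : b < w)
    (hSa : S a) (hSb : S b) : Sup w S (U5C.mrg w R C a b s) := by
  refine ⟨hs.1.mrg h ha hb, fun i j hi hj hij => ?_⟩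
  rcases (h.mrg_ij a b s hi hj).1 hij with h1 | ⟨h1, h2⟩ | ⟨h1, h2⟩
  · exact hs.2 i j hi hj h1
  · right
    refine ⟨?_, ?_⟩
    · rcases hs.2 i a hi ha h1 with h3 | h3
      · rw [h3]; exact hSa
      · exact h3.1
    · rcases hs.2 b j hb hj h2 with h3 | h3
      · rw [← h3]; exact hSb
      · exact h3.2
  · right
    refine ⟨?_, ?_⟩
    · rcases hs.2 i b hi hb h1 with h3 | h3
      · rw [h3]; exact hSb
      · exact h3.1
    · rcases hs.2 a j ha hj h2 with h3 | h3
      · rw [← h3]; exact hSa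
      · exact h3.2

theorem allL_supNE (h : PW w R C) {adj a b : ℕ} (ha : a < w) (hb : b < w) (hSa : S a) (hSb : S b)
    {L : FL K} (hL : AllL (Sup w S) L) : AllL (Sup w S) (mulNE neg w R C adj a b L) := by
  induction L with
  | nil => trivial
  | cons s c L ih =>
    rw [mulNE_cons]
    cases Nat.beq (Nat.land (Nat.shiftRight s (Nat.add (Nat.mul w a) b)) 1) 1 with
    | true => exact ih hL.2
    | false =>
      cases Nat.beq (Nat.land (U5C.mrg w R C a b s) adj) 0 with
      | true => exact ⟨hL.1, hL.1.mrg h ha hb hSa hSb, ih hL.2⟩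
      | false => exact ⟨hL.1, ih hL.2⟩

theorem allL_nil_self {adj a : ℕ} (ha : a < w) {L : FL K} (hL : AllL (Eqv w) L)
    (Q : ℕ → Prop) : AllL Q (mulNE neg w R C adj a a L) := by
  induction L with
  | nil => trivial
  | cons s c L ih =>
    rw [mulNE_cons, beq_bit]
    have e : s.testBit (Nat.add (Nat.mul w a) a) = true := hL.1.rfl' a ha
    rw [e]
    exact ih hL.2

theorem allL_supNEs (h : PW w R C) {adj b : ℕ} (hb : b < w) (hSb : S b) {us : List ℕ}
    (hus : ∀ u ∈ us, u < w ∧ S u) {L : FL K} (hL : AllL (Sup w S) L) :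
    AllL (Sup w S) (mulNEs neg w R C adj b us L) := by
  induction us generalizing L with
  | nil => exact hL
  | cons u us ih =>
    exact ih (fun x hx => hus x (List.mem_cons_of_mem _ hx))
      (allL_supNE h hb (hus u List.mem_cons_self).1 hSb (hus u List.mem_cons_self).2 hL)

theorem allL_supEQ (h : PW w R C) {adj a b : ℕ} (ha : a < w) (hb : b < w) (hSa : S a) (hSb : S b)
    {L : FL K} (hL : AllL (Sup w S) L) : AllL (Sup w S) (mulEQ w R C adj a b L) := by
  induction L with
  | nil => trivial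
  | cons s c L ih =>
    rw [mulEQ_cons]
    cases Nat.beq (Nat.land (U5C.mrg w R C a b s) adj) 0 with
    | true => exact ⟨hL.1.mrg h ha hb hSa hSb, ih hL.2⟩
    | false => exact ih hL.2

private theorem esup_elimGo (h : PW w R C) {adj : ℕ} {s : ℕ} (hs : Sup w S s) (c : K) (p : ℕ)
    {nb E : List ℕ} (hnb : ∀ u ∈ nb, u < w ∧ S u) (hE : ∀ u ∈ E, u < w ∧ S u) {T : Tr K}
    (hT : AllT (Sup w S) T) :
    AllT (Sup w S) (elimGo neg add w R C adj s c nb E p T) := by
  induction nb generalizing E T with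
  | nil => exact hT
  | cons u us ih =>
    have hu : u < w ∧ S u := hnb u List.mem_cons_self
    exact ih (fun x hx => hnb x (List.mem_cons_of_mem _ hx))
      (by
        intro x hx
        rcases List.mem_cons.1 hx with h1 | h1
        · rw [h1]; exact hu
        · exact hE x h1) (allT_insAll p (allL_supNEs h hu.1 hu.2 hE (allL_one _ hs)) hT)

private theorem esup_elimT (h : PW w R C) {adj v : ℕ} (hv : v < w) {nb : List ℕ}
    (hnb : ∀ u ∈ nb, u < w ∧ u ≠ v ∧ S u) (p : ℕ) {s : ℕ}
    (hs : Sup w (fun i => S i ∨ i = v) s) (c : K) {T : Tr K} (hT : AllT (Sup w S) T) :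
    AllT (Sup w S) (elimT neg mq add w R C adj v (keep w R C v) nb p s c T) := by
  have hnb' : ∀ u ∈ nb, u < w ∧ S u := fun u hu => ⟨(hnb u hu).1, (hnb u hu).2.2⟩
  rw [elimT_eq]
  cases h1 : Nat.beq (Nat.xor (Nat.land (Nat.shiftRight s (Nat.mul w v)) R) (Nat.pow 2 v)) 0 with
  | true =>
    have hr : (Nat.xor (Nat.land (Nat.shiftRight s (Nat.mul w v)) R) (Nat.pow 2 v)) = 0 :=
      Nat.eq_of_beq_eq_true h1
    have hrow : ∀ k, k < w → s.testBit (w * v + k) = true → k = v := by
      intro k hk hsk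
      by_contra hkv
      have := (h.rest hv s k).2 (Or.inl ⟨hk, hsk, hkv⟩)
      rw [hr, Nat.zero_testBit] at this
      exact absurd this (by decide)
    have hs' : Sup w S s := by
      refine ⟨hs.1, fun i j hi hj hij => ?_⟩
      by_cases hiv : i = v
      · left
        rw [hiv] at hij ⊢
        exact (hrow j hj hij).symm
      · by_cases hjv : j = v
        · left
          rw [hjv] at hij ⊢
          exact hrow i hi (hs.1.symm _ _ hi hv hij)
        · rcases hs.2 i j hi hj hij with h3 | ⟨h3, h4⟩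
          · exact Or.inl h3
          · exact Or.inr ⟨h3.resolve_right hiv, h4.resolve_right hjv⟩
    exact esup_elimGo h hs' c p hnb' (by simp) (allT_ins _ hs' hT _)
  | false =>
    have hr : (Nat.xor (Nat.land (Nat.shiftRight s (Nat.mul w v)) R) (Nat.pow 2 v)) ≠ 0 := by
      intro h0; rw [h0] at h1; exact absurd h1 (by decide)
    have hb := testBit_log2' hr
    rw [h.rest hv] at hb
    generalize hbe : Nat.log2 (Nat.xor (Nat.land (Nat.shiftRight s (Nat.mul w v)) R)
      (Nat.pow 2 v)) = b at hb ⊢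
    have hb' : b < w ∧ s.testBit (w * v + b) = true ∧ b ≠ v := by
      rcases hb with hb | hb
      · exact hb
      · exfalso
        apply hb.2
        rw [hb.1]; exact hs.1.rfl' v hv
    obtain ⟨hbw, hsb, hbv⟩ := hb'
    have hSb : S b := by
      rcases hs.2 v b hv hbw hsb with h3 | h3
      · exact absurd h3.symm hbv
      · exact h3.2.resolve_right hbv
    have hs' : Sup w S (Nat.land s (keep w R C v)) := by
      refine ⟨hs.1.and_keep h hv, fun i j hi hj hij => ?_⟩
      rw [h.and_keep hv s hi hj] at hij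
      rcases hij.2 with ha | ha
      · rcases hs.2 i j hi hj hij.1 with h3 | ⟨h3, h4⟩
        · exact Or.inl h3
        · exact Or.inr ⟨h3.resolve_right ha.1, h4.resolve_right ha.2⟩
      · left
        rw [ha.1, ha.2]
    exact allT_insAll p (allL_supNEs h hbw hSb hnb' (allL_one _ hs')) hT

private theorem esup_elimL (h : PW w R C) {adj v : ℕ} (hv : v < w) {nb : List ℕ}
    (hnb : ∀ u ∈ nb, u < w ∧ u ≠ v ∧ S u) (p : ℕ) {L : FL K}
    (hL : AllL (Sup w (fun i => S i ∨ i = v)) L) {T : Tr K} (hT : AllT (Sup w S) T) :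
    AllT (Sup w S) (elimL neg mq add w R C adj v (keep w R C v) nb p L T) := by
  induction L generalizing T with
  | nil => exact hT
  | cons s c L ih => exact ih hL.2 (esup_elimT h hv hnb p hL.1 c hT)

theorem allT_sup_elimA (h : PW w R C) {adj v : ℕ} (hv : v < w) {nb : List ℕ}
    (hnb : ∀ u ∈ nb, u < w ∧ u ≠ v ∧ S u) (p : ℕ) {T0 : Tr K}
    (hT0 : AllT (Sup w (fun i => S i ∨ i = v)) T0) {T : Tr K} (hT : AllT (Sup w S) T) :
    AllT (Sup w S) (elimA neg mq add w R C adj v (keep w R C v) nb p T0 T) := by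
  induction T0 generalizing T with
  | lf L => exact esup_elimL h hv hnb p hT0 hT
  | nd l r ihl ihr => exact ihr hT0.2 (ihl hT0.1 hT)

/-- admissible lists of inner slots -/
def SL (w : ℕ) : (ℕ → Prop) → List (ℕ × List ℕ) → Prop
  | _, [] => True
  | S, v :: vs => v.1 < w ∧ (∀ u ∈ v.2, u < w ∧ u ≠ v.1 ∧ S u) ∧ SL w (fun i => S i ∨ i = v.1) vs

/-- `S` and the slots of the list -/
def SX : (ℕ → Prop) → List (ℕ × List ℕ) → (ℕ → Prop)
  | S, [] => S
  | S, v :: vs => SX (fun i => S i ∨ i = v.1) vs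

theorem sx_iff (S : ℕ → Prop) (vs : List (ℕ × List ℕ)) (i : ℕ) :
    SX S vs i ↔ (S i ∨ i ∈ vs.map Prod.fst) := by
  induction vs generalizing S with
  | nil => simp [SX]
  | cons v vs ih =>
    rw [SX, ih, List.map_cons, List.mem_cons]
    tauto

theorem allT_sup_expand (h : PW w R C) (p n : ℕ) {T0 : Tr K} {vs : List (ℕ × List ℕ)}
    (hvs : SL w S vs) (hT0 : AllT (Sup w (SX S vs)) T0) (adj : ℕ) :
    AllT (Sup w S) (expand neg mq add w R C p n T0 vs adj) := by
  induction vs generalizing S adj with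
  | nil => exact hT0
  | cons v vs ih =>
    rw [expand_cons]
    exact allT_sup_elimA h hvs.1 hvs.2.1 p (ih hvs.2.2 hT0 _) (allT_emp _ _)

end Pool.Agent.SB
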