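import Pool.Agent.SB.ECon
import Pool.Agent.SB.ESup

/-!
# The innermost content

JOB SB-ERunB.  Prove all theorems of this file .

Plan.
* `lft_iff`: unfold, cases on `x % 2` (`0` or `1`), on `hi x - k`; `Nat.ble`.
* `eqsL_cons`, `nesL_cons` (by `rfl` and `frc_eq`), then inductions on `cs` with `L` general, using
  `lin_mulEQ`, `lin_mulNE`, `allL_mulEQ`, `allL_mulNE` of `U5C` and `allL_supNE`, `allL_supEQ`,
  `allL_nil_self` of `ESup.lean` (the code `0` gives `mulNE … 0 0`, for which the support lemma is
  `allL_nil_self`; for an odd code use `COk`: the code is not `0`, so `S (lo x)`, `S (hi x)`).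
* `lc A w d (idp w w) = 1` by `sat_idp`.
-/

set_option autoImplicit false

noncomputable section

namespace Pool.Agent.SB

open Pool.Agent.U5C

theorem lft_iff {k m x : ℕ} :
    lft k m x = true ↔ (x % 2 = 0 ∧ (hi x ≤ k ∨ k + m < hi x)) := by
  unfold lft
  rcases Nat.mod_two_eq_zero_or_one x with h | h
  · have h1 : Nat.mod x 2 = 0 := h
    rw [h1]
    cases hs : Nat.sub (hi x) k with
    | zero =>
      have h2 : hi x - k = 0 := hs
      have h3 : hi x ≤ k := by omega
      exact ⟨fun _ => ⟨h, Or.inl h3⟩, fun _ => rfl⟩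
    | succ y =>
      have h2 : hi x - k = y + 1 := hs
      show @Bool.rec (fun _ => Bool) true false (Nat.ble (Nat.succ y) m) = true ↔ _
      cases hb : Nat.ble (Nat.succ y) m with
      | true =>
        have h3 : y + 1 ≤ m := Nat.le_of_ble_eq_true hb
        constructor
        · intro h4
          exact absurd h4 (by decide)
        · rintro ⟨_, h4 | h4⟩
          · omega
          · omega
      | false =>
        have h3 : ¬ (y + 1 ≤ m) := by
          intro h4
          have h5 : Nat.ble (Nat.succ y) m = true := Nat.ble_eq_true_of_le h4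
          rw [hb] at h5
          exact absurd h5 (by decide)
        exact ⟨fun _ => ⟨h, Or.inr (by omega)⟩, fun _ => rfl⟩
  · have h1 : Nat.mod x 2 = 1 := h
    rw [h1]
    constructor
    · intro h4
      have h5 : false = true := h4
      exact absurd h5 (by decide)
    · rintro ⟨h4, _⟩
      omega

variable {K A : Type} [CommRing A] (ι : K → A) {neg mq : K → K} {add : K → K → K}
variable {w R C : ℕ}

private theorem eqsL_even {adj x : ℕ} {cs : List ℕ} {L : FL K} (hx : x % 2 = 0) :
    eqsL w R C adj (x :: cs) L = eqsL w R C adj cs L := by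
  have h1 : Nat.mod x 2 = 0 := hx
  show @Nat.rec (fun _ => FL K) _ _ (Nat.mod x 2) = _
  rw [h1]
  rfl

private theorem eqsL_odd {adj x : ℕ} {cs : List ℕ} {L : FL K} (hx : x % 2 ≠ 0) :
    eqsL w R C adj (x :: cs) L = eqsL w R C adj cs (mulEQ w R C adj (lo x) (hi x) L) := by
  have h1 : Nat.mod x 2 = 1 := by
    rcases Nat.mod_two_eq_zero_or_one x with h | h
    · exact absurd h hx
    · exact h
  show @Nat.rec (fun _ => FL K) _ (fun _ _ => frc (lo x) fun a => frc (hi x) fun b =>
    eqsL w R C adj cs (mulEQ w R C adj a b L)) (Nat.mod x 2) = _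
  rw [h1]
  show (frc (lo x) fun a => frc (hi x) fun b => eqsL w R C adj cs (mulEQ w R C adj a b L)) = _
  rw [frc_eq, frc_eq]

private theorem nesL_true {k m adj x : ℕ} {cs : List ℕ} {L : FL K} (hx : lft k m x = true) :
    nesL neg w R C k m adj (x :: cs) L =
      nesL neg w R C k m adj cs (mulNE neg w R C adj (lo x) (hi x) L) := by
  show @Bool.rec (fun _ => FL K) _ (frc (lo x) fun a => frc (hi x) fun b =>
    nesL neg w R C k m adj cs (mulNE neg w R C adj a b L)) (lft k m x) = _
  rw [hx]
  show (frc (lo x) fun a => frc (hi x) fun b =>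
    nesL neg w R C k m adj cs (mulNE neg w R C adj a b L)) = _
  rw [frc_eq, frc_eq]

private theorem nesL_false {k m adj x : ℕ} {cs : List ℕ} {L : FL K} (hx : lft k m x = false) :
    nesL neg w R C k m adj (x :: cs) L = nesL neg w R C k m adj cs L := by
  show @Bool.rec (fun _ => FL K) _ _ (lft k m x) = _
  rw [hx]
  rfl

private theorem allL_eqsL (h : PW w R C) {adj : ℕ} {cs : List ℕ}
    (hcs : ∀ x ∈ cs, lo x < w ∧ hi x < w) {L : FL K} (hL : AllL (Eqv w) L) :
    AllL (Eqv w) (eqsL w R C adj cs L) := by
  induction cs generalizing L with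
  | nil => exact hL
  | cons x cs ih =>
    have hx := hcs x List.mem_cons_self
    have ih' := fun L hL => ih (fun y hy => hcs y (List.mem_cons_of_mem _ hy)) (L := L) hL
    by_cases h2 : x % 2 = 0
    · rw [eqsL_even h2]
      exact ih' L hL
    · rw [eqsL_odd h2]
      exact ih' _ (allL_mulEQ h hx.1 hx.2 hL)

private theorem allL_nesL (h : PW w R C) {k m adj : ℕ} {cs : List ℕ}
    (hcs : ∀ x ∈ cs, lo x < w ∧ hi x < w) {L : FL K} (hL : AllL (Eqv w) L) :
    AllL (Eqv w) (nesL neg w R C k m adj cs L) := by
  induction cs generalizing L with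
  | nil => exact hL
  | cons x cs ih =>
    have hx := hcs x List.mem_cons_self
    have ih' := fun L hL => ih (fun y hy => hcs y (List.mem_cons_of_mem _ hy)) (L := L) hL
    cases h2 : lft k m x with
    | false =>
      rw [nesL_false h2]
      exact ih' L hL
    | true =>
      rw [nesL_true h2]
      exact ih' _ (allL_mulNE h hx.1 hx.2 hL)

open scoped Classical in
private theorem lin_eqsL {κ : Type} (h : PW w R C) {adj : ℕ} {d : ℕ → κ}
    (hd : U5C.Prp w adj d) {cs : List ℕ}
    (hcs : ∀ x ∈ cs, lo x < w ∧ hi x < w) {L : FL K} (hL : AllL (Eqv w) L) :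
    lin ι (lc A w d) (eqsL w R C adj cs L) =
      if (∀ x ∈ cs, x % 2 ≠ 0 → d (lo x) = d (hi x)) then lin ι (lc A w d) L else 0 := by
  induction cs generalizing L with
  | nil =>
    show lin ι (lc A w d) L = _
    simp
  | cons x cs ih =>
    have hx := hcs x List.mem_cons_self
    have ih' := fun L hL => ih (fun y hy => hcs y (List.mem_cons_of_mem _ hy)) (L := L) hL
    by_cases h2 : x % 2 = 0
    · rw [eqsL_even h2, ih' L hL]
      refine if_congr ?_ rfl rfl
      constructor
      · intro h3 y hy
        rcases List.mem_cons.1 hy with h4 | h4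
        · subst h4
          intro h5
          exact absurd h2 h5
        · exact h3 y h4
      · intro h3 y hy
        exact h3 y (List.mem_cons_of_mem _ hy)
    · rw [eqsL_odd h2, ih' _ (allL_mulEQ h hx.1 hx.2 hL), lin_mulEQ ι h hx.1 hx.2 hd hL]
      by_cases h3 : d (lo x) = d (hi x)
      · rw [if_pos h3]
        refine if_congr ?_ rfl rfl
        constructor
        · intro h4 y hy
          rcases List.mem_cons.1 hy with h5 | h5
          · subst h5
            intro _
            exact h3
          · exact h4 y h5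
        · intro h4 y hy
          exact h4 y (List.mem_cons_of_mem _ hy)
      · rw [if_neg h3, ite_self, if_neg]
        intro h4
        exact h3 (h4 x List.mem_cons_self h2)

open scoped Classical in
private theorem lin_nesL {κ : Type} {q : A} (h : PW w R C) (hI : Ip neg mq add ι q)
    {k m adj : ℕ} {d : ℕ → κ} (hd : U5C.Prp w adj d) {cs : List ℕ}
    (hcs : ∀ x ∈ cs, lo x < w ∧ hi x < w) {L : FL K} (hL : AllL (Eqv w) L) :
    lin ι (lc A w d) (nesL neg w R C k m adj cs L) =
      if (∀ x ∈ cs, lft k m x = true → d (lo x) ≠ d (hi x)) then lin ι (lc A w d) L else 0 := by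
  induction cs generalizing L with
  | nil =>
    show lin ι (lc A w d) L = _
    simp
  | cons x cs ih =>
    have hx := hcs x List.mem_cons_self
    have ih' := fun L hL => ih (fun y hy => hcs y (List.mem_cons_of_mem _ hy)) (L := L) hL
    cases h2 : lft k m x with
    | false =>
      rw [nesL_false h2, ih' L hL]
      refine if_congr ?_ rfl rfl
      constructor
      · intro h3 y hy
        rcases List.mem_cons.1 hy with h4 | h4
        · subst h4
          intro h5
          rw [h2] at h5
          exact absurd h5 (by decide)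
        · exact h3 y h4
      · intro h3 y hy
        exact h3 y (List.mem_cons_of_mem _ hy)
    | true =>
      rw [nesL_true h2, ih' _ (allL_mulNE h hx.1 hx.2 hL), lin_mulNE ι h hI hx.1 hx.2 hd hL]
      by_cases h3 : d (lo x) = d (hi x)
      · rw [if_pos h3, ite_self, if_neg]
        intro h4
        exact h4 x List.mem_cons_self h2 h3
      · rw [if_neg h3]
        refine if_congr ?_ rfl rfl
        constructor
        · intro h4 y hy
          rcases List.mem_cons.1 hy with h5 | h5
          · subst h5
            intro _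
            exact h3
          · exact h4 y h5
        · intro h4 y hy
          exact h4 y (List.mem_cons_of_mem _ hy)

private theorem allL_imp {P Q : ℕ → Prop} (hPQ : ∀ s, P s → Q s) {L : FL K} (hL : AllL P L) :
    AllL Q L := by
  induction L with
  | nil => trivial
  | cons s c L ih => exact ⟨hPQ s hL.1, ih hL.2⟩

private theorem cok_mem {S : ℕ → Prop} {x : ℕ} (h : COk w S x) (hx : x ≠ 0) :
    lo x < w ∧ hi x < w ∧ S (lo x) ∧ S (hi x) := by
  rcases h with h | h
  · exact absurd h hx
  · exact ⟨h.1, h.2.1, h.2.2.1, h.2.2.2.1⟩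

private theorem sup_eqsL (h : PW w R C) {adj : ℕ} {S : ℕ → Prop} {cs : List ℕ}
    (hcs : ∀ x ∈ cs, COk w S x) {L : FL K} (hL : AllL (Sup w S) L) :
    AllL (Sup w S) (eqsL w R C adj cs L) := by
  induction cs generalizing L with
  | nil => exact hL
  | cons x cs ih =>
    have hx := hcs x List.mem_cons_self
    have ih' := fun L hL => ih (fun y hy => hcs y (List.mem_cons_of_mem _ hy)) (L := L) hL
    by_cases h2 : x % 2 = 0
    · rw [eqsL_even h2]
      exact ih' L hL
    · rw [eqsL_odd h2]
      have hx0 : x ≠ 0 := by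
        rintro rfl
        exact h2 rfl
      obtain ⟨h3, h4, h5, h6⟩ := cok_mem hx hx0
      exact ih' _ (allL_supEQ h h3 h4 h5 h6 hL)

private theorem sup_nesL (h : PW w R C) {k m adj : ℕ} {S : ℕ → Prop} {cs : List ℕ}
    (hcs : ∀ x ∈ cs, COk w S x) {L : FL K} (hL : AllL (Sup w S) L) :
    AllL (Sup w S) (nesL neg w R C k m adj cs L) := by
  induction cs generalizing L with
  | nil => exact hL
  | cons x cs ih =>
    have hx := hcs x List.mem_cons_self
    have ih' := fun L hL => ih (fun y hy => hcs y (List.mem_cons_of_mem _ hy)) (L := L) hL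
    cases h2 : lft k m x with
    | false =>
      rw [nesL_false h2]
      exact ih' L hL
    | true =>
      rw [nesL_true h2]
      by_cases hx0 : x = 0
      · subst hx0
        have e1 : lo 0 = 0 := rfl
        have e2 : hi 0 = 0 := rfl
        rw [e1, e2]
        exact ih' _ (allL_nil_self h.pos (allL_imp (fun s hs => hs.1) hL) _)
      · obtain ⟨h3, h4, h5, h6⟩ := cok_mem hx hx0
        exact ih' _ (allL_supNE h h3 h4 h5 h6 hL)

open scoped Classical in
/-- the innermost content -/
theorem lin_inner {N k m : ℕ} (h : PW w R C) (hI : Ip neg mq add ι (N : A)) {adj : ℕ}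
    {d : ℕ → Fin N} (hd : U5C.Prp w adj d) {cs : List ℕ}
    (hcs : ∀ x ∈ cs, lo x < w ∧ hi x < w) (c : K) :
    lin ι (lc A w d) (nesL neg w R C k m adj cs (eqsL w R C adj cs (FL.cons (idp w w) c FL.nil))) =
      if (∀ y ∈ cs, (y % 2 ≠ 0 ∨ hi y ≤ k ∨ k + m < hi y) → con d y) then ι c else 0 := by
  have h0 : AllL (Eqv w) (FL.cons (idp w w) c FL.nil) := ⟨eqv_idp, trivial⟩
  rw [lin_nesL ι h hI hd hcs (allL_eqsL h hcs h0), lin_eqsL ι h hd hcs h0]
  have h1 : lin ι (lc A w d) (FL.cons (idp w w) c FL.nil) = ι c := by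
    rw [lin_cons, lin_nil]
    have h2 : lc A w d (idp w w) = 1 := if_pos (sat_idp w d)
    rw [h2, mul_one, add_zero]
  rw [h1]
  by_cases hA : ∀ x ∈ cs, lft k m x = true → d (lo x) ≠ d (hi x)
  · by_cases hB : ∀ x ∈ cs, x % 2 ≠ 0 → d (lo x) = d (hi x)
    · rw [if_pos hA, if_pos hB, if_pos]
      intro y hy h2
      by_cases h3 : y % 2 = 0
      · left
        refine ⟨h3, hA y hy ?_⟩
        rw [lft_iff]
        exact ⟨h3, h2.resolve_left fun h4 => h4 h3⟩
      · right
        exact ⟨h3, hB y hy h3⟩
    · rw [if_pos hA, if_neg hB, if_neg]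
      intro h2
      apply hB
      intro x hx h3
      rcases h2 x hx (Or.inl h3) with h4 | h4
      · exact absurd h4.1 h3
      · exact h4.2
  · rw [if_neg hA, if_neg]
    intro h2
    apply hA
    intro x hx h3
    rw [lft_iff] at h3
    rcases h2 x hx (Or.inr h3.2) with h4 | h4
    · exact h4.2
    · exact absurd h3.1 h4.1

theorem allL_inner (h : PW w R C) {k m adj : ℕ} {cs : List ℕ}
    (hcs : ∀ x ∈ cs, lo x < w ∧ hi x < w) (c : K) :
    AllL (Eqv w) (nesL neg w R C k m adj cs (eqsL w R C adj cs (FL.cons (idp w w) c FL.nil))) := by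
  exact allL_nesL h hcs (allL_eqsL h hcs ⟨eqv_idp, trivial⟩)

theorem allL_sup_inner (h : PW w R C) {k m adj : ℕ} {S : ℕ → Prop} {cs : List ℕ}
    (hcs : ∀ x ∈ cs, COk w S x) (c : K) :
    AllL (Sup w S) (nesL neg w R C k m adj cs
      (eqsL w R C adj cs (FL.cons (idp w w) c FL.nil))) := by
  exact sup_nesL h hcs (sup_eqsL h hcs ⟨sup_idp w S, trivial⟩)

end Pool.Agent.SB
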