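import Pool.Agent.SB.ERunA
import Pool.Agent.SB.ERunB

/-!
# The content of a constraint list, of an entry, of a sector

JOB SB-ERun.  Prove all theorems of this file.

Plan.
* `linT_runC`: unfold `runC`; `linT_expand` (`U5C/Elim.lean`) with `vok_vsl`, then `ext_vsl`; the
  inner trie is `linT_insAll`, `linT_emp`, `lin_inner` (all values with the colouring `upd k d x`,
  which is proper for `adj` because `adj` only has bits at slots `≤ k`).  The conditions of the two
  steps together are `∀ y ∈ cs, con (upd k d x) y`.  (`linT_expand` asks `AllT (Eqv w) T0`: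
  `allL_inner`, `allT_insAll`, `allT_emp`.)
* `allT_runC` (`allT_expand`), `allT_sup_runC` (`allT_sup_expand`, `sl_vsl`, `sx_vsl`,
  `allL_sup_inner`, `AllT.mono`-type lemma `allT_insAll`).
* `linT_runE`: `frc_eq`, `frcL_eq`, `prs_eq`, `linT_runC`; the codes are good by `prs_ok` with
  `S i := i < w` (elements of `pndsN P (k + 1) U` are `< w` by `mem_pndsN`), and `prs_con` with
  `acc = []` says that all constraints hold iff `T.val (…) = 1`; `fill_val_01`.
* `linT_secT`, `allT_secT`, `allT_sup_secT`: inductions on `es` (`linT_addTs`, `allT_addTs`).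
-/

set_option autoImplicit false

noncomputable section

namespace Pool.Agent.SB

open Pool.Agent.U5C
open Pool.Agent.Helper1.PG (Fill)

variable {K A : Type} [CommRing A] (ι : K → A) {neg mq : K → K} {add : K → K → K}
variable {w R C : ℕ}

private theorem er_lt {cs : List ℕ} (hw : 0 < w) {S : ℕ → Prop} (hcs : ∀ x ∈ cs, COk w S x) :
    ∀ x ∈ cs, lo x < w ∧ hi x < w := by
  intro x hx
  rcases hcs x hx with h | h
  · subst h
    exact ⟨hw, hw⟩
  · exact ⟨h.1, h.2.1⟩

private theorem er_ord {cs : List ℕ} {k : ℕ} {S : ℕ → Prop} (hcs : ∀ x ∈ cs, COk w S x) :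
    ∀ x ∈ cs, x % 2 = 0 → k < hi x → lo x < hi x := by
  intro x hx h2 hk
  rcases hcs x hx with h | h
  · subst h
    have h0 : hi 0 = 0 := rfl
    rw [h0] at hk
    omega
  · exact h.2.2.2.2 h2

private theorem er_prp {N k m : ℕ} {adj : ℕ}
    (hadj : ∀ t, adj.testBit t = true → t / w ≤ k ∧ t % w ≤ k)
    {d : ℕ → Fin N} (hd : U5C.Prp w adj d) (x : Fin m → Fin N) : U5C.Prp w adj (upd k d x) := by
  intro t ht
  obtain ⟨h1, h2⟩ := hadj t ht
  have e : ∀ i, i ≤ k → upd k d x i = d i := by
    intro i hi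
    unfold upd
    rw [dif_neg]
    intro h
    omega
  rw [e _ h1, e _ h2]
  exact hd t ht

private theorem er_runE {adj : ℕ} {k p n : ℕ} {U P : List ℕ} (T : Fill) (c : K) :
    runE neg mq add w R C p n k adj U c P T =
      runC neg mq add w R C p n k adj c P.length (prs T (pndsN P (k + 1) U) [] fun x => x) := by
  unfold runE
  rw [frc_eq, frcL_eq, prs_eq, lenN_eq]

private theorem er_mem {k : ℕ} {U P : List ℕ} (hU : ∀ u ∈ U, u < k) (hm : k + P.length < w) :
    ∀ x ∈ pndsN P (k + 1) U, x < w := by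
  intro x hx
  rcases mem_pndsN P (k + 1) U hx with h | h
  · have := hU x h
    omega
  · omega

open scoped Classical in
theorem linT_runC {N k m : ℕ} (h : PW w R C) (hI : Ip neg mq add ι (N : A)) (p n : ℕ)
    (hm : k + m < w) {adj : ℕ} (hadj : ∀ t, adj.testBit t = true → t / w ≤ k ∧ t % w ≤ k)
    {d : ℕ → Fin N} (hd : U5C.Prp w adj d) {cs : List ℕ}
    (hcs : ∀ x ∈ cs, COk w (fun i => i < w) x) (c : K) :
    linT ι (lc A w d) (runC neg mq add w R C p n k adj c m cs) =
      ι c * ∑ x : Fin m → Fin N, if (∀ y ∈ cs, con (upd k d x) y) then 1 else 0 := by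
  have hw0 : 0 < w := by omega
  have h1 := er_ord (k := k) hcs
  have h2 := er_lt hw0 hcs
  have hT0 : AllT (Eqv w) (insAll add p (nesL neg w R C k m adj cs
      (eqsL w R C adj cs (FL.cons (idp w w) c FL.nil))) (Tr.emp K n)) :=
    allT_insAll p (allL_inner h h2 c) (allT_emp _ _)
  have e1 : linT ι (lc A w d) (runC neg mq add w R C p n k adj c m cs) =
      ext (fun d => linT ι (lc A w d) (insAll add p (nesL neg w R C k m adj cs
      (eqsL w R C adj cs (FL.cons (idp w w) c FL.nil))) (Tr.emp K n))) (vsl m (k + 1) cs) d :=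
    linT_expand ι h hI p n hT0 (vok_vsl hm hadj h1) hd
  rw [e1, ext_vsl _ cs k m h1 d, Finset.mul_sum]
  refine Finset.sum_congr rfl fun x _ => ?_
  have hP := er_prp (m := m) hadj hd x
  have e2 : linT ι (lc A w (upd k d x)) (insAll add p (nesL neg w R C k m adj cs
      (eqsL w R C adj cs (FL.cons (idp w w) c FL.nil))) (Tr.emp K n)) =
      if (∀ y ∈ cs, (y % 2 ≠ 0 ∨ hi y ≤ k ∨ k + m < hi y) → con (upd k d x) y)
        then ι c else 0 := by
    rw [linT_insAll ι _ hI, linT_emp, zero_add, lin_inner ι h hI hP h2 c]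
  by_cases hA : ∀ y ∈ cs, con (upd k d x) y
  · rw [if_pos hA, if_pos (fun y hy _ _ _ => hA y hy), e2, if_pos (fun y hy _ => hA y hy),
      mul_one]
  · rw [if_neg hA, mul_zero]
    by_cases hB : ∀ y ∈ cs, y % 2 = 0 → k < hi y → hi y ≤ k + m → con (upd k d x) y
    · rw [if_pos hB, e2, if_neg]
      intro hC
      apply hA
      intro y hy
      by_cases h3 : y % 2 = 0 ∧ k < hi y ∧ hi y ≤ k + m
      · exact hB y hy h3.1 h3.2.1 h3.2.2
      · apply hC y hy
        omega
    · rw [if_neg hB]

theorem allT_runC (h : PW w R C) (p n : ℕ) {k m : ℕ} (hm : k + m < w) {adj : ℕ}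
    (hadj : ∀ t, adj.testBit t = true → t / w ≤ k ∧ t % w ≤ k) {cs : List ℕ}
    (hcs : ∀ x ∈ cs, COk w (fun i => i < w) x) (c : K) :
    AllT (Eqv w) (runC neg mq add w R C p n k adj c m cs) := by
  have hw0 : 0 < w := by omega
  exact allT_expand h p n (allT_insAll p (allL_inner h (er_lt hw0 hcs) c) (allT_emp _ _))
    (vok_vsl hm hadj (er_ord (k := k) hcs))

theorem allT_sup_runC (h : PW w R C) (p n : ℕ) {k m : ℕ} (hm : k + m < w) {S : ℕ → Prop}
    {adj : ℕ} {cs : List ℕ} (hcs : ∀ x ∈ cs, COk w (Sin S k m) x) (c : K) :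
    AllT (Sup w S) (runC neg mq add w R C p n k adj c m cs) := by
  have e : SX S (vsl m (k + 1) cs) = Sin S k m := by
    funext i
    exact propext (sx_vsl cs i)
  have hT0 : AllT (Sup w (SX S (vsl m (k + 1) cs))) (insAll add p (nesL neg w R C k m adj cs
      (eqsL w R C adj cs (FL.cons (idp w w) c FL.nil))) (Tr.emp K n)) := by
    rw [e]
    exact allT_insAll p (allL_sup_inner h hcs c) (allT_emp _ _)
  exact allT_sup_expand h p n (sl_vsl hm hcs) hT0 adj

theorem linT_runE {N k : ℕ} (h : PW w R C) (hw : w ≤ 32) (hI : Ip neg mq add ι (N : A)) (p n : ℕ)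
    {adj : ℕ} (hadj : ∀ t, adj.testBit t = true → t / w ≤ k ∧ t % w ≤ k)
    {d : ℕ → Fin N} (hd : U5C.Prp w adj d) {U P : List ℕ} (hU : ∀ u ∈ U, u < k)
    (hm : k + P.length < w) (T : Fill) (c : K) :
    linT ι (lc A w d) (runE neg mq add w R C p n k adj U c P T) =
      ι c * ∑ x : Fin P.length → Fin N,
        ((T.val ((pndsN P (k + 1) U).map (upd k d x)) : ℕ) : A) := by
  classical
  have hmem := er_mem hU hm
  have hcs : ∀ x ∈ prs T (pndsN P (k + 1) U) [] fun x => x, COk w (fun i => i < w) x :=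
    prs_ok hw T _ [] (fun x hx => ⟨hmem x hx, hmem x hx⟩) (by simp)
  rw [er_runE, linT_runC ι h hI p n hm hadj hd hcs c]
  congr 1
  refine Finset.sum_congr rfl fun x _ => ?_
  have h1 := prs_con (upd k d x) T (pndsN P (k + 1) U) [] (fun y hy => by
    have := hmem y hy
    omega)
  rcases fill_val_01 T ((pndsN P (k + 1) U).map (upd k d x)) with h2 | h2
  · rw [h2, if_neg]
    · simp
    · intro h3
      have := (h1.1 h3).2
      omega
  · rw [h2, if_pos (h1.2 ⟨by simp, h2⟩)]
    simp

theorem allT_runE (h : PW w R C) (hw : w ≤ 32) (p n : ℕ) {k : ℕ}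
    {adj : ℕ} (hadj : ∀ t, adj.testBit t = true → t / w ≤ k ∧ t % w ≤ k)
    {U P : List ℕ} (hU : ∀ u ∈ U, u < k) (hm : k + P.length < w) (T : Fill) (c : K) :
    AllT (Eqv w) (runE neg mq add w R C p n k adj U c P T) := by
  have hmem := er_mem hU hm
  rw [er_runE]
  exact allT_runC h p n hm hadj
    (prs_ok hw T _ [] (fun x hx => ⟨hmem x hx, hmem x hx⟩) (by simp)) c

theorem allT_sup_runE (h : PW w R C) (hw : w ≤ 32) (p n : ℕ) {k : ℕ} {adj : ℕ}
    {U P : List ℕ} (hU : ∀ u ∈ U, u < k) (hm : k + P.length < w) (T : Fill) (c : K) :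
    AllT (Sup w (fun i => i ∈ U)) (runE neg mq add w R C p n k adj U c P T) := by
  have hmem := er_mem hU hm
  rw [er_runE]
  refine allT_sup_runC h p n hm (prs_ok hw T _ [] (fun x hx => ⟨hmem x hx, ?_⟩) (by simp)) c
  rcases mem_pndsN P (k + 1) U hx with h1 | h1
  · exact Or.inl h1
  · right
    omega

theorem linT_secT {N k : ℕ} (h : PW w R C) (hw : w ≤ 32) (hI : Ip neg mq add ι (N : A)) (p n : ℕ)
    {adj : ℕ} (hadj : ∀ t, adj.testBit t = true → t / w ≤ k ∧ t % w ≤ k)
    {d : ℕ → Fin N} (hd : U5C.Prp w adj d) {U : List ℕ} (hU : ∀ u ∈ U, u < k)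
    (es : List (Ent K)) (hes : ∀ e ∈ es, k + e.P.length < w) (T : Tr K) :
    linT ι (lc A w d) (secT neg mq add w R C p n k adj U es T) =
      linT ι (lc A w d) T + (es.map fun e => ι e.c * ∑ x : Fin e.P.length → Fin N,
        ((e.T.val ((pndsN e.P (k + 1) U).map (upd k d x)) : ℕ) : A)).sum := by
  induction es generalizing T with
  | nil =>
    show linT ι (lc A w d) T = _
    simp
  | cons e es ih =>
    have e1 : secT neg mq add w R C p n k adj U (e :: es) T =
        secT neg mq add w R C p n k adj U es (addTs add (fun s => s) (fun c => c) p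
          (runE neg mq add w R C p n k adj U e.c e.P e.T) T) := rfl
    rw [e1, ih (fun e he => hes e (List.mem_cons_of_mem _ he)), linT_addTs ι _ hI,
      List.map_cons, List.sum_cons]
    have e2 := linT_runE ι h hw hI p n hadj hd hU (hes e List.mem_cons_self) e.T e.c
    have e3 : linT (fun c => ι c) (fun s => lc A w d s)
        (runE neg mq add w R C p n k adj U e.c e.P e.T) =
        linT ι (lc A w d) (runE neg mq add w R C p n k adj U e.c e.P e.T) := rfl
    rw [e3, e2, add_assoc]

theorem allT_secT (h : PW w R C) (hw : w ≤ 32) (p n : ℕ) {k : ℕ}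
    {adj : ℕ} (hadj : ∀ t, adj.testBit t = true → t / w ≤ k ∧ t % w ≤ k)
    {U : List ℕ} (hU : ∀ u ∈ U, u < k) (es : List (Ent K))
    (hes : ∀ e ∈ es, k + e.P.length < w) {T : Tr K} (hT : AllT (Eqv w) T) :
    AllT (Eqv w) (secT neg mq add w R C p n k adj U es T) := by
  induction es generalizing T with
  | nil => exact hT
  | cons e es ih =>
    have e1 : secT neg mq add w R C p n k adj U (e :: es) T =
        secT neg mq add w R C p n k adj U es (addTs add (fun s => s) (fun c => c) p
          (runE neg mq add w R C p n k adj U e.c e.P e.T) T) := rfl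
    rw [e1]
    refine ih (fun e he => hes e (List.mem_cons_of_mem _ he)) ?_
    exact allT_addTs (fun s hs => hs) _ p
      (allT_runE h hw p n hadj hU (hes e List.mem_cons_self) e.T e.c) hT

theorem allT_sup_secT (h : PW w R C) (hw : w ≤ 32) (p n : ℕ) {k : ℕ} {adj : ℕ}
    {U : List ℕ} (hU : ∀ u ∈ U, u < k) (es : List (Ent K))
    (hes : ∀ e ∈ es, k + e.P.length < w) {T : Tr K} (hT : AllT (Sup w (fun i => i ∈ U)) T) :
    AllT (Sup w (fun i => i ∈ U)) (secT neg mq add w R C p n k adj U es T) := by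
  induction es generalizing T with
  | nil => exact hT
  | cons e es ih =>
    have e1 : secT neg mq add w R C p n k adj U (e :: es) T =
        secT neg mq add w R C p n k adj U es (addTs add (fun s => s) (fun c => c) p
          (runE neg mq add w R C p n k adj U e.c e.P e.T) T) := rfl
    rw [e1]
    refine ih (fun e he => hes e (List.mem_cons_of_mem _ he)) ?_
    exact allT_addTs (fun s hs => hs) _ p
      (allT_sup_runE h hw p n hU (hes e List.mem_cons_self) e.T e.c) hT

end Pool.Agent.SB
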