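import Pool.Agent.SB.ECon
import Pool.Agent.SB.ESup

/-!
# The list of inner slots

JOB SB-ERunA.  Prove all theorems of this file (remove the `sorry`s, keep the statements).

`vsl m v cs` is the list of the slots `v, …, v + m - 1`, each with its smaller neighbours (the
numbers `lo x` of the codes `x` in `cs` with `x % 2 = 0`, `hi x = v`).

Plan.
* `mem_nbl`: induction on `cs`; `x % 2 + 2 * hi x = 2 * v ↔ x % 2 = 0 ∧ hi x = v`.
* `vsl_succ`: `frcL_eq`, `frc_eq`.
* `vok_vsl`, `sl_vsl`: induction on `m` with `v` and `adj` general, hypothesis: all bits of `adj` are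
  at slots `< v` (the star of `v` only adds the slots `≤ v`, `testBit_star` of `U5C/Elim.lean`).
* `ext_vsl`: prove first, for `v` general, with
  `updv v d x i = if h : v ≤ i ∧ i - v < m then x ⟨i - v, _⟩ else d i`,
  `ext g (vsl m v cs) d = ∑ x, if (∀ y ∈ cs, y % 2 = 0 → v ≤ hi y → hi y < v + m → con (updv v d x) y)
  then g (updv v d x) else 0` by induction on `m` (with `d` general); the sum over `Fin (m + 1) → Fin N`
  is a sum over the first value and the rest (`Fin.consEquiv`/`Fin.insertNthEquiv`,
  `Fintype.sum_prod_type`), `updv v d (Fin.cons y x) = updv (v + 1) (Function.update d v y) x`.  The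
  condition at the slot `v` does not change when larger slots get colours because `lo y < hi y = v`.
-/

set_option autoImplicit false

noncomputable section

namespace Pool.Agent.SB

open Pool.Agent.U5C

private theorem nbl_cons (v x : ℕ) (cs : List ℕ) :
    nbl v (x :: cs) = if x % 2 = 0 ∧ hi x = v then lo x :: nbl v cs else nbl v cs := by
  have e : nbl v (x :: cs) = @Bool.rec (fun _ => List ℕ) (nbl v cs) (lo x :: nbl v cs)
      (Nat.beq (x % 2 + 2 * hi x) (2 * v)) := rfl
  rw [e]
  have h2 : x % 2 < 2 := Nat.mod_lt _ (by norm_num)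
  by_cases h : x % 2 = 0 ∧ hi x = v
  · rw [if_pos h]
    have hb : Nat.beq (x % 2 + 2 * hi x) (2 * v) = true := by
      rw [Nat.beq_eq, h.1, h.2]
      omega
    rw [hb]
  · rw [if_neg h]
    have hb : Nat.beq (x % 2 + 2 * hi x) (2 * v) = false := by
      rw [Bool.eq_false_iff]
      intro hc
      rw [Nat.beq_eq] at hc
      exact h (by omega)
    rw [hb]

theorem mem_nbl {v : ℕ} {cs : List ℕ} {u : ℕ} :
    u ∈ nbl v cs ↔ ∃ x ∈ cs, x % 2 = 0 ∧ hi x = v ∧ lo x = u := by
  induction cs with
  | nil =>
    have e : nbl v [] = [] := rfl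
    rw [e]
    simp
  | cons x cs ih =>
    rw [nbl_cons]
    split_ifs with h
    · rw [List.mem_cons, ih]
      constructor
      · rintro (h1 | ⟨y, hy, h1⟩)
        · exact ⟨x, List.mem_cons_self, h.1, h.2, h1.symm⟩
        · exact ⟨y, List.mem_cons_of_mem _ hy, h1⟩
      · rintro ⟨y, hy, h1⟩
        rcases List.mem_cons.1 hy with h2 | h2
        · left
          rw [← h1.2.2, h2]
        · exact Or.inr ⟨y, h2, h1⟩
    · rw [ih]
      constructor
      · rintro ⟨y, hy, h1⟩
        exact ⟨y, List.mem_cons_of_mem _ hy, h1⟩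
      · rintro ⟨y, hy, h1⟩
        rcases List.mem_cons.1 hy with h2 | h2
        · rw [h2] at h1
          exact absurd ⟨h1.1, h1.2.1⟩ h
        · exact ⟨y, h2, h1⟩

theorem vsl_zero (v : ℕ) (cs : List ℕ) : vsl 0 v cs = [] := rfl

theorem vsl_succ (m v : ℕ) (cs : List ℕ) : vsl (m + 1) v cs = (v, nbl v cs) :: vsl m (v + 1) cs := by
  have e : vsl (m + 1) v cs = frcL (nbl v cs) fun nb => frc (Nat.succ v) fun v' =>
      (v, nb) :: vsl m v' cs := rfl
  rw [e, frcL_eq, frc_eq]

theorem vok_vsl {w k m adj : ℕ} {cs : List ℕ} (hm : k + m < w)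
    (hadj : ∀ t, adj.testBit t = true → t / w ≤ k ∧ t % w ≤ k)
    (hcs : ∀ x ∈ cs, x % 2 = 0 → k < hi x → lo x < hi x) :
    VOK w (vsl m (k + 1) cs) adj := by
  induction m generalizing k adj with
  | zero => exact trivial
  | succ m ih =>
    rw [vsl_succ]
    have hnb : ∀ u ∈ nbl (k + 1) cs, u < k + 1 := by
      intro u hu
      obtain ⟨x, hx, h0, h1, h2⟩ := mem_nbl.1 hu
      have h3 := hcs x hx h0 (by omega)
      omega
    refine ⟨by show k + 1 < w; omega, ?_, ?_, ?_⟩
    · intro u hu
      have h1 : u < k + 1 := hnb u hu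
      exact ⟨by omega, by show u ≠ k + 1; omega⟩
    · intro t ht
      have h1 := hadj t ht
      exact ⟨by show t / w ≠ k + 1; omega, by show t % w ≠ k + 1; omega⟩
    · show VOK w (vsl m (k + 1 + 1) cs) (adj ||| star w (k + 1) (nbl (k + 1) cs))
      refine ih (by omega) ?_ ?_
      · intro t ht
        rw [Nat.testBit_or, Bool.or_eq_true] at ht
        rcases ht with ht | ht
        · have h1 := hadj t ht
          omega
        · obtain ⟨u, hu, h1⟩ := testBit_star ht
          have h2 := hnb u hu
          rcases h1 with h1 | h1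
          · rw [h1, (idx (w := w) (show u < w by omega)).1, (idx (w := w) (show u < w by omega)).2]
            omega
          · rw [h1, (idx (w := w) (show k + 1 < w by omega)).1,
              (idx (w := w) (show k + 1 < w by omega)).2]
            omega
      · intro x hx h0 h1
        exact hcs x hx h0 (by omega)

theorem sl_vsl {w k m : ℕ} {S : ℕ → Prop} {cs : List ℕ} (hm : k + m < w)
    (hcs : ∀ x ∈ cs, COk w (Sin S k m) x) :
    SL w S (vsl m (k + 1) cs) := by
  induction m generalizing k S with
  | zero => exact trivial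
  | succ m ih =>
    rw [vsl_succ]
    refine ⟨by show k + 1 < w; omega, ?_, ?_⟩
    · intro u hu
      obtain ⟨x, hx, h0, h1, h2⟩ := mem_nbl.1 hu
      have hx0 : x ≠ 0 := by
        rintro rfl
        have h3 : hi 0 = 0 := rfl
        omega
      rcases hcs x hx with h3 | ⟨h3, h4, h5, h6, h7⟩
      · exact absurd h3 hx0
      · have h8 := h7 h0
        rw [h2] at h3 h5 h8
        refine ⟨h3, by show u ≠ k + 1; omega, ?_⟩
        rcases h5 with h5 | h5
        · exact h5
        · omega
    · show SL w (fun i => S i ∨ i = k + 1) (vsl m (k + 1 + 1) cs)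
      refine ih (by omega) ?_
      have hS : ∀ i, Sin S k (m + 1) i → Sin (fun i => S i ∨ i = k + 1) (k + 1) m i := by
        rintro i (h | h)
        · exact Or.inl (Or.inl h)
        · by_cases h1 : i = k + 1
          · exact Or.inl (Or.inr h1)
          · exact Or.inr (by omega)
      intro x hx
      rcases hcs x hx with h3 | ⟨h3, h4, h5, h6, h7⟩
      · exact Or.inl h3
      · exact Or.inr ⟨h3, h4, hS _ h5, hS _ h6, h7⟩

theorem sx_vsl {k m : ℕ} {S : ℕ → Prop} (cs : List ℕ) (i : ℕ) :
    SX S (vsl m (k + 1) cs) i ↔ Sin S k m i := by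
  induction m generalizing k S with
  | zero =>
    show S i ↔ (S i ∨ (k < i ∧ i ≤ k + 0))
    constructor
    · exact Or.inl
    · rintro (h | h)
      · exact h
      · omega
  | succ m ih =>
    rw [vsl_succ]
    show SX (fun i => S i ∨ i = k + 1) (vsl m (k + 1 + 1) cs) i ↔ _
    rw [ih]
    show ((S i ∨ i = k + 1) ∨ (k + 1 < i ∧ i ≤ k + 1 + m)) ↔ (S i ∨ (k < i ∧ i ≤ k + (m + 1)))
    constructor
    · rintro ((h | h) | h)
      · exact Or.inl h
      · exact Or.inr (by omega)
      · exact Or.inr (by omega)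
    · rintro (h | h)
      · exact Or.inl (Or.inl h)
      · by_cases h1 : i = k + 1
        · exact Or.inl (Or.inr h1)
        · exact Or.inr (by omega)

private theorem upd_cons {κ : Type} (k m : ℕ) (d : ℕ → κ) (y : κ) (x : Fin m → κ) :
    upd k d (Fin.cons y x : Fin (m + 1) → κ) = upd (k + 1) (Function.update d (k + 1) y) x := by
  funext i
  unfold upd
  by_cases h1 : i = k + 1
  · subst h1
    rw [dif_pos ⟨by omega, by omega⟩, dif_neg (by omega), Function.update_self]
    have e : (⟨k + 1 - (k + 1), by omega⟩ : Fin (m + 1)) = 0 := by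
      apply Fin.ext
      show k + 1 - (k + 1) = 0
      omega
    rw [e, Fin.cons_zero]
  · by_cases h2 : k + 1 < i ∧ i - (k + 1 + 1) < m
    · rw [dif_pos h2, dif_pos ⟨by omega, by omega⟩]
      have e : (⟨i - (k + 1), by omega⟩ : Fin (m + 1)) = Fin.succ ⟨i - (k + 1 + 1), h2.2⟩ := by
        apply Fin.ext
        show i - (k + 1) = i - (k + 1 + 1) + 1
        omega
      rw [e, Fin.cons_succ]
    · rw [dif_neg h2, dif_neg (by omega), Function.update_of_ne h1]

open scoped Classical in
theorem ext_vsl {A : Type} [CommRing A] {N : ℕ} (g : (ℕ → Fin N) → A) (cs : List ℕ) (k m : ℕ)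
    (hcs : ∀ x ∈ cs, x % 2 = 0 → k < hi x → lo x < hi x) (d : ℕ → Fin N) :
    ext g (vsl m (k + 1) cs) d = ∑ x : Fin m → Fin N,
      if (∀ y ∈ cs, y % 2 = 0 → k < hi y → hi y ≤ k + m → con (upd k d x) y) then
        g (upd k d x) else 0 := by
  induction m generalizing k d with
  | zero =>
    have e : ∀ x : Fin 0 → Fin N, upd k d x = d := by
      intro x
      funext i
      unfold upd
      rw [dif_neg (by omega)]
    rw [Fintype.sum_unique, if_pos, e]
    · rfl
    · intro y _ _ h1 h2
      omega
  | succ m ih =>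
    rw [vsl_succ]
    have e1 : ext g ((k + 1, nbl (k + 1) cs) :: vsl m (k + 1 + 1) cs) d =
        ∑ y : Fin N, if (∀ u ∈ nbl (k + 1) cs, y ≠ d u) then
          ext g (vsl m (k + 1 + 1) cs) (Function.update d (k + 1) y) else 0 := by
      rw [ext]
      refine Finset.sum_congr rfl fun y _ => ?_
      by_cases h : ∀ u ∈ nbl (k + 1) cs, y ≠ d u
      · rw [if_pos h, if_pos h]
      · rw [if_neg h, if_neg h]
    have e2 : ∀ F : (Fin (m + 1) → Fin N) → A,
        ∑ x : Fin (m + 1) → Fin N, F x = ∑ y : Fin N, ∑ x : Fin m → Fin N, F (Fin.cons y x) := by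
      intro F
      rw [← Fintype.sum_prod_type', ← (Fin.consEquiv fun _ => Fin N).sum_comp]
      rfl
    rw [e1, e2]
    refine Finset.sum_congr rfl fun y _ => ?_
    have hcs' : ∀ x ∈ cs, x % 2 = 0 → k + 1 < hi x → lo x < hi x :=
      fun x hx h0 h1 => hcs x hx h0 (by omega)
    rw [ih (k + 1) hcs' (Function.update d (k + 1) y)]
    have key : ∀ x : Fin m → Fin N,
        (∀ z ∈ cs, z % 2 = 0 → k < hi z → hi z ≤ k + (m + 1) →
          con (upd k d (Fin.cons y x : Fin (m + 1) → Fin N)) z) ↔
        ((∀ u ∈ nbl (k + 1) cs, y ≠ d u) ∧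
          (∀ z ∈ cs, z % 2 = 0 → k + 1 < hi z → hi z ≤ k + 1 + m →
            con (upd (k + 1) (Function.update d (k + 1) y) x) z)) := by
      intro x
      rw [upd_cons]
      have h5 : ∀ z ∈ cs, z % 2 = 0 → hi z = k + 1 →
          (con (upd (k + 1) (Function.update d (k + 1) y) x) z ↔ y ≠ d (lo z)) := by
        intro z hz h0 h1
        have h2 := hcs z hz h0 (by omega)
        have h3 : upd (k + 1) (Function.update d (k + 1) y) x (hi z) = y := by
          unfold upd
          rw [dif_neg (by omega), h1, Function.update_self]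
        have h4 : upd (k + 1) (Function.update d (k + 1) y) x (lo z) = d (lo z) := by
          unfold upd
          rw [dif_neg (by omega), Function.update_of_ne (by omega)]
        unfold con
        rw [h3, h4]
        constructor
        · rintro (h | h)
          · exact fun h6 => h.2 h6.symm
          · exact absurd h0 h.1
        · intro h
          exact Or.inl ⟨h0, fun h6 => h h6.symm⟩
      constructor
      · intro h
        refine ⟨?_, ?_⟩
        · intro u hu
          obtain ⟨z, hz, h0, h1, h2⟩ := mem_nbl.1 hu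
          rw [← h2]
          exact (h5 z hz h0 h1).1 (h z hz h0 (by omega) (by omega))
        · intro z hz h0 h1 h2
          exact h z hz h0 (by omega) (by omega)
      · rintro ⟨h, h'⟩ z hz h0 h1 h2
        by_cases h3 : hi z = k + 1
        · exact (h5 z hz h0 h3).2 (h _ (mem_nbl.2 ⟨z, hz, h0, h3, rfl⟩))
        · exact h' z hz h0 (by omega) (by omega)
    by_cases hy : ∀ u ∈ nbl (k + 1) cs, y ≠ d u
    · rw [if_pos hy]
      refine Finset.sum_congr rfl fun x _ => ?_
      rw [upd_cons]
      refine if_congr ?_ rfl rfl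
      have := key x
      rw [upd_cons] at this
      rw [this]
      exact ⟨fun h => ⟨hy, h⟩, fun h => h.2⟩
    · rw [if_neg hy]
      symm
      refine Finset.sum_eq_zero fun x _ => ?_
      rw [if_neg]
      intro h
      exact hy ((key x).1 h).1

end Pool.Agent.SB
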