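import Pool.Agent.SB.EProg

/-!
# Meaning of the program: definitions
-/

set_option autoImplicit false

noncomputable section

namespace Pool.Agent.SB

open Polynomial
open Pool.Agent.U5C
open Pool.Agent.Helper1.PG (Fill)
open Pool.Agent.Helper36.BL (cp cnt cols cp_eval mem_cols)

/-- the colours of the slots when the inner slots `k + 1, …, k + m` have the colours `x` -/
def upd {κ : Type} (k : ℕ) {m : ℕ} (d : ℕ → κ) (x : Fin m → κ) (i : ℕ) : κ :=
  if h : k < i ∧ i - (k + 1) < m then x ⟨i - (k + 1), h.2⟩ else d i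

/-- `d` satisfies the constraint with code `x` -/
def con {κ : Type} (d : ℕ → κ) (x : ℕ) : Prop :=
  (x % 2 = 0 ∧ d (lo x) ≠ d (hi x)) ∨ (x % 2 ≠ 0 ∧ d (lo x) = d (hi x))

open scoped Classical in
/-- number of admissible colourings of the inner slots -/
def cv (k m : ℕ) (cs : List ℕ) {N : ℕ} (d : ℕ → Fin N) : ℝ :=
  ∑ x : Fin m → Fin N, if (∀ y ∈ cs, con (upd k d x) y) then 1 else 0

/-- value of a filling, with pendants at `P`, of the face with corners `U` -/
def fv (k : ℕ) (U P : List ℕ) (T : Fill) {N : ℕ} (d : ℕ → Fin N) : ℝ :=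
  ∑ x : Fin P.length → Fin N, ((T.val ((pndsN P (k + 1) U).map (upd k d x)) : ℕ) : ℝ)

open scoped Classical in
/-- the same, the pendants do not get the colour `z` -/
def fz (k : ℕ) (U P : List ℕ) (T : Fill) {N : ℕ} (d : ℕ → Fin N) (z : Fin N) : ℝ :=
  ∑ x : Fin P.length → Fin N, if (∀ j, x j ≠ z) then
    ((T.val ((pndsN P (k + 1) U).map (upd k d x)) : ℕ) : ℝ) else 0

open scoped Classical in
/-- the value of a filling in the sector `J` -/
def sv (k : ℕ) (J U P : List ℕ) (T : Fill) {N : ℕ} (d : ℕ → Fin N) : ℝ :=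
  ∑ z : Fin N, if (∀ i, i < k → (d i = z ↔ i ∈ J)) then fz k U P T d z else 0

/-! ### operations on polynomials -/

def nR (c : ℝ[X]) : ℝ[X] := -c
def mR (c : ℝ[X]) : ℝ[X] := X * c
def aR (c d : ℝ[X]) : ℝ[X] := c + d
/-- the change of the number of colours -/
def fR (c : ℝ[X]) : ℝ[X] := c.comp (X - 1)

theorem ipR (N : ℕ) : Ip nR mR aR (fun c : ℝ[X] => c.eval (N : ℝ)) (N : ℝ) := by
  refine ⟨fun c => ?_, fun c => ?_, fun c d => ?_⟩
  · simp [nR]
  · simp [mR]
  · simp [aR]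

theorem fR_eval (c : ℝ[X]) (x : ℝ) : (fR c).eval x = c.eval (x - 1) := by
  simp [fR]

/-- value of a coefficient -/
def v4 (c : K4) : ℝ := ((c.1.1 : ℝ) - c.1.2) + ((c.2.1 : ℝ) - c.2.2) * tau

def cR (c : K4) : ℝ[X] := C (v4 c)

def Ent.map {K K' : Type} (φ : K → K') (e : Ent K) : Ent K' := ⟨φ e.c, e.P, e.T⟩

def Sec.map {K K' : Type} (φ : K → K') (S : Sec K) : Sec K' :=
  ⟨S.J, S.U, S.adj, S.es.map (Ent.map φ)⟩

/-! ### conditions -/

/-- support of a pattern: only the slots in `S` may be tied -/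
def Sup (w : ℕ) (S : ℕ → Prop) (s : ℕ) : Prop :=
  Eqv w s ∧ ∀ i j, i < w → j < w → s.testBit (w * i + j) = true → i = j ∨ (S i ∧ S j)

/-- good constraint codes -/
def COk (w : ℕ) (S : ℕ → Prop) (x : ℕ) : Prop :=
  x = 0 ∨ (lo x < w ∧ hi x < w ∧ S (lo x) ∧ S (hi x) ∧ (x % 2 = 0 → lo x < hi x))

/-- `S` and the inner slots `k + 1, …, k + m` -/
def Sin (S : ℕ → Prop) (k m : ℕ) (i : ℕ) : Prop := S i ∨ (k < i ∧ i ≤ k + m)

/-- `AN` is contained in the adjacency matrix of the ring -/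
def AOK (w k AN : ℕ) : Prop := ∀ t, AN.testBit t = true →
  t / w < k ∧ t % w < k ∧ (t % w = (t / w + 1) % k ∨ t / w = (t % w + 1) % k)

/-- admissible sectors -/
structure SOK (w k AN : ℕ) {K : Type} (S : Sec K) : Prop where
  J : ∀ j ∈ S.J, j < k
  U : S.U = (List.range k).filter (fun i => decide (i ∉ S.J))
  ne : S.U ≠ []
  adj : ∀ t, S.adj.testBit t = true → AN.testBit t = true ∧ t / w ∈ S.U ∧ t % w ∈ S.U
  m : ∀ e ∈ S.es, k + e.P.length < w

/-- the same entries with polynomial coefficients -/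
theorem SOK.map {w k AN : ℕ} {K K' : Type} (φ : K → K') {S : Sec K} (h : SOK w k AN S) :
    SOK w k AN (S.map φ) := by
  refine ⟨h.J, h.U, h.ne, h.adj, ?_⟩
  intro e he
  obtain ⟨e', he', rfl⟩ := List.mem_map.1 he
  exact h.m e' he'

end Pool.Agent.SB
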