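import Pool.Agent.SB.ERun

/-!
# Summation over the auxiliary slot

JOB SB-EZ.  Prove all theorems of this file (remove the `sorry`s, keep the statements).

Plan.
* `lin_flat`, `allL_flat`, `lin_mulEQs`, `allL_mulEQs`: inductions.
* `lc_sup`: `lc` is `1` or `0` according to `Sat`; `sat_iff` (`U5C/Bits.lean`); by `Sup` the tied
  slots are equal or both in `U`.
* `sum_succAbove`: functions `Fin m → Fin (N + 1)` avoiding `z` are the `z.succAbove ∘ x`
  (`Fin.exists_succAbove_eq`, `Fin.succAbove_right_injective`).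
* `linT_zT`: unfold `zT`, `frc_eq`; `linT_elimL` (`U5C/Elim.lean`, slot `k`, neighbours `S.U`) gives
  the sum over the colours `z` different from the colours of `U` of the value at
  `Function.update d k z` of the `mulEQs` of `flat …`; with `lin_mulEQs` the conditions together are
  `∀ i < k, d i = z ↔ i ∈ S.J`.  For such `z` choose `d' : ℕ → Fin N` with
  `z.succAbove (d' u) = d u` for all `u ∈ S.U` (`S.U ≠ []` gives an element of `Fin N`, hence a
  default value); `lc_sup` and `allT_sup_secT` change `Function.update d k z` into `d'`, `fR_eval`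
  changes `N + 1` into `N`, `linT_secT` gives the value, and `sum_succAbove` with `val_map_injOn`
  gives `fz` (the colours of the corners are `z.succAbove` of the colours for `d'`; the slots of
  `pndsN P (k + 1) U` are in `U` or inner).
-/

set_option autoImplicit false

noncomputable section

namespace Pool.Agent.SB

open Polynomial
open Pool.Agent.U5C
open Pool.Agent.Helper1.PG (Fill)

section

variable {K K' A : Type} [CommRing A]

theorem lin_flat (ι' : K' → A) (Λ : ℕ → A) (f : K → K') (T : Tr K) (L : FL K') :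
    lin ι' Λ (flat f T L) = lin ι' Λ L + linT (fun c => ι' (f c)) Λ T := by
  induction T generalizing L with
  | lf L0 =>
    induction L0 with
    | nil =>
      show lin ι' Λ L = lin ι' Λ L + 0
      rw [add_zero]
    | cons s c L0 ih =>
      show ι' (f c) * Λ s + lin ι' Λ (flat f (Tr.lf L0) L) =
        lin ι' Λ L + (ι' (f c) * Λ s + linT (fun c => ι' (f c)) Λ (Tr.lf L0))
      rw [ih]
      ring
  | nd l r ihl ihr =>
    show lin ι' Λ (flat f r (flat f l L)) = lin ι' Λ L +
      (linT (fun c => ι' (f c)) Λ l + linT (fun c => ι' (f c)) Λ r)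
    rw [ihr, ihl]
    ring

theorem allL_flat {Q : ℕ → Prop} (f : K → K') {T : Tr K} (hT : AllT Q T) {L : FL K'}
    (hL : AllL Q L) : AllL Q (flat f T L) := by
  induction T generalizing L with
  | lf L0 =>
    induction L0 with
    | nil => exact hL
    | cons s c L0 ih => exact ⟨hT.1, ih hT.2⟩
  | nd l r ihl ihr => exact ihr hT.2 (ihl hT.1 hL)

open scoped Classical in
theorem lin_mulEQs {κ : Type} {w R C : ℕ} (ι : K → A) (h : PW w R C) {adj z : ℕ} (hz : z < w)
    {J : List ℕ} (hJ : ∀ j ∈ J, j < w) {d : ℕ → κ} (hd : U5C.Prp w adj d) {L : FL K}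
    (hL : AllL (Eqv w) L) :
    lin ι (lc A w d) (mulEQs w R C adj z J L) =
      if (∀ j ∈ J, d z = d j) then lin ι (lc A w d) L else 0 := by
  induction J generalizing L with
  | nil => show lin ι (lc A w d) L = _; simp
  | cons j J ih =>
    show lin ι (lc A w d) (mulEQs w R C adj z J (mulEQ w R C adj z j L)) = _
    have hj := hJ j List.mem_cons_self
    rw [ih (fun x hx => hJ x (List.mem_cons_of_mem _ hx)) (allL_mulEQ h hz hj hL),
      lin_mulEQ ι h hz hj hd hL]
    by_cases h1 : d z = d j
    · simp [h1]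
    · simp [h1]

theorem allL_mulEQs {w R C : ℕ} (h : PW w R C) {adj z : ℕ} (hz : z < w)
    {J : List ℕ} (hJ : ∀ j ∈ J, j < w) {L : FL K} (hL : AllL (Eqv w) L) :
    AllL (Eqv w) (mulEQs w R C adj z J L) := by
  induction J generalizing L with
  | nil => exact hL
  | cons j J ih =>
    exact ih (fun x hx => hJ x (List.mem_cons_of_mem _ hx))
      (allL_mulEQ h hz (hJ j List.mem_cons_self) hL)

end

theorem lc_sup {κ κ' : Type} {w s : ℕ} (hw : 0 < w) {U : List ℕ} (hs : Sup w (fun i => i ∈ U) s)
    {d : ℕ → κ} {d' : ℕ → κ'} {g : κ' → κ} (hg : Function.Injective g)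
    (hdd : ∀ u ∈ U, d u = g (d' u)) : lc ℝ w d s = lc ℝ w d' s := by
  classical
  have hiff : Sat w s d ↔ Sat w s d' := ?_
  · unfold lc
    by_cases h1 : Sat w s d
    · rw [if_pos h1, if_pos (hiff.1 h1)]
    · rw [if_neg h1, if_neg fun h2 => h1 (hiff.2 h2)]
  rw [sat_iff hw hs.1, sat_iff hw hs.1]
  have key : ∀ i j, i < w → j < w → s.testBit (w * i + j) = true → (d i = d j ↔ d' i = d' j) := by
    intro i j hi hj hij
    rcases hs.2 i j hi hj hij with h1 | ⟨h1, h2⟩
    · rw [h1]
      simp
    · rw [hdd i h1, hdd j h2]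
      exact hg.eq_iff
  constructor
  · intro h1 i j hi hj hij
    exact (key i j hi hj hij).1 (h1 i j hi hj hij)
  · intro h1 i j hi hj hij
    exact (key i j hi hj hij).2 (h1 i j hi hj hij)

open scoped Classical in
theorem sum_succAbove {N m : ℕ} (z : Fin (N + 1)) (f : (Fin m → Fin (N + 1)) → ℝ) :
    (∑ x : Fin m → Fin (N + 1), if (∀ j, x j ≠ z) then f x else 0) =
      ∑ x : Fin m → Fin N, f (fun j => z.succAbove (x j)) := by
  rw [← Finset.sum_filter]
  have hinj : Function.Injective
      (fun (x : Fin m → Fin N) (j : Fin m) => z.succAbove (x j)) := by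
    intro x y hxy
    funext j
    exact Fin.succAbove_right_injective (congrFun hxy j)
  have himg : (Finset.univ.filter fun x : Fin m → Fin (N + 1) => ∀ j, x j ≠ z) =
      (Finset.univ : Finset (Fin m → Fin N)).image
        (fun (x : Fin m → Fin N) (j : Fin m) => z.succAbove (x j)) := by
    ext x
    simp only [Finset.mem_filter, Finset.mem_univ, true_and, Finset.mem_image]
    constructor
    · intro hx
      refine ⟨fun j => (Fin.exists_succAbove_eq (hx j)).choose, ?_⟩
      funext j
      exact (Fin.exists_succAbove_eq (hx j)).choose_spec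
    · rintro ⟨y, rfl⟩ j
      exact Fin.succAbove_ne z (y j)
  rw [himg, Finset.sum_image (fun x _ y _ hxy => hinj hxy)]

private theorem lin_neg {K A : Type} [CommRing A] (ι : K → A) (Λ : ℕ → A) (L : FL K) :
    lin (fun c => -ι c) Λ L = -lin ι Λ L := by
  induction L with
  | nil => simp
  | cons s c L ih =>
    rw [lin_cons, lin_cons, ih]
    ring

private theorem linT_neg {K A : Type} [CommRing A] (ι : K → A) (Λ : ℕ → A) (T : Tr K) :
    linT (fun c => -ι c) Λ T = -linT ι Λ T := by
  induction T with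
  | lf L => exact lin_neg ι Λ L
  | nd l r ihl ihr =>
    rw [linT_nd, linT_nd, ihl, ihr]
    ring

private theorem sum_list_comm {E : Type} {M : ℕ} (es : List E) (a : E → ℝ)
    (g : E → Fin M → ℝ) :
    (es.map fun e => a e * ∑ z, g e z).sum = ∑ z, (es.map fun e => a e * g e z).sum := by
  induction es with
  | nil => simp
  | cons e es ih =>
    simp only [List.map_cons, List.sum_cons]
    rw [ih, Finset.sum_add_distrib, Finset.mul_sum]

/-- the values of the sector content at a colouring which avoids the colour `z` on `U` -/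
private theorem fz_eq {k N : ℕ} {U P : List ℕ} (hU : ∀ u ∈ U, u < k) (T : Fill)
    {d : ℕ → Fin (N + 1)} {z : Fin (N + 1)} {d' : ℕ → Fin N}
    (hd' : ∀ u ∈ U, z.succAbove (d' u) = d u) :
    fz k U P T d z = ∑ x : Fin P.length → Fin N,
      ((T.val ((pndsN P (k + 1) U).map (upd k d' x)) : ℕ) : ℝ) := by
  unfold fz
  rw [sum_succAbove z (fun x => ((T.val ((pndsN P (k + 1) U).map (upd k d x)) : ℕ) : ℝ))]
  refine Finset.sum_congr rfl fun x _ => ?_
  have e1 : (pndsN P (k + 1) U).map (upd k d (fun j => z.succAbove (x j))) =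
      ((pndsN P (k + 1) U).map (upd k d' x)).map z.succAbove := by
    rw [List.map_map]
    refine List.map_congr_left fun i hi => ?_
    rcases mem_pndsN P (k + 1) U hi with h1 | ⟨h1, h2⟩
    · have hik := hU i h1
      have hn : ¬ (k < i ∧ i - (k + 1) < P.length) := by omega
      simp only [Function.comp_apply]
      unfold upd
      rw [dif_neg hn, dif_neg hn]
      exact (hd' i h1).symm
    · have hy : (k < i ∧ i - (k + 1) < P.length) := by omega
      simp only [Function.comp_apply]
      unfold upd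
      rw [dif_pos hy, dif_pos hy]
  rw [e1, val_map_injOn T _ z.succAbove (fun a _ b _ hab => Fin.succAbove_right_injective hab)]

theorem linT_zT {w R C k N : ℕ} (h : PW w R C) (hw : w ≤ 32) (hk : k < w) {AN : ℕ}
    (hA : AOK w k AN) (p n p' : ℕ) {S : Sec ℝ[X]} (hS : SOK w k AN S) {d : ℕ → Fin (N + 1)}
    (hd : U5C.Prp w AN d) (T : Tr ℝ[X]) :
    linT (fun c : ℝ[X] => c.eval ((N + 1 : ℕ) : ℝ)) (lc ℝ w d)
        (zT nR mR aR nR mR aR fR w R C p n p' k AN S T) =
      linT (fun c : ℝ[X] => c.eval ((N + 1 : ℕ) : ℝ)) (lc ℝ w d) T -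
        (S.es.map fun e => e.c.eval (N : ℝ) * sv k S.J S.U e.P e.T d).sum := by
  have hUk : ∀ u ∈ S.U, u < k := by
    intro u hu
    rw [hS.U, List.mem_filter, List.mem_range] at hu
    exact hu.1
  have hI1 := ipR (N + 1)
  have hIN := ipR N
  have hadj : ∀ t, S.adj.testBit t = true → t / w ≤ k ∧ t % w ≤ k := by
    intro t ht
    have h1 := hS.adj t ht
    exact ⟨(hUk _ h1.2.1).le, (hUk _ h1.2.2).le⟩
  have hsecE : AllT (Eqv w) (secT nR mR aR w R C p n k S.adj S.U S.es (Tr.emp ℝ[X] n)) :=
    allT_secT h hw p n hadj hUk S.es hS.m (allT_emp _ _)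
  have hsecS : AllT (Sup w (fun i => i ∈ S.U))
      (secT nR mR aR w R C p n k S.adj S.U S.es (Tr.emp ℝ[X] n)) :=
    allT_sup_secT h hw p n hUk S.es hS.m (allT_emp _ _)
  have hJw : ∀ j ∈ S.J, j < w := fun j hj => (hS.J j hj).trans hk
  have hflat : AllL (Eqv w) (flat (fun c => nR (fR c))
      (secT nR mR aR w R C p n k S.adj S.U S.es (Tr.emp ℝ[X] n)) FL.nil) :=
    allL_flat _ hsecE trivial
  have e0 : zT nR mR aR nR mR aR fR w R C p n p' k AN S T =
      elimL nR mR aR w R C AN k (keep w R C k) S.U p'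
        (mulEQs w R C AN k S.J (flat (fun c => nR (fR c))
          (secT nR mR aR w R C p n k S.adj S.U S.es (Tr.emp ℝ[X] n)) FL.nil)) T := by
    unfold zT
    rw [frc_eq]
  rw [e0, linT_elimL _ h hI1 hk (fun u hu => ⟨(hUk u hu).trans hk, (hUk u hu).ne⟩) p' hd
    (allL_mulEQs h hk hJw hflat)]
  rw [sub_eq_add_neg]
  congr 1
  unfold sv
  rw [sum_list_comm S.es (fun e => e.c.eval (N : ℝ)), ← Finset.sum_neg_distrib]
  refine Finset.sum_congr rfl fun z _ => ?_
  have hupd : ∀ i, i < k → Function.update d k z i = d i := fun i hi =>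
    Function.update_of_ne hi.ne _ _
  have hdz : U5C.Prp w AN (Function.update d k z) := by
    intro t ht
    have h1 := hA t ht
    rw [hupd _ h1.1, hupd _ h1.2.1]
    exact hd t ht
  have hcond : ((∀ u ∈ S.U, z ≠ d u) ∧ (∀ j ∈ S.J, z = d j)) ↔
      (∀ i, i < k → (d i = z ↔ i ∈ S.J)) := by
    constructor
    · rintro ⟨h1, h2⟩ i hi
      constructor
      · intro h3
        by_contra h4
        have h5 : i ∈ S.U := by
          rw [hS.U, List.mem_filter, List.mem_range]
          exact ⟨hi, by simpa using h4⟩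
        exact h1 i h5 h3.symm
      · intro h3
        exact (h2 i h3).symm
    · intro h1
      refine ⟨?_, ?_⟩
      · intro u hu h2
        have h3 := (h1 u (hUk u hu)).1 h2.symm
        rw [hS.U, List.mem_filter, List.mem_range] at hu
        exact (by simpa using hu.2 : u ∉ S.J) h3
      · intro j hj
        exact ((h1 j (hS.J j hj)).2 hj).symm
  by_cases hz : ∀ u ∈ S.U, z ≠ d u
  · rw [if_pos hz, lin_mulEQs _ h hk hJw hdz hflat]
    by_cases hzJ : ∀ j ∈ S.J, z = d j
    · have hc1 : ∀ j ∈ S.J, Function.update d k z k = Function.update d k z j := by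
        intro j hj
        rw [Function.update_self, hupd j (hS.J j hj)]
        exact hzJ j hj
      rw [if_pos hc1]
      have hc2 := hcond.1 ⟨hz, hzJ⟩
      simp only [if_pos hc2]
      -- the colouring of the remaining slots by `Fin N`
      obtain ⟨u0, hu0⟩ := List.exists_mem_of_ne_nil _ hS.ne
      obtain ⟨y0, _⟩ := Fin.exists_succAbove_eq (hz u0 hu0).symm
      obtain ⟨d', hd'⟩ : ∃ d' : ℕ → Fin N, ∀ u ∈ S.U, z.succAbove (d' u) = d u := by
        classical
        refine ⟨fun u => if hh : z ≠ d u then (Fin.exists_succAbove_eq hh.symm).choose else y0,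
          ?_⟩
        intro u hu
        have hh := hz u hu
        beta_reduce
        rw [dif_pos hh]
        exact (Fin.exists_succAbove_eq hh.symm).choose_spec
      have hd'p : U5C.Prp w S.adj d' := by
        intro t ht h1
        have h2 := hS.adj t ht
        apply hd t h2.1
        rw [← hd' _ h2.2.1, ← hd' _ h2.2.2, h1]
      rw [lin_flat, lin_nil, zero_add]
      have e1 : (fun c : ℝ[X] => (nR (fR c)).eval ((N + 1 : ℕ) : ℝ)) =
          fun c : ℝ[X] => -(fun c : ℝ[X] => c.eval (N : ℝ)) c := by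
        funext c
        unfold nR
        rw [eval_neg, fR_eval]
        push_cast
        rw [add_sub_cancel_right]
      rw [e1, linT_neg]
      congr 1
      rw [linT_congr (fun c : ℝ[X] => c.eval (N : ℝ)) (Λ' := lc ℝ w d')
        (fun s hs => lc_sup h.pos hs (g := z.succAbove) Fin.succAbove_right_injective
          (fun u hu => by rw [hupd u (hUk u hu)]; exact (hd' u hu).symm)) hsecS]
      rw [linT_secT _ h hw hIN p n hadj hd'p hUk S.es hS.m, linT_emp, zero_add]
      congr 1
      refine List.map_congr_left fun e _ => ?_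
      rw [fz_eq hUk e.T hd']
    · have hc1 : ¬ ∀ j ∈ S.J, Function.update d k z k = Function.update d k z j := by
        intro h1
        apply hzJ
        intro j hj
        have h2 := h1 j hj
        rwa [Function.update_self, hupd j (hS.J j hj)] at h2
      rw [if_neg hc1]
      have hc2 : ¬ (∀ i, i < k → (d i = z ↔ i ∈ S.J)) := fun h1 => hzJ (hcond.2 h1).2
      simp only [if_neg hc2]
      simp
  · rw [if_neg hz]
    have hc2 : ¬ (∀ i, i < k → (d i = z ↔ i ∈ S.J)) := fun h1 => hz (hcond.2 h1).1
    simp only [if_neg hc2]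
    simp


theorem linT_zTs {w R C k N : ℕ} (h : PW w R C) (hw : w ≤ 32) (hk : k < w) {AN : ℕ}
    (hA : AOK w k AN) (p n p' : ℕ) (Ss : List (Sec ℝ[X])) (hS : ∀ S ∈ Ss, SOK w k AN S)
    {d : ℕ → Fin (N + 1)} (hd : U5C.Prp w AN d) (T : Tr ℝ[X]) :
    linT (fun c : ℝ[X] => c.eval ((N + 1 : ℕ) : ℝ)) (lc ℝ w d)
        (zTs nR mR aR nR mR aR fR w R C p n p' k AN Ss T) =
      linT (fun c : ℝ[X] => c.eval ((N + 1 : ℕ) : ℝ)) (lc ℝ w d) T -
        (Ss.map fun S => (S.es.map fun e =>
          e.c.eval (N : ℝ) * sv k S.J S.U e.P e.T d).sum).sum := by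
  induction Ss generalizing T with
  | nil =>
    show linT (fun c : ℝ[X] => c.eval ((N + 1 : ℕ) : ℝ)) (lc ℝ w d) T = _
    simp
  | cons S Ss ih =>
    have e : zTs nR mR aR nR mR aR fR w R C p n p' k AN (S :: Ss) T =
      zTs nR mR aR nR mR aR fR w R C p n p' k AN Ss
        (zT nR mR aR nR mR aR fR w R C p n p' k AN S T) := rfl
    rw [e, ih (fun S' hS' => hS S' (List.mem_cons_of_mem _ hS')),
      linT_zT h hw hk hA p n p' (hS S List.mem_cons_self) hd]
    simp only [List.map_cons, List.sum_cons]
    ring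

end Pool.Agent.SB
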