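import Pool.Agent.SB.GEul
import Pool.Agent.SB.GDel

/-!
# Module SB-GLoc: the faces at an edge of a loopless plane multigraph with small faces

PLAN.  `h : T3 a b`, at least three vertices, `e` joins `v` and `x` (so `v ≠ x`).
1. Take the words `(e, c) ..` of the two sides of `e` from `exists_trk_side`; their numbers of sides
   are `dg` (`trk_len`), at most `3`.  Steps of a word join different vertices (`h.nl`).
2. If both sides of `e` are on the same face, its word `v → x → ..→ v` contains `(e, true)` and
   `(e, false)`.  With three sides `v → x → v → v` or `v → x → x → v` has a loop, so the word has exactly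
   the two sides of `e`.  Then `e` is the only edge on this face.  The faces at `v` are connected by
   edges at `v` (`IsPl.fc_dual`), so every edge at `v` is `e` (an edge at `v` joining this face with
   another one would be on this face; use `exists_step_ne` for the faces), same for `x`.  As `a` is
   connected (`h.pl.conn`), `V = {v, x}`, contradiction with `hV`.  So `(b e).1 ≠ (b e).2`.
3. Number of sides of the two faces: not `1` (loop).  If one of them is `2`, the word is
   `v → x → v` by `e` and another edge `e' ≠ e` (if `e' = e` it would use the other side of `e`, which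
   is on the other face): `Par a e e'`.  Delete `e`: `IsPl.delete`, no loops, and the face degrees
   are `2 + dg g - 2 ≤ 3` (`dg_contr_self`) and unchanged (`dg_contr_ne`).  First alternative.
4. Otherwise both words have three sides: second alternative.  `z ≠ v`, `z ≠ x` by `h.nl` on the steps.
-/

set_option autoImplicit false

namespace Pool.Agent.SB

open Pool.Agent.Helper1.PG

variable {V F E : Type}

private theorem shape {a : E → V × V} {x v : V} {l : List (Tok V E)} (hm : marks l = [])
    (hp : Path a x l v) (hlen : (sides l).length ≤ 2) (hne : x ≠ v) :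
    (∃ s : E × Bool, l = [Sum.inr (s, v)] ∧ Jn a x v s.1) ∨
      ∃ (s1 : E × Bool) (z : V) (s2 : E × Bool),
        l = [Sum.inr (s1, z), Sum.inr (s2, v)] ∧ Jn a x z s1.1 ∧ Jn a z v s2.1 := by
  rcases l with _ | ⟨t, l⟩
  · exact absurd hp hne
  rcases t with m | ⟨s1, z⟩
  · exact absurd hm (by simp [marks])
  have hm1 : marks l = [] := hm
  have hp1 : Jn a x z s1.1 ∧ Path a z l v := hp
  rcases l with _ | ⟨t, l⟩
  · have hz : z = v := hp1.2
    subst hz
    exact Or.inl ⟨s1, rfl, hp1.1⟩
  rcases t with m | ⟨s2, y⟩
  · exact absurd hm1 (by simp [marks])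
  have hm2 : marks l = [] := hm1
  have hp2 : Jn a z y s2.1 ∧ Path a y l v := hp1.2
  rcases l with _ | ⟨t, l⟩
  · have hy : y = v := hp2.2
    subst hy
    exact Or.inr ⟨s1, z, s2, rfl, hp1.1, hp2.1⟩
  rcases t with m | ⟨s3, w⟩
  · exact absurd hm2 (by simp [marks])
  · exfalso
    have h3 : (s1 :: s2 :: s3 :: sides l).length ≤ 2 := hlen
    simp at h3

private theorem jn_inc {a : E → V × V} {u v : V} {e : E} (h : Jn a u v e) : Inc a u e := by
  rcases h with h | h
  · exact Or.inl h.1
  · exact Or.inr h.2

private theorem jn_ne {a : E → V × V} (nl : ∀ e, (a e).1 ≠ (a e).2) {u v : V} {e : E}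
    (h : Jn a u v e) : u ≠ v := by
  intro h2
  subst h2
  rcases h with h | h
  · exact nl e (h.1.trans h.2.symm)
  · exact nl e (h.1.trans h.2.symm)

private theorem jn_other {a : E → V × V} {u v w : V} {e : E} (hne : u ≠ v)
    (h : Jn a u v e) (h2 : Jn a v w e) : w = u := by
  rcases h with h | h <;> rcases h2 with h2 | h2
  · exact absurd (h.1.symm.trans h2.1) hne
  · exact h2.1.symm.trans h.1
  · exact h2.2.symm.trans h.2
  · exact absurd (h.2.symm.trans h2.2) hne

private theorem jn_other' {a : E → V × V} {u v w : V} {e : E} (hne : u ≠ v)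
    (h : Jn a u v e) (h2 : Jn a w u e) : w = v :=
  jn_other (Ne.symm hne) h.symm h2.symm

private theorem jn_par {a : E → V × V} {u v : V} {e e' : E} (h : Jn a u v e)
    (h2 : Jn a u v e') : Par a e e' := by
  rcases h with h | h <;> rcases h2 with h2 | h2
  · exact Or.inl ⟨h.1.trans h2.1.symm, h.2.trans h2.2.symm⟩
  · exact Or.inr ⟨h.1.trans h2.2.symm, h.2.trans h2.1.symm⟩
  · exact Or.inr ⟨h.1.trans h2.2.symm, h.2.trans h2.1.symm⟩
  · exact Or.inl ⟨h.1.trans h2.1.symm, h.2.trans h2.2.symm⟩

/-- the face which is only on `e` -/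
private theorem only_edge [Fintype V] [Fintype F] [Fintype E] {a : E → V × V} {b : E → F × F}
    (h : IsPl a b) {e : E} (heq : (b e).1 = (b e).2)
    (honly : ∀ d, Inc b (b e).1 d → d = e) {v : V} (hv : Inc a v e) {d : E} (hd : Inc a v d) :
    d = e := by
  by_contra hde
  have h1 := h.fc_dual v e d hv hd
  have h2 : ¬ (b d).1 = (b e).1 := fun h3 => hde (honly d (Or.inl h3))
  obtain ⟨p, q, ⟨c, _, hc⟩, h3, h4⟩ := exists_step_ne (p := fun z => z = (b e).1) h1 rfl h2
  have h5 : c = e := by
    apply honly
    rcases hc with hc | hc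
    · exact Or.inl (hc.1.trans h3)
    · exact Or.inr (hc.2.trans h3)
  subst h5
  rcases hc with hc | hc
  · exact h4 (hc.2.symm.trans heq.symm)
  · exact h4 hc.1.symm

open scoped Classical in
private theorem delT3 [Fintype V] [Fintype F] [Fintype E] {a : E → V × V} {b : E → F × F}
    (h : T3 a b) {e : E} (h0 : (b e).1 ≠ (b e).2) (hd : dg b (b e).1 ≤ 2 ∨ dg b (b e).2 ≤ 2) :
    T3 (del a e) (contr b e h0) where
  pl := h.pl.delete h0
  nl := fun d => h.nl d.1
  d3 := by
    rintro ⟨g, hg⟩
    by_cases hg1 : g = (b e).1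
    · subst hg1
      have h1 := dg_contr_self (b := b) (e0 := e) h0
      have h2 := h.d3 (b e).1
      have h3 := h.d3 (b e).2
      have h4 : dg (contr b e h0) ⟨(b e).1, hg⟩ = dg (contr b e h0) ⟨(b e).1, h0⟩ := rfl
      rw [h4]
      rcases hd with hd | hd <;> omega
    · rw [dg_contr_ne h0 hg1 hg]
      exact h.d3 g

open scoped Classical in
theorem T3.loc [Fintype V] [Fintype F] [Fintype E] {a : E → V × V} {b : E → F × F}
    (h : T3 a b) (hV : 3 ≤ Fintype.card V) {v x : V} {e : E} (hj : Jn a v x e) :
    ∃ h0 : (b e).1 ≠ (b e).2,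
      (T3 (del a e) (contr b e h0) ∧ ∃ e', e' ≠ e ∧ Par a e e') ∨
      ∃ (z w : V) (s1 s2 s3 s4 : E × Bool),
        Trk a b (sf b (e, false)) v [Sum.inr ((e, false), x), Sum.inr (s1, z), Sum.inr (s2, v)] ∧
        Trk a b (sf b (e, true)) x [Sum.inr ((e, true), v), Sum.inr (s3, w), Sum.inr (s4, x)] ∧
        z ≠ v ∧ z ≠ x ∧ w ≠ v ∧ w ≠ x := by
  have hvx : v ≠ x := jn_ne h.nl hj
  obtain ⟨l1, hm1, ht1⟩ := exists_trk_side h.pl e false hj
  obtain ⟨l2, hm2, ht2⟩ := exists_trk_side h.pl e true hj.symm
  have hlen1 : (sides l1).length ≤ 2 := by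
    have h1 := trk_len ht1
    have h2 := h.d3 (sf b (e, false))
    have h3 : (sides (Sum.inr ((e, false), x) :: l1 : List (Tok V E))).length =
        (sides l1).length + 1 := rfl
    omega
  have hlen2 : (sides l2).length ≤ 2 := by
    have h1 := trk_len ht2
    have h2 := h.d3 (sf b (e, true))
    have h3 : (sides (Sum.inr ((e, true), v) :: l2 : List (Tok V E))).length =
        (sides l2).length + 1 := rfl
    omega
  have hp1 : Path a x l1 v := ht1.path.2
  have hp2 : Path a v l2 x := ht2.path.2
  have sh1 := shape hm1 hp1 hlen1 (Ne.symm hvx)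
  have sh2 := shape hm2 hp2 hlen2 hvx
  have hf1 : sf b (e, false) = (b e).1 := rfl
  have hf2 : sf b (e, true) = (b e).2 := rfl
  -- the sides of `e` are on different faces
  have h0 : (b e).1 ≠ (b e).2 := by
    intro heq
    have hmem : (e, true) ∈ sides (Sum.inr ((e, false), x) :: l1 : List (Tok V E)) :=
      (ht1.mem (e, true)).2 (hf2.trans (heq.symm.trans hf1.symm))
    have honly : ∀ d, Inc b (b e).1 d → d = e := by
      rcases sh1 with ⟨s, hl, hs⟩ | ⟨s1, z, s2, hl, hs1, hs2⟩
      · subst hl
        have hmem' : (e, true) ∈ [(e, false), s] := hmem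
        have hse : s = (e, true) := by
          simp only [List.mem_cons, List.not_mem_nil, or_false] at hmem'
          rcases hmem' with h1 | h1
          · exact absurd (congrArg Prod.snd h1) (by simp)
          · exact h1.symm
        intro d hd
        have hall : ∀ s' : E × Bool, sf b s' = sf b (e, false) → s'.1 = e := by
          intro s' hs'
          have h1 : s' ∈ [(e, false), s] := (ht1.mem s').2 hs'
          simp only [List.mem_cons, List.not_mem_nil, or_false] at h1
          rcases h1 with h1 | h1
          · rw [h1]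
          · rw [h1, hse]
        rcases hd with hd | hd
        · exact hall (d, false) (by rw [hf1, ← hd]; rfl)
        · exact hall (d, true) (by rw [hf1, ← hd]; rfl)
      · exfalso
        subst hl
        have hmem' : (e, true) ∈ [(e, false), s1, s2] := hmem
        simp only [List.mem_cons, List.not_mem_nil, or_false] at hmem'
        rcases hmem' with h1 | h1 | h1
        · exact absurd (congrArg Prod.snd h1) (by simp)
        · rw [← h1] at hs1
          have h2 : z = v := jn_other hvx hj hs1
          exact jn_ne h.nl hs2 h2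
        · rw [← h1] at hs2
          have h2 : z = x := jn_other' hvx hj hs2
          exact jn_ne h.nl hs1 h2.symm
    have hov : ∀ d, Inc a v d → d = e := fun d hd => only_edge h.pl heq honly (jn_inc hj) hd
    have hox : ∀ d, Inc a x d → d = e := fun d hd =>
      only_edge h.pl heq honly (jn_inc hj.symm) hd
    obtain ⟨y, hy⟩ : ∃ y : V, ¬ (y = v ∨ y = x) := by
      by_contra hcon
      push Not at hcon
      have h1 : (Finset.univ : Finset V) ⊆ {v, x} := by
        intro y _
        simp only [Finset.mem_insert, Finset.mem_singleton]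
        exact hcon y
      have h2 := Finset.card_le_card h1
      have h3 : ({v, x} : Finset V).card ≤ 2 := Finset.card_le_two
      rw [Finset.card_univ] at h2
      omega
    obtain ⟨p, q, ⟨d, hd⟩, h3, h4⟩ := exists_step_ne (p := fun z => z = v ∨ z = x)
      (h.pl.conn v y) (Or.inl rfl) hy
    have hpq : Jn a p q d := hd
    have hde : d = e := by
      rcases h3 with h3 | h3
      · exact hov d (h3 ▸ jn_inc hpq)
      · exact hox d (h3 ▸ jn_inc hpq)
    subst hde
    apply h4
    have hq : Inc a q d := jn_inc hpq.symm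
    rcases hq with hq | hq <;> rcases hj with hj' | hj'
    · exact Or.inl (hq.symm.trans hj'.1)
    · exact Or.inr (hq.symm.trans hj'.1)
    · exact Or.inr (hq.symm.trans hj'.2)
    · exact Or.inl (hq.symm.trans hj'.2)
  refine ⟨h0, ?_⟩
  rcases sh1 with ⟨s, hl, hs⟩ | ⟨s1, z, s2, hl1, hs1, hs2⟩
  · left
    subst hl
    have hd : dg b (b e).1 ≤ 2 := by
      rw [← hf1, ← trk_len ht1]
      exact le_refl 2
    refine ⟨delT3 h h0 (Or.inl hd), s.1, ?_, jn_par hj hs.symm⟩
    intro hse
    have hnd : ([(e, false), s] : List (E × Bool)).Nodup := ht1.nodup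
    have hsm : sf b s = sf b (e, false) := (ht1.mem s).1 (by
      show s ∈ [(e, false), s]
      simp)
    obtain ⟨s', c⟩ := s
    have hse : s' = e := hse
    subst hse
    cases c
    · simp at hnd
    · exact h0 hsm.symm
  · rcases sh2 with ⟨s, hl, hs⟩ | ⟨s3, w, s4, hl2, hs3, hs4⟩
    · left
      subst hl
      have hd : dg b (b e).2 ≤ 2 := by
        rw [← hf2, ← trk_len ht2]
        exact le_refl 2
      refine ⟨delT3 h h0 (Or.inr hd), s.1, ?_, jn_par hj hs⟩
      intro hse
      have hnd : ([(e, true), s] : List (E × Bool)).Nodup := ht2.nodup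
      have hsm : sf b s = sf b (e, true) := (ht2.mem s).1 (by
        show s ∈ [(e, true), s]
        simp)
      obtain ⟨s', c⟩ := s
      have hse : s' = e := hse
      subst hse
      cases c
      · exact h0 hsm
      · simp at hnd
    · right
      subst hl1
      subst hl2
      exact ⟨z, w, s1, s2, s3, s4, ht1, ht2, jn_ne h.nl hs2, (jn_ne h.nl hs1).symm,
        (jn_ne h.nl hs3).symm, jn_ne h.nl hs4⟩

end Pool.Agent.SB
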