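import Pool.Agent.SB.Def

/-!
# Module SB-GNC: coincidences of the marks of a tracked face do not cross

If the marks `p, r, p, r` occur on a tracked face in this order then `p = r` (Jordan).

PLAN.  Suppose `p ≠ r`.  Insert a loop between the two marks `p` (`IsPl.insert_trk` with
`p := p, r := p`, the second mark in the middle word `l2' := l2 ++ Sum.inl r :: l3`): we get a plane
multigraph `a' = addE a p p`, `b' = splitF ..` whose new edge `none` is a loop of `a'`.
`IsPlane.bridge_of_dloop` (`Helper1/PG/Euler.lean`), applied to the dual pair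
(`h1.toIsPlane.symm : IsPlane b' a'`), says that the two sides of the edge `none` are NOT connected
in the dual by edges `≠ none`.  The sides are the faces `none` and `some f0`
(`(splitF b f0 A1 A2 none)`: unfold `splitF`).

Both words of the new faces contain the mark `r`, and `r ≠ p`; the walk starts at `p`, so it contains
a step that arrives at `r`: an edge `e1 ≠ none` with `Inc a' r e1` and a side on the face `none`, and
an edge `e2 ≠ none` with `Inc a' r e2` and a side on the face `some f0`.  (Small lemma: if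
`Path a x (l1 ++ Sum.inl r :: l2) y` and `x ≠ r` then some side `s ∈ sides l1` has `Inc a r s.1`;
induction on `l1`.  For the second word `liftTok l1 ++ Sum.inl p :: Sum.inr ((none, false), p) ::
Sum.inl p :: liftTok (l4 ++ Sum.inl r :: l5)` look at the part of the walk from the second `p`.)
By `IsPl.fc_dual` (`Helper1/PG/FC.lean`) the faces `(b' e1).1` and `(b' e2).1` are connected by
edges incident with `r`; the loop `none` is at `p ≠ r`, so these edges are not `none`.  With the
edges `e1`, `e2` themselves the faces `none` and `some f0` are connected without the edge `none`: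
contradiction.
-/

set_option autoImplicit false

namespace Pool.Agent.SB

open Pool.Agent.Helper1.PG

variable {V F E : Type}

private theorem exists_inc_mark {a : E → V × V} {r : V} : ∀ (l1 : List (Tok V E))
    (l2 : List (Tok V E)) (x y : V), Path a x (l1 ++ Sum.inl r :: l2) y → x ≠ r →
    ∃ s ∈ sides l1, Inc a r s.1
  | [], l2, x, y, h, hx => absurd h.1.symm hx
  | (Sum.inl w :: l1), l2, x, y, h, hx => exists_inc_mark l1 l2 x y h.2 hx
  | (Sum.inr (t, z) :: l1), l2, x, y, h, hx => by
    classical
    by_cases hz : z = r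
    · refine ⟨t, List.mem_cons_self .., ?_⟩
      rcases h.1 with h1 | h1
      · exact Or.inr (h1.2.trans hz)
      · exact Or.inl (h1.1.trans hz)
    · obtain ⟨s, hs, hi⟩ := exists_inc_mark l1 l2 z y h.2 hz
      exact ⟨s, List.mem_cons_of_mem _ hs, hi⟩

private theorem link_of_inc {b : E → F × F} {P : E → Prop} {f : F} {s : E × Bool}
    (hs : sf b s = f) (hP : P s.1) : Relation.ReflTransGen (LkOn b P) f (b s.1).1 := by
  unfold sf at hs
  by_cases h2 : s.2 = true
  · rw [if_pos h2] at hs
    exact Relation.ReflTransGen.single ⟨s.1, hP, Or.inr ⟨rfl, hs⟩⟩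
  · rw [if_neg h2] at hs
    rw [hs]

theorem noncross [Fintype V] [Fintype F] [Fintype E] {a : E → V × V} {b : E → F × F}
    (h : IsPl a b) {f : F} {x p r : V} {l1 l2 l3 l4 l5 : List (Tok V E)}
    (ht : Trk a b f x (l1 ++ Sum.inl p :: (l2 ++ Sum.inl r :: (l3 ++ Sum.inl p ::
      (l4 ++ Sum.inl r :: l5))))) : p = r := by
  classical
  by_contra hpr
  have hw : l2 ++ Sum.inl r :: (l3 ++ Sum.inl p :: (l4 ++ Sum.inl r :: l5)) =
      (l2 ++ Sum.inl r :: l3) ++ Sum.inl p :: (l4 ++ Sum.inl r :: l5) := by
    rw [List.append_assoc, List.cons_append]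
  rw [hw] at ht
  obtain ⟨A1, A2, h1, hT1, hT2, -⟩ := h.insert_trk ht
  have hL1 : liftTok (l2 ++ Sum.inl r :: l3) = liftTok l2 ++ Sum.inl r :: liftTok l3 := by
    unfold liftTok
    rw [List.map_append]
    rfl
  have hL2 : liftTok (l4 ++ Sum.inl r :: l5) = liftTok l4 ++ Sum.inl r :: liftTok l5 := by
    unfold liftTok
    rw [List.map_append]
    rfl
  rw [hL1] at hT1
  rw [hL2] at hT2
  -- first face
  have hP1 := hT1.path.2
  rw [List.append_assoc, List.cons_append] at hP1
  obtain ⟨s1, hs1, hi1⟩ := exists_inc_mark _ _ _ _ hP1 hpr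
  have hf1 : sf (splitF b f A1 A2) s1 = none := by
    refine (hT1.mem s1).1 ?_
    show s1 ∈ sides ((liftTok l2 ++ Sum.inl r :: liftTok l3) ++ _)
    rw [sides_append, sides_append]
    exact List.mem_append_left _ (List.mem_append_left _ hs1)
  -- second face
  have hP2 := hT2.path
  rw [path_append] at hP2
  obtain ⟨z, -, hz, hj, -, hP2⟩ := hP2
  obtain ⟨s2, hs2, hi2⟩ := exists_inc_mark _ _ _ _ hP2 hpr
  have hf2 : sf (splitF b f A1 A2) s2 = some f := by
    refine (hT2.mem s2).1 ?_
    rw [sides_append]
    refine List.mem_append_right _ ?_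
    show s2 ∈ (none, false) :: sides (liftTok l4 ++ Sum.inl r :: liftTok l5)
    rw [sides_append]
    exact List.mem_cons_of_mem _ (List.mem_append_left _ hs2)
  have hne : ∀ e, Inc (addE a p p) r e → e ≠ none := by
    rintro e he rfl
    rcases he with he | he
    · exact hpr he
    · exact hpr he
  have hL3 := h1.fc_dual r s2.1 s1.1 hi2 hi1
  have hmono : ∀ u v, Relation.ReflTransGen
      (LkOn (splitF b f A1 A2) (Inc (addE a p p) r)) u v →
      Relation.ReflTransGen (LkOn (splitF b f A1 A2) (· ≠ none)) u v := by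
    intro u v huv
    induction huv with
    | refl => exact Relation.ReflTransGen.refl
    | tail _ h3 ih =>
      obtain ⟨e, he, hh⟩ := h3
      exact ih.tail ⟨e, hne e he, hh⟩
  have hsym : ∀ {u v}, Relation.ReflTransGen (LkOn (splitF b f A1 A2) (· ≠ none)) u v →
      Relation.ReflTransGen (LkOn (splitF b f A1 A2) (· ≠ none)) v u :=
    fun h => rtg_symm (fun _ _ h => h.symm) h
  have c1 := link_of_inc (P := fun e => e ≠ none) hf1 (hne _ hi1)
  have c2 := link_of_inc (P := fun e => e ≠ none) hf2 (hne _ hi2)
  exact IsPlane.bridge_of_dloop _ (Option F) V (Option E) (splitF b f A1 A2) (addE a p p) rfl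
    h1.toIsPlane.symm none rfl ((c2.trans (hmono _ _ hL3)).trans (hsym c1))

/-- the form that is used: a word with exactly four marks -/
theorem noncross4 [Fintype V] [Fintype F] [Fintype E] {a : E → V × V} {b : E → F × F}
    (h : IsPl a b) {f : F} {x p0 p1 p2 p3 : V} {l : List (Tok V E)} (ht : Trk a b f x l)
    (hm : marks l = [p0, p1, p2, p3]) (h02 : p0 = p2) (h13 : p1 = p3) : p0 = p1 := by
  subst h02 h13
  obtain ⟨l1, k1, e1, -, m1⟩ := exists_split_mark l 0 p0 (by rw [hm]; rfl)
  rw [hm] at m1
  obtain ⟨l2, k2, e2, -, m2⟩ := exists_split_mark k1 0 p1 (by rw [m1]; rfl)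
  rw [m1] at m2
  obtain ⟨l3, k3, e3, -, m3⟩ := exists_split_mark k2 0 p0 (by rw [m2]; rfl)
  rw [m2] at m3
  obtain ⟨l4, k4, e4, -, m4⟩ := exists_split_mark k3 0 p1 (by rw [m3]; rfl)
  rw [e4] at e3
  rw [e3] at e2
  rw [e2] at e1
  rw [e1] at ht
  exact noncross h ht

end Pool.Agent.SB
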